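import Mathlib

set_option autoImplicit false

/-!
# Block-symmetric F-nef functions

A transport inequality for sequences, its consequence for an F-nef function that is symmetric in a
block of marks, and the reduction of functions symmetric in several blocks to the function of the
blocks.
-/

namespace Pool.Agent.Q83.FC

open Finset

/-! ### A transport inequality for sequences -/

theorem urn (τ σ ψ : ℕ → ℝ) : ∀ r s : ℕ, (∀ x ≤ r, ∀ y ≤ s, ψ (x + y) ≤ τ x + σ y) →
    ((r + s).choose r : ℝ) * ∑ t ∈ range (r + s + 1), ψ t ≤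
      ((r + s + 1).choose (r + 1) : ℝ) * ∑ x ∈ range (r + 1), τ x +
      ((r + s + 1).choose (s + 1) : ℝ) * ∑ y ∈ range (s + 1), σ y := by
  intro r
  induction r with
  | zero =>
    intro s h
    have h1 : ∑ y ∈ range (s + 1), ψ y ≤ ∑ y ∈ range (s + 1), (τ 0 + σ y) := by
      refine sum_le_sum fun y hy => ?_
      have := h 0 le_rfl y (by rw [mem_range] at hy; omega)
      rwa [zero_add] at this
    rw [sum_add_distrib, sum_const, card_range, nsmul_eq_mul] at h1
    have e1 : (0 + s + 1).choose (0 + 1) = s + 1 := by simp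
    have e2 : (0 + s + 1).choose (s + 1) = 1 := by simp
    have e3 : (0 + s).choose 0 = 1 := by simp
    rw [e1, e2, e3]
    have e4 : 0 + s + 1 = s + 1 := by omega
    rw [e4]
    simpa using h1
  | succ r ihr =>
    intro s
    induction s with
    | zero =>
      intro h
      have h1 : ∑ x ∈ range (r + 1 + 1), ψ x ≤ ∑ x ∈ range (r + 1 + 1), (τ x + σ 0) := by
        refine sum_le_sum fun x hx => ?_
        have := h x (by rw [mem_range] at hx; omega) 0 le_rfl
        rwa [add_zero] at this
      rw [sum_add_distrib, sum_const, card_range, nsmul_eq_mul] at h1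
      have e1 : (r + 1 + 0 + 1).choose (r + 1 + 1) = 1 := by simp
      have e2 : (r + 1 + 0 + 1).choose (0 + 1) = r + 1 + 1 := by simp
      have e3 : (r + 1 + 0).choose (r + 1) = 1 := by simp
      rw [e1, e2, e3]
      simpa using h1
    | succ s ihs =>
      intro h
      have h1 := ihr (s + 1) fun x hx y hy => h x (by omega) y hy
      have h2 := ihs fun x hx y hy => h x hx y (by omega)
      have h3 := h (r + 1) le_rfl (s + 1) le_rfl
      have a1 : r + (s + 1) = r + s + 1 := by omega
      have a2 : r + 1 + s = r + s + 1 := by omega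
      have a3 : r + 1 + (s + 1) = r + s + 2 := by omega
      rw [a1] at h1
      rw [a2] at h2
      rw [a3] at h3
      rw [a3]
      have c1 : ((r + s + 2).choose (r + 1) : ℝ) =
          ((r + s + 1).choose r : ℝ) + ((r + s + 1).choose (r + 1) : ℝ) := by
        have : (r + s + 2).choose (r + 1) = (r + s + 1).choose r + (r + s + 1).choose (r + 1) :=
          Nat.choose_succ_succ _ _
        exact_mod_cast this
      have c2 : ((r + s + 2 + 1).choose (r + 1 + 1) : ℝ) =
          ((r + s + 2).choose (r + 1) : ℝ) + ((r + s + 2).choose (r + 1 + 1) : ℝ) := by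
        have : (r + s + 2 + 1).choose (r + 1 + 1) =
            (r + s + 2).choose (r + 1) + (r + s + 2).choose (r + 1 + 1) :=
          Nat.choose_succ_succ _ _
        exact_mod_cast this
      have c3 : ((r + s + 2 + 1).choose (s + 1 + 1) : ℝ) =
          ((r + s + 2).choose (s + 1) : ℝ) + ((r + s + 2).choose (s + 1 + 1) : ℝ) := by
        have : (r + s + 2 + 1).choose (s + 1 + 1) =
            (r + s + 2).choose (s + 1) + (r + s + 2).choose (s + 1 + 1) :=
          Nat.choose_succ_succ _ _
        exact_mod_cast this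
      have c4 : ((r + s + 2).choose (s + 1) : ℝ) = ((r + s + 2).choose (r + 1) : ℝ) := by
        have : (r + s + 2).choose (s + 1) = (r + s + 2).choose (r + 1) := by
          rw [← Nat.choose_symm (by omega : s + 1 ≤ r + s + 2)]
          congr 1; omega
        exact_mod_cast this
      have h4 : ((r + s + 2).choose (r + 1) : ℝ) * ψ (r + s + 2) ≤
          ((r + s + 2).choose (r + 1) : ℝ) * (τ (r + 1) + σ (s + 1)) :=
        mul_le_mul_of_nonneg_left h3 (Nat.cast_nonneg _)
      have s1 : ∑ t ∈ range (r + s + 2 + 1), ψ t = ∑ t ∈ range (r + s + 1 + 1), ψ t + ψ (r + s + 2) :=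
        sum_range_succ _ _
      have s2 : ∑ x ∈ range (r + 1 + 1), τ x = ∑ x ∈ range (r + 1), τ x + τ (r + 1) :=
        sum_range_succ _ _
      have s3 : ∑ y ∈ range (s + 1 + 1), σ y = ∑ y ∈ range (s + 1), σ y + σ (s + 1) :=
        sum_range_succ _ _
      have e1 : r + s + 1 + 1 = r + s + 2 := rfl
      rw [e1] at h1 h2 s1
      rw [c1] at h4 ⊢
      rw [c2, c3, c4, s1, s2, s3, c1]
      rw [s3] at h1
      rw [s2] at h2
      rw [c1] at h1
      rw [c4, c1] at h2
      nlinarith [h1, h2, h4]

/-- If `ψ (x + y) ≤ τ x + σ y` for `x ≤ r`, `y ≤ s`, then the mean of `ψ` is at most the sum of the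
means of `τ` and `σ`. -/
theorem urn_mean (τ σ ψ : ℕ → ℝ) (r s : ℕ) (h : ∀ x ≤ r, ∀ y ≤ s, ψ (x + y) ≤ τ x + σ y) :
    (∑ t ∈ range (r + s + 1), ψ t) / (r + s + 1) ≤
      (∑ x ∈ range (r + 1), τ x) / (r + 1) + (∑ y ∈ range (s + 1), σ y) / (s + 1) := by
  have h1 := urn τ σ ψ r s h
  have c1 : ((r + s + 1 : ℕ) : ℝ) * ((r + s).choose r : ℝ) =
      ((r + s + 1).choose (r + 1) : ℝ) * ((r + 1 : ℕ) : ℝ) := by
    exact_mod_cast Nat.add_one_mul_choose_eq (r + s) r
  have c2 : ((r + s + 1 : ℕ) : ℝ) * ((r + s).choose r : ℝ) =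
      ((r + s + 1).choose (s + 1) : ℝ) * ((s + 1 : ℕ) : ℝ) := by
    have h2 : (r + s).choose r = (r + s).choose s := by
      rw [← Nat.choose_symm (by omega : r ≤ r + s)]
      congr 1; omega
    rw [h2]
    exact_mod_cast Nat.add_one_mul_choose_eq (r + s) s
  have hc : (0 : ℝ) < ((r + s).choose r : ℝ) := by
    exact_mod_cast Nat.choose_pos (by omega)
  push_cast at c1 c2
  have hr : (0 : ℝ) < (r : ℝ) + 1 := by positivity
  have hs : (0 : ℝ) < (s : ℝ) + 1 := by positivity
  have hrs : (0 : ℝ) < (r : ℝ) + s + 1 := by positivity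
  have e1 : ((r + s + 1).choose (r + 1) : ℝ) = (r + s + 1) * ((r + s).choose r : ℝ) / (r + 1) := by
    rw [eq_div_iff hr.ne']; linarith
  have e2 : ((r + s + 1).choose (s + 1) : ℝ) = (r + s + 1) * ((r + s).choose r : ℝ) / (s + 1) := by
    rw [eq_div_iff hs.ne']; linarith
  rw [e1, e2] at h1
  have h2 : ((r + s + 1) * ((r + s).choose r : ℝ)) * ((∑ t ∈ range (r + s + 1), ψ t) / (r + s + 1)) ≤
      ((r + s + 1) * ((r + s).choose r : ℝ)) * ((∑ x ∈ range (r + 1), τ x) / (r + 1) +
        (∑ y ∈ range (s + 1), σ y) / (s + 1)) := by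
    calc ((r + s + 1) * ((r + s).choose r : ℝ)) * ((∑ t ∈ range (r + s + 1), ψ t) / (r + s + 1))
        = ((r + s).choose r : ℝ) * ∑ t ∈ range (r + s + 1), ψ t := by
          field_simp
      _ ≤ _ := h1
      _ = _ := by ring
  exact le_of_mul_le_mul_left h2 (by positivity)

/-! ### F-nef functions -/

variable {V : Type} [DecidableEq V]

/-- The function `h` of subsets of `U` is F-nef. -/
def FN (U : Finset V) (h : Finset V → ℝ) : Prop :=
  ∀ A B C : Finset V, A ⊆ U → B ⊆ U → C ⊆ U → A.Nonempty → B.Nonempty → C.Nonempty →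
    Disjoint A B → Disjoint A C → Disjoint B C →
    h (A ∪ B) + h (A ∪ C) + h (B ∪ C) ≤ h (A ∪ B ∪ C) + h A + h B + h C

/-- The function `h` of subsets of `U` has weights: it is at most a sum of pair weights, with
equality for `U`. -/
def HasW (U : Finset V) (h : Finset V → ℝ) : Prop :=
  ∃ w : V → V → ℝ, (∀ S ⊆ U, h S ≤ ∑ x ∈ S, h {x} + ∑ z ∈ S.offDiag, w z.1 z.2) ∧
    ∑ x ∈ U, h {x} + ∑ z ∈ U.offDiag, w z.1 z.2 ≤ h U

/-- The inequality for one block. -/
theorem block {U : Finset V} {h : Finset V → ℝ} (h0 : h ∅ = 0) (hF : FN U h) {P : Finset V}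
    (hP : P ⊆ U) (hinv : ∀ S S' : Finset V, S ⊆ U → S' ⊆ U → S \ P = S' \ P →
      (S ∩ P).card = (S' ∩ P).card → h S = h S') {η : ℝ} (hη : ∀ y ∈ P, h {y} = η)
    {S : Finset V} (hS : S ⊆ U) :
    h S ≤ ((S ∩ P).card / P.card : ℝ) * h (S ∪ P) + (1 - ((S ∩ P).card / P.card : ℝ)) * h (S \ P) -
      ((S ∩ P).card : ℝ) * (P.card - (S ∩ P).card) * ((h P - P.card * η) / (P.card * (P.card - 1)))
    := by
  rcases Nat.eq_zero_or_pos (S ∩ P).card with hs0 | hs0
  · have h1 : S \ P = S := by
      rw [card_eq_zero] at hs0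
      exact sdiff_eq_self_of_disjoint (disjoint_iff_inter_eq_empty.2 hs0)
    rw [hs0, h1]; simp
  have hle : (S ∩ P).card ≤ P.card := card_le_card inter_subset_right
  rcases eq_or_lt_of_le hle with hsa | hsa
  · have h1 : S ∩ P = P := eq_of_subset_of_card_le inter_subset_right hsa.ge
    have h2 : S ∪ P = S := union_eq_left.2 (inter_eq_right.1 h1)
    have h3 : (P.card : ℝ) ≠ 0 := by
      have : 0 < P.card := hsa ▸ hs0
      positivity
    rw [hsa, h2, div_self h3]; simp
  -- the main case
  obtain ⟨s, hs⟩ : ∃ s, (S ∩ P).card = s + 1 := ⟨(S ∩ P).card - 1, by omega⟩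
  obtain ⟨r, hr⟩ : ∃ r, P.card = r + s + 2 := ⟨P.card - (S ∩ P).card - 1, by omega⟩
  set B := S \ P with hB
  have hBU : B ⊆ U := sdiff_subset.trans hS
  have hBP : Disjoint B P := sdiff_disjoint
  have hL : ∀ j, ∃ L : Finset V, j ≤ P.card → L ⊆ P ∧ L.card = j := by
    intro j
    by_cases hj : j ≤ P.card
    · obtain ⟨L, h1, h2⟩ := exists_subset_card_eq hj
      exact ⟨L, fun _ => ⟨h1, h2⟩⟩
    · exact ⟨∅, fun h' => absurd h' hj⟩
  choose L hL using hL
  have dif : ∀ T : Finset V, T ⊆ P → (B ∪ T) \ P = B := by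
    intro T hT
    rw [union_sdiff_distrib, sdiff_eq_empty_iff_subset.2 hT, union_empty,
      sdiff_eq_self_of_disjoint hBP]
  have cap : ∀ T : Finset V, T ⊆ P → (B ∪ T) ∩ P = T := by
    intro T hT
    rw [union_inter_distrib_right, disjoint_iff_inter_eq_empty.1 hBP, empty_union,
      inter_eq_left.2 hT]
  have hΦ : ∀ T : Finset V, T ⊆ P → h (B ∪ T) = h (B ∪ L T.card) := by
    intro T hT
    obtain ⟨h1, h2⟩ := hL T.card (card_le_card hT)
    refine hinv _ _ (union_subset hBU (hT.trans hP)) (union_subset hBU (h1.trans hP)) ?_ ?_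
    · rw [dif T hT, dif _ h1]
    · rw [cap T hT, cap _ h1, h2]
  have hφ : ∀ T : Finset V, T ⊆ P → h T = h (L T.card) := by
    intro T hT
    obtain ⟨h1, h2⟩ := hL T.card (card_le_card hT)
    refine hinv _ _ (hT.trans hP) (h1.trans hP) ?_ ?_
    · rw [sdiff_eq_empty_iff_subset.2 hT, sdiff_eq_empty_iff_subset.2 h1]
    · rw [inter_eq_left.2 hT, inter_eq_left.2 h1, h2]
  -- the key inequality
  have key : ∀ k l : ℕ, 1 ≤ l → k + l + 1 ≤ P.card →
      h (B ∪ L (k + l)) + h (B ∪ L (k + 1)) + h (L (l + 1)) ≤
        h (B ∪ L (k + l + 1)) + h (B ∪ L k) + h (L l) + η := by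
    intro k l hl hkl
    obtain ⟨hT1, hT2⟩ := hL _ hkl
    set T := L (k + l + 1) with hT
    obtain ⟨y, hy⟩ : T.Nonempty := card_pos.1 (by omega)
    have hTy : (T.erase y).card = k + l := by rw [card_erase_of_mem hy]; omega
    obtain ⟨K, hK1, hK2⟩ := exists_subset_card_eq (s := T.erase y) (n := k) (by omega)
    have hKT : K ⊆ P := (hK1.trans (erase_subset _ _)).trans hT1
    set M := (T.erase y) \ K with hM
    have hM2 : M.card = l := by rw [hM, card_sdiff_of_subset hK1]; omega
    have hMP : M ⊆ P := (sdiff_subset.trans (erase_subset _ _)).trans hT1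
    have hyK : y ∉ K := fun h' => (mem_erase.1 (hK1 h')).1 rfl
    have hyM : y ∉ M := fun h' => (mem_erase.1 (mem_sdiff.1 h').1).1 rfl
    have hyP : y ∈ P := hT1 hy
    have hyB : y ∉ B := fun h' => (mem_sdiff.1 h').2 hyP
    have hKM : K ∪ M = T.erase y := by rw [hM, union_sdiff_of_subset hK1]
    have hdKM : Disjoint K M := disjoint_sdiff
    have e1 : B ∪ K ∪ M = B ∪ T.erase y := by rw [union_assoc, hKM]
    have e2 : B ∪ K ∪ {y} = B ∪ (insert y K) := by
      ext z; simp only [mem_union, mem_singleton, mem_insert]; tauto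
    have e3 : M ∪ {y} = insert y M := by
      ext z; simp only [mem_union, mem_singleton, mem_insert]; tauto
    have e4 : B ∪ K ∪ M ∪ {y} = B ∪ T := by
      rw [e1]
      ext z
      simp only [mem_union, mem_singleton, mem_erase]
      constructor
      · rintro ((h1 | h1) | rfl)
        · exact Or.inl h1
        · exact Or.inr h1.2
        · exact Or.inr hy
      · rintro (h1 | h1)
        · exact Or.inl (Or.inl h1)
        · by_cases hz : z = y
          · exact Or.inr hz
          · exact Or.inl (Or.inr ⟨hz, h1⟩)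
    have hyKP : insert y K ⊆ P := insert_subset hyP hKT
    have hyMP : insert y M ⊆ P := insert_subset hyP hMP
    have v1 : h (B ∪ K ∪ M) = h (B ∪ L (k + l)) := by
      rw [e1, hΦ _ ((erase_subset _ _).trans hT1), hTy]
    have v2 : h (B ∪ K ∪ {y}) = h (B ∪ L (k + 1)) := by
      rw [e2, hΦ _ hyKP, card_insert_of_notMem hyK, hK2]
    have v3 : h (M ∪ {y}) = h (L (l + 1)) := by
      rw [e3, hφ _ hyMP, card_insert_of_notMem hyM, hM2]
    have v5 : h (B ∪ K) = h (B ∪ L k) := by rw [hΦ _ hKT, hK2]
    have v6 : h M = h (L l) := by rw [hφ _ hMP, hM2]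
    have v7 : h {y} = η := hη y hyP
    rw [← v1, ← v2, ← v3, ← v5, ← v6, ← v7]
    rcases (B ∪ K).eq_empty_or_nonempty with hE | hE
    · have hBe : B = ∅ := (union_eq_empty.1 hE).1
      have hKe : K = ∅ := (union_eq_empty.1 hE).2
      have hMe : M = T.erase y := by rw [← hKM, hKe, empty_union]
      have e5 : B ∪ T = insert y M := by rw [hBe, empty_union, hMe, insert_erase hy]
      rw [hE, e5, empty_union, empty_union, h0, e3]
      linarith
    · have hF1 := hF (B ∪ K) M {y} (union_subset hBU (hKT.trans hP)) (hMP.trans hP)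
        (singleton_subset_iff.2 (hP hyP)) hE (card_pos.1 (by omega)) (singleton_nonempty y)
        (disjoint_union_left.2 ⟨hBP.mono_right hMP, hdKM⟩)
        (by rw [disjoint_singleton_right, mem_union]; tauto)
        (by rw [disjoint_singleton_right]; exact hyM)
      rw [e4] at hF1
      linarith
  have v0 : h (B ∪ L 0) = h B := by
    obtain ⟨_, h2⟩ := hL 0 (Nat.zero_le _)
    rw [card_eq_zero.1 h2, union_empty]
  have vS : h (B ∪ L (s + 1)) = h S := by
    have h1 : B ∪ (S ∩ P) = S := by rw [hB, sdiff_union_inter]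
    rw [← hs, ← hΦ _ inter_subset_right, h1]
  have vP : h (B ∪ L (r + s + 2)) = h (S ∪ P) := by
    have h1 : B ∪ P = S ∪ P := by rw [hB, sdiff_union_self_eq_union]
    rw [← hr, ← hΦ _ subset_rfl, h1]
  have vp : h (L (r + s + 2)) = h P := by rw [← hr, ← hφ _ subset_rfl]
  have v1 : h (L 1) = η := by
    obtain ⟨h1, h2⟩ := hL 1 (by omega)
    obtain ⟨y, hy⟩ := card_eq_one.1 h2
    rw [hy]
    exact hη y (h1 (by rw [hy]; exact mem_singleton_self y))
  -- apply the transport inequality
  have h2 := urn_mean (fun x => h (B ∪ L (r + s + 2 - x)) - h (B ∪ L (r + s + 1 - x)))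
    (fun y => -(h (B ∪ L (y + 1)) - h (B ∪ L y)))
    (fun t => h (L (r + s + 2 - t)) - h (L (r + s + 1 - t)) - η) r s (by
      intro x hx y hy
      have h3 := key y (r + s + 1 - x - y) (by omega) (by omega)
      have a1 : y + (r + s + 1 - x - y) + 1 = r + s + 2 - x := by omega
      have a2 : y + (r + s + 1 - x - y) = r + s + 1 - x := by omega
      have a3 : r + s + 1 - x - y + 1 = r + s + 2 - (x + y) := by omega
      have a4 : r + s + 1 - x - y = r + s + 1 - (x + y) := by omega
      rw [a1, a2, a3, a4] at h3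
      linarith)
  have t1 : ∀ g : ℕ → ℝ, ∀ n N : ℕ, n ≤ N →
      ∑ x ∈ range n, (g (N - x) - g (N - 1 - x)) = g N - g (N - n) := by
    intro g n N hn
    induction n with
    | zero => simp
    | succ n ih =>
      rw [sum_range_succ, ih (by omega)]
      have : N - 1 - n = N - (n + 1) := by omega
      rw [this]; ring
  have s1 : ∑ x ∈ range (r + 1), (h (B ∪ L (r + s + 2 - x)) - h (B ∪ L (r + s + 1 - x))) =
      h (S ∪ P) - h S := by
    have := t1 (fun j => h (B ∪ L j)) (r + 1) (r + s + 2) (by omega)
    have a1 : r + s + 2 - (r + 1) = s + 1 := by omega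
    simp only [a1, vP, vS] at this
    exact this
  have s2 : ∑ y ∈ range (s + 1), (-(h (B ∪ L (y + 1)) - h (B ∪ L y))) = -(h S - h B) := by
    rw [sum_neg_distrib, sum_range_sub (fun j => h (B ∪ L j)), vS, v0]
  have s3 : ∑ t ∈ range (r + s + 1), (h (L (r + s + 2 - t)) - h (L (r + s + 1 - t)) - η) =
      h P - η - (r + s + 1) * η := by
    rw [sum_sub_distrib]
    have := t1 (fun j => h (L j)) (r + s + 1) (r + s + 2) (by omega)
    have a1 : r + s + 2 - (r + s + 1) = 1 := by omega
    simp only [a1, vp, v1] at this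
    rw [show (∑ x ∈ range (r + s + 1), (h (L (r + s + 2 - x)) - h (L (r + s + 1 - x)))) = h P - η
      from this]
    simp
  rw [s1, s2, s3] at h2
  rw [hs, hr]
  have hr0 : (0 : ℝ) ≤ r := Nat.cast_nonneg r
  have hs0 : (0 : ℝ) ≤ s := Nat.cast_nonneg s
  push_cast
  have p1 : (0 : ℝ) < (r : ℝ) + 1 := by linarith
  have p2 : (0 : ℝ) < (s : ℝ) + 1 := by linarith
  have p3 : (0 : ℝ) < (r : ℝ) + s + 1 := by linarith
  have p4 : (0 : ℝ) < (r : ℝ) + s + 2 := by linarith
  -- multiply by (r+1)(s+1)/(r+s+2)
  have h3 := mul_le_mul_of_nonneg_left h2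
    (show (0 : ℝ) ≤ (r + 1) * (s + 1) / (r + s + 2) by positivity)
  have e1 : ((r : ℝ) + 1) * (s + 1) / (r + s + 2) * ((h P - η - (r + s + 1) * η) / (r + s + 1)) =
      ((s : ℝ) + 1) * (r + s + 2 - (s + 1)) *
        ((h P - (r + s + 2) * η) / ((r + s + 2) * (r + s + 2 - 1))) := by
    have : (r : ℝ) + s + 2 - 1 = r + s + 1 := by ring
    rw [this]
    field_simp
    ring
  have e2 : ((r : ℝ) + 1) * (s + 1) / (r + s + 2) * ((h (S ∪ P) - h S) / (r + 1) +
      -(h S - h B) / (s + 1)) =
      (s + 1) / (r + s + 2) * h (S ∪ P) + (1 - (s + 1) / (r + s + 2)) * h B - h S := by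
    field_simp
    ring
  rw [e1, e2] at h3
  linarith

/-- The F-nef inequality holds for empty sets, too. -/
theorem FN.le {U : Finset V} {h : Finset V → ℝ} (hF : FN U h) (h0 : h ∅ = 0) {A B C : Finset V}
    (hA : A ⊆ U) (hB : B ⊆ U) (hC : C ⊆ U) (hAB : Disjoint A B) (hAC : Disjoint A C)
    (hBC : Disjoint B C) :
    h (A ∪ B) + h (A ∪ C) + h (B ∪ C) ≤ h (A ∪ B ∪ C) + h A + h B + h C := by
  rcases A.eq_empty_or_nonempty with rfl | hAn
  · simp only [empty_union, h0]; linarith
  rcases B.eq_empty_or_nonempty with rfl | hBn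
  · simp only [empty_union, union_empty, h0]; linarith
  rcases C.eq_empty_or_nonempty with rfl | hCn
  · simp only [union_empty, h0]; linarith
  exact hF A B C hA hB hC hAn hBn hCn hAB hAC hBC

theorem sum_offDiag (S : Finset V) (w : V → V → ℝ) :
    ∑ z ∈ S.offDiag, w z.1 z.2 = ∑ x ∈ S, ∑ y ∈ S, w x y - ∑ x ∈ S, w x x := by
  have h1 : ∑ z ∈ S ×ˢ S, w z.1 z.2 = ∑ z ∈ S.diag, w z.1 z.2 + ∑ z ∈ S.offDiag, w z.1 z.2 := by
    rw [← sum_union (disjoint_diag_offDiag S), diag_union_offDiag]
  rw [sum_product, sum_diag] at h1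
  linarith

section classes

variable {K : ℕ} (η : Fin K → ℝ) (W : Fin K → Fin K → ℝ)

/-- The quadratic function of the numbers of marks in the classes. -/
def Qv (v : Fin K → ℝ) : ℝ := ∑ i, (v i * η i - W i i * v i + ∑ j, W i j * v i * v j)

theorem Qv_convex {v u t : Fin K → ℝ} {c : ℝ} (hv : ∀ i, v i = c * u i + (1 - c) * t i) :
    Qv η W v = c * Qv η W u + (1 - c) * Qv η W t -
      c * (1 - c) * ∑ i, ∑ j, W i j * (u i - t i) * (u j - t j) := by
  simp only [Qv, mul_sum, ← sum_add_distrib, ← sum_sub_distrib]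
  refine sum_congr rfl fun i _ => ?_
  have h1 : ∑ j, W i j * v i * v j = c * ∑ j, W i j * u i * u j +
      (1 - c) * ∑ j, W i j * t i * t j -
      ∑ j, c * (1 - c) * (W i j * (u i - t i) * (u j - t j)) := by
    simp only [mul_sum, ← sum_add_distrib, ← sum_sub_distrib]
    refine sum_congr rfl fun j _ => ?_
    rw [hv i, hv j]; ring
  rw [h1, hv i]
  ring

end classes

theorem classes {K : ℕ} {U : Finset V} {h : Finset V → ℝ} (h0 : h ∅ = 0) (hF : FN U h)
    (f : V → Fin K) (hinv : ∀ S S' : Finset V, S ⊆ U → S' ⊆ U →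
      (∀ i, (S.filter (fun x => f x = i)).card = (S'.filter (fun x => f x = i)).card) → h S = h S')
    (base : ∀ g : Finset (Fin K) → ℝ, g ∅ = 0 → FN univ g → HasW univ g) : HasW U h := by
  classical
  set P : Fin K → Finset V := fun i => U.filter (fun x => f x = i) with hPdef
  have hPU : ∀ i, P i ⊆ U := fun i => filter_subset _ _
  have memP : ∀ i x, x ∈ P i ↔ x ∈ U ∧ f x = i := fun i x => mem_filter
  have capP : ∀ S : Finset V, S ⊆ U → ∀ i, S ∩ P i = S.filter (fun x => f x = i) := by
    intro S hS i
    ext x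
    rw [mem_inter, memP, mem_filter]
    exact ⟨fun h' => ⟨h'.1, h'.2.2⟩, fun h' => ⟨h'.1, hS h'.1, h'.2⟩⟩
  have hinv' : ∀ S S' : Finset V, S ⊆ U → S' ⊆ U → (∀ i, (S ∩ P i).card = (S' ∩ P i).card) →
      h S = h S' := by
    intro S S' hS hS' h1
    refine hinv S S' hS hS' fun i => ?_
    rw [← capP S hS, ← capP S' hS', h1]
  obtain ⟨η, hη⟩ : ∃ η : Fin K → ℝ, ∀ x ∈ U, h {x} = η (f x) := by
    refine ⟨fun i => if hne : (P i).Nonempty then h {hne.choose} else 0, fun x hx => ?_⟩
    have hne : (P (f x)).Nonempty := ⟨x, (memP _ _).2 ⟨hx, rfl⟩⟩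
    simp only [dif_pos hne]
    have h1 := (memP _ _).1 hne.choose_spec
    refine hinv _ _ (singleton_subset_iff.2 hx) (singleton_subset_iff.2 h1.1) fun i => ?_
    rw [filter_singleton, filter_singleton, h1.2]
    split_ifs <;> simp
  -- the function of the classes
  set g : Finset (Fin K) → ℝ := fun T => h (U.filter fun x => f x ∈ T) with hg
  have g0 : g ∅ = 0 := by simp [hg, h0]
  have gun : ∀ A B : Finset (Fin K), U.filter (fun x => f x ∈ A ∪ B) =
      U.filter (fun x => f x ∈ A) ∪ U.filter (fun x => f x ∈ B) := by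
    intro A B; ext x; simp only [mem_filter, mem_union]; tauto
  have gdis : ∀ A B : Finset (Fin K), Disjoint A B →
      Disjoint (U.filter fun x => f x ∈ A) (U.filter fun x => f x ∈ B) := by
    intro A B hAB
    rw [disjoint_left]
    intro x hx hx'
    exact disjoint_left.1 hAB (mem_filter.1 hx).2 (mem_filter.1 hx').2
  have gF : FN univ g := by
    intro A B C _ _ _ _ _ _ hAB hAC hBC
    simp only [hg, gun]
    exact hF.le h0 (filter_subset _ _) (filter_subset _ _) (filter_subset _ _) (gdis _ _ hAB)
      (gdis _ _ hAC) (gdis _ _ hBC)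
  have gsing : ∀ i, g {i} = h (P i) := by
    intro i
    simp only [hg, mem_singleton, hPdef]
  obtain ⟨w', hw1, hw2⟩ := base g g0 gF
  set a : Fin K → ℝ := fun i => ((P i).card : ℝ) with ha
  set W : Fin K → Fin K → ℝ := fun i j =>
    if i = j then (g {i} - a i * η i) / (a i * (a i - 1)) else w' i j / (a i * a j) with hW
  set cnt : Finset V → Fin K → ℝ := fun S i => ((S ∩ P i).card : ℝ) with hcnt
  -- the quadratic function of a set
  have hfib : ∀ S : Finset V, S ⊆ U → ∀ G : Fin K → ℝ, ∑ x ∈ S, G (f x) = ∑ i, cnt S i * G i := by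
    intro S hS G
    rw [← sum_fiberwise S f (fun x => G (f x))]
    refine sum_congr rfl fun i _ => ?_
    simp only [hcnt, capP S hS i]
    rw [sum_congr rfl (g := fun _ => G i) (fun x hx => by rw [(mem_filter.1 hx).2]), sum_const,
      nsmul_eq_mul]
  have hQS : ∀ S : Finset V, S ⊆ U →
      ∑ x ∈ S, h {x} + ∑ z ∈ S.offDiag, W (f z.1) (f z.2) = Qv η W (cnt S) := by
    intro S hS
    rw [sum_offDiag S (fun x y => W (f x) (f y))]
    have e1 : ∑ x ∈ S, h {x} = ∑ i, cnt S i * η i := by
      rw [← hfib S hS η]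
      exact sum_congr rfl fun x hx => hη x (hS hx)
    have e2 : ∑ x ∈ S, ∑ y ∈ S, W (f x) (f y) = ∑ i, ∑ j, W i j * cnt S i * cnt S j := by
      have e3 : ∀ x ∈ S, ∑ y ∈ S, W (f x) (f y) = ∑ j, cnt S j * W (f x) j :=
        fun x _ => hfib S hS (fun j => W (f x) j)
      rw [sum_congr rfl e3, hfib S hS (fun i => ∑ j, cnt S j * W i j)]
      refine sum_congr rfl fun i _ => ?_
      rw [mul_sum]
      exact sum_congr rfl fun j _ => by ring
    have e4 : ∑ x ∈ S, W (f x) (f x) = ∑ i, cnt S i * W i i := hfib S hS (fun i => W i i)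
    rw [e1, e2, e4, Qv, sum_add_distrib, sum_sub_distrib]
    have e5 : ∑ i, W i i * cnt S i = ∑ i, cnt S i * W i i :=
      sum_congr rfl fun i _ => mul_comm _ _
    rw [e5]; ring
  -- saturated counting vectors
  have hsat : ∀ (T : Finset (Fin K)) (v : Fin K → ℝ), (∀ i ∈ T, 0 < (P i).card ∧ v i = a i) →
      (∀ i, i ∉ T → v i = 0) →
      Qv η W v = ∑ i ∈ T, g {i} + ∑ z ∈ T.offDiag, w' z.1 z.2 := by
    intro T v hT hT'
    have e1 : ∀ i, ∑ j, W i j * v i * v j =
        ∑ j, (if i ∈ T ∧ j ∈ T ∧ i ≠ j then w' i j else 0) + W i i * v i * v i := by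
      intro i
      have e2 : ∀ j, W i j * v i * v j = (if i ∈ T ∧ j ∈ T ∧ i ≠ j then w' i j else 0) +
          (if i = j then W i i * v i * v i else 0) := by
        intro j
        by_cases hij : i = j
        · subst hij
          simp
        · rw [if_neg hij, add_zero]
          by_cases hi : i ∈ T
          · by_cases hj : j ∈ T
            · rw [if_pos ⟨hi, hj, hij⟩, (hT i hi).2, (hT j hj).2]
              simp only [hW, if_neg hij]
              have h1 : (a i) ≠ 0 := by
                have := (hT i hi).1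
                simp only [ha]; positivity
              have h2 : (a j) ≠ 0 := by
                have := (hT j hj).1
                simp only [ha]; positivity
              field_simp
            · rw [if_neg (by tauto), hT' j hj, mul_zero]
          · rw [if_neg (by tauto), hT' i hi, mul_zero, zero_mul]
      rw [sum_congr rfl fun j _ => e2 j, sum_add_distrib, sum_ite_eq]
      simp
    have e3 : ∑ z ∈ T.offDiag, w' z.1 z.2 =
        ∑ i, ∑ j, (if i ∈ T ∧ j ∈ T ∧ i ≠ j then w' i j else 0) := by
      rw [← Fintype.sum_prod_type' (f := fun i j => if i ∈ T ∧ j ∈ T ∧ i ≠ j then w' i j else 0),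
        ← sum_filter]
      refine sum_congr ?_ fun _ _ => rfl
      ext z
      simp only [mem_offDiag, mem_filter, mem_univ, true_and]
    have e4 : ∑ i ∈ T, g {i} = ∑ i, (v i * η i - W i i * v i + W i i * v i * v i) := by
      rw [← sum_filter_add_sum_filter_not univ (fun i => i ∈ T)
        (fun i => v i * η i - W i i * v i + W i i * v i * v i)]
      have e5 : ∑ i ∈ univ.filter (fun i => ¬ i ∈ T),
          (v i * η i - W i i * v i + W i i * v i * v i) = 0 := by
        refine sum_eq_zero fun i hi => ?_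
        rw [hT' i (mem_filter.1 hi).2]; ring
      rw [e5, add_zero]
      have e6 : univ.filter (fun i => i ∈ T) = T := by ext; simp
      rw [e6]
      refine sum_congr rfl fun i hi => ?_
      obtain ⟨h1, h2⟩ := hT i hi
      rw [h2]
      have h3 : W i i = (g {i} - a i * η i) / (a i * (a i - 1)) := by simp [hW]
      rw [h3]
      have h4 : a i ≠ 0 := by simp only [ha]; positivity
      by_cases h5 : (P i).card = 1
      · obtain ⟨x, hx⟩ := card_eq_one.1 h5
        have hxP : x ∈ P i := by rw [hx]; exact mem_singleton_self x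
        obtain ⟨hxU, hxi⟩ := (memP i x).1 hxP
        have h6 : g {i} = η i := by rw [gsing, hx, hη x hxU, hxi]
        have h7 : a i = 1 := by simp only [ha, h5, Nat.cast_one]
        rw [h6, h7]; simp
      · have h6 : a i - 1 ≠ 0 := by
          intro h7
          have : a i = 1 := by linarith
          simp only [ha] at this
          exact h5 (by exact_mod_cast this)
        field_simp
        ring
    rw [Qv, e3, e4, ← sum_add_distrib]
    refine sum_congr rfl fun i _ => ?_
    rw [e1 i]; ring
  have hdisj : ∀ i j, i ≠ j → Disjoint (P i) (P j) := by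
    intro i j hij
    rw [disjoint_left]
    intro x hx hx'
    exact hij (((memP _ _).1 hx).2.symm.trans ((memP _ _).1 hx').2)
  -- the main inequality
  have hmain : ∀ n : ℕ, ∀ S : Finset V, S ⊆ U →
      (univ.filter fun i => 0 < (S ∩ P i).card ∧ (S ∩ P i).card < (P i).card).card = n →
      h S ≤ Qv η W (cnt S) := by
    intro n
    induction n using Nat.strong_induction_on with
    | _ n ih =>
      intro S hS hn
      rcases (univ.filter fun i => 0 < (S ∩ P i).card ∧ (S ∩ P i).card < (P i).card)
        |>.eq_empty_or_nonempty with he | ⟨i, hi⟩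
      · -- saturated
        set T : Finset (Fin K) := univ.filter fun i => 0 < (S ∩ P i).card with hTdef
        have hfull : ∀ i ∈ T, P i ⊆ S := by
          intro i hi
          have h1 : 0 < (S ∩ P i).card := (mem_filter.1 hi).2
          have h2 : ¬ (S ∩ P i).card < (P i).card := by
            intro h3
            have : i ∈ (∅ : Finset (Fin K)) := by
              rw [← he]; exact mem_filter.2 ⟨mem_univ _, h1, h3⟩
            exact absurd this (notMem_empty i)
          have h3 : S ∩ P i = P i := eq_of_subset_of_card_le inter_subset_right (not_lt.1 h2)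
          exact inter_eq_right.1 h3
        have hSeq : S = U.filter fun x => f x ∈ T := by
          ext x
          rw [mem_filter]
          constructor
          · intro hx
            refine ⟨hS hx, mem_filter.2 ⟨mem_univ _, card_pos.2 ⟨x, mem_inter.2 ⟨hx, ?_⟩⟩⟩⟩
            exact (memP _ _).2 ⟨hS hx, rfl⟩
          · rintro ⟨hx1, hx2⟩
            exact hfull _ hx2 ((memP _ _).2 ⟨hx1, rfl⟩)
        have h1 : h S = g T := by simp only [hg]; rw [← hSeq]
        rw [h1, hsat T (cnt S) ?_ ?_]
        · exact hw1 T (subset_univ T)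
        · intro i hi
          have h2 : S ∩ P i = P i := inter_eq_right.2 (hfull i hi)
          have h3 : 0 < (S ∩ P i).card := (mem_filter.1 hi).2
          refine ⟨by rw [← h2]; exact h3, ?_⟩
          simp only [hcnt, ha, h2]
        · intro i hi
          have h2 : ¬ 0 < (S ∩ P i).card := fun h3 => hi (mem_filter.2 ⟨mem_univ _, h3⟩)
          simp only [hcnt]
          have : (S ∩ P i).card = 0 := by omega
          rw [this]; simp
      · obtain ⟨hi1, hi2⟩ := (mem_filter.1 hi).2
        -- one more class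
        have hb := block (P := P i) (S := S) h0 hF (hPU i) (by
          intro S₁ S₂ h1 h2 h3 h4
          refine hinv' S₁ S₂ h1 h2 fun j => ?_
          by_cases hj : j = i
          · rw [hj, h4]
          · have h5 : ∀ R : Finset V, R ∩ P j = (R \ P i) ∩ P j := by
              intro R
              ext x
              simp only [mem_inter, mem_sdiff]
              constructor
              · rintro ⟨hx1, hx2⟩
                exact ⟨⟨hx1, fun hx3 => disjoint_left.1 (hdisj i j (Ne.symm hj)) hx3 hx2⟩, hx2⟩
              · rintro ⟨⟨hx1, _⟩, hx2⟩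
                exact ⟨hx1, hx2⟩
            rw [h5 S₁, h5 S₂, h3]) (η := η i) (fun y hy => by
          obtain ⟨h1, h2⟩ := (memP _ _).1 hy
          rw [hη y h1, h2]) hS
        have cu : ∀ j, j ≠ i → (S ∪ P i) ∩ P j = S ∩ P j := by
          intro j hj
          rw [union_inter_distrib_right, disjoint_iff_inter_eq_empty.1 (hdisj i j (Ne.symm hj)),
            union_empty]
        have cd : ∀ j, j ≠ i → (S \ P i) ∩ P j = S ∩ P j := by
          intro j hj
          ext x
          simp only [mem_inter, mem_sdiff]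
          constructor
          · rintro ⟨⟨hx1, _⟩, hx2⟩
            exact ⟨hx1, hx2⟩
          · rintro ⟨hx1, hx2⟩
            exact ⟨⟨hx1, fun hx3 => disjoint_left.1 (hdisj i j (Ne.symm hj)) hx3 hx2⟩, hx2⟩
        have cui : (S ∪ P i) ∩ P i = P i := inter_eq_right.2 subset_union_right
        have cdi : (S \ P i) ∩ P i = ∅ := disjoint_iff_inter_eq_empty.1 sdiff_disjoint
        have hsub : S ∪ P i ⊆ U := union_subset hS (hPU i)
        have hsdf : S \ P i ⊆ U := sdiff_subset.trans hS
        have hlt1 : (univ.filter fun j => 0 < ((S ∪ P i) ∩ P j).card ∧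
            ((S ∪ P i) ∩ P j).card < (P j).card).card < n := by
          rw [← hn]
          refine card_lt_card ⟨fun j hj => ?_, fun h' => ?_⟩
          · have h2 := (mem_filter.1 hj).2
            by_cases hji : j = i
            · exfalso
              rw [hji, cui] at h2
              exact lt_irrefl _ h2.2
            · rw [cu j hji] at h2
              exact mem_filter.2 ⟨mem_univ _, h2⟩
          · have h2 := (mem_filter.1 (h' hi)).2
            rw [cui] at h2
            exact lt_irrefl _ h2.2
        have hlt2 : (univ.filter fun j => 0 < ((S \ P i) ∩ P j).card ∧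
            ((S \ P i) ∩ P j).card < (P j).card).card < n := by
          rw [← hn]
          refine card_lt_card ⟨fun j hj => ?_, fun h' => ?_⟩
          · have h2 := (mem_filter.1 hj).2
            by_cases hji : j = i
            · exfalso
              rw [hji, cdi] at h2
              exact lt_irrefl _ h2.1
            · rw [cd j hji] at h2
              exact mem_filter.2 ⟨mem_univ _, h2⟩
          · have h2 := (mem_filter.1 (h' hi)).2
            rw [cdi] at h2
            exact lt_irrefl _ h2.1
        have i1 := ih _ hlt1 (S ∪ P i) hsub rfl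
        have i2 := ih _ hlt2 (S \ P i) hsdf rfl
        set c : ℝ := ((S ∩ P i).card : ℝ) / ((P i).card : ℝ) with hc
        have ha0 : (0 : ℝ) < ((P i).card : ℝ) := by
          have : 0 < (P i).card := lt_trans hi1 hi2
          exact_mod_cast this
        have hc0 : 0 ≤ c := by positivity
        have hc1 : 0 ≤ 1 - c := by
          have : c ≤ 1 := by
            rw [hc, div_le_one ha0]; exact_mod_cast hi2.le
          linarith
        have hq := Qv_convex η W (v := cnt S) (u := cnt (S ∪ P i)) (t := cnt (S \ P i)) (c := c) (by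
          intro j
          by_cases hji : j = i
          · subst hji
            simp only [hcnt, cui, cdi, card_empty, Nat.cast_zero, mul_zero, add_zero, hc]
            field_simp
          · simp only [hcnt, cu j hji, cd j hji]
            ring)
        have hdd : ∑ j, ∑ l, W j l * (cnt (S ∪ P i) j - cnt (S \ P i) j) *
            (cnt (S ∪ P i) l - cnt (S \ P i) l) = W i i * a i * a i := by
          have z1 : ∀ j, j ≠ i → cnt (S ∪ P i) j - cnt (S \ P i) j = 0 := by
            intro j hji
            simp only [hcnt, cu j hji, cd j hji, sub_self]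
          have z2 : cnt (S ∪ P i) i - cnt (S \ P i) i = a i := by
            simp only [hcnt, cui, cdi, card_empty, Nat.cast_zero, sub_zero, ha]
          rw [sum_eq_single i, sum_eq_single i, z2]
          · intro l _ hl
            rw [z1 l hl, mul_zero]
          · intro h'; exact absurd (mem_univ _) h'
          · intro j _ hj
            refine sum_eq_zero fun l _ => ?_
            rw [z1 j hj, mul_zero, zero_mul]
          · intro h'; exact absurd (mem_univ _) h'
        rw [hq, hdd]
        have hWi : W i i = (g {i} - a i * η i) / (a i * (a i - 1)) := by simp [hW]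
        have hcor : c * (1 - c) * (W i i * a i * a i) =
            ((S ∩ P i).card : ℝ) * (((P i).card : ℝ) - ((S ∩ P i).card : ℝ)) *
              ((h (P i) - ((P i).card : ℝ) * η i) /
                (((P i).card : ℝ) * (((P i).card : ℝ) - 1))) := by
          rw [hWi, gsing, hc]
          simp only [ha]
          field_simp
        rw [hcor]
        have j1 := mul_le_mul_of_nonneg_left i1 hc0
        have j2 := mul_le_mul_of_nonneg_left i2 hc1
        linarith
  refine ⟨fun x y => W (f x) (f y), fun S hS => ?_, ?_⟩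
  · rw [hQS S hS]
    exact hmain _ S hS rfl
  · rw [hQS U subset_rfl]
    set T : Finset (Fin K) := univ.filter fun i => 0 < (P i).card with hTdef
    have hUP : ∀ i, U ∩ P i = P i := fun i => inter_eq_right.2 (hPU i)
    rw [hsat T (cnt U) (fun i hi => ⟨(mem_filter.1 hi).2, by simp only [hcnt, ha, hUP i]⟩)
      (fun i hi => by
        have h2 : ¬ 0 < (P i).card := fun h3 => hi (mem_filter.2 ⟨mem_univ _, h3⟩)
        have : (P i).card = 0 := by omega
        simp only [hcnt, hUP i, this, Nat.cast_zero])]
    have hgU : g univ = h U := by simp [hg]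
    rw [← hgU]
    refine le_trans ?_ hw2
    have hnot : ∀ i, i ∉ T → P i = ∅ := by
      intro i hi
      have h2 : ¬ 0 < (P i).card := fun h3 => hi (mem_filter.2 ⟨mem_univ _, h3⟩)
      exact card_eq_zero.1 (by omega)
    have e1 : ∑ i ∈ T, g {i} = ∑ i, g {i} := by
      refine sum_subset (subset_univ T) fun i _ hi => ?_
      rw [gsing, hnot i hi, h0]
    have e2 : ∑ z ∈ T.offDiag, w' z.1 z.2 ≤ ∑ z ∈ (univ : Finset (Fin K)).offDiag, w' z.1 z.2 := by
      have hpair : ∀ i j, i ≠ j → i ∉ T → 0 ≤ w' i j + w' j i := by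
        intro i j hij hi
        have h1 := hw1 {i, j} (subset_univ _)
        have h2 : g {i, j} = g {j} := by
          simp only [hg]
          congr 1
          ext x
          simp only [mem_filter, mem_insert, mem_singleton]
          constructor
          · rintro ⟨hx, hx' | hx'⟩
            · have : x ∈ P i := (memP _ _).2 ⟨hx, hx'⟩
              rw [hnot i hi] at this
              exact absurd this (notMem_empty x)
            · exact ⟨hx, hx'⟩
          · rintro ⟨hx, hx'⟩
            exact ⟨hx, Or.inr hx'⟩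
        have h3 : g {i} = 0 := by rw [gsing, hnot i hi, h0]
        have h4 : ∑ z ∈ ({i, j} : Finset (Fin K)).offDiag, w' z.1 z.2 = w' i j + w' j i := by
          rw [sum_offDiag, sum_pair hij, sum_pair hij, sum_pair hij, sum_pair hij]
          ring
        rw [h2, h4, sum_pair hij, h3] at h1
        linarith
      have hsub : T.offDiag ⊆ (univ : Finset (Fin K)).offDiag := by
        intro z hz
        rw [mem_offDiag] at hz ⊢
        exact ⟨mem_univ _, mem_univ _, hz.2.2⟩
      rw [← sum_sdiff hsub]
      have h5 : 0 ≤ ∑ z ∈ (univ : Finset (Fin K)).offDiag \ T.offDiag, w' z.1 z.2 := by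
        have h6 : ∑ z ∈ (univ : Finset (Fin K)).offDiag \ T.offDiag, w' z.1 z.2 =
            ∑ z ∈ (univ : Finset (Fin K)).offDiag \ T.offDiag, w' z.2 z.1 := by
          refine sum_nbij' (fun z => (z.2, z.1)) (fun z => (z.2, z.1)) ?_ ?_ ?_ ?_ ?_
          · intro z hz
            simp only [mem_sdiff, mem_offDiag, mem_univ, true_and] at hz ⊢
            exact ⟨fun h' => hz.1 h'.symm, fun h' => hz.2 ⟨h'.2.1, h'.1, fun h'' => h'.2.2 h''.symm⟩⟩
          · intro z hz
            simp only [mem_sdiff, mem_offDiag, mem_univ, true_and] at hz ⊢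
            exact ⟨fun h' => hz.1 h'.symm, fun h' => hz.2 ⟨h'.2.1, h'.1, fun h'' => h'.2.2 h''.symm⟩⟩
          · intro z _; rfl
          · intro z _; rfl
          · intro z _; rfl
        have h7 : 0 ≤ ∑ z ∈ (univ : Finset (Fin K)).offDiag \ T.offDiag,
            (w' z.1 z.2 + w' z.2 z.1) := by
          refine sum_nonneg fun z hz => ?_
          simp only [mem_sdiff, mem_offDiag, mem_univ, true_and] at hz
          by_cases h8 : z.1 ∈ T
          · have h9 : z.2 ∉ T := fun h10 => hz.2 ⟨h8, h10, hz.1⟩
            have := hpair z.2 z.1 (Ne.symm hz.1) h9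
            linarith
          · exact hpair z.1 z.2 hz.1 h8
        rw [sum_add_distrib, ← h6] at h7
        linarith
      linarith
    rw [e1]
    linarith

end Pool.Agent.Q83.FC
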