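import Mathlib
import Pool.Agent.Q83.FC.Core

set_option autoImplicit false

/-!
# Weights for F-nef functions on five marks
-/

namespace Pool.Agent.Q83.FC

open Finset

/-- The set of marks given by the binary digits of a number. -/
def tS (b : ℕ) : Finset (Fin 5) := univ.filter fun i => b.testBit i = true

theorem sumS (b : ℕ) (F : Fin 5 → ℝ) : ∑ x ∈ tS b, F x =
    ∑ x : Fin 5, if b.testBit x = true then F x else 0 := by rw [tS, sum_filter]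

theorem sumO (b : ℕ) (w : Fin 5 → Fin 5 → ℝ) : ∑ z ∈ (tS b).offDiag, w z.1 z.2 =
    ∑ x : Fin 5, ∑ y : Fin 5,
      if b.testBit x = true ∧ b.testBit y = true ∧ x ≠ y then w x y else 0 := by
  rw [← Fintype.sum_prod_type' (f := fun x y : Fin 5 =>
      if b.testBit x = true ∧ b.testBit y = true ∧ x ≠ y then w x y else 0), ← sum_filter]
  refine sum_congr ?_ fun _ _ => rfl
  ext z
  simp only [mem_offDiag, mem_filter, mem_univ, true_and, tS]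

theorem exb : ∀ S : Finset (Fin 5), ∃ b < 32, S = tS b := by decide

/-- The excess of a triple over its pairs. -/
def tri (G : ℕ → ℝ) (x y z : ℕ) : ℝ := G (x + y + z) - G (x + y) - G (x + z) - G (y + z) +
  G x + G y + G z

theorem num5 (G : ℕ → ℝ)
    (F_1_2_4 : G 3 + G 5 + G 6 ≤ G 7 + G 1 + G 2 + G 4)
    (F_1_2_8 : G 3 + G 9 + G 10 ≤ G 11 + G 1 + G 2 + G 8)
    (F_1_2_12 : G 3 + G 13 + G 14 ≤ G 15 + G 1 + G 2 + G 12)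
    (F_1_2_16 : G 3 + G 17 + G 18 ≤ G 19 + G 1 + G 2 + G 16)
    (F_1_2_20 : G 3 + G 21 + G 22 ≤ G 23 + G 1 + G 2 + G 20)
    (F_1_2_24 : G 3 + G 25 + G 26 ≤ G 27 + G 1 + G 2 + G 24)
    (F_1_2_28 : G 3 + G 29 + G 30 ≤ G 31 + G 1 + G 2 + G 28)
    (F_1_4_8 : G 5 + G 9 + G 12 ≤ G 13 + G 1 + G 4 + G 8)
    (F_1_4_10 : G 5 + G 11 + G 14 ≤ G 15 + G 1 + G 4 + G 10)
    (F_1_4_16 : G 5 + G 17 + G 20 ≤ G 21 + G 1 + G 4 + G 16)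
    (F_1_4_18 : G 5 + G 19 + G 22 ≤ G 23 + G 1 + G 4 + G 18)
    (F_1_4_24 : G 5 + G 25 + G 28 ≤ G 29 + G 1 + G 4 + G 24)
    (F_1_4_26 : G 5 + G 27 + G 30 ≤ G 31 + G 1 + G 4 + G 26)
    (F_1_6_8 : G 7 + G 9 + G 14 ≤ G 15 + G 1 + G 6 + G 8)
    (F_1_6_16 : G 7 + G 17 + G 22 ≤ G 23 + G 1 + G 6 + G 16)
    (F_1_6_24 : G 7 + G 25 + G 30 ≤ G 31 + G 1 + G 6 + G 24)
    (F_1_8_16 : G 9 + G 17 + G 24 ≤ G 25 + G 1 + G 8 + G 16)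
    (F_1_8_18 : G 9 + G 19 + G 26 ≤ G 27 + G 1 + G 8 + G 18)
    (F_1_8_20 : G 9 + G 21 + G 28 ≤ G 29 + G 1 + G 8 + G 20)
    (F_1_8_22 : G 9 + G 23 + G 30 ≤ G 31 + G 1 + G 8 + G 22)
    (F_1_10_16 : G 11 + G 17 + G 26 ≤ G 27 + G 1 + G 10 + G 16)
    (F_1_10_20 : G 11 + G 21 + G 30 ≤ G 31 + G 1 + G 10 + G 20)
    (F_1_12_16 : G 13 + G 17 + G 28 ≤ G 29 + G 1 + G 12 + G 16)
    (F_1_12_18 : G 13 + G 19 + G 30 ≤ G 31 + G 1 + G 12 + G 18)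
    (F_1_14_16 : G 15 + G 17 + G 30 ≤ G 31 + G 1 + G 14 + G 16)
    (F_2_4_8 : G 6 + G 10 + G 12 ≤ G 14 + G 2 + G 4 + G 8)
    (F_2_4_9 : G 6 + G 11 + G 13 ≤ G 15 + G 2 + G 4 + G 9)
    (F_2_4_16 : G 6 + G 18 + G 20 ≤ G 22 + G 2 + G 4 + G 16)
    (F_2_4_17 : G 6 + G 19 + G 21 ≤ G 23 + G 2 + G 4 + G 17)
    (F_2_4_24 : G 6 + G 26 + G 28 ≤ G 30 + G 2 + G 4 + G 24)
    (F_2_4_25 : G 6 + G 27 + G 29 ≤ G 31 + G 2 + G 4 + G 25)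
    (F_2_5_8 : G 7 + G 10 + G 13 ≤ G 15 + G 2 + G 5 + G 8)
    (F_2_5_16 : G 7 + G 18 + G 21 ≤ G 23 + G 2 + G 5 + G 16)
    (F_2_5_24 : G 7 + G 26 + G 29 ≤ G 31 + G 2 + G 5 + G 24)
    (F_2_8_16 : G 10 + G 18 + G 24 ≤ G 26 + G 2 + G 8 + G 16)
    (F_2_8_17 : G 10 + G 19 + G 25 ≤ G 27 + G 2 + G 8 + G 17)
    (F_2_8_20 : G 10 + G 22 + G 28 ≤ G 30 + G 2 + G 8 + G 20)
    (F_2_8_21 : G 10 + G 23 + G 29 ≤ G 31 + G 2 + G 8 + G 21)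
    (F_2_9_16 : G 11 + G 18 + G 25 ≤ G 27 + G 2 + G 9 + G 16)
    (F_2_9_20 : G 11 + G 22 + G 29 ≤ G 31 + G 2 + G 9 + G 20)
    (F_2_12_16 : G 14 + G 18 + G 28 ≤ G 30 + G 2 + G 12 + G 16)
    (F_2_12_17 : G 14 + G 19 + G 29 ≤ G 31 + G 2 + G 12 + G 17)
    (F_2_13_16 : G 15 + G 18 + G 29 ≤ G 31 + G 2 + G 13 + G 16)
    (F_3_4_8 : G 7 + G 11 + G 12 ≤ G 15 + G 3 + G 4 + G 8)
    (F_3_4_16 : G 7 + G 19 + G 20 ≤ G 23 + G 3 + G 4 + G 16)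
    (F_3_4_24 : G 7 + G 27 + G 28 ≤ G 31 + G 3 + G 4 + G 24)
    (F_3_8_16 : G 11 + G 19 + G 24 ≤ G 27 + G 3 + G 8 + G 16)
    (F_3_8_20 : G 11 + G 23 + G 28 ≤ G 31 + G 3 + G 8 + G 20)
    (F_3_12_16 : G 15 + G 19 + G 28 ≤ G 31 + G 3 + G 12 + G 16)
    (F_4_8_16 : G 12 + G 20 + G 24 ≤ G 28 + G 4 + G 8 + G 16)
    (F_4_8_17 : G 12 + G 21 + G 25 ≤ G 29 + G 4 + G 8 + G 17)
    (F_4_8_18 : G 12 + G 22 + G 26 ≤ G 30 + G 4 + G 8 + G 18)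
    (F_4_8_19 : G 12 + G 23 + G 27 ≤ G 31 + G 4 + G 8 + G 19)
    (F_4_9_16 : G 13 + G 20 + G 25 ≤ G 29 + G 4 + G 9 + G 16)
    (F_4_10_16 : G 14 + G 20 + G 26 ≤ G 30 + G 4 + G 10 + G 16)
    (F_4_11_16 : G 15 + G 20 + G 27 ≤ G 31 + G 4 + G 11 + G 16)
    (F_5_8_16 : G 13 + G 21 + G 24 ≤ G 29 + G 5 + G 8 + G 16)
    (F_6_8_16 : G 14 + G 22 + G 24 ≤ G 30 + G 6 + G 8 + G 16)
    (F_7_8_16 : G 15 + G 23 + G 24 ≤ G 31 + G 7 + G 8 + G 16)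
    (M_13 : tri G 1 4 8 ≤ tri G 4 8 16)
    (M_14 : tri G 2 4 8 ≤ tri G 4 8 16)
    (M_21 : tri G 1 4 16 ≤ tri G 4 8 16)
    (M_22 : tri G 2 4 16 ≤ tri G 4 8 16)
    (M_25 : tri G 1 8 16 ≤ tri G 4 8 16)
    (M_26 : tri G 2 8 16 ≤ tri G 4 8 16)
    : ∃ w : Fin 5 → Fin 5 → ℝ, (∀ x y, y ≤ x → w x y = 0) ∧
      (G 3 ≤ G 1 + G 2 + (w 0 1)) ∧
      (G 5 ≤ G 1 + G 4 + (w 0 2)) ∧
      (G 6 ≤ G 2 + G 4 + (w 1 2)) ∧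
      (G 7 ≤ G 1 + G 2 + G 4 + (w 0 1 + w 0 2 + w 1 2)) ∧
      (G 9 ≤ G 1 + G 8 + (w 0 3)) ∧
      (G 10 ≤ G 2 + G 8 + (w 1 3)) ∧
      (G 11 ≤ G 1 + G 2 + G 8 + (w 0 1 + w 0 3 + w 1 3)) ∧
      (G 12 ≤ G 4 + G 8 + (w 2 3)) ∧
      (G 13 ≤ G 1 + G 4 + G 8 + (w 0 2 + w 0 3 + w 2 3)) ∧
      (G 14 ≤ G 2 + G 4 + G 8 + (w 1 2 + w 1 3 + w 2 3)) ∧
      (G 15 ≤ G 1 + G 2 + G 4 + G 8 + (w 0 1 + w 0 2 + w 0 3 + w 1 2 + w 1 3 + w 2 3)) ∧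
      (G 17 ≤ G 1 + G 16 + (w 0 4)) ∧
      (G 18 ≤ G 2 + G 16 + (w 1 4)) ∧
      (G 19 ≤ G 1 + G 2 + G 16 + (w 0 1 + w 0 4 + w 1 4)) ∧
      (G 20 ≤ G 4 + G 16 + (w 2 4)) ∧
      (G 21 ≤ G 1 + G 4 + G 16 + (w 0 2 + w 0 4 + w 2 4)) ∧
      (G 22 ≤ G 2 + G 4 + G 16 + (w 1 2 + w 1 4 + w 2 4)) ∧
      (G 23 ≤ G 1 + G 2 + G 4 + G 16 + (w 0 1 + w 0 2 + w 0 4 + w 1 2 + w 1 4 + w 2 4)) ∧
      (G 24 ≤ G 8 + G 16 + (w 3 4)) ∧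
      (G 25 ≤ G 1 + G 8 + G 16 + (w 0 3 + w 0 4 + w 3 4)) ∧
      (G 26 ≤ G 2 + G 8 + G 16 + (w 1 3 + w 1 4 + w 3 4)) ∧
      (G 27 ≤ G 1 + G 2 + G 8 + G 16 + (w 0 1 + w 0 3 + w 0 4 + w 1 3 + w 1 4 + w 3 4)) ∧
      (G 28 ≤ G 4 + G 8 + G 16 + (w 2 3 + w 2 4 + w 3 4)) ∧
      (G 29 ≤ G 1 + G 4 + G 8 + G 16 + (w 0 2 + w 0 3 + w 0 4 + w 2 3 + w 2 4 + w 3 4)) ∧
      (G 30 ≤ G 2 + G 4 + G 8 + G 16 + (w 1 2 + w 1 3 + w 1 4 + w 2 3 + w 2 4 + w 3 4)) ∧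
      (G 31 = G 1 + G 2 + G 4 + G 8 + G 16 + (w 0 1 + w 0 2 + w 0 3 + w 0 4 + w 1 2 + w 1 3 + w 1 4 + w 2 3 + w 2 4 + w 3 4)) := by
  obtain ⟨w01, e01⟩ : ∃ x : ℝ, x = (-1) * G 1 + (-1) * G 2 + (1) * G 3 := ⟨_, rfl⟩
  obtain ⟨w02, e02⟩ : ∃ x : ℝ, x = (-1/6) * G 1 + (1/6) * G 2 + (-1/6) * G 3 + (-1/6) * G 4 + (1/6) * G 5 + (-1/6) * G 6 + (1/6) * G 7 + (1/12) * G 8 + (-1/12) * G 9 + (1/12) * G 10 + (-1/12) * G 11 + (-1/12) * G 12 + (1/12) * G 13 + (-1/12) * G 14 + (1/12) * G 15 + (1/12) * G 16 + (-1/12) * G 17 + (1/12) * G 18 + (-1/12) * G 19 + (-1/12) * G 20 + (1/12) * G 21 + (-1/12) * G 22 + (1/12) * G 23 + (1/6) * G 24 + (-1/6) * G 25 + (1/6) * G 26 + (-1/6) * G 27 + (-1/6) * G 28 + (1/6) * G 29 + (-1/6) * G 30 + (1/6) * G 31 := ⟨_, rfl⟩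
  obtain ⟨w03, e03⟩ : ∃ x : ℝ, x = (-1/6) * G 1 + (1/6) * G 2 + (-1/6) * G 3 + (1/12) * G 4 + (-1/12) * G 5 + (1/12) * G 6 + (-1/12) * G 7 + (-1/6) * G 8 + (1/6) * G 9 + (-1/6) * G 10 + (1/6) * G 11 + (-1/12) * G 12 + (1/12) * G 13 + (-1/12) * G 14 + (1/12) * G 15 + (1/12) * G 16 + (-1/12) * G 17 + (1/12) * G 18 + (-1/12) * G 19 + (1/6) * G 20 + (-1/6) * G 21 + (1/6) * G 22 + (-1/6) * G 23 + (-1/12) * G 24 + (1/12) * G 25 + (-1/12) * G 26 + (1/12) * G 27 + (-1/6) * G 28 + (1/6) * G 29 + (-1/6) * G 30 + (1/6) * G 31 := ⟨_, rfl⟩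
  obtain ⟨w04, e04⟩ : ∃ x : ℝ, x = (-1/6) * G 1 + (1/6) * G 2 + (-1/6) * G 3 + (1/12) * G 4 + (-1/12) * G 5 + (1/12) * G 6 + (-1/12) * G 7 + (1/12) * G 8 + (-1/12) * G 9 + (1/12) * G 10 + (-1/12) * G 11 + (1/6) * G 12 + (-1/6) * G 13 + (1/6) * G 14 + (-1/6) * G 15 + (-1/6) * G 16 + (1/6) * G 17 + (-1/6) * G 18 + (1/6) * G 19 + (-1/12) * G 20 + (1/12) * G 21 + (-1/12) * G 22 + (1/12) * G 23 + (-1/12) * G 24 + (1/12) * G 25 + (-1/12) * G 26 + (1/12) * G 27 + (-1/6) * G 28 + (1/6) * G 29 + (-1/6) * G 30 + (1/6) * G 31 := ⟨_, rfl⟩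
  obtain ⟨w12, e12⟩ : ∃ x : ℝ, x = (1/6) * G 1 + (-1/6) * G 2 + (-1/6) * G 3 + (-1/6) * G 4 + (-1/6) * G 5 + (1/6) * G 6 + (1/6) * G 7 + (1/12) * G 8 + (1/12) * G 9 + (-1/12) * G 10 + (-1/12) * G 11 + (-1/12) * G 12 + (-1/12) * G 13 + (1/12) * G 14 + (1/12) * G 15 + (1/12) * G 16 + (1/12) * G 17 + (-1/12) * G 18 + (-1/12) * G 19 + (-1/12) * G 20 + (-1/12) * G 21 + (1/12) * G 22 + (1/12) * G 23 + (1/6) * G 24 + (1/6) * G 25 + (-1/6) * G 26 + (-1/6) * G 27 + (-1/6) * G 28 + (-1/6) * G 29 + (1/6) * G 30 + (1/6) * G 31 := ⟨_, rfl⟩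
  obtain ⟨w13, e13⟩ : ∃ x : ℝ, x = (1/6) * G 1 + (-1/6) * G 2 + (-1/6) * G 3 + (1/12) * G 4 + (1/12) * G 5 + (-1/12) * G 6 + (-1/12) * G 7 + (-1/6) * G 8 + (-1/6) * G 9 + (1/6) * G 10 + (1/6) * G 11 + (-1/12) * G 12 + (-1/12) * G 13 + (1/12) * G 14 + (1/12) * G 15 + (1/12) * G 16 + (1/12) * G 17 + (-1/12) * G 18 + (-1/12) * G 19 + (1/6) * G 20 + (1/6) * G 21 + (-1/6) * G 22 + (-1/6) * G 23 + (-1/12) * G 24 + (-1/12) * G 25 + (1/12) * G 26 + (1/12) * G 27 + (-1/6) * G 28 + (-1/6) * G 29 + (1/6) * G 30 + (1/6) * G 31 := ⟨_, rfl⟩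
  obtain ⟨w14, e14⟩ : ∃ x : ℝ, x = (1/6) * G 1 + (-1/6) * G 2 + (-1/6) * G 3 + (1/12) * G 4 + (1/12) * G 5 + (-1/12) * G 6 + (-1/12) * G 7 + (1/12) * G 8 + (1/12) * G 9 + (-1/12) * G 10 + (-1/12) * G 11 + (1/6) * G 12 + (1/6) * G 13 + (-1/6) * G 14 + (-1/6) * G 15 + (-1/6) * G 16 + (-1/6) * G 17 + (1/6) * G 18 + (1/6) * G 19 + (-1/12) * G 20 + (-1/12) * G 21 + (1/12) * G 22 + (1/12) * G 23 + (-1/12) * G 24 + (-1/12) * G 25 + (1/12) * G 26 + (1/12) * G 27 + (-1/6) * G 28 + (-1/6) * G 29 + (1/6) * G 30 + (1/6) * G 31 := ⟨_, rfl⟩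
  obtain ⟨w23, e23⟩ : ∃ x : ℝ, x = (-2/3) * G 4 + (-2/3) * G 8 + (2/3) * G 12 + (1/3) * G 16 + (-1/3) * G 20 + (-1/3) * G 24 + (1/3) * G 28 := ⟨_, rfl⟩
  obtain ⟨w24, e24⟩ : ∃ x : ℝ, x = (-2/3) * G 4 + (1/3) * G 8 + (-1/3) * G 12 + (-2/3) * G 16 + (2/3) * G 20 + (-1/3) * G 24 + (1/3) * G 28 := ⟨_, rfl⟩
  obtain ⟨w34, e34⟩ : ∃ x : ℝ, x = (1/3) * G 4 + (-2/3) * G 8 + (-1/3) * G 12 + (-2/3) * G 16 + (-1/3) * G 20 + (2/3) * G 24 + (1/3) * G 28 := ⟨_, rfl⟩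
  refine ⟨![![0, w01, w02, w03, w04], ![0, 0, w12, w13, w14], ![0, 0, 0, w23, w24], ![0, 0, 0, 0, w34], ![0, 0, 0, 0, 0]], ?_, ?_, ?_, ?_, ?_, ?_, ?_, ?_, ?_, ?_, ?_, ?_, ?_, ?_, ?_, ?_, ?_, ?_, ?_, ?_, ?_, ?_, ?_, ?_, ?_, ?_, ?_⟩
  · intro x y hxy; fin_cases x <;> fin_cases y <;> first | rfl | (exact absurd hxy (by decide))
  · show G 3 ≤ G 1 + G 2 + (w01)
    rw [e01]
    linarith
  · show G 5 ≤ G 1 + G 4 + (w02)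
    rw [e02]
    linarith [F_1_2_4, F_1_4_8, F_1_4_10, F_1_4_16, F_1_4_18, F_1_4_24, F_1_4_26]
  · show G 6 ≤ G 2 + G 4 + (w12)
    rw [e12]
    linarith [F_1_2_4, F_2_4_8, F_2_4_9, F_2_4_16, F_2_4_17, F_2_4_24, F_2_4_25]
  · show G 7 ≤ G 1 + G 2 + G 4 + (w01 + w02 + w12)
    rw [e01, e02, e12]
    linarith [F_3_4_8, F_3_4_16, F_3_4_24]
  · show G 9 ≤ G 1 + G 8 + (w03)
    rw [e03]
    linarith [F_1_2_8, F_1_4_8, F_1_6_8, F_1_8_16, F_1_8_18, F_1_8_20, F_1_8_22]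
  · show G 10 ≤ G 2 + G 8 + (w13)
    rw [e13]
    linarith [F_1_2_8, F_2_4_8, F_2_5_8, F_2_8_16, F_2_8_17, F_2_8_20, F_2_8_21]
  · show G 11 ≤ G 1 + G 2 + G 8 + (w01 + w03 + w13)
    rw [e01, e03, e13]
    linarith [F_3_4_8, F_3_8_16, F_3_8_20]
  · show G 12 ≤ G 4 + G 8 + (w23)
    rw [e23]
    linarith [F_4_8_16]
  · show G 13 ≤ G 1 + G 4 + G 8 + (w02 + w03 + w23)
    simp only [tri] at M_13
    rw [e02, e03, e23]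
    linarith [F_1_2_4, F_1_2_8, F_1_2_12, F_1_4_26, F_1_8_22, F_1_12_16, F_1_12_18, F_4_9_16, F_5_8_16, M_13]
  · show G 14 ≤ G 2 + G 4 + G 8 + (w12 + w13 + w23)
    simp only [tri] at M_14
    rw [e12, e13, e23]
    linarith [F_1_2_4, F_1_2_8, F_1_2_12, F_2_4_25, F_2_8_21, F_2_12_16, F_2_12_17, F_4_10_16, F_6_8_16, M_14]
  · show G 15 ≤ G 1 + G 2 + G 4 + G 8 + (w01 + w02 + w03 + w12 + w13 + w23)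
    rw [e01, e02, e03, e12, e13, e23]
    linarith [F_3_12_16, F_4_11_16, F_7_8_16]
  · show G 17 ≤ G 1 + G 16 + (w04)
    rw [e04]
    linarith [F_1_2_16, F_1_4_16, F_1_6_16, F_1_8_16, F_1_10_16, F_1_12_16, F_1_14_16]
  · show G 18 ≤ G 2 + G 16 + (w14)
    rw [e14]
    linarith [F_1_2_16, F_2_4_16, F_2_5_16, F_2_8_16, F_2_9_16, F_2_12_16, F_2_13_16]
  · show G 19 ≤ G 1 + G 2 + G 16 + (w01 + w04 + w14)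
    rw [e01, e04, e14]
    linarith [F_3_4_16, F_3_8_16, F_3_12_16]
  · show G 20 ≤ G 4 + G 16 + (w24)
    rw [e24]
    linarith [F_4_8_16]
  · show G 21 ≤ G 1 + G 4 + G 16 + (w02 + w04 + w24)
    simp only [tri] at M_21
    rw [e02, e04, e24]
    linarith [F_1_2_4, F_1_2_16, F_1_2_20, F_1_4_26, F_1_8_20, F_1_10_20, F_1_14_16, F_4_8_17, F_5_8_16, M_21]
  · show G 22 ≤ G 2 + G 4 + G 16 + (w12 + w14 + w24)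
    simp only [tri] at M_22
    rw [e12, e14, e24]
    linarith [F_1_2_4, F_1_2_16, F_1_2_20, F_2_4_25, F_2_8_20, F_2_9_20, F_2_13_16, F_4_8_18, F_6_8_16, M_22]
  · show G 23 ≤ G 1 + G 2 + G 4 + G 16 + (w01 + w02 + w04 + w12 + w14 + w24)
    rw [e01, e02, e04, e12, e14, e24]
    linarith [F_3_8_20, F_4_8_19, F_7_8_16]
  · show G 24 ≤ G 8 + G 16 + (w34)
    rw [e34]
    linarith [F_4_8_16]
  · show G 25 ≤ G 1 + G 8 + G 16 + (w03 + w04 + w34)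
    simp only [tri] at M_25
    rw [e03, e04, e34]
    linarith [F_1_2_8, F_1_2_16, F_1_2_24, F_1_4_24, F_1_6_24, F_1_8_22, F_1_14_16, F_4_8_17, F_4_9_16, M_25]
  · show G 26 ≤ G 2 + G 8 + G 16 + (w13 + w14 + w34)
    simp only [tri] at M_26
    rw [e13, e14, e34]
    linarith [F_1_2_8, F_1_2_16, F_1_2_24, F_2_4_24, F_2_5_24, F_2_8_21, F_2_13_16, F_4_8_18, F_4_10_16, M_26]
  · show G 27 ≤ G 1 + G 2 + G 8 + G 16 + (w01 + w03 + w04 + w13 + w14 + w34)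
    rw [e01, e03, e04, e13, e14, e34]
    linarith [F_3_4_24, F_4_8_19, F_4_11_16]
  · show G 28 ≤ G 4 + G 8 + G 16 + (w23 + w24 + w34)
    rw [e23, e24, e34]
    linarith
  · show G 29 ≤ G 1 + G 4 + G 8 + G 16 + (w02 + w03 + w04 + w23 + w24 + w34)
    rw [e02, e03, e04, e23, e24, e34]
    linarith [F_1_2_28]
  · show G 30 ≤ G 2 + G 4 + G 8 + G 16 + (w12 + w13 + w14 + w23 + w24 + w34)
    rw [e12, e13, e14, e23, e24, e34]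
    linarith [F_1_2_28]
  · show G 31 = G 1 + G 2 + G 4 + G 8 + G 16 + (w01 + w02 + w03 + w04 + w12 + w13 + w14 + w23 + w24 + w34)
    rw [e01, e02, e03, e04, e12, e13, e14, e23, e24, e34]
    ring

end Pool.Agent.Q83.FC
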