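import Mathlib
import Pool.Agent.Q83.FC.Base5

set_option autoImplicit false

/-!
# Weights for F-nef functions on five marks, II
-/

namespace Pool.Agent.Q83.FC

open Finset

/-- The conditions on three binary numbers to describe disjoint nonempty sets of marks. -/
def Tri (a b c : ℕ) : Prop := (tS a).Nonempty ∧ (tS b).Nonempty ∧ (tS c).Nonempty ∧
  Disjoint (tS a) (tS b) ∧ Disjoint (tS a) (tS c) ∧ Disjoint (tS b) (tS c) ∧
  tS (a + b) = tS a ∪ tS b ∧ tS (a + c) = tS a ∪ tS c ∧ tS (b + c) = tS b ∪ tS c ∧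
  tS (a + b + c) = tS a ∪ tS b ∪ tS c

instance (a b c : ℕ) : Decidable (Tri a b c) := by unfold Tri; infer_instance

/-- The excess of a set over its pairs. -/
noncomputable def exc (g : Finset (Fin 5) → ℝ) (T : Finset (Fin 5)) : ℝ :=
  g T - (∑ z ∈ T.offDiag, g {z.1, z.2}) / 2 + ∑ x ∈ T, g {x}

theorem base5_max {g : Finset (Fin 5) → ℝ} (g0 : g ∅ = 0) (hF : FN univ g)
    (hmax : ∀ T : Finset (Fin 5), T.card = 3 → exc g T ≤ exc g (tS 28)) : HasW univ g := by
  have s0 : g {0} = g (tS 1) := congrArg g (by decide)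
  have s1 : g {1} = g (tS 2) := congrArg g (by decide)
  have s2 : g {2} = g (tS 4) := congrArg g (by decide)
  have s3 : g {3} = g (tS 8) := congrArg g (by decide)
  have s4 : g {4} = g (tS 16) := congrArg g (by decide)
  have p01 : g {0, 1} = g (tS 3) := congrArg g (by decide)
  have p02 : g {0, 2} = g (tS 5) := congrArg g (by decide)
  have p03 : g {0, 3} = g (tS 9) := congrArg g (by decide)
  have p04 : g {0, 4} = g (tS 17) := congrArg g (by decide)
  have p10 : g {1, 0} = g (tS 3) := congrArg g (by decide)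
  have p12 : g {1, 2} = g (tS 6) := congrArg g (by decide)
  have p13 : g {1, 3} = g (tS 10) := congrArg g (by decide)
  have p14 : g {1, 4} = g (tS 18) := congrArg g (by decide)
  have p20 : g {2, 0} = g (tS 5) := congrArg g (by decide)
  have p21 : g {2, 1} = g (tS 6) := congrArg g (by decide)
  have p23 : g {2, 3} = g (tS 12) := congrArg g (by decide)
  have p24 : g {2, 4} = g (tS 20) := congrArg g (by decide)
  have p30 : g {3, 0} = g (tS 9) := congrArg g (by decide)
  have p31 : g {3, 1} = g (tS 10) := congrArg g (by decide)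
  have p32 : g {3, 2} = g (tS 12) := congrArg g (by decide)
  have p34 : g {3, 4} = g (tS 24) := congrArg g (by decide)
  have p40 : g {4, 0} = g (tS 17) := congrArg g (by decide)
  have p41 : g {4, 1} = g (tS 18) := congrArg g (by decide)
  have p42 : g {4, 2} = g (tS 20) := congrArg g (by decide)
  have p43 : g {4, 3} = g (tS 24) := congrArg g (by decide)
  have E7 : exc g (tS 7) = tri (fun b => g (tS b)) 1 2 4 := by
    simp only [exc, sumS, sumO (7) (fun x y => g {x, y}), tri, Fin.sum_univ_five]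
    simp [Nat.testBit, s0, s1, s2, s3, s4, p01, p02, p03, p04, p10, p12, p13, p14, p20, p21, p23, p24, p30, p31, p32, p34, p40, p41, p42, p43]
    try ring
  have E11 : exc g (tS 11) = tri (fun b => g (tS b)) 1 2 8 := by
    simp only [exc, sumS, sumO (11) (fun x y => g {x, y}), tri, Fin.sum_univ_five]
    simp [Nat.testBit, s0, s1, s2, s3, s4, p01, p02, p03, p04, p10, p12, p13, p14, p20, p21, p23, p24, p30, p31, p32, p34, p40, p41, p42, p43]
    try ring
  have E13 : exc g (tS 13) = tri (fun b => g (tS b)) 1 4 8 := by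
    simp only [exc, sumS, sumO (13) (fun x y => g {x, y}), tri, Fin.sum_univ_five]
    simp [Nat.testBit, s0, s1, s2, s3, s4, p01, p02, p03, p04, p10, p12, p13, p14, p20, p21, p23, p24, p30, p31, p32, p34, p40, p41, p42, p43]
    try ring
  have E14 : exc g (tS 14) = tri (fun b => g (tS b)) 2 4 8 := by
    simp only [exc, sumS, sumO (14) (fun x y => g {x, y}), tri, Fin.sum_univ_five]
    simp [Nat.testBit, s0, s1, s2, s3, s4, p01, p02, p03, p04, p10, p12, p13, p14, p20, p21, p23, p24, p30, p31, p32, p34, p40, p41, p42, p43]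
    try ring
  have E19 : exc g (tS 19) = tri (fun b => g (tS b)) 1 2 16 := by
    simp only [exc, sumS, sumO (19) (fun x y => g {x, y}), tri, Fin.sum_univ_five]
    simp [Nat.testBit, s0, s1, s2, s3, s4, p01, p02, p03, p04, p10, p12, p13, p14, p20, p21, p23, p24, p30, p31, p32, p34, p40, p41, p42, p43]
    try ring
  have E21 : exc g (tS 21) = tri (fun b => g (tS b)) 1 4 16 := by
    simp only [exc, sumS, sumO (21) (fun x y => g {x, y}), tri, Fin.sum_univ_five]
    simp [Nat.testBit, s0, s1, s2, s3, s4, p01, p02, p03, p04, p10, p12, p13, p14, p20, p21, p23, p24, p30, p31, p32, p34, p40, p41, p42, p43]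
    try ring
  have E22 : exc g (tS 22) = tri (fun b => g (tS b)) 2 4 16 := by
    simp only [exc, sumS, sumO (22) (fun x y => g {x, y}), tri, Fin.sum_univ_five]
    simp [Nat.testBit, s0, s1, s2, s3, s4, p01, p02, p03, p04, p10, p12, p13, p14, p20, p21, p23, p24, p30, p31, p32, p34, p40, p41, p42, p43]
    try ring
  have E25 : exc g (tS 25) = tri (fun b => g (tS b)) 1 8 16 := by
    simp only [exc, sumS, sumO (25) (fun x y => g {x, y}), tri, Fin.sum_univ_five]
    simp [Nat.testBit, s0, s1, s2, s3, s4, p01, p02, p03, p04, p10, p12, p13, p14, p20, p21, p23, p24, p30, p31, p32, p34, p40, p41, p42, p43]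
    try ring
  have E26 : exc g (tS 26) = tri (fun b => g (tS b)) 2 8 16 := by
    simp only [exc, sumS, sumO (26) (fun x y => g {x, y}), tri, Fin.sum_univ_five]
    simp [Nat.testBit, s0, s1, s2, s3, s4, p01, p02, p03, p04, p10, p12, p13, p14, p20, p21, p23, p24, p30, p31, p32, p34, p40, p41, p42, p43]
    try ring
  have E28 : exc g (tS 28) = tri (fun b => g (tS b)) 4 8 16 := by
    simp only [exc, sumS, sumO (28) (fun x y => g {x, y}), tri, Fin.sum_univ_five]
    simp [Nat.testBit, s0, s1, s2, s3, s4, p01, p02, p03, p04, p10, p12, p13, p14, p20, p21, p23, p24, p30, p31, p32, p34, p40, p41, p42, p43]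
    try ring
  have M : ∀ x y z : ℕ, (∃ b < 32, (tS b).card = 3 ∧
      exc g (tS b) = tri (fun b => g (tS b)) x y z) →
      tri (fun b => g (tS b)) x y z ≤ tri (fun b => g (tS b)) 4 8 16 := by
    rintro x y z ⟨b, _, hb, he⟩
    rw [← he, ← E28]
    exact hmax _ hb
  have F : ∀ a b c : ℕ, Tri a b c → (fun b => g (tS b)) (a + b) + (fun b => g (tS b)) (a + c) +
      (fun b => g (tS b)) (b + c) ≤ (fun b => g (tS b)) (a + b + c) + (fun b => g (tS b)) a +
      (fun b => g (tS b)) b + (fun b => g (tS b)) c := by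
    rintro a b c ⟨h1, h2, h3, h4, h5, h6, h7, h8, h9, h10⟩
    have := hF (tS a) (tS b) (tS c) (subset_univ _) (subset_univ _) (subset_univ _) h1 h2 h3 h4 h5 h6
    simp only [h7, h8, h9, h10]
    exact this
  obtain ⟨w, hw0, h3, h5, h6, h7, h9, h10, h11, h12, h13, h14, h15, h17, h18, h19, h20, h21, h22, h23, h24, h25, h26, h27, h28, h29, h30, h31⟩ := num5 (fun b => g (tS b))
    (F 1 2 4 (by decide)) (F 1 2 8 (by decide)) (F 1 2 12 (by decide)) (F 1 2 16 (by decide))
    (F 1 2 20 (by decide)) (F 1 2 24 (by decide)) (F 1 2 28 (by decide)) (F 1 4 8 (by decide))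
    (F 1 4 10 (by decide)) (F 1 4 16 (by decide)) (F 1 4 18 (by decide)) (F 1 4 24 (by decide))
    (F 1 4 26 (by decide)) (F 1 6 8 (by decide)) (F 1 6 16 (by decide)) (F 1 6 24 (by decide))
    (F 1 8 16 (by decide)) (F 1 8 18 (by decide)) (F 1 8 20 (by decide)) (F 1 8 22 (by decide))
    (F 1 10 16 (by decide)) (F 1 10 20 (by decide)) (F 1 12 16 (by decide))
    (F 1 12 18 (by decide)) (F 1 14 16 (by decide)) (F 2 4 8 (by decide)) (F 2 4 9 (by decide))
    (F 2 4 16 (by decide)) (F 2 4 17 (by decide)) (F 2 4 24 (by decide)) (F 2 4 25 (by decide))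
    (F 2 5 8 (by decide)) (F 2 5 16 (by decide)) (F 2 5 24 (by decide)) (F 2 8 16 (by decide))
    (F 2 8 17 (by decide)) (F 2 8 20 (by decide)) (F 2 8 21 (by decide)) (F 2 9 16 (by decide))
    (F 2 9 20 (by decide)) (F 2 12 16 (by decide)) (F 2 12 17 (by decide)) (F 2 13 16 (by decide))
    (F 3 4 8 (by decide)) (F 3 4 16 (by decide)) (F 3 4 24 (by decide)) (F 3 8 16 (by decide))
    (F 3 8 20 (by decide)) (F 3 12 16 (by decide)) (F 4 8 16 (by decide)) (F 4 8 17 (by decide))
    (F 4 8 18 (by decide)) (F 4 8 19 (by decide)) (F 4 9 16 (by decide)) (F 4 10 16 (by decide))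
    (F 4 11 16 (by decide)) (F 5 8 16 (by decide)) (F 6 8 16 (by decide)) (F 7 8 16 (by decide))
    (M 1 4 8 ⟨13, by decide, by decide, E13⟩) (M 2 4 8 ⟨14, by decide, by decide, E14⟩)
    (M 1 4 16 ⟨21, by decide, by decide, E21⟩) (M 2 4 16 ⟨22, by decide, by decide, E22⟩)
    (M 1 8 16 ⟨25, by decide, by decide, E25⟩) (M 2 8 16 ⟨26, by decide, by decide, E26⟩)
  have z00 : w 0 0 = 0 := hw0 _ _ (by decide)
  have z10 : w 1 0 = 0 := hw0 _ _ (by decide)
  have z11 : w 1 1 = 0 := hw0 _ _ (by decide)
  have z20 : w 2 0 = 0 := hw0 _ _ (by decide)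
  have z21 : w 2 1 = 0 := hw0 _ _ (by decide)
  have z22 : w 2 2 = 0 := hw0 _ _ (by decide)
  have z30 : w 3 0 = 0 := hw0 _ _ (by decide)
  have z31 : w 3 1 = 0 := hw0 _ _ (by decide)
  have z32 : w 3 2 = 0 := hw0 _ _ (by decide)
  have z33 : w 3 3 = 0 := hw0 _ _ (by decide)
  have z40 : w 4 0 = 0 := hw0 _ _ (by decide)
  have z41 : w 4 1 = 0 := hw0 _ _ (by decide)
  have z42 : w 4 2 = 0 := hw0 _ _ (by decide)
  have z43 : w 4 3 = 0 := hw0 _ _ (by decide)
  have z44 : w 4 4 = 0 := hw0 _ _ (by decide)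
  have h0 : g (tS 0) = 0 := by rw [show tS 0 = ∅ by decide, g0]
  refine ⟨w, fun S _ => ?_, ?_⟩
  · obtain ⟨b, hb, rfl⟩ := exb S
    rw [sumS, sumO]
    interval_cases b
    · simp [Nat.testBit, h0]
    · simp [Fin.sum_univ_five, Nat.testBit, s0]
    · simp [Fin.sum_univ_five, Nat.testBit, s1]
    · simp only [Fin.sum_univ_five]
      simp [Nat.testBit, s0, s1, s2, s3, s4, z00, z10, z11, z20, z21, z22, z30, z31, z32, z33, z40, z41, z42, z43, z44]
      linarith [h3]
    · simp [Fin.sum_univ_five, Nat.testBit, s2]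
    · simp only [Fin.sum_univ_five]
      simp [Nat.testBit, s0, s1, s2, s3, s4, z00, z10, z11, z20, z21, z22, z30, z31, z32, z33, z40, z41, z42, z43, z44]
      linarith [h5]
    · simp only [Fin.sum_univ_five]
      simp [Nat.testBit, s0, s1, s2, s3, s4, z00, z10, z11, z20, z21, z22, z30, z31, z32, z33, z40, z41, z42, z43, z44]
      linarith [h6]
    · simp only [Fin.sum_univ_five]
      simp [Nat.testBit, s0, s1, s2, s3, s4, z00, z10, z11, z20, z21, z22, z30, z31, z32, z33, z40, z41, z42, z43, z44]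
      linarith [h7]
    · simp [Fin.sum_univ_five, Nat.testBit, s3]
    · simp only [Fin.sum_univ_five]
      simp [Nat.testBit, s0, s1, s2, s3, s4, z00, z10, z11, z20, z21, z22, z30, z31, z32, z33, z40, z41, z42, z43, z44]
      linarith [h9]
    · simp only [Fin.sum_univ_five]
      simp [Nat.testBit, s0, s1, s2, s3, s4, z00, z10, z11, z20, z21, z22, z30, z31, z32, z33, z40, z41, z42, z43, z44]
      linarith [h10]
    · simp only [Fin.sum_univ_five]
      simp [Nat.testBit, s0, s1, s2, s3, s4, z00, z10, z11, z20, z21, z22, z30, z31, z32, z33, z40, z41, z42, z43, z44]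
      linarith [h11]
    · simp only [Fin.sum_univ_five]
      simp [Nat.testBit, s0, s1, s2, s3, s4, z00, z10, z11, z20, z21, z22, z30, z31, z32, z33, z40, z41, z42, z43, z44]
      linarith [h12]
    · simp only [Fin.sum_univ_five]
      simp [Nat.testBit, s0, s1, s2, s3, s4, z00, z10, z11, z20, z21, z22, z30, z31, z32, z33, z40, z41, z42, z43, z44]
      linarith [h13]
    · simp only [Fin.sum_univ_five]
      simp [Nat.testBit, s0, s1, s2, s3, s4, z00, z10, z11, z20, z21, z22, z30, z31, z32, z33, z40, z41, z42, z43, z44]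
      linarith [h14]
    · simp only [Fin.sum_univ_five]
      simp [Nat.testBit, s0, s1, s2, s3, s4, z00, z10, z11, z20, z21, z22, z30, z31, z32, z33, z40, z41, z42, z43, z44]
      linarith [h15]
    · simp [Fin.sum_univ_five, Nat.testBit, s4]
    · simp only [Fin.sum_univ_five]
      simp [Nat.testBit, s0, s1, s2, s3, s4, z00, z10, z11, z20, z21, z22, z30, z31, z32, z33, z40, z41, z42, z43, z44]
      linarith [h17]
    · simp only [Fin.sum_univ_five]
      simp [Nat.testBit, s0, s1, s2, s3, s4, z00, z10, z11, z20, z21, z22, z30, z31, z32, z33, z40, z41, z42, z43, z44]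
      linarith [h18]
    · simp only [Fin.sum_univ_five]
      simp [Nat.testBit, s0, s1, s2, s3, s4, z00, z10, z11, z20, z21, z22, z30, z31, z32, z33, z40, z41, z42, z43, z44]
      linarith [h19]
    · simp only [Fin.sum_univ_five]
      simp [Nat.testBit, s0, s1, s2, s3, s4, z00, z10, z11, z20, z21, z22, z30, z31, z32, z33, z40, z41, z42, z43, z44]
      linarith [h20]
    · simp only [Fin.sum_univ_five]
      simp [Nat.testBit, s0, s1, s2, s3, s4, z00, z10, z11, z20, z21, z22, z30, z31, z32, z33, z40, z41, z42, z43, z44]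
      linarith [h21]
    · simp only [Fin.sum_univ_five]
      simp [Nat.testBit, s0, s1, s2, s3, s4, z00, z10, z11, z20, z21, z22, z30, z31, z32, z33, z40, z41, z42, z43, z44]
      linarith [h22]
    · simp only [Fin.sum_univ_five]
      simp [Nat.testBit, s0, s1, s2, s3, s4, z00, z10, z11, z20, z21, z22, z30, z31, z32, z33, z40, z41, z42, z43, z44]
      linarith [h23]
    · simp only [Fin.sum_univ_five]
      simp [Nat.testBit, s0, s1, s2, s3, s4, z00, z10, z11, z20, z21, z22, z30, z31, z32, z33, z40, z41, z42, z43, z44]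
      linarith [h24]
    · simp only [Fin.sum_univ_five]
      simp [Nat.testBit, s0, s1, s2, s3, s4, z00, z10, z11, z20, z21, z22, z30, z31, z32, z33, z40, z41, z42, z43, z44]
      linarith [h25]
    · simp only [Fin.sum_univ_five]
      simp [Nat.testBit, s0, s1, s2, s3, s4, z00, z10, z11, z20, z21, z22, z30, z31, z32, z33, z40, z41, z42, z43, z44]
      linarith [h26]
    · simp only [Fin.sum_univ_five]
      simp [Nat.testBit, s0, s1, s2, s3, s4, z00, z10, z11, z20, z21, z22, z30, z31, z32, z33, z40, z41, z42, z43, z44]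
      linarith [h27]
    · simp only [Fin.sum_univ_five]
      simp [Nat.testBit, s0, s1, s2, s3, s4, z00, z10, z11, z20, z21, z22, z30, z31, z32, z33, z40, z41, z42, z43, z44]
      linarith [h28]
    · simp only [Fin.sum_univ_five]
      simp [Nat.testBit, s0, s1, s2, s3, s4, z00, z10, z11, z20, z21, z22, z30, z31, z32, z33, z40, z41, z42, z43, z44]
      linarith [h29]
    · simp only [Fin.sum_univ_five]
      simp [Nat.testBit, s0, s1, s2, s3, s4, z00, z10, z11, z20, z21, z22, z30, z31, z32, z33, z40, z41, z42, z43, z44]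
      linarith [h30]
    · simp only [Fin.sum_univ_five]
      simp [Nat.testBit, s0, s1, s2, s3, s4, z00, z10, z11, z20, z21, z22, z30, z31, z32, z33, z40, z41, z42, z43, z44]
      linarith [h31]
  · rw [show (univ : Finset (Fin 5)) = tS 31 by decide, sumS, sumO]
    simp only [Fin.sum_univ_five]
    simp [Nat.testBit, s0, s1, s2, s3, s4, z00, z10, z11, z20, z21, z22, z30, z31, z32, z33, z40, z41, z42, z43, z44]
    linarith [h31]

end Pool.Agent.Q83.FC
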