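import Mathlib
import Pool.Agent.Q83.FC.Base5b

set_option autoImplicit false

/-!
# Weights for F-nef functions on at most five classes of marks
-/

namespace Pool.Agent.Q83.FC

open Finset

theorem exists_perm {V : Type} [Fintype V] [DecidableEq V] {A B : Finset V} (h : A.card = B.card) :
    ∃ σ : Equiv.Perm V, A.map σ.toEmbedding = B := by
  have e : {x // x ∈ A} ≃ {x // x ∈ B} := Fintype.equivOfCardEq (by simpa using h)
  refine ⟨Equiv.extendSubtype e, ?_⟩
  refine eq_of_subset_of_card_le ?_ (by rw [card_map, h])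
  intro x hx
  obtain ⟨y, hy, rfl⟩ := mem_map.1 hx
  exact Equiv.extendSubtype_mem e y hy

theorem FN.perm {V : Type} [Fintype V] [DecidableEq V] {g : Finset V → ℝ} (hF : FN univ g)
    (σ : Equiv.Perm V) : FN univ (fun S => g (S.map σ.toEmbedding)) := by
  intro A B C _ _ _ hA hB hC hAB hAC hBC
  have := hF (A.map σ.toEmbedding) (B.map σ.toEmbedding) (C.map σ.toEmbedding) (subset_univ _)
    (subset_univ _) (subset_univ _) (hA.map) (hB.map) (hC.map) ((disjoint_map _).2 hAB)
    ((disjoint_map _).2 hAC) ((disjoint_map _).2 hBC)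
  simpa only [map_union] using this

theorem HasW.perm {V : Type} [Fintype V] [DecidableEq V] {g : Finset V → ℝ} (σ : Equiv.Perm V)
    (h : HasW univ (fun S => g (S.map σ.toEmbedding))) : HasW univ g := by
  obtain ⟨w, h1, h2⟩ := h
  have key : ∀ S : Finset V, ∑ x ∈ S, g {x} + ∑ z ∈ S.offDiag, w (σ.symm z.1) (σ.symm z.2) =
      ∑ x ∈ S.map σ.symm.toEmbedding, g (({x} : Finset V).map σ.toEmbedding) +
        ∑ z ∈ (S.map σ.symm.toEmbedding).offDiag, w z.1 z.2 := by
    intro S
    rw [sum_offDiag S (fun x y => w (σ.symm x) (σ.symm y)), sum_offDiag]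
    simp only [sum_map, map_singleton, Equiv.coe_toEmbedding, Equiv.apply_symm_apply]
  have mm : ∀ S : Finset V, (S.map σ.symm.toEmbedding).map σ.toEmbedding = S := by
    intro S
    ext x
    simp [mem_map]
  refine ⟨fun x y => w (σ.symm x) (σ.symm y), fun S _ => ?_, ?_⟩
  · have h3 := h1 (S.map σ.symm.toEmbedding) (subset_univ _)
    simp only [mm] at h3
    rw [key S]
    exact h3
  · rw [key univ]
    have : (univ : Finset V).map σ.symm.toEmbedding = univ := map_univ_equiv _
    rw [this]
    have h3 : (univ : Finset V).map σ.toEmbedding = univ := map_univ_equiv _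
    simp only [h3] at h2
    exact h2

theorem exc_perm (g : Finset (Fin 5) → ℝ) (σ : Equiv.Perm (Fin 5)) (T : Finset (Fin 5)) :
    exc (fun S => g (S.map σ.toEmbedding)) T = exc g (T.map σ.toEmbedding) := by
  unfold exc
  rw [sum_offDiag T (fun x y => g (({x, y} : Finset (Fin 5)).map σ.toEmbedding)),
    sum_offDiag (T.map σ.toEmbedding) (fun x y => g ({x, y} : Finset (Fin 5)))]
  simp only [sum_map, map_singleton, map_insert, Equiv.coe_toEmbedding]

/-- Every F-nef function on five marks has weights. -/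
theorem base5 (g : Finset (Fin 5) → ℝ) (g0 : g ∅ = 0) (hF : FN univ g) : HasW univ g := by
  obtain ⟨T0, hT0, hmax⟩ := exists_max_image (powersetCard 3 (univ : Finset (Fin 5))) (exc g)
    ⟨tS 28, mem_powersetCard.2 ⟨subset_univ _, by decide⟩⟩
  obtain ⟨σ, hσ⟩ := exists_perm (A := tS 28) (B := T0)
    (by rw [(mem_powersetCard.1 hT0).2]; decide)
  refine HasW.perm σ (base5_max (by simp [g0]) (hF.perm σ) fun T hT => ?_)
  rw [exc_perm, exc_perm, hσ]
  exact hmax _ (mem_powersetCard.2 ⟨subset_univ _, by rw [card_map, hT]⟩)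

end Pool.Agent.Q83.FC
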