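import Mathlib
import Pool.Agent.Q83.FC.Core

set_option autoImplicit false

/-!
# Weights for F-nef functions on six marks
-/

namespace Pool.Agent.Q83.FC

open Finset

/-- The set of marks given by the binary digits of a number. -/
def tS6 (b : ℕ) : Finset (Fin 6) := univ.filter fun i => b.testBit i = true

/-- The conditions on three binary numbers to describe disjoint nonempty sets of marks. -/
def Tri6 (a b c : ℕ) : Prop := (tS6 a).Nonempty ∧ (tS6 b).Nonempty ∧ (tS6 c).Nonempty ∧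
  Disjoint (tS6 a) (tS6 b) ∧ Disjoint (tS6 a) (tS6 c) ∧ Disjoint (tS6 b) (tS6 c) ∧
  tS6 (a + b) = tS6 a ∪ tS6 b ∧ tS6 (a + c) = tS6 a ∪ tS6 c ∧ tS6 (b + c) = tS6 b ∪ tS6 c ∧
  tS6 (a + b + c) = tS6 a ∪ tS6 b ∪ tS6 c

instance (a b c : ℕ) : Decidable (Tri6 a b c) := by unfold Tri6; infer_instance

end Pool.Agent.Q83.FC
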