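import Mathlib
import Pool.Agent.Q83.FC.Base6

set_option autoImplicit false

/-!
# Weights for F-nef functions on six marks: certificates
-/

namespace Pool.Agent.Q83.FC

open Finset

theorem num6A (G : ℕ → ℝ)
    (F : ∀ a b c : ℕ, Tri6 a b c → G (a + b) + G (a + c) + G (b + c) ≤
      G (a + b + c) + G a + G b + G c)
    (M_11 : (G 31 + G 1 + G 6 + G 24 - G 7 - G 25 - G 30) + (G 47 + G 1 + G 6 + G 40 - G 7 - G 41 - G 46) + (G 55 + G 1 + G 6 + G 48 - G 7 - G 49 - G 54) + (G 31 + G 2 + G 5 + G 24 - G 7 - G 26 - G 29) + (G 47 + G 2 + G 5 + G 40 - G 7 - G 42 - G 45) + (G 55 + G 2 + G 5 + G 48 - G 7 - G 50 - G 53) + (G 31 + G 3 + G 4 + G 24 - G 7 - G 27 - G 28) + (G 47 + G 3 + G 4 + G 40 - G 7 - G 43 - G 44) + (G 55 + G 3 + G 4 + G 48 - G 7 - G 51 - G 52) ≤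
      (G 31 + G 1 + G 10 + G 20 - G 11 - G 21 - G 30) + (G 47 + G 1 + G 10 + G 36 - G 11 - G 37 - G 46) + (G 59 + G 1 + G 10 + G 48 - G 11 - G 49 - G 58) + (G 31 + G 2 + G 9 + G 20 - G 11 - G 22 - G 29) + (G 47 + G 2 + G 9 + G 36 - G 11 - G 38 - G 45) + (G 59 + G 2 + G 9 + G 48 - G 11 - G 50 - G 57) + (G 31 + G 3 + G 8 + G 20 - G 11 - G 23 - G 28) + (G 47 + G 3 + G 8 + G 36 - G 11 - G 39 - G 44) + (G 59 + G 3 + G 8 + G 48 - G 11 - G 51 - G 56))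
    (M_13 : (G 31 + G 1 + G 6 + G 24 - G 7 - G 25 - G 30) + (G 47 + G 1 + G 6 + G 40 - G 7 - G 41 - G 46) + (G 55 + G 1 + G 6 + G 48 - G 7 - G 49 - G 54) + (G 31 + G 2 + G 5 + G 24 - G 7 - G 26 - G 29) + (G 47 + G 2 + G 5 + G 40 - G 7 - G 42 - G 45) + (G 55 + G 2 + G 5 + G 48 - G 7 - G 50 - G 53) + (G 31 + G 3 + G 4 + G 24 - G 7 - G 27 - G 28) + (G 47 + G 3 + G 4 + G 40 - G 7 - G 43 - G 44) + (G 55 + G 3 + G 4 + G 48 - G 7 - G 51 - G 52) ≤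
      (G 31 + G 1 + G 12 + G 18 - G 13 - G 19 - G 30) + (G 47 + G 1 + G 12 + G 34 - G 13 - G 35 - G 46) + (G 61 + G 1 + G 12 + G 48 - G 13 - G 49 - G 60) + (G 31 + G 4 + G 9 + G 18 - G 13 - G 22 - G 27) + (G 47 + G 4 + G 9 + G 34 - G 13 - G 38 - G 43) + (G 61 + G 4 + G 9 + G 48 - G 13 - G 52 - G 57) + (G 31 + G 5 + G 8 + G 18 - G 13 - G 23 - G 26) + (G 47 + G 5 + G 8 + G 34 - G 13 - G 39 - G 42) + (G 61 + G 5 + G 8 + G 48 - G 13 - G 53 - G 56))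
    (M_14 : (G 31 + G 1 + G 6 + G 24 - G 7 - G 25 - G 30) + (G 47 + G 1 + G 6 + G 40 - G 7 - G 41 - G 46) + (G 55 + G 1 + G 6 + G 48 - G 7 - G 49 - G 54) + (G 31 + G 2 + G 5 + G 24 - G 7 - G 26 - G 29) + (G 47 + G 2 + G 5 + G 40 - G 7 - G 42 - G 45) + (G 55 + G 2 + G 5 + G 48 - G 7 - G 50 - G 53) + (G 31 + G 3 + G 4 + G 24 - G 7 - G 27 - G 28) + (G 47 + G 3 + G 4 + G 40 - G 7 - G 43 - G 44) + (G 55 + G 3 + G 4 + G 48 - G 7 - G 51 - G 52) ≤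
      (G 31 + G 2 + G 12 + G 17 - G 14 - G 19 - G 29) + (G 47 + G 2 + G 12 + G 33 - G 14 - G 35 - G 45) + (G 62 + G 2 + G 12 + G 48 - G 14 - G 50 - G 60) + (G 31 + G 4 + G 10 + G 17 - G 14 - G 21 - G 27) + (G 47 + G 4 + G 10 + G 33 - G 14 - G 37 - G 43) + (G 62 + G 4 + G 10 + G 48 - G 14 - G 52 - G 58) + (G 31 + G 6 + G 8 + G 17 - G 14 - G 23 - G 25) + (G 47 + G 6 + G 8 + G 33 - G 14 - G 39 - G 41) + (G 62 + G 6 + G 8 + G 48 - G 14 - G 54 - G 56))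
    (M_19 : (G 31 + G 1 + G 6 + G 24 - G 7 - G 25 - G 30) + (G 47 + G 1 + G 6 + G 40 - G 7 - G 41 - G 46) + (G 55 + G 1 + G 6 + G 48 - G 7 - G 49 - G 54) + (G 31 + G 2 + G 5 + G 24 - G 7 - G 26 - G 29) + (G 47 + G 2 + G 5 + G 40 - G 7 - G 42 - G 45) + (G 55 + G 2 + G 5 + G 48 - G 7 - G 50 - G 53) + (G 31 + G 3 + G 4 + G 24 - G 7 - G 27 - G 28) + (G 47 + G 3 + G 4 + G 40 - G 7 - G 43 - G 44) + (G 55 + G 3 + G 4 + G 48 - G 7 - G 51 - G 52) ≤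
      (G 31 + G 1 + G 12 + G 18 - G 13 - G 19 - G 30) + (G 55 + G 1 + G 18 + G 36 - G 19 - G 37 - G 54) + (G 59 + G 1 + G 18 + G 40 - G 19 - G 41 - G 58) + (G 31 + G 2 + G 12 + G 17 - G 14 - G 19 - G 29) + (G 55 + G 2 + G 17 + G 36 - G 19 - G 38 - G 53) + (G 59 + G 2 + G 17 + G 40 - G 19 - G 42 - G 57) + (G 31 + G 3 + G 12 + G 16 - G 15 - G 19 - G 28) + (G 55 + G 3 + G 16 + G 36 - G 19 - G 39 - G 52) + (G 59 + G 3 + G 16 + G 40 - G 19 - G 43 - G 56))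
    (M_21 : (G 31 + G 1 + G 6 + G 24 - G 7 - G 25 - G 30) + (G 47 + G 1 + G 6 + G 40 - G 7 - G 41 - G 46) + (G 55 + G 1 + G 6 + G 48 - G 7 - G 49 - G 54) + (G 31 + G 2 + G 5 + G 24 - G 7 - G 26 - G 29) + (G 47 + G 2 + G 5 + G 40 - G 7 - G 42 - G 45) + (G 55 + G 2 + G 5 + G 48 - G 7 - G 50 - G 53) + (G 31 + G 3 + G 4 + G 24 - G 7 - G 27 - G 28) + (G 47 + G 3 + G 4 + G 40 - G 7 - G 43 - G 44) + (G 55 + G 3 + G 4 + G 48 - G 7 - G 51 - G 52) ≤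
      (G 31 + G 1 + G 10 + G 20 - G 11 - G 21 - G 30) + (G 55 + G 1 + G 20 + G 34 - G 21 - G 35 - G 54) + (G 61 + G 1 + G 20 + G 40 - G 21 - G 41 - G 60) + (G 31 + G 4 + G 10 + G 17 - G 14 - G 21 - G 27) + (G 55 + G 4 + G 17 + G 34 - G 21 - G 38 - G 51) + (G 61 + G 4 + G 17 + G 40 - G 21 - G 44 - G 57) + (G 31 + G 5 + G 10 + G 16 - G 15 - G 21 - G 26) + (G 55 + G 5 + G 16 + G 34 - G 21 - G 39 - G 50) + (G 61 + G 5 + G 16 + G 40 - G 21 - G 45 - G 56))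
    (M_22 : (G 31 + G 1 + G 6 + G 24 - G 7 - G 25 - G 30) + (G 47 + G 1 + G 6 + G 40 - G 7 - G 41 - G 46) + (G 55 + G 1 + G 6 + G 48 - G 7 - G 49 - G 54) + (G 31 + G 2 + G 5 + G 24 - G 7 - G 26 - G 29) + (G 47 + G 2 + G 5 + G 40 - G 7 - G 42 - G 45) + (G 55 + G 2 + G 5 + G 48 - G 7 - G 50 - G 53) + (G 31 + G 3 + G 4 + G 24 - G 7 - G 27 - G 28) + (G 47 + G 3 + G 4 + G 40 - G 7 - G 43 - G 44) + (G 55 + G 3 + G 4 + G 48 - G 7 - G 51 - G 52) ≤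
      (G 31 + G 2 + G 9 + G 20 - G 11 - G 22 - G 29) + (G 55 + G 2 + G 20 + G 33 - G 22 - G 35 - G 53) + (G 62 + G 2 + G 20 + G 40 - G 22 - G 42 - G 60) + (G 31 + G 4 + G 9 + G 18 - G 13 - G 22 - G 27) + (G 55 + G 4 + G 18 + G 33 - G 22 - G 37 - G 51) + (G 62 + G 4 + G 18 + G 40 - G 22 - G 44 - G 58) + (G 31 + G 6 + G 9 + G 16 - G 15 - G 22 - G 25) + (G 55 + G 6 + G 16 + G 33 - G 22 - G 39 - G 49) + (G 62 + G 6 + G 16 + G 40 - G 22 - G 46 - G 56))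
    (M_25 : (G 31 + G 1 + G 6 + G 24 - G 7 - G 25 - G 30) + (G 47 + G 1 + G 6 + G 40 - G 7 - G 41 - G 46) + (G 55 + G 1 + G 6 + G 48 - G 7 - G 49 - G 54) + (G 31 + G 2 + G 5 + G 24 - G 7 - G 26 - G 29) + (G 47 + G 2 + G 5 + G 40 - G 7 - G 42 - G 45) + (G 55 + G 2 + G 5 + G 48 - G 7 - G 50 - G 53) + (G 31 + G 3 + G 4 + G 24 - G 7 - G 27 - G 28) + (G 47 + G 3 + G 4 + G 40 - G 7 - G 43 - G 44) + (G 55 + G 3 + G 4 + G 48 - G 7 - G 51 - G 52) ≤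
      (G 31 + G 1 + G 6 + G 24 - G 7 - G 25 - G 30) + (G 59 + G 1 + G 24 + G 34 - G 25 - G 35 - G 58) + (G 61 + G 1 + G 24 + G 36 - G 25 - G 37 - G 60) + (G 31 + G 6 + G 8 + G 17 - G 14 - G 23 - G 25) + (G 31 + G 6 + G 9 + G 16 - G 15 - G 22 - G 25) + (G 59 + G 8 + G 17 + G 34 - G 25 - G 42 - G 51) + (G 61 + G 8 + G 17 + G 36 - G 25 - G 44 - G 53) + (G 59 + G 9 + G 16 + G 34 - G 25 - G 43 - G 50) + (G 61 + G 9 + G 16 + G 36 - G 25 - G 45 - G 52))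
    (M_26 : (G 31 + G 1 + G 6 + G 24 - G 7 - G 25 - G 30) + (G 47 + G 1 + G 6 + G 40 - G 7 - G 41 - G 46) + (G 55 + G 1 + G 6 + G 48 - G 7 - G 49 - G 54) + (G 31 + G 2 + G 5 + G 24 - G 7 - G 26 - G 29) + (G 47 + G 2 + G 5 + G 40 - G 7 - G 42 - G 45) + (G 55 + G 2 + G 5 + G 48 - G 7 - G 50 - G 53) + (G 31 + G 3 + G 4 + G 24 - G 7 - G 27 - G 28) + (G 47 + G 3 + G 4 + G 40 - G 7 - G 43 - G 44) + (G 55 + G 3 + G 4 + G 48 - G 7 - G 51 - G 52) ≤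
      (G 31 + G 2 + G 5 + G 24 - G 7 - G 26 - G 29) + (G 59 + G 2 + G 24 + G 33 - G 26 - G 35 - G 57) + (G 62 + G 2 + G 24 + G 36 - G 26 - G 38 - G 60) + (G 31 + G 5 + G 8 + G 18 - G 13 - G 23 - G 26) + (G 31 + G 5 + G 10 + G 16 - G 15 - G 21 - G 26) + (G 59 + G 8 + G 18 + G 33 - G 26 - G 41 - G 51) + (G 62 + G 8 + G 18 + G 36 - G 26 - G 44 - G 54) + (G 59 + G 10 + G 16 + G 33 - G 26 - G 43 - G 49) + (G 62 + G 10 + G 16 + G 36 - G 26 - G 46 - G 52))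
    (M_28 : (G 31 + G 1 + G 6 + G 24 - G 7 - G 25 - G 30) + (G 47 + G 1 + G 6 + G 40 - G 7 - G 41 - G 46) + (G 55 + G 1 + G 6 + G 48 - G 7 - G 49 - G 54) + (G 31 + G 2 + G 5 + G 24 - G 7 - G 26 - G 29) + (G 47 + G 2 + G 5 + G 40 - G 7 - G 42 - G 45) + (G 55 + G 2 + G 5 + G 48 - G 7 - G 50 - G 53) + (G 31 + G 3 + G 4 + G 24 - G 7 - G 27 - G 28) + (G 47 + G 3 + G 4 + G 40 - G 7 - G 43 - G 44) + (G 55 + G 3 + G 4 + G 48 - G 7 - G 51 - G 52) ≤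
      (G 31 + G 3 + G 4 + G 24 - G 7 - G 27 - G 28) + (G 31 + G 3 + G 8 + G 20 - G 11 - G 23 - G 28) + (G 31 + G 3 + G 12 + G 16 - G 15 - G 19 - G 28) + (G 61 + G 4 + G 24 + G 33 - G 28 - G 37 - G 57) + (G 62 + G 4 + G 24 + G 34 - G 28 - G 38 - G 58) + (G 61 + G 8 + G 20 + G 33 - G 28 - G 41 - G 53) + (G 62 + G 8 + G 20 + G 34 - G 28 - G 42 - G 54) + (G 61 + G 12 + G 16 + G 33 - G 28 - G 45 - G 49) + (G 62 + G 12 + G 16 + G 34 - G 28 - G 46 - G 50))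
    (M_35 : (G 31 + G 1 + G 6 + G 24 - G 7 - G 25 - G 30) + (G 47 + G 1 + G 6 + G 40 - G 7 - G 41 - G 46) + (G 55 + G 1 + G 6 + G 48 - G 7 - G 49 - G 54) + (G 31 + G 2 + G 5 + G 24 - G 7 - G 26 - G 29) + (G 47 + G 2 + G 5 + G 40 - G 7 - G 42 - G 45) + (G 55 + G 2 + G 5 + G 48 - G 7 - G 50 - G 53) + (G 31 + G 3 + G 4 + G 24 - G 7 - G 27 - G 28) + (G 47 + G 3 + G 4 + G 40 - G 7 - G 43 - G 44) + (G 55 + G 3 + G 4 + G 48 - G 7 - G 51 - G 52) ≤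
      (G 47 + G 1 + G 12 + G 34 - G 13 - G 35 - G 46) + (G 55 + G 1 + G 20 + G 34 - G 21 - G 35 - G 54) + (G 59 + G 1 + G 24 + G 34 - G 25 - G 35 - G 58) + (G 47 + G 2 + G 12 + G 33 - G 14 - G 35 - G 45) + (G 55 + G 2 + G 20 + G 33 - G 22 - G 35 - G 53) + (G 59 + G 2 + G 24 + G 33 - G 26 - G 35 - G 57) + (G 47 + G 3 + G 12 + G 32 - G 15 - G 35 - G 44) + (G 55 + G 3 + G 20 + G 32 - G 23 - G 35 - G 52) + (G 59 + G 3 + G 24 + G 32 - G 27 - G 35 - G 56))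
    (M_37 : (G 31 + G 1 + G 6 + G 24 - G 7 - G 25 - G 30) + (G 47 + G 1 + G 6 + G 40 - G 7 - G 41 - G 46) + (G 55 + G 1 + G 6 + G 48 - G 7 - G 49 - G 54) + (G 31 + G 2 + G 5 + G 24 - G 7 - G 26 - G 29) + (G 47 + G 2 + G 5 + G 40 - G 7 - G 42 - G 45) + (G 55 + G 2 + G 5 + G 48 - G 7 - G 50 - G 53) + (G 31 + G 3 + G 4 + G 24 - G 7 - G 27 - G 28) + (G 47 + G 3 + G 4 + G 40 - G 7 - G 43 - G 44) + (G 55 + G 3 + G 4 + G 48 - G 7 - G 51 - G 52) ≤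
      (G 47 + G 1 + G 10 + G 36 - G 11 - G 37 - G 46) + (G 55 + G 1 + G 18 + G 36 - G 19 - G 37 - G 54) + (G 61 + G 1 + G 24 + G 36 - G 25 - G 37 - G 60) + (G 47 + G 4 + G 10 + G 33 - G 14 - G 37 - G 43) + (G 55 + G 4 + G 18 + G 33 - G 22 - G 37 - G 51) + (G 61 + G 4 + G 24 + G 33 - G 28 - G 37 - G 57) + (G 47 + G 5 + G 10 + G 32 - G 15 - G 37 - G 42) + (G 55 + G 5 + G 18 + G 32 - G 23 - G 37 - G 50) + (G 61 + G 5 + G 24 + G 32 - G 29 - G 37 - G 56))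
    (M_38 : (G 31 + G 1 + G 6 + G 24 - G 7 - G 25 - G 30) + (G 47 + G 1 + G 6 + G 40 - G 7 - G 41 - G 46) + (G 55 + G 1 + G 6 + G 48 - G 7 - G 49 - G 54) + (G 31 + G 2 + G 5 + G 24 - G 7 - G 26 - G 29) + (G 47 + G 2 + G 5 + G 40 - G 7 - G 42 - G 45) + (G 55 + G 2 + G 5 + G 48 - G 7 - G 50 - G 53) + (G 31 + G 3 + G 4 + G 24 - G 7 - G 27 - G 28) + (G 47 + G 3 + G 4 + G 40 - G 7 - G 43 - G 44) + (G 55 + G 3 + G 4 + G 48 - G 7 - G 51 - G 52) ≤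
      (G 47 + G 2 + G 9 + G 36 - G 11 - G 38 - G 45) + (G 55 + G 2 + G 17 + G 36 - G 19 - G 38 - G 53) + (G 62 + G 2 + G 24 + G 36 - G 26 - G 38 - G 60) + (G 47 + G 4 + G 9 + G 34 - G 13 - G 38 - G 43) + (G 55 + G 4 + G 17 + G 34 - G 21 - G 38 - G 51) + (G 62 + G 4 + G 24 + G 34 - G 28 - G 38 - G 58) + (G 47 + G 6 + G 9 + G 32 - G 15 - G 38 - G 41) + (G 55 + G 6 + G 17 + G 32 - G 23 - G 38 - G 49) + (G 62 + G 6 + G 24 + G 32 - G 30 - G 38 - G 56))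
    (M_41 : (G 31 + G 1 + G 6 + G 24 - G 7 - G 25 - G 30) + (G 47 + G 1 + G 6 + G 40 - G 7 - G 41 - G 46) + (G 55 + G 1 + G 6 + G 48 - G 7 - G 49 - G 54) + (G 31 + G 2 + G 5 + G 24 - G 7 - G 26 - G 29) + (G 47 + G 2 + G 5 + G 40 - G 7 - G 42 - G 45) + (G 55 + G 2 + G 5 + G 48 - G 7 - G 50 - G 53) + (G 31 + G 3 + G 4 + G 24 - G 7 - G 27 - G 28) + (G 47 + G 3 + G 4 + G 40 - G 7 - G 43 - G 44) + (G 55 + G 3 + G 4 + G 48 - G 7 - G 51 - G 52) ≤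
      (G 47 + G 1 + G 6 + G 40 - G 7 - G 41 - G 46) + (G 59 + G 1 + G 18 + G 40 - G 19 - G 41 - G 58) + (G 61 + G 1 + G 20 + G 40 - G 21 - G 41 - G 60) + (G 47 + G 6 + G 8 + G 33 - G 14 - G 39 - G 41) + (G 47 + G 6 + G 9 + G 32 - G 15 - G 38 - G 41) + (G 59 + G 8 + G 18 + G 33 - G 26 - G 41 - G 51) + (G 61 + G 8 + G 20 + G 33 - G 28 - G 41 - G 53) + (G 59 + G 9 + G 18 + G 32 - G 27 - G 41 - G 50) + (G 61 + G 9 + G 20 + G 32 - G 29 - G 41 - G 52))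
    (M_42 : (G 31 + G 1 + G 6 + G 24 - G 7 - G 25 - G 30) + (G 47 + G 1 + G 6 + G 40 - G 7 - G 41 - G 46) + (G 55 + G 1 + G 6 + G 48 - G 7 - G 49 - G 54) + (G 31 + G 2 + G 5 + G 24 - G 7 - G 26 - G 29) + (G 47 + G 2 + G 5 + G 40 - G 7 - G 42 - G 45) + (G 55 + G 2 + G 5 + G 48 - G 7 - G 50 - G 53) + (G 31 + G 3 + G 4 + G 24 - G 7 - G 27 - G 28) + (G 47 + G 3 + G 4 + G 40 - G 7 - G 43 - G 44) + (G 55 + G 3 + G 4 + G 48 - G 7 - G 51 - G 52) ≤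
      (G 47 + G 2 + G 5 + G 40 - G 7 - G 42 - G 45) + (G 59 + G 2 + G 17 + G 40 - G 19 - G 42 - G 57) + (G 62 + G 2 + G 20 + G 40 - G 22 - G 42 - G 60) + (G 47 + G 5 + G 8 + G 34 - G 13 - G 39 - G 42) + (G 47 + G 5 + G 10 + G 32 - G 15 - G 37 - G 42) + (G 59 + G 8 + G 17 + G 34 - G 25 - G 42 - G 51) + (G 62 + G 8 + G 20 + G 34 - G 28 - G 42 - G 54) + (G 59 + G 10 + G 17 + G 32 - G 27 - G 42 - G 49) + (G 62 + G 10 + G 20 + G 32 - G 30 - G 42 - G 52))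
    (M_44 : (G 31 + G 1 + G 6 + G 24 - G 7 - G 25 - G 30) + (G 47 + G 1 + G 6 + G 40 - G 7 - G 41 - G 46) + (G 55 + G 1 + G 6 + G 48 - G 7 - G 49 - G 54) + (G 31 + G 2 + G 5 + G 24 - G 7 - G 26 - G 29) + (G 47 + G 2 + G 5 + G 40 - G 7 - G 42 - G 45) + (G 55 + G 2 + G 5 + G 48 - G 7 - G 50 - G 53) + (G 31 + G 3 + G 4 + G 24 - G 7 - G 27 - G 28) + (G 47 + G 3 + G 4 + G 40 - G 7 - G 43 - G 44) + (G 55 + G 3 + G 4 + G 48 - G 7 - G 51 - G 52) ≤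
      (G 47 + G 3 + G 4 + G 40 - G 7 - G 43 - G 44) + (G 47 + G 3 + G 8 + G 36 - G 11 - G 39 - G 44) + (G 47 + G 3 + G 12 + G 32 - G 15 - G 35 - G 44) + (G 61 + G 4 + G 17 + G 40 - G 21 - G 44 - G 57) + (G 62 + G 4 + G 18 + G 40 - G 22 - G 44 - G 58) + (G 61 + G 8 + G 17 + G 36 - G 25 - G 44 - G 53) + (G 62 + G 8 + G 18 + G 36 - G 26 - G 44 - G 54) + (G 61 + G 12 + G 17 + G 32 - G 29 - G 44 - G 49) + (G 62 + G 12 + G 18 + G 32 - G 30 - G 44 - G 50))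
    (M_49 : (G 31 + G 1 + G 6 + G 24 - G 7 - G 25 - G 30) + (G 47 + G 1 + G 6 + G 40 - G 7 - G 41 - G 46) + (G 55 + G 1 + G 6 + G 48 - G 7 - G 49 - G 54) + (G 31 + G 2 + G 5 + G 24 - G 7 - G 26 - G 29) + (G 47 + G 2 + G 5 + G 40 - G 7 - G 42 - G 45) + (G 55 + G 2 + G 5 + G 48 - G 7 - G 50 - G 53) + (G 31 + G 3 + G 4 + G 24 - G 7 - G 27 - G 28) + (G 47 + G 3 + G 4 + G 40 - G 7 - G 43 - G 44) + (G 55 + G 3 + G 4 + G 48 - G 7 - G 51 - G 52) ≤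
      (G 55 + G 1 + G 6 + G 48 - G 7 - G 49 - G 54) + (G 59 + G 1 + G 10 + G 48 - G 11 - G 49 - G 58) + (G 61 + G 1 + G 12 + G 48 - G 13 - G 49 - G 60) + (G 55 + G 6 + G 16 + G 33 - G 22 - G 39 - G 49) + (G 55 + G 6 + G 17 + G 32 - G 23 - G 38 - G 49) + (G 59 + G 10 + G 16 + G 33 - G 26 - G 43 - G 49) + (G 59 + G 10 + G 17 + G 32 - G 27 - G 42 - G 49) + (G 61 + G 12 + G 16 + G 33 - G 28 - G 45 - G 49) + (G 61 + G 12 + G 17 + G 32 - G 29 - G 44 - G 49))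
    (M_50 : (G 31 + G 1 + G 6 + G 24 - G 7 - G 25 - G 30) + (G 47 + G 1 + G 6 + G 40 - G 7 - G 41 - G 46) + (G 55 + G 1 + G 6 + G 48 - G 7 - G 49 - G 54) + (G 31 + G 2 + G 5 + G 24 - G 7 - G 26 - G 29) + (G 47 + G 2 + G 5 + G 40 - G 7 - G 42 - G 45) + (G 55 + G 2 + G 5 + G 48 - G 7 - G 50 - G 53) + (G 31 + G 3 + G 4 + G 24 - G 7 - G 27 - G 28) + (G 47 + G 3 + G 4 + G 40 - G 7 - G 43 - G 44) + (G 55 + G 3 + G 4 + G 48 - G 7 - G 51 - G 52) ≤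
      (G 55 + G 2 + G 5 + G 48 - G 7 - G 50 - G 53) + (G 59 + G 2 + G 9 + G 48 - G 11 - G 50 - G 57) + (G 62 + G 2 + G 12 + G 48 - G 14 - G 50 - G 60) + (G 55 + G 5 + G 16 + G 34 - G 21 - G 39 - G 50) + (G 55 + G 5 + G 18 + G 32 - G 23 - G 37 - G 50) + (G 59 + G 9 + G 16 + G 34 - G 25 - G 43 - G 50) + (G 59 + G 9 + G 18 + G 32 - G 27 - G 41 - G 50) + (G 62 + G 12 + G 16 + G 34 - G 28 - G 46 - G 50) + (G 62 + G 12 + G 18 + G 32 - G 30 - G 44 - G 50))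
    (M_52 : (G 31 + G 1 + G 6 + G 24 - G 7 - G 25 - G 30) + (G 47 + G 1 + G 6 + G 40 - G 7 - G 41 - G 46) + (G 55 + G 1 + G 6 + G 48 - G 7 - G 49 - G 54) + (G 31 + G 2 + G 5 + G 24 - G 7 - G 26 - G 29) + (G 47 + G 2 + G 5 + G 40 - G 7 - G 42 - G 45) + (G 55 + G 2 + G 5 + G 48 - G 7 - G 50 - G 53) + (G 31 + G 3 + G 4 + G 24 - G 7 - G 27 - G 28) + (G 47 + G 3 + G 4 + G 40 - G 7 - G 43 - G 44) + (G 55 + G 3 + G 4 + G 48 - G 7 - G 51 - G 52) ≤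
      (G 55 + G 3 + G 4 + G 48 - G 7 - G 51 - G 52) + (G 55 + G 3 + G 16 + G 36 - G 19 - G 39 - G 52) + (G 55 + G 3 + G 20 + G 32 - G 23 - G 35 - G 52) + (G 61 + G 4 + G 9 + G 48 - G 13 - G 52 - G 57) + (G 62 + G 4 + G 10 + G 48 - G 14 - G 52 - G 58) + (G 61 + G 9 + G 16 + G 36 - G 25 - G 45 - G 52) + (G 61 + G 9 + G 20 + G 32 - G 29 - G 41 - G 52) + (G 62 + G 10 + G 16 + G 36 - G 26 - G 46 - G 52) + (G 62 + G 10 + G 20 + G 32 - G 30 - G 42 - G 52))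
    (M_56 : (G 31 + G 1 + G 6 + G 24 - G 7 - G 25 - G 30) + (G 47 + G 1 + G 6 + G 40 - G 7 - G 41 - G 46) + (G 55 + G 1 + G 6 + G 48 - G 7 - G 49 - G 54) + (G 31 + G 2 + G 5 + G 24 - G 7 - G 26 - G 29) + (G 47 + G 2 + G 5 + G 40 - G 7 - G 42 - G 45) + (G 55 + G 2 + G 5 + G 48 - G 7 - G 50 - G 53) + (G 31 + G 3 + G 4 + G 24 - G 7 - G 27 - G 28) + (G 47 + G 3 + G 4 + G 40 - G 7 - G 43 - G 44) + (G 55 + G 3 + G 4 + G 48 - G 7 - G 51 - G 52) ≤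
      (G 59 + G 3 + G 8 + G 48 - G 11 - G 51 - G 56) + (G 59 + G 3 + G 16 + G 40 - G 19 - G 43 - G 56) + (G 59 + G 3 + G 24 + G 32 - G 27 - G 35 - G 56) + (G 61 + G 5 + G 8 + G 48 - G 13 - G 53 - G 56) + (G 61 + G 5 + G 16 + G 40 - G 21 - G 45 - G 56) + (G 61 + G 5 + G 24 + G 32 - G 29 - G 37 - G 56) + (G 62 + G 6 + G 8 + G 48 - G 14 - G 54 - G 56) + (G 62 + G 6 + G 16 + G 40 - G 22 - G 46 - G 56) + (G 62 + G 6 + G 24 + G 32 - G 30 - G 38 - G 56))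
    (M_67 : (G 31 + G 1 + G 6 + G 24 - G 7 - G 25 - G 30) + (G 47 + G 1 + G 6 + G 40 - G 7 - G 41 - G 46) + (G 55 + G 1 + G 6 + G 48 - G 7 - G 49 - G 54) + (G 31 + G 2 + G 5 + G 24 - G 7 - G 26 - G 29) + (G 47 + G 2 + G 5 + G 40 - G 7 - G 42 - G 45) + (G 55 + G 2 + G 5 + G 48 - G 7 - G 50 - G 53) + (G 31 + G 3 + G 4 + G 24 - G 7 - G 27 - G 28) + (G 47 + G 3 + G 4 + G 40 - G 7 - G 43 - G 44) + (G 55 + G 3 + G 4 + G 48 - G 7 - G 51 - G 52) ≤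
      (G 61 + G 1 + G 12 + G 48 - G 13 - G 49 - G 60) + (G 61 + G 1 + G 20 + G 40 - G 21 - G 41 - G 60) + (G 61 + G 1 + G 24 + G 36 - G 25 - G 37 - G 60) + (G 62 + G 2 + G 12 + G 48 - G 14 - G 50 - G 60) + (G 62 + G 2 + G 20 + G 40 - G 22 - G 42 - G 60) + (G 62 + G 2 + G 24 + G 36 - G 26 - G 38 - G 60) + (G 63 + G 3 + G 12 + G 48 - G 15 - G 51 - G 60) + (G 63 + G 3 + G 20 + G 40 - G 23 - G 43 - G 60) + (G 63 + G 3 + G 24 + G 36 - G 27 - G 39 - G 60))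
    (M_69 : (G 31 + G 1 + G 6 + G 24 - G 7 - G 25 - G 30) + (G 47 + G 1 + G 6 + G 40 - G 7 - G 41 - G 46) + (G 55 + G 1 + G 6 + G 48 - G 7 - G 49 - G 54) + (G 31 + G 2 + G 5 + G 24 - G 7 - G 26 - G 29) + (G 47 + G 2 + G 5 + G 40 - G 7 - G 42 - G 45) + (G 55 + G 2 + G 5 + G 48 - G 7 - G 50 - G 53) + (G 31 + G 3 + G 4 + G 24 - G 7 - G 27 - G 28) + (G 47 + G 3 + G 4 + G 40 - G 7 - G 43 - G 44) + (G 55 + G 3 + G 4 + G 48 - G 7 - G 51 - G 52) ≤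
      (G 59 + G 1 + G 10 + G 48 - G 11 - G 49 - G 58) + (G 59 + G 1 + G 18 + G 40 - G 19 - G 41 - G 58) + (G 59 + G 1 + G 24 + G 34 - G 25 - G 35 - G 58) + (G 62 + G 4 + G 10 + G 48 - G 14 - G 52 - G 58) + (G 62 + G 4 + G 18 + G 40 - G 22 - G 44 - G 58) + (G 62 + G 4 + G 24 + G 34 - G 28 - G 38 - G 58) + (G 63 + G 5 + G 10 + G 48 - G 15 - G 53 - G 58) + (G 63 + G 5 + G 18 + G 40 - G 23 - G 45 - G 58) + (G 63 + G 5 + G 24 + G 34 - G 29 - G 39 - G 58))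
    (M_70 : (G 31 + G 1 + G 6 + G 24 - G 7 - G 25 - G 30) + (G 47 + G 1 + G 6 + G 40 - G 7 - G 41 - G 46) + (G 55 + G 1 + G 6 + G 48 - G 7 - G 49 - G 54) + (G 31 + G 2 + G 5 + G 24 - G 7 - G 26 - G 29) + (G 47 + G 2 + G 5 + G 40 - G 7 - G 42 - G 45) + (G 55 + G 2 + G 5 + G 48 - G 7 - G 50 - G 53) + (G 31 + G 3 + G 4 + G 24 - G 7 - G 27 - G 28) + (G 47 + G 3 + G 4 + G 40 - G 7 - G 43 - G 44) + (G 55 + G 3 + G 4 + G 48 - G 7 - G 51 - G 52) ≤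
      (G 59 + G 2 + G 9 + G 48 - G 11 - G 50 - G 57) + (G 59 + G 2 + G 17 + G 40 - G 19 - G 42 - G 57) + (G 59 + G 2 + G 24 + G 33 - G 26 - G 35 - G 57) + (G 61 + G 4 + G 9 + G 48 - G 13 - G 52 - G 57) + (G 61 + G 4 + G 17 + G 40 - G 21 - G 44 - G 57) + (G 61 + G 4 + G 24 + G 33 - G 28 - G 37 - G 57) + (G 63 + G 6 + G 9 + G 48 - G 15 - G 54 - G 57) + (G 63 + G 6 + G 17 + G 40 - G 23 - G 46 - G 57) + (G 63 + G 6 + G 24 + G 33 - G 30 - G 39 - G 57))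
    (M_73 : (G 31 + G 1 + G 6 + G 24 - G 7 - G 25 - G 30) + (G 47 + G 1 + G 6 + G 40 - G 7 - G 41 - G 46) + (G 55 + G 1 + G 6 + G 48 - G 7 - G 49 - G 54) + (G 31 + G 2 + G 5 + G 24 - G 7 - G 26 - G 29) + (G 47 + G 2 + G 5 + G 40 - G 7 - G 42 - G 45) + (G 55 + G 2 + G 5 + G 48 - G 7 - G 50 - G 53) + (G 31 + G 3 + G 4 + G 24 - G 7 - G 27 - G 28) + (G 47 + G 3 + G 4 + G 40 - G 7 - G 43 - G 44) + (G 55 + G 3 + G 4 + G 48 - G 7 - G 51 - G 52) ≤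
      (G 55 + G 1 + G 6 + G 48 - G 7 - G 49 - G 54) + (G 55 + G 1 + G 18 + G 36 - G 19 - G 37 - G 54) + (G 55 + G 1 + G 20 + G 34 - G 21 - G 35 - G 54) + (G 62 + G 6 + G 8 + G 48 - G 14 - G 54 - G 56) + (G 63 + G 6 + G 9 + G 48 - G 15 - G 54 - G 57) + (G 62 + G 8 + G 18 + G 36 - G 26 - G 44 - G 54) + (G 62 + G 8 + G 20 + G 34 - G 28 - G 42 - G 54) + (G 63 + G 9 + G 18 + G 36 - G 27 - G 45 - G 54) + (G 63 + G 9 + G 20 + G 34 - G 29 - G 43 - G 54))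
    (M_74 : (G 31 + G 1 + G 6 + G 24 - G 7 - G 25 - G 30) + (G 47 + G 1 + G 6 + G 40 - G 7 - G 41 - G 46) + (G 55 + G 1 + G 6 + G 48 - G 7 - G 49 - G 54) + (G 31 + G 2 + G 5 + G 24 - G 7 - G 26 - G 29) + (G 47 + G 2 + G 5 + G 40 - G 7 - G 42 - G 45) + (G 55 + G 2 + G 5 + G 48 - G 7 - G 50 - G 53) + (G 31 + G 3 + G 4 + G 24 - G 7 - G 27 - G 28) + (G 47 + G 3 + G 4 + G 40 - G 7 - G 43 - G 44) + (G 55 + G 3 + G 4 + G 48 - G 7 - G 51 - G 52) ≤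
      (G 55 + G 2 + G 5 + G 48 - G 7 - G 50 - G 53) + (G 55 + G 2 + G 17 + G 36 - G 19 - G 38 - G 53) + (G 55 + G 2 + G 20 + G 33 - G 22 - G 35 - G 53) + (G 61 + G 5 + G 8 + G 48 - G 13 - G 53 - G 56) + (G 63 + G 5 + G 10 + G 48 - G 15 - G 53 - G 58) + (G 61 + G 8 + G 17 + G 36 - G 25 - G 44 - G 53) + (G 61 + G 8 + G 20 + G 33 - G 28 - G 41 - G 53) + (G 63 + G 10 + G 17 + G 36 - G 27 - G 46 - G 53) + (G 63 + G 10 + G 20 + G 33 - G 30 - G 43 - G 53))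
    (M_76 : (G 31 + G 1 + G 6 + G 24 - G 7 - G 25 - G 30) + (G 47 + G 1 + G 6 + G 40 - G 7 - G 41 - G 46) + (G 55 + G 1 + G 6 + G 48 - G 7 - G 49 - G 54) + (G 31 + G 2 + G 5 + G 24 - G 7 - G 26 - G 29) + (G 47 + G 2 + G 5 + G 40 - G 7 - G 42 - G 45) + (G 55 + G 2 + G 5 + G 48 - G 7 - G 50 - G 53) + (G 31 + G 3 + G 4 + G 24 - G 7 - G 27 - G 28) + (G 47 + G 3 + G 4 + G 40 - G 7 - G 43 - G 44) + (G 55 + G 3 + G 4 + G 48 - G 7 - G 51 - G 52) ≤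
      (G 55 + G 3 + G 4 + G 48 - G 7 - G 51 - G 52) + (G 59 + G 3 + G 8 + G 48 - G 11 - G 51 - G 56) + (G 63 + G 3 + G 12 + G 48 - G 15 - G 51 - G 60) + (G 55 + G 4 + G 17 + G 34 - G 21 - G 38 - G 51) + (G 55 + G 4 + G 18 + G 33 - G 22 - G 37 - G 51) + (G 59 + G 8 + G 17 + G 34 - G 25 - G 42 - G 51) + (G 59 + G 8 + G 18 + G 33 - G 26 - G 41 - G 51) + (G 63 + G 12 + G 17 + G 34 - G 29 - G 46 - G 51) + (G 63 + G 12 + G 18 + G 33 - G 30 - G 45 - G 51))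
    (M_81 : (G 31 + G 1 + G 6 + G 24 - G 7 - G 25 - G 30) + (G 47 + G 1 + G 6 + G 40 - G 7 - G 41 - G 46) + (G 55 + G 1 + G 6 + G 48 - G 7 - G 49 - G 54) + (G 31 + G 2 + G 5 + G 24 - G 7 - G 26 - G 29) + (G 47 + G 2 + G 5 + G 40 - G 7 - G 42 - G 45) + (G 55 + G 2 + G 5 + G 48 - G 7 - G 50 - G 53) + (G 31 + G 3 + G 4 + G 24 - G 7 - G 27 - G 28) + (G 47 + G 3 + G 4 + G 40 - G 7 - G 43 - G 44) + (G 55 + G 3 + G 4 + G 48 - G 7 - G 51 - G 52) ≤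
      (G 47 + G 1 + G 6 + G 40 - G 7 - G 41 - G 46) + (G 47 + G 1 + G 10 + G 36 - G 11 - G 37 - G 46) + (G 47 + G 1 + G 12 + G 34 - G 13 - G 35 - G 46) + (G 62 + G 6 + G 16 + G 40 - G 22 - G 46 - G 56) + (G 63 + G 6 + G 17 + G 40 - G 23 - G 46 - G 57) + (G 62 + G 10 + G 16 + G 36 - G 26 - G 46 - G 52) + (G 63 + G 10 + G 17 + G 36 - G 27 - G 46 - G 53) + (G 62 + G 12 + G 16 + G 34 - G 28 - G 46 - G 50) + (G 63 + G 12 + G 17 + G 34 - G 29 - G 46 - G 51))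
    (M_82 : (G 31 + G 1 + G 6 + G 24 - G 7 - G 25 - G 30) + (G 47 + G 1 + G 6 + G 40 - G 7 - G 41 - G 46) + (G 55 + G 1 + G 6 + G 48 - G 7 - G 49 - G 54) + (G 31 + G 2 + G 5 + G 24 - G 7 - G 26 - G 29) + (G 47 + G 2 + G 5 + G 40 - G 7 - G 42 - G 45) + (G 55 + G 2 + G 5 + G 48 - G 7 - G 50 - G 53) + (G 31 + G 3 + G 4 + G 24 - G 7 - G 27 - G 28) + (G 47 + G 3 + G 4 + G 40 - G 7 - G 43 - G 44) + (G 55 + G 3 + G 4 + G 48 - G 7 - G 51 - G 52) ≤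
      (G 47 + G 2 + G 5 + G 40 - G 7 - G 42 - G 45) + (G 47 + G 2 + G 9 + G 36 - G 11 - G 38 - G 45) + (G 47 + G 2 + G 12 + G 33 - G 14 - G 35 - G 45) + (G 61 + G 5 + G 16 + G 40 - G 21 - G 45 - G 56) + (G 63 + G 5 + G 18 + G 40 - G 23 - G 45 - G 58) + (G 61 + G 9 + G 16 + G 36 - G 25 - G 45 - G 52) + (G 63 + G 9 + G 18 + G 36 - G 27 - G 45 - G 54) + (G 61 + G 12 + G 16 + G 33 - G 28 - G 45 - G 49) + (G 63 + G 12 + G 18 + G 33 - G 30 - G 45 - G 51))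
    (M_84 : (G 31 + G 1 + G 6 + G 24 - G 7 - G 25 - G 30) + (G 47 + G 1 + G 6 + G 40 - G 7 - G 41 - G 46) + (G 55 + G 1 + G 6 + G 48 - G 7 - G 49 - G 54) + (G 31 + G 2 + G 5 + G 24 - G 7 - G 26 - G 29) + (G 47 + G 2 + G 5 + G 40 - G 7 - G 42 - G 45) + (G 55 + G 2 + G 5 + G 48 - G 7 - G 50 - G 53) + (G 31 + G 3 + G 4 + G 24 - G 7 - G 27 - G 28) + (G 47 + G 3 + G 4 + G 40 - G 7 - G 43 - G 44) + (G 55 + G 3 + G 4 + G 48 - G 7 - G 51 - G 52) ≤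
      (G 47 + G 3 + G 4 + G 40 - G 7 - G 43 - G 44) + (G 59 + G 3 + G 16 + G 40 - G 19 - G 43 - G 56) + (G 63 + G 3 + G 20 + G 40 - G 23 - G 43 - G 60) + (G 47 + G 4 + G 9 + G 34 - G 13 - G 38 - G 43) + (G 47 + G 4 + G 10 + G 33 - G 14 - G 37 - G 43) + (G 59 + G 9 + G 16 + G 34 - G 25 - G 43 - G 50) + (G 63 + G 9 + G 20 + G 34 - G 29 - G 43 - G 54) + (G 59 + G 10 + G 16 + G 33 - G 26 - G 43 - G 49) + (G 63 + G 10 + G 20 + G 33 - G 30 - G 43 - G 53))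
    (M_88 : (G 31 + G 1 + G 6 + G 24 - G 7 - G 25 - G 30) + (G 47 + G 1 + G 6 + G 40 - G 7 - G 41 - G 46) + (G 55 + G 1 + G 6 + G 48 - G 7 - G 49 - G 54) + (G 31 + G 2 + G 5 + G 24 - G 7 - G 26 - G 29) + (G 47 + G 2 + G 5 + G 40 - G 7 - G 42 - G 45) + (G 55 + G 2 + G 5 + G 48 - G 7 - G 50 - G 53) + (G 31 + G 3 + G 4 + G 24 - G 7 - G 27 - G 28) + (G 47 + G 3 + G 4 + G 40 - G 7 - G 43 - G 44) + (G 55 + G 3 + G 4 + G 48 - G 7 - G 51 - G 52) ≤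
      (G 47 + G 3 + G 8 + G 36 - G 11 - G 39 - G 44) + (G 55 + G 3 + G 16 + G 36 - G 19 - G 39 - G 52) + (G 63 + G 3 + G 24 + G 36 - G 27 - G 39 - G 60) + (G 47 + G 5 + G 8 + G 34 - G 13 - G 39 - G 42) + (G 55 + G 5 + G 16 + G 34 - G 21 - G 39 - G 50) + (G 63 + G 5 + G 24 + G 34 - G 29 - G 39 - G 58) + (G 47 + G 6 + G 8 + G 33 - G 14 - G 39 - G 41) + (G 55 + G 6 + G 16 + G 33 - G 22 - G 39 - G 49) + (G 63 + G 6 + G 24 + G 33 - G 30 - G 39 - G 57))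
    (M_97 : (G 31 + G 1 + G 6 + G 24 - G 7 - G 25 - G 30) + (G 47 + G 1 + G 6 + G 40 - G 7 - G 41 - G 46) + (G 55 + G 1 + G 6 + G 48 - G 7 - G 49 - G 54) + (G 31 + G 2 + G 5 + G 24 - G 7 - G 26 - G 29) + (G 47 + G 2 + G 5 + G 40 - G 7 - G 42 - G 45) + (G 55 + G 2 + G 5 + G 48 - G 7 - G 50 - G 53) + (G 31 + G 3 + G 4 + G 24 - G 7 - G 27 - G 28) + (G 47 + G 3 + G 4 + G 40 - G 7 - G 43 - G 44) + (G 55 + G 3 + G 4 + G 48 - G 7 - G 51 - G 52) ≤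
      (G 31 + G 1 + G 6 + G 24 - G 7 - G 25 - G 30) + (G 31 + G 1 + G 10 + G 20 - G 11 - G 21 - G 30) + (G 31 + G 1 + G 12 + G 18 - G 13 - G 19 - G 30) + (G 62 + G 6 + G 24 + G 32 - G 30 - G 38 - G 56) + (G 63 + G 6 + G 24 + G 33 - G 30 - G 39 - G 57) + (G 62 + G 10 + G 20 + G 32 - G 30 - G 42 - G 52) + (G 63 + G 10 + G 20 + G 33 - G 30 - G 43 - G 53) + (G 62 + G 12 + G 18 + G 32 - G 30 - G 44 - G 50) + (G 63 + G 12 + G 18 + G 33 - G 30 - G 45 - G 51))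
    (M_98 : (G 31 + G 1 + G 6 + G 24 - G 7 - G 25 - G 30) + (G 47 + G 1 + G 6 + G 40 - G 7 - G 41 - G 46) + (G 55 + G 1 + G 6 + G 48 - G 7 - G 49 - G 54) + (G 31 + G 2 + G 5 + G 24 - G 7 - G 26 - G 29) + (G 47 + G 2 + G 5 + G 40 - G 7 - G 42 - G 45) + (G 55 + G 2 + G 5 + G 48 - G 7 - G 50 - G 53) + (G 31 + G 3 + G 4 + G 24 - G 7 - G 27 - G 28) + (G 47 + G 3 + G 4 + G 40 - G 7 - G 43 - G 44) + (G 55 + G 3 + G 4 + G 48 - G 7 - G 51 - G 52) ≤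
      (G 31 + G 2 + G 5 + G 24 - G 7 - G 26 - G 29) + (G 31 + G 2 + G 9 + G 20 - G 11 - G 22 - G 29) + (G 31 + G 2 + G 12 + G 17 - G 14 - G 19 - G 29) + (G 61 + G 5 + G 24 + G 32 - G 29 - G 37 - G 56) + (G 63 + G 5 + G 24 + G 34 - G 29 - G 39 - G 58) + (G 61 + G 9 + G 20 + G 32 - G 29 - G 41 - G 52) + (G 63 + G 9 + G 20 + G 34 - G 29 - G 43 - G 54) + (G 61 + G 12 + G 17 + G 32 - G 29 - G 44 - G 49) + (G 63 + G 12 + G 17 + G 34 - G 29 - G 46 - G 51))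
    (M_100 : (G 31 + G 1 + G 6 + G 24 - G 7 - G 25 - G 30) + (G 47 + G 1 + G 6 + G 40 - G 7 - G 41 - G 46) + (G 55 + G 1 + G 6 + G 48 - G 7 - G 49 - G 54) + (G 31 + G 2 + G 5 + G 24 - G 7 - G 26 - G 29) + (G 47 + G 2 + G 5 + G 40 - G 7 - G 42 - G 45) + (G 55 + G 2 + G 5 + G 48 - G 7 - G 50 - G 53) + (G 31 + G 3 + G 4 + G 24 - G 7 - G 27 - G 28) + (G 47 + G 3 + G 4 + G 40 - G 7 - G 43 - G 44) + (G 55 + G 3 + G 4 + G 48 - G 7 - G 51 - G 52) ≤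
      (G 31 + G 3 + G 4 + G 24 - G 7 - G 27 - G 28) + (G 59 + G 3 + G 24 + G 32 - G 27 - G 35 - G 56) + (G 63 + G 3 + G 24 + G 36 - G 27 - G 39 - G 60) + (G 31 + G 4 + G 9 + G 18 - G 13 - G 22 - G 27) + (G 31 + G 4 + G 10 + G 17 - G 14 - G 21 - G 27) + (G 59 + G 9 + G 18 + G 32 - G 27 - G 41 - G 50) + (G 63 + G 9 + G 18 + G 36 - G 27 - G 45 - G 54) + (G 59 + G 10 + G 17 + G 32 - G 27 - G 42 - G 49) + (G 63 + G 10 + G 17 + G 36 - G 27 - G 46 - G 53))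
    (M_104 : (G 31 + G 1 + G 6 + G 24 - G 7 - G 25 - G 30) + (G 47 + G 1 + G 6 + G 40 - G 7 - G 41 - G 46) + (G 55 + G 1 + G 6 + G 48 - G 7 - G 49 - G 54) + (G 31 + G 2 + G 5 + G 24 - G 7 - G 26 - G 29) + (G 47 + G 2 + G 5 + G 40 - G 7 - G 42 - G 45) + (G 55 + G 2 + G 5 + G 48 - G 7 - G 50 - G 53) + (G 31 + G 3 + G 4 + G 24 - G 7 - G 27 - G 28) + (G 47 + G 3 + G 4 + G 40 - G 7 - G 43 - G 44) + (G 55 + G 3 + G 4 + G 48 - G 7 - G 51 - G 52) ≤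
      (G 31 + G 3 + G 8 + G 20 - G 11 - G 23 - G 28) + (G 55 + G 3 + G 20 + G 32 - G 23 - G 35 - G 52) + (G 63 + G 3 + G 20 + G 40 - G 23 - G 43 - G 60) + (G 31 + G 5 + G 8 + G 18 - G 13 - G 23 - G 26) + (G 55 + G 5 + G 18 + G 32 - G 23 - G 37 - G 50) + (G 63 + G 5 + G 18 + G 40 - G 23 - G 45 - G 58) + (G 31 + G 6 + G 8 + G 17 - G 14 - G 23 - G 25) + (G 55 + G 6 + G 17 + G 32 - G 23 - G 38 - G 49) + (G 63 + G 6 + G 17 + G 40 - G 23 - G 46 - G 57))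
    (M_112 : (G 31 + G 1 + G 6 + G 24 - G 7 - G 25 - G 30) + (G 47 + G 1 + G 6 + G 40 - G 7 - G 41 - G 46) + (G 55 + G 1 + G 6 + G 48 - G 7 - G 49 - G 54) + (G 31 + G 2 + G 5 + G 24 - G 7 - G 26 - G 29) + (G 47 + G 2 + G 5 + G 40 - G 7 - G 42 - G 45) + (G 55 + G 2 + G 5 + G 48 - G 7 - G 50 - G 53) + (G 31 + G 3 + G 4 + G 24 - G 7 - G 27 - G 28) + (G 47 + G 3 + G 4 + G 40 - G 7 - G 43 - G 44) + (G 55 + G 3 + G 4 + G 48 - G 7 - G 51 - G 52) ≤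
      (G 31 + G 3 + G 12 + G 16 - G 15 - G 19 - G 28) + (G 47 + G 3 + G 12 + G 32 - G 15 - G 35 - G 44) + (G 63 + G 3 + G 12 + G 48 - G 15 - G 51 - G 60) + (G 31 + G 5 + G 10 + G 16 - G 15 - G 21 - G 26) + (G 47 + G 5 + G 10 + G 32 - G 15 - G 37 - G 42) + (G 63 + G 5 + G 10 + G 48 - G 15 - G 53 - G 58) + (G 31 + G 6 + G 9 + G 16 - G 15 - G 22 - G 25) + (G 47 + G 6 + G 9 + G 32 - G 15 - G 38 - G 41) + (G 63 + G 6 + G 9 + G 48 - G 15 - G 54 - G 57))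
    : ∃ w : Fin 6 → Fin 6 → ℝ, (∀ x y, y ≤ x → w x y = 0) ∧
      (G 3 ≤ G 1 + G 2 + (w 0 1)) ∧
      (G 5 ≤ G 1 + G 4 + (w 0 2)) ∧
      (G 6 ≤ G 2 + G 4 + (w 1 2)) ∧
      (G 7 ≤ G 1 + G 2 + G 4 + (w 0 1 + w 0 2 + w 1 2)) ∧
      (G 9 ≤ G 1 + G 8 + (w 0 3)) ∧
      (G 10 ≤ G 2 + G 8 + (w 1 3)) ∧
      (G 11 ≤ G 1 + G 2 + G 8 + (w 0 1 + w 0 3 + w 1 3)) ∧
      (G 12 ≤ G 4 + G 8 + (w 2 3)) ∧
      (G 13 ≤ G 1 + G 4 + G 8 + (w 0 2 + w 0 3 + w 2 3)) ∧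
      (G 14 ≤ G 2 + G 4 + G 8 + (w 1 2 + w 1 3 + w 2 3)) ∧
      (G 15 ≤ G 1 + G 2 + G 4 + G 8 + (w 0 1 + w 0 2 + w 0 3 + w 1 2 + w 1 3 + w 2 3)) ∧
      (G 17 ≤ G 1 + G 16 + (w 0 4)) ∧
      (G 18 ≤ G 2 + G 16 + (w 1 4)) ∧
      (G 19 ≤ G 1 + G 2 + G 16 + (w 0 1 + w 0 4 + w 1 4)) ∧
      (G 20 ≤ G 4 + G 16 + (w 2 4)) ∧
      (G 21 ≤ G 1 + G 4 + G 16 + (w 0 2 + w 0 4 + w 2 4)) ∧
      (G 22 ≤ G 2 + G 4 + G 16 + (w 1 2 + w 1 4 + w 2 4)) ∧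
      (G 23 ≤ G 1 + G 2 + G 4 + G 16 + (w 0 1 + w 0 2 + w 0 4 + w 1 2 + w 1 4 + w 2 4)) ∧
      (G 24 ≤ G 8 + G 16 + (w 3 4)) ∧
      (G 25 ≤ G 1 + G 8 + G 16 + (w 0 3 + w 0 4 + w 3 4)) ∧
      (G 26 ≤ G 2 + G 8 + G 16 + (w 1 3 + w 1 4 + w 3 4)) ∧
      (G 27 ≤ G 1 + G 2 + G 8 + G 16 + (w 0 1 + w 0 3 + w 0 4 + w 1 3 + w 1 4 + w 3 4)) ∧
      (G 28 ≤ G 4 + G 8 + G 16 + (w 2 3 + w 2 4 + w 3 4)) ∧
      (G 29 ≤ G 1 + G 4 + G 8 + G 16 + (w 0 2 + w 0 3 + w 0 4 + w 2 3 + w 2 4 + w 3 4)) ∧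
      (G 30 ≤ G 2 + G 4 + G 8 + G 16 + (w 1 2 + w 1 3 + w 1 4 + w 2 3 + w 2 4 + w 3 4)) ∧
      (G 31 ≤ G 1 + G 2 + G 4 + G 8 + G 16 + (w 0 1 + w 0 2 + w 0 3 + w 0 4 + w 1 2 + w 1 3 + w 1 4 + w 2 3 + w 2 4 + w 3 4)) ∧
      (G 33 ≤ G 1 + G 32 + (w 0 5)) ∧
      (G 34 ≤ G 2 + G 32 + (w 1 5)) ∧
      (G 35 ≤ G 1 + G 2 + G 32 + (w 0 1 + w 0 5 + w 1 5)) ∧
      (G 36 ≤ G 4 + G 32 + (w 2 5)) ∧
      (G 37 ≤ G 1 + G 4 + G 32 + (w 0 2 + w 0 5 + w 2 5)) ∧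
      (G 38 ≤ G 2 + G 4 + G 32 + (w 1 2 + w 1 5 + w 2 5)) ∧
      (G 39 ≤ G 1 + G 2 + G 4 + G 32 + (w 0 1 + w 0 2 + w 0 5 + w 1 2 + w 1 5 + w 2 5)) ∧
      (G 40 ≤ G 8 + G 32 + (w 3 5)) ∧
      (G 41 ≤ G 1 + G 8 + G 32 + (w 0 3 + w 0 5 + w 3 5)) ∧
      (G 42 ≤ G 2 + G 8 + G 32 + (w 1 3 + w 1 5 + w 3 5)) ∧
      (G 43 ≤ G 1 + G 2 + G 8 + G 32 + (w 0 1 + w 0 3 + w 0 5 + w 1 3 + w 1 5 + w 3 5)) ∧
      (G 44 ≤ G 4 + G 8 + G 32 + (w 2 3 + w 2 5 + w 3 5)) ∧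
      (G 45 ≤ G 1 + G 4 + G 8 + G 32 + (w 0 2 + w 0 3 + w 0 5 + w 2 3 + w 2 5 + w 3 5)) ∧
      (G 46 ≤ G 2 + G 4 + G 8 + G 32 + (w 1 2 + w 1 3 + w 1 5 + w 2 3 + w 2 5 + w 3 5)) ∧
      (G 47 ≤ G 1 + G 2 + G 4 + G 8 + G 32 + (w 0 1 + w 0 2 + w 0 3 + w 0 5 + w 1 2 + w 1 3 + w 1 5 + w 2 3 + w 2 5 + w 3 5)) ∧
      (G 48 ≤ G 16 + G 32 + (w 4 5)) ∧
      (G 49 ≤ G 1 + G 16 + G 32 + (w 0 4 + w 0 5 + w 4 5)) ∧
      (G 50 ≤ G 2 + G 16 + G 32 + (w 1 4 + w 1 5 + w 4 5)) ∧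
      (G 51 ≤ G 1 + G 2 + G 16 + G 32 + (w 0 1 + w 0 4 + w 0 5 + w 1 4 + w 1 5 + w 4 5)) ∧
      (G 52 ≤ G 4 + G 16 + G 32 + (w 2 4 + w 2 5 + w 4 5)) ∧
      (G 53 ≤ G 1 + G 4 + G 16 + G 32 + (w 0 2 + w 0 4 + w 0 5 + w 2 4 + w 2 5 + w 4 5)) ∧
      (G 54 ≤ G 2 + G 4 + G 16 + G 32 + (w 1 2 + w 1 4 + w 1 5 + w 2 4 + w 2 5 + w 4 5)) ∧
      (G 55 ≤ G 1 + G 2 + G 4 + G 16 + G 32 + (w 0 1 + w 0 2 + w 0 4 + w 0 5 + w 1 2 + w 1 4 + w 1 5 + w 2 4 + w 2 5 + w 4 5)) ∧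
      (G 56 ≤ G 8 + G 16 + G 32 + (w 3 4 + w 3 5 + w 4 5)) ∧
      (G 57 ≤ G 1 + G 8 + G 16 + G 32 + (w 0 3 + w 0 4 + w 0 5 + w 3 4 + w 3 5 + w 4 5)) ∧
      (G 58 ≤ G 2 + G 8 + G 16 + G 32 + (w 1 3 + w 1 4 + w 1 5 + w 3 4 + w 3 5 + w 4 5)) ∧
      (G 59 ≤ G 1 + G 2 + G 8 + G 16 + G 32 + (w 0 1 + w 0 3 + w 0 4 + w 0 5 + w 1 3 + w 1 4 + w 1 5 + w 3 4 + w 3 5 + w 4 5)) ∧
      (G 60 ≤ G 4 + G 8 + G 16 + G 32 + (w 2 3 + w 2 4 + w 2 5 + w 3 4 + w 3 5 + w 4 5)) ∧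
      (G 61 ≤ G 1 + G 4 + G 8 + G 16 + G 32 + (w 0 2 + w 0 3 + w 0 4 + w 0 5 + w 2 3 + w 2 4 + w 2 5 + w 3 4 + w 3 5 + w 4 5)) ∧
      (G 62 ≤ G 2 + G 4 + G 8 + G 16 + G 32 + (w 1 2 + w 1 3 + w 1 4 + w 1 5 + w 2 3 + w 2 4 + w 2 5 + w 3 4 + w 3 5 + w 4 5)) ∧
      (G 63 = G 1 + G 2 + G 4 + G 8 + G 16 + G 32 + (w 0 1 + w 0 2 + w 0 3 + w 0 4 + w 0 5 + w 1 2 + w 1 3 + w 1 4 + w 1 5 + w 2 3 + w 2 4 + w 2 5 + w 3 4 + w 3 5 + w 4 5)) := by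
  have F_1_2_8 : G 3 + G 9 + G 10 ≤ G 11 + G 1 + G 2 + G 8 := F 1 2 8 (by decide)
  have F_1_2_12 : G 3 + G 13 + G 14 ≤ G 15 + G 1 + G 2 + G 12 := F 1 2 12 (by decide)
  have F_1_2_16 : G 3 + G 17 + G 18 ≤ G 19 + G 1 + G 2 + G 16 := F 1 2 16 (by decide)
  have F_1_2_20 : G 3 + G 21 + G 22 ≤ G 23 + G 1 + G 2 + G 20 := F 1 2 20 (by decide)
  have F_1_2_24 : G 3 + G 25 + G 26 ≤ G 27 + G 1 + G 2 + G 24 := F 1 2 24 (by decide)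
  have F_1_2_28 : G 3 + G 29 + G 30 ≤ G 31 + G 1 + G 2 + G 28 := F 1 2 28 (by decide)
  have F_1_2_32 : G 3 + G 33 + G 34 ≤ G 35 + G 1 + G 2 + G 32 := F 1 2 32 (by decide)
  have F_1_2_36 : G 3 + G 37 + G 38 ≤ G 39 + G 1 + G 2 + G 36 := F 1 2 36 (by decide)
  have F_1_2_40 : G 3 + G 41 + G 42 ≤ G 43 + G 1 + G 2 + G 40 := F 1 2 40 (by decide)
  have F_1_2_44 : G 3 + G 45 + G 46 ≤ G 47 + G 1 + G 2 + G 44 := F 1 2 44 (by decide)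
  have F_1_2_48 : G 3 + G 49 + G 50 ≤ G 51 + G 1 + G 2 + G 48 := F 1 2 48 (by decide)
  have F_1_2_52 : G 3 + G 53 + G 54 ≤ G 55 + G 1 + G 2 + G 52 := F 1 2 52 (by decide)
  have F_1_2_56 : G 3 + G 57 + G 58 ≤ G 59 + G 1 + G 2 + G 56 := F 1 2 56 (by decide)
  have F_1_2_60 : G 3 + G 61 + G 62 ≤ G 63 + G 1 + G 2 + G 60 := F 1 2 60 (by decide)
  have F_1_4_8 : G 5 + G 9 + G 12 ≤ G 13 + G 1 + G 4 + G 8 := F 1 4 8 (by decide)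
  have F_1_4_10 : G 5 + G 11 + G 14 ≤ G 15 + G 1 + G 4 + G 10 := F 1 4 10 (by decide)
  have F_1_4_16 : G 5 + G 17 + G 20 ≤ G 21 + G 1 + G 4 + G 16 := F 1 4 16 (by decide)
  have F_1_4_18 : G 5 + G 19 + G 22 ≤ G 23 + G 1 + G 4 + G 18 := F 1 4 18 (by decide)
  have F_1_4_24 : G 5 + G 25 + G 28 ≤ G 29 + G 1 + G 4 + G 24 := F 1 4 24 (by decide)
  have F_1_4_26 : G 5 + G 27 + G 30 ≤ G 31 + G 1 + G 4 + G 26 := F 1 4 26 (by decide)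
  have F_1_4_32 : G 5 + G 33 + G 36 ≤ G 37 + G 1 + G 4 + G 32 := F 1 4 32 (by decide)
  have F_1_4_34 : G 5 + G 35 + G 38 ≤ G 39 + G 1 + G 4 + G 34 := F 1 4 34 (by decide)
  have F_1_4_40 : G 5 + G 41 + G 44 ≤ G 45 + G 1 + G 4 + G 40 := F 1 4 40 (by decide)
  have F_1_4_42 : G 5 + G 43 + G 46 ≤ G 47 + G 1 + G 4 + G 42 := F 1 4 42 (by decide)
  have F_1_4_48 : G 5 + G 49 + G 52 ≤ G 53 + G 1 + G 4 + G 48 := F 1 4 48 (by decide)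
  have F_1_4_50 : G 5 + G 51 + G 54 ≤ G 55 + G 1 + G 4 + G 50 := F 1 4 50 (by decide)
  have F_1_4_56 : G 5 + G 57 + G 60 ≤ G 61 + G 1 + G 4 + G 56 := F 1 4 56 (by decide)
  have F_1_4_58 : G 5 + G 59 + G 62 ≤ G 63 + G 1 + G 4 + G 58 := F 1 4 58 (by decide)
  have F_1_6_8 : G 7 + G 9 + G 14 ≤ G 15 + G 1 + G 6 + G 8 := F 1 6 8 (by decide)
  have F_1_6_16 : G 7 + G 17 + G 22 ≤ G 23 + G 1 + G 6 + G 16 := F 1 6 16 (by decide)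
  have F_1_6_24 : G 7 + G 25 + G 30 ≤ G 31 + G 1 + G 6 + G 24 := F 1 6 24 (by decide)
  have F_1_6_32 : G 7 + G 33 + G 38 ≤ G 39 + G 1 + G 6 + G 32 := F 1 6 32 (by decide)
  have F_1_6_40 : G 7 + G 41 + G 46 ≤ G 47 + G 1 + G 6 + G 40 := F 1 6 40 (by decide)
  have F_1_6_48 : G 7 + G 49 + G 54 ≤ G 55 + G 1 + G 6 + G 48 := F 1 6 48 (by decide)
  have F_1_6_56 : G 7 + G 57 + G 62 ≤ G 63 + G 1 + G 6 + G 56 := F 1 6 56 (by decide)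
  have F_1_8_16 : G 9 + G 17 + G 24 ≤ G 25 + G 1 + G 8 + G 16 := F 1 8 16 (by decide)
  have F_1_8_18 : G 9 + G 19 + G 26 ≤ G 27 + G 1 + G 8 + G 18 := F 1 8 18 (by decide)
  have F_1_8_20 : G 9 + G 21 + G 28 ≤ G 29 + G 1 + G 8 + G 20 := F 1 8 20 (by decide)
  have F_1_8_22 : G 9 + G 23 + G 30 ≤ G 31 + G 1 + G 8 + G 22 := F 1 8 22 (by decide)
  have F_1_8_32 : G 9 + G 33 + G 40 ≤ G 41 + G 1 + G 8 + G 32 := F 1 8 32 (by decide)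
  have F_1_8_34 : G 9 + G 35 + G 42 ≤ G 43 + G 1 + G 8 + G 34 := F 1 8 34 (by decide)
  have F_1_8_36 : G 9 + G 37 + G 44 ≤ G 45 + G 1 + G 8 + G 36 := F 1 8 36 (by decide)
  have F_1_8_38 : G 9 + G 39 + G 46 ≤ G 47 + G 1 + G 8 + G 38 := F 1 8 38 (by decide)
  have F_1_8_48 : G 9 + G 49 + G 56 ≤ G 57 + G 1 + G 8 + G 48 := F 1 8 48 (by decide)
  have F_1_8_50 : G 9 + G 51 + G 58 ≤ G 59 + G 1 + G 8 + G 50 := F 1 8 50 (by decide)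
  have F_1_8_52 : G 9 + G 53 + G 60 ≤ G 61 + G 1 + G 8 + G 52 := F 1 8 52 (by decide)
  have F_1_8_54 : G 9 + G 55 + G 62 ≤ G 63 + G 1 + G 8 + G 54 := F 1 8 54 (by decide)
  have F_1_10_16 : G 11 + G 17 + G 26 ≤ G 27 + G 1 + G 10 + G 16 := F 1 10 16 (by decide)
  have F_1_10_20 : G 11 + G 21 + G 30 ≤ G 31 + G 1 + G 10 + G 20 := F 1 10 20 (by decide)
  have F_1_10_32 : G 11 + G 33 + G 42 ≤ G 43 + G 1 + G 10 + G 32 := F 1 10 32 (by decide)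
  have F_1_10_36 : G 11 + G 37 + G 46 ≤ G 47 + G 1 + G 10 + G 36 := F 1 10 36 (by decide)
  have F_1_10_48 : G 11 + G 49 + G 58 ≤ G 59 + G 1 + G 10 + G 48 := F 1 10 48 (by decide)
  have F_1_10_52 : G 11 + G 53 + G 62 ≤ G 63 + G 1 + G 10 + G 52 := F 1 10 52 (by decide)
  have F_1_12_16 : G 13 + G 17 + G 28 ≤ G 29 + G 1 + G 12 + G 16 := F 1 12 16 (by decide)
  have F_1_12_18 : G 13 + G 19 + G 30 ≤ G 31 + G 1 + G 12 + G 18 := F 1 12 18 (by decide)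
  have F_1_12_32 : G 13 + G 33 + G 44 ≤ G 45 + G 1 + G 12 + G 32 := F 1 12 32 (by decide)
  have F_1_12_34 : G 13 + G 35 + G 46 ≤ G 47 + G 1 + G 12 + G 34 := F 1 12 34 (by decide)
  have F_1_12_48 : G 13 + G 49 + G 60 ≤ G 61 + G 1 + G 12 + G 48 := F 1 12 48 (by decide)
  have F_1_12_50 : G 13 + G 51 + G 62 ≤ G 63 + G 1 + G 12 + G 50 := F 1 12 50 (by decide)
  have F_1_14_16 : G 15 + G 17 + G 30 ≤ G 31 + G 1 + G 14 + G 16 := F 1 14 16 (by decide)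
  have F_1_14_32 : G 15 + G 33 + G 46 ≤ G 47 + G 1 + G 14 + G 32 := F 1 14 32 (by decide)
  have F_1_14_48 : G 15 + G 49 + G 62 ≤ G 63 + G 1 + G 14 + G 48 := F 1 14 48 (by decide)
  have F_1_16_32 : G 17 + G 33 + G 48 ≤ G 49 + G 1 + G 16 + G 32 := F 1 16 32 (by decide)
  have F_1_16_34 : G 17 + G 35 + G 50 ≤ G 51 + G 1 + G 16 + G 34 := F 1 16 34 (by decide)
  have F_1_16_36 : G 17 + G 37 + G 52 ≤ G 53 + G 1 + G 16 + G 36 := F 1 16 36 (by decide)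
  have F_1_16_38 : G 17 + G 39 + G 54 ≤ G 55 + G 1 + G 16 + G 38 := F 1 16 38 (by decide)
  have F_1_16_40 : G 17 + G 41 + G 56 ≤ G 57 + G 1 + G 16 + G 40 := F 1 16 40 (by decide)
  have F_1_16_42 : G 17 + G 43 + G 58 ≤ G 59 + G 1 + G 16 + G 42 := F 1 16 42 (by decide)
  have F_1_16_44 : G 17 + G 45 + G 60 ≤ G 61 + G 1 + G 16 + G 44 := F 1 16 44 (by decide)
  have F_1_16_46 : G 17 + G 47 + G 62 ≤ G 63 + G 1 + G 16 + G 46 := F 1 16 46 (by decide)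
  have F_1_18_32 : G 19 + G 33 + G 50 ≤ G 51 + G 1 + G 18 + G 32 := F 1 18 32 (by decide)
  have F_1_18_40 : G 19 + G 41 + G 58 ≤ G 59 + G 1 + G 18 + G 40 := F 1 18 40 (by decide)
  have F_1_18_44 : G 19 + G 45 + G 62 ≤ G 63 + G 1 + G 18 + G 44 := F 1 18 44 (by decide)
  have F_1_20_32 : G 21 + G 33 + G 52 ≤ G 53 + G 1 + G 20 + G 32 := F 1 20 32 (by decide)
  have F_1_20_40 : G 21 + G 41 + G 60 ≤ G 61 + G 1 + G 20 + G 40 := F 1 20 40 (by decide)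
  have F_1_20_42 : G 21 + G 43 + G 62 ≤ G 63 + G 1 + G 20 + G 42 := F 1 20 42 (by decide)
  have F_1_22_32 : G 23 + G 33 + G 54 ≤ G 55 + G 1 + G 22 + G 32 := F 1 22 32 (by decide)
  have F_1_22_40 : G 23 + G 41 + G 62 ≤ G 63 + G 1 + G 22 + G 40 := F 1 22 40 (by decide)
  have F_1_24_32 : G 25 + G 33 + G 56 ≤ G 57 + G 1 + G 24 + G 32 := F 1 24 32 (by decide)
  have F_1_24_34 : G 25 + G 35 + G 58 ≤ G 59 + G 1 + G 24 + G 34 := F 1 24 34 (by decide)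
  have F_1_24_36 : G 25 + G 37 + G 60 ≤ G 61 + G 1 + G 24 + G 36 := F 1 24 36 (by decide)
  have F_1_24_38 : G 25 + G 39 + G 62 ≤ G 63 + G 1 + G 24 + G 38 := F 1 24 38 (by decide)
  have F_1_26_32 : G 27 + G 33 + G 58 ≤ G 59 + G 1 + G 26 + G 32 := F 1 26 32 (by decide)
  have F_1_26_36 : G 27 + G 37 + G 62 ≤ G 63 + G 1 + G 26 + G 36 := F 1 26 36 (by decide)
  have F_1_28_32 : G 29 + G 33 + G 60 ≤ G 61 + G 1 + G 28 + G 32 := F 1 28 32 (by decide)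
  have F_1_28_34 : G 29 + G 35 + G 62 ≤ G 63 + G 1 + G 28 + G 34 := F 1 28 34 (by decide)
  have F_1_30_32 : G 31 + G 33 + G 62 ≤ G 63 + G 1 + G 30 + G 32 := F 1 30 32 (by decide)
  have F_2_4_8 : G 6 + G 10 + G 12 ≤ G 14 + G 2 + G 4 + G 8 := F 2 4 8 (by decide)
  have F_2_4_9 : G 6 + G 11 + G 13 ≤ G 15 + G 2 + G 4 + G 9 := F 2 4 9 (by decide)
  have F_2_4_16 : G 6 + G 18 + G 20 ≤ G 22 + G 2 + G 4 + G 16 := F 2 4 16 (by decide)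
  have F_2_4_17 : G 6 + G 19 + G 21 ≤ G 23 + G 2 + G 4 + G 17 := F 2 4 17 (by decide)
  have F_2_4_24 : G 6 + G 26 + G 28 ≤ G 30 + G 2 + G 4 + G 24 := F 2 4 24 (by decide)
  have F_2_4_25 : G 6 + G 27 + G 29 ≤ G 31 + G 2 + G 4 + G 25 := F 2 4 25 (by decide)
  have F_2_4_32 : G 6 + G 34 + G 36 ≤ G 38 + G 2 + G 4 + G 32 := F 2 4 32 (by decide)
  have F_2_4_33 : G 6 + G 35 + G 37 ≤ G 39 + G 2 + G 4 + G 33 := F 2 4 33 (by decide)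
  have F_2_4_40 : G 6 + G 42 + G 44 ≤ G 46 + G 2 + G 4 + G 40 := F 2 4 40 (by decide)
  have F_2_4_41 : G 6 + G 43 + G 45 ≤ G 47 + G 2 + G 4 + G 41 := F 2 4 41 (by decide)
  have F_2_4_48 : G 6 + G 50 + G 52 ≤ G 54 + G 2 + G 4 + G 48 := F 2 4 48 (by decide)
  have F_2_4_49 : G 6 + G 51 + G 53 ≤ G 55 + G 2 + G 4 + G 49 := F 2 4 49 (by decide)
  have F_2_4_56 : G 6 + G 58 + G 60 ≤ G 62 + G 2 + G 4 + G 56 := F 2 4 56 (by decide)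
  have F_2_4_57 : G 6 + G 59 + G 61 ≤ G 63 + G 2 + G 4 + G 57 := F 2 4 57 (by decide)
  have F_2_5_8 : G 7 + G 10 + G 13 ≤ G 15 + G 2 + G 5 + G 8 := F 2 5 8 (by decide)
  have F_2_5_16 : G 7 + G 18 + G 21 ≤ G 23 + G 2 + G 5 + G 16 := F 2 5 16 (by decide)
  have F_2_5_24 : G 7 + G 26 + G 29 ≤ G 31 + G 2 + G 5 + G 24 := F 2 5 24 (by decide)
  have F_2_5_32 : G 7 + G 34 + G 37 ≤ G 39 + G 2 + G 5 + G 32 := F 2 5 32 (by decide)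
  have F_2_5_40 : G 7 + G 42 + G 45 ≤ G 47 + G 2 + G 5 + G 40 := F 2 5 40 (by decide)
  have F_2_5_48 : G 7 + G 50 + G 53 ≤ G 55 + G 2 + G 5 + G 48 := F 2 5 48 (by decide)
  have F_2_5_56 : G 7 + G 58 + G 61 ≤ G 63 + G 2 + G 5 + G 56 := F 2 5 56 (by decide)
  have F_2_8_16 : G 10 + G 18 + G 24 ≤ G 26 + G 2 + G 8 + G 16 := F 2 8 16 (by decide)
  have F_2_8_17 : G 10 + G 19 + G 25 ≤ G 27 + G 2 + G 8 + G 17 := F 2 8 17 (by decide)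
  have F_2_8_20 : G 10 + G 22 + G 28 ≤ G 30 + G 2 + G 8 + G 20 := F 2 8 20 (by decide)
  have F_2_8_21 : G 10 + G 23 + G 29 ≤ G 31 + G 2 + G 8 + G 21 := F 2 8 21 (by decide)
  have F_2_8_32 : G 10 + G 34 + G 40 ≤ G 42 + G 2 + G 8 + G 32 := F 2 8 32 (by decide)
  have F_2_8_33 : G 10 + G 35 + G 41 ≤ G 43 + G 2 + G 8 + G 33 := F 2 8 33 (by decide)
  have F_2_8_36 : G 10 + G 38 + G 44 ≤ G 46 + G 2 + G 8 + G 36 := F 2 8 36 (by decide)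
  have F_2_8_37 : G 10 + G 39 + G 45 ≤ G 47 + G 2 + G 8 + G 37 := F 2 8 37 (by decide)
  have F_2_8_48 : G 10 + G 50 + G 56 ≤ G 58 + G 2 + G 8 + G 48 := F 2 8 48 (by decide)
  have F_2_8_49 : G 10 + G 51 + G 57 ≤ G 59 + G 2 + G 8 + G 49 := F 2 8 49 (by decide)
  have F_2_8_52 : G 10 + G 54 + G 60 ≤ G 62 + G 2 + G 8 + G 52 := F 2 8 52 (by decide)
  have F_2_8_53 : G 10 + G 55 + G 61 ≤ G 63 + G 2 + G 8 + G 53 := F 2 8 53 (by decide)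
  have F_2_9_16 : G 11 + G 18 + G 25 ≤ G 27 + G 2 + G 9 + G 16 := F 2 9 16 (by decide)
  have F_2_9_20 : G 11 + G 22 + G 29 ≤ G 31 + G 2 + G 9 + G 20 := F 2 9 20 (by decide)
  have F_2_9_32 : G 11 + G 34 + G 41 ≤ G 43 + G 2 + G 9 + G 32 := F 2 9 32 (by decide)
  have F_2_9_36 : G 11 + G 38 + G 45 ≤ G 47 + G 2 + G 9 + G 36 := F 2 9 36 (by decide)
  have F_2_9_48 : G 11 + G 50 + G 57 ≤ G 59 + G 2 + G 9 + G 48 := F 2 9 48 (by decide)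
  have F_2_9_52 : G 11 + G 54 + G 61 ≤ G 63 + G 2 + G 9 + G 52 := F 2 9 52 (by decide)
  have F_2_12_16 : G 14 + G 18 + G 28 ≤ G 30 + G 2 + G 12 + G 16 := F 2 12 16 (by decide)
  have F_2_12_17 : G 14 + G 19 + G 29 ≤ G 31 + G 2 + G 12 + G 17 := F 2 12 17 (by decide)
  have F_2_12_32 : G 14 + G 34 + G 44 ≤ G 46 + G 2 + G 12 + G 32 := F 2 12 32 (by decide)
  have F_2_12_48 : G 14 + G 50 + G 60 ≤ G 62 + G 2 + G 12 + G 48 := F 2 12 48 (by decide)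
  have F_2_12_49 : G 14 + G 51 + G 61 ≤ G 63 + G 2 + G 12 + G 49 := F 2 12 49 (by decide)
  have F_2_13_16 : G 15 + G 18 + G 29 ≤ G 31 + G 2 + G 13 + G 16 := F 2 13 16 (by decide)
  have F_2_13_32 : G 15 + G 34 + G 45 ≤ G 47 + G 2 + G 13 + G 32 := F 2 13 32 (by decide)
  have F_2_13_48 : G 15 + G 50 + G 61 ≤ G 63 + G 2 + G 13 + G 48 := F 2 13 48 (by decide)
  have F_2_16_32 : G 18 + G 34 + G 48 ≤ G 50 + G 2 + G 16 + G 32 := F 2 16 32 (by decide)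
  have F_2_16_33 : G 18 + G 35 + G 49 ≤ G 51 + G 2 + G 16 + G 33 := F 2 16 33 (by decide)
  have F_2_16_36 : G 18 + G 38 + G 52 ≤ G 54 + G 2 + G 16 + G 36 := F 2 16 36 (by decide)
  have F_2_16_37 : G 18 + G 39 + G 53 ≤ G 55 + G 2 + G 16 + G 37 := F 2 16 37 (by decide)
  have F_2_16_40 : G 18 + G 42 + G 56 ≤ G 58 + G 2 + G 16 + G 40 := F 2 16 40 (by decide)
  have F_2_16_41 : G 18 + G 43 + G 57 ≤ G 59 + G 2 + G 16 + G 41 := F 2 16 41 (by decide)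
  have F_2_16_44 : G 18 + G 46 + G 60 ≤ G 62 + G 2 + G 16 + G 44 := F 2 16 44 (by decide)
  have F_2_16_45 : G 18 + G 47 + G 61 ≤ G 63 + G 2 + G 16 + G 45 := F 2 16 45 (by decide)
  have F_2_17_32 : G 19 + G 34 + G 49 ≤ G 51 + G 2 + G 17 + G 32 := F 2 17 32 (by decide)
  have F_2_17_36 : G 19 + G 38 + G 53 ≤ G 55 + G 2 + G 17 + G 36 := F 2 17 36 (by decide)
  have F_2_17_40 : G 19 + G 42 + G 57 ≤ G 59 + G 2 + G 17 + G 40 := F 2 17 40 (by decide)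
  have F_2_17_44 : G 19 + G 46 + G 61 ≤ G 63 + G 2 + G 17 + G 44 := F 2 17 44 (by decide)
  have F_2_20_32 : G 22 + G 34 + G 52 ≤ G 54 + G 2 + G 20 + G 32 := F 2 20 32 (by decide)
  have F_2_20_33 : G 22 + G 35 + G 53 ≤ G 55 + G 2 + G 20 + G 33 := F 2 20 33 (by decide)
  have F_2_20_40 : G 22 + G 42 + G 60 ≤ G 62 + G 2 + G 20 + G 40 := F 2 20 40 (by decide)
  have F_2_20_41 : G 22 + G 43 + G 61 ≤ G 63 + G 2 + G 20 + G 41 := F 2 20 41 (by decide)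
  have F_2_21_32 : G 23 + G 34 + G 53 ≤ G 55 + G 2 + G 21 + G 32 := F 2 21 32 (by decide)
  have F_2_21_40 : G 23 + G 42 + G 61 ≤ G 63 + G 2 + G 21 + G 40 := F 2 21 40 (by decide)
  have F_2_24_32 : G 26 + G 34 + G 56 ≤ G 58 + G 2 + G 24 + G 32 := F 2 24 32 (by decide)
  have F_2_24_33 : G 26 + G 35 + G 57 ≤ G 59 + G 2 + G 24 + G 33 := F 2 24 33 (by decide)
  have F_2_24_36 : G 26 + G 38 + G 60 ≤ G 62 + G 2 + G 24 + G 36 := F 2 24 36 (by decide)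
  have F_2_24_37 : G 26 + G 39 + G 61 ≤ G 63 + G 2 + G 24 + G 37 := F 2 24 37 (by decide)
  have F_2_25_32 : G 27 + G 34 + G 57 ≤ G 59 + G 2 + G 25 + G 32 := F 2 25 32 (by decide)
  have F_2_25_36 : G 27 + G 38 + G 61 ≤ G 63 + G 2 + G 25 + G 36 := F 2 25 36 (by decide)
  have F_2_28_32 : G 30 + G 34 + G 60 ≤ G 62 + G 2 + G 28 + G 32 := F 2 28 32 (by decide)
  have F_2_28_33 : G 30 + G 35 + G 61 ≤ G 63 + G 2 + G 28 + G 33 := F 2 28 33 (by decide)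
  have F_2_29_32 : G 31 + G 34 + G 61 ≤ G 63 + G 2 + G 29 + G 32 := F 2 29 32 (by decide)
  have F_3_4_8 : G 7 + G 11 + G 12 ≤ G 15 + G 3 + G 4 + G 8 := F 3 4 8 (by decide)
  have F_3_4_16 : G 7 + G 19 + G 20 ≤ G 23 + G 3 + G 4 + G 16 := F 3 4 16 (by decide)
  have F_3_4_24 : G 7 + G 27 + G 28 ≤ G 31 + G 3 + G 4 + G 24 := F 3 4 24 (by decide)
  have F_3_4_32 : G 7 + G 35 + G 36 ≤ G 39 + G 3 + G 4 + G 32 := F 3 4 32 (by decide)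
  have F_3_4_40 : G 7 + G 43 + G 44 ≤ G 47 + G 3 + G 4 + G 40 := F 3 4 40 (by decide)
  have F_3_4_48 : G 7 + G 51 + G 52 ≤ G 55 + G 3 + G 4 + G 48 := F 3 4 48 (by decide)
  have F_3_4_56 : G 7 + G 59 + G 60 ≤ G 63 + G 3 + G 4 + G 56 := F 3 4 56 (by decide)
  have F_3_8_16 : G 11 + G 19 + G 24 ≤ G 27 + G 3 + G 8 + G 16 := F 3 8 16 (by decide)
  have F_3_8_32 : G 11 + G 35 + G 40 ≤ G 43 + G 3 + G 8 + G 32 := F 3 8 32 (by decide)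
  have F_3_8_52 : G 11 + G 55 + G 60 ≤ G 63 + G 3 + G 8 + G 52 := F 3 8 52 (by decide)
  have F_3_16_32 : G 19 + G 35 + G 48 ≤ G 51 + G 3 + G 16 + G 32 := F 3 16 32 (by decide)
  have F_3_16_44 : G 19 + G 47 + G 60 ≤ G 63 + G 3 + G 16 + G 44 := F 3 16 44 (by decide)
  have F_3_28_32 : G 31 + G 35 + G 60 ≤ G 63 + G 3 + G 28 + G 32 := F 3 28 32 (by decide)
  have F_4_8_16 : G 12 + G 20 + G 24 ≤ G 28 + G 4 + G 8 + G 16 := F 4 8 16 (by decide)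
  have F_4_8_17 : G 12 + G 21 + G 25 ≤ G 29 + G 4 + G 8 + G 17 := F 4 8 17 (by decide)
  have F_4_8_18 : G 12 + G 22 + G 26 ≤ G 30 + G 4 + G 8 + G 18 := F 4 8 18 (by decide)
  have F_4_8_19 : G 12 + G 23 + G 27 ≤ G 31 + G 4 + G 8 + G 19 := F 4 8 19 (by decide)
  have F_4_8_32 : G 12 + G 36 + G 40 ≤ G 44 + G 4 + G 8 + G 32 := F 4 8 32 (by decide)
  have F_4_8_33 : G 12 + G 37 + G 41 ≤ G 45 + G 4 + G 8 + G 33 := F 4 8 33 (by decide)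
  have F_4_8_34 : G 12 + G 38 + G 42 ≤ G 46 + G 4 + G 8 + G 34 := F 4 8 34 (by decide)
  have F_4_8_35 : G 12 + G 39 + G 43 ≤ G 47 + G 4 + G 8 + G 35 := F 4 8 35 (by decide)
  have F_4_8_48 : G 12 + G 52 + G 56 ≤ G 60 + G 4 + G 8 + G 48 := F 4 8 48 (by decide)
  have F_4_8_49 : G 12 + G 53 + G 57 ≤ G 61 + G 4 + G 8 + G 49 := F 4 8 49 (by decide)
  have F_4_8_50 : G 12 + G 54 + G 58 ≤ G 62 + G 4 + G 8 + G 50 := F 4 8 50 (by decide)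
  have F_4_8_51 : G 12 + G 55 + G 59 ≤ G 63 + G 4 + G 8 + G 51 := F 4 8 51 (by decide)
  have F_4_9_16 : G 13 + G 20 + G 25 ≤ G 29 + G 4 + G 9 + G 16 := F 4 9 16 (by decide)
  have F_4_9_32 : G 13 + G 36 + G 41 ≤ G 45 + G 4 + G 9 + G 32 := F 4 9 32 (by decide)
  have F_4_9_34 : G 13 + G 38 + G 43 ≤ G 47 + G 4 + G 9 + G 34 := F 4 9 34 (by decide)
  have F_4_9_50 : G 13 + G 54 + G 59 ≤ G 63 + G 4 + G 9 + G 50 := F 4 9 50 (by decide)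
  have F_4_10_16 : G 14 + G 20 + G 26 ≤ G 30 + G 4 + G 10 + G 16 := F 4 10 16 (by decide)
  have F_4_10_32 : G 14 + G 36 + G 42 ≤ G 46 + G 4 + G 10 + G 32 := F 4 10 32 (by decide)
  have F_4_10_33 : G 14 + G 37 + G 43 ≤ G 47 + G 4 + G 10 + G 33 := F 4 10 33 (by decide)
  have F_4_10_49 : G 14 + G 53 + G 59 ≤ G 63 + G 4 + G 10 + G 49 := F 4 10 49 (by decide)
  have F_4_11_16 : G 15 + G 20 + G 27 ≤ G 31 + G 4 + G 11 + G 16 := F 4 11 16 (by decide)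
  have F_4_11_32 : G 15 + G 36 + G 43 ≤ G 47 + G 4 + G 11 + G 32 := F 4 11 32 (by decide)
  have F_4_11_48 : G 15 + G 52 + G 59 ≤ G 63 + G 4 + G 11 + G 48 := F 4 11 48 (by decide)
  have F_4_16_32 : G 20 + G 36 + G 48 ≤ G 52 + G 4 + G 16 + G 32 := F 4 16 32 (by decide)
  have F_4_16_33 : G 20 + G 37 + G 49 ≤ G 53 + G 4 + G 16 + G 33 := F 4 16 33 (by decide)
  have F_4_16_34 : G 20 + G 38 + G 50 ≤ G 54 + G 4 + G 16 + G 34 := F 4 16 34 (by decide)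
  have F_4_16_35 : G 20 + G 39 + G 51 ≤ G 55 + G 4 + G 16 + G 35 := F 4 16 35 (by decide)
  have F_4_16_40 : G 20 + G 44 + G 56 ≤ G 60 + G 4 + G 16 + G 40 := F 4 16 40 (by decide)
  have F_4_16_41 : G 20 + G 45 + G 57 ≤ G 61 + G 4 + G 16 + G 41 := F 4 16 41 (by decide)
  have F_4_16_42 : G 20 + G 46 + G 58 ≤ G 62 + G 4 + G 16 + G 42 := F 4 16 42 (by decide)
  have F_4_16_43 : G 20 + G 47 + G 59 ≤ G 63 + G 4 + G 16 + G 43 := F 4 16 43 (by decide)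
  have F_4_17_32 : G 21 + G 36 + G 49 ≤ G 53 + G 4 + G 17 + G 32 := F 4 17 32 (by decide)
  have F_4_17_34 : G 21 + G 38 + G 51 ≤ G 55 + G 4 + G 17 + G 34 := F 4 17 34 (by decide)
  have F_4_17_42 : G 21 + G 46 + G 59 ≤ G 63 + G 4 + G 17 + G 42 := F 4 17 42 (by decide)
  have F_4_18_32 : G 22 + G 36 + G 50 ≤ G 54 + G 4 + G 18 + G 32 := F 4 18 32 (by decide)
  have F_4_18_33 : G 22 + G 37 + G 51 ≤ G 55 + G 4 + G 18 + G 33 := F 4 18 33 (by decide)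
  have F_4_18_41 : G 22 + G 45 + G 59 ≤ G 63 + G 4 + G 18 + G 41 := F 4 18 41 (by decide)
  have F_4_19_32 : G 23 + G 36 + G 51 ≤ G 55 + G 4 + G 19 + G 32 := F 4 19 32 (by decide)
  have F_4_19_40 : G 23 + G 44 + G 59 ≤ G 63 + G 4 + G 19 + G 40 := F 4 19 40 (by decide)
  have F_4_24_32 : G 28 + G 36 + G 56 ≤ G 60 + G 4 + G 24 + G 32 := F 4 24 32 (by decide)
  have F_4_24_35 : G 28 + G 39 + G 59 ≤ G 63 + G 4 + G 24 + G 35 := F 4 24 35 (by decide)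
  have F_4_25_32 : G 29 + G 36 + G 57 ≤ G 61 + G 4 + G 25 + G 32 := F 4 25 32 (by decide)
  have F_4_25_34 : G 29 + G 38 + G 59 ≤ G 63 + G 4 + G 25 + G 34 := F 4 25 34 (by decide)
  have F_4_26_32 : G 30 + G 36 + G 58 ≤ G 62 + G 4 + G 26 + G 32 := F 4 26 32 (by decide)
  have F_4_26_33 : G 30 + G 37 + G 59 ≤ G 63 + G 4 + G 26 + G 33 := F 4 26 33 (by decide)
  have F_4_27_32 : G 31 + G 36 + G 59 ≤ G 63 + G 4 + G 27 + G 32 := F 4 27 32 (by decide)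
  have F_5_8_16 : G 13 + G 21 + G 24 ≤ G 29 + G 5 + G 8 + G 16 := F 5 8 16 (by decide)
  have F_5_8_32 : G 13 + G 37 + G 40 ≤ G 45 + G 5 + G 8 + G 32 := F 5 8 32 (by decide)
  have F_5_8_34 : G 13 + G 39 + G 42 ≤ G 47 + G 5 + G 8 + G 34 := F 5 8 34 (by decide)
  have F_5_8_48 : G 13 + G 53 + G 56 ≤ G 61 + G 5 + G 8 + G 48 := F 5 8 48 (by decide)
  have F_5_8_50 : G 13 + G 55 + G 58 ≤ G 63 + G 5 + G 8 + G 50 := F 5 8 50 (by decide)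
  have F_5_16_32 : G 21 + G 37 + G 48 ≤ G 53 + G 5 + G 16 + G 32 := F 5 16 32 (by decide)
  have F_5_16_34 : G 21 + G 39 + G 50 ≤ G 55 + G 5 + G 16 + G 34 := F 5 16 34 (by decide)
  have F_5_16_40 : G 21 + G 45 + G 56 ≤ G 61 + G 5 + G 16 + G 40 := F 5 16 40 (by decide)
  have F_5_16_42 : G 21 + G 47 + G 58 ≤ G 63 + G 5 + G 16 + G 42 := F 5 16 42 (by decide)
  have F_5_18_32 : G 23 + G 37 + G 50 ≤ G 55 + G 5 + G 18 + G 32 := F 5 18 32 (by decide)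
  have F_5_18_40 : G 23 + G 45 + G 58 ≤ G 63 + G 5 + G 18 + G 40 := F 5 18 40 (by decide)
  have F_5_24_32 : G 29 + G 37 + G 56 ≤ G 61 + G 5 + G 24 + G 32 := F 5 24 32 (by decide)
  have F_5_24_34 : G 29 + G 39 + G 58 ≤ G 63 + G 5 + G 24 + G 34 := F 5 24 34 (by decide)
  have F_5_26_32 : G 31 + G 37 + G 58 ≤ G 63 + G 5 + G 26 + G 32 := F 5 26 32 (by decide)
  have F_6_8_16 : G 14 + G 22 + G 24 ≤ G 30 + G 6 + G 8 + G 16 := F 6 8 16 (by decide)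
  have F_6_8_17 : G 14 + G 23 + G 25 ≤ G 31 + G 6 + G 8 + G 17 := F 6 8 17 (by decide)
  have F_6_8_32 : G 14 + G 38 + G 40 ≤ G 46 + G 6 + G 8 + G 32 := F 6 8 32 (by decide)
  have F_6_8_33 : G 14 + G 39 + G 41 ≤ G 47 + G 6 + G 8 + G 33 := F 6 8 33 (by decide)
  have F_6_8_49 : G 14 + G 55 + G 57 ≤ G 63 + G 6 + G 8 + G 49 := F 6 8 49 (by decide)
  have F_6_9_16 : G 15 + G 22 + G 25 ≤ G 31 + G 6 + G 9 + G 16 := F 6 9 16 (by decide)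
  have F_6_9_32 : G 15 + G 38 + G 41 ≤ G 47 + G 6 + G 9 + G 32 := F 6 9 32 (by decide)
  have F_6_16_32 : G 22 + G 38 + G 48 ≤ G 54 + G 6 + G 16 + G 32 := F 6 16 32 (by decide)
  have F_6_16_33 : G 22 + G 39 + G 49 ≤ G 55 + G 6 + G 16 + G 33 := F 6 16 33 (by decide)
  have F_6_16_41 : G 22 + G 47 + G 57 ≤ G 63 + G 6 + G 16 + G 41 := F 6 16 41 (by decide)
  have F_6_17_32 : G 23 + G 38 + G 49 ≤ G 55 + G 6 + G 17 + G 32 := F 6 17 32 (by decide)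
  have F_6_17_40 : G 23 + G 46 + G 57 ≤ G 63 + G 6 + G 17 + G 40 := F 6 17 40 (by decide)
  have F_6_25_32 : G 31 + G 38 + G 57 ≤ G 63 + G 6 + G 25 + G 32 := F 6 25 32 (by decide)
  have F_8_16_32 : G 24 + G 40 + G 48 ≤ G 56 + G 8 + G 16 + G 32 := F 8 16 32 (by decide)
  have F_8_16_33 : G 24 + G 41 + G 49 ≤ G 57 + G 8 + G 16 + G 33 := F 8 16 33 (by decide)
  have F_8_16_34 : G 24 + G 42 + G 50 ≤ G 58 + G 8 + G 16 + G 34 := F 8 16 34 (by decide)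
  have F_8_16_35 : G 24 + G 43 + G 51 ≤ G 59 + G 8 + G 16 + G 35 := F 8 16 35 (by decide)
  have F_8_16_36 : G 24 + G 44 + G 52 ≤ G 60 + G 8 + G 16 + G 36 := F 8 16 36 (by decide)
  have F_8_16_37 : G 24 + G 45 + G 53 ≤ G 61 + G 8 + G 16 + G 37 := F 8 16 37 (by decide)
  have F_8_16_38 : G 24 + G 46 + G 54 ≤ G 62 + G 8 + G 16 + G 38 := F 8 16 38 (by decide)
  have F_8_16_39 : G 24 + G 47 + G 55 ≤ G 63 + G 8 + G 16 + G 39 := F 8 16 39 (by decide)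
  have F_8_17_32 : G 25 + G 40 + G 49 ≤ G 57 + G 8 + G 17 + G 32 := F 8 17 32 (by decide)
  have F_8_17_38 : G 25 + G 46 + G 55 ≤ G 63 + G 8 + G 17 + G 38 := F 8 17 38 (by decide)
  have F_8_18_32 : G 26 + G 40 + G 50 ≤ G 58 + G 8 + G 18 + G 32 := F 8 18 32 (by decide)
  have F_8_18_37 : G 26 + G 45 + G 55 ≤ G 63 + G 8 + G 18 + G 37 := F 8 18 37 (by decide)
  have F_8_19_32 : G 27 + G 40 + G 51 ≤ G 59 + G 8 + G 19 + G 32 := F 8 19 32 (by decide)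
  have F_8_19_36 : G 27 + G 44 + G 55 ≤ G 63 + G 8 + G 19 + G 36 := F 8 19 36 (by decide)
  have F_8_20_32 : G 28 + G 40 + G 52 ≤ G 60 + G 8 + G 20 + G 32 := F 8 20 32 (by decide)
  have F_8_20_35 : G 28 + G 43 + G 55 ≤ G 63 + G 8 + G 20 + G 35 := F 8 20 35 (by decide)
  have F_8_21_32 : G 29 + G 40 + G 53 ≤ G 61 + G 8 + G 21 + G 32 := F 8 21 32 (by decide)
  have F_8_21_34 : G 29 + G 42 + G 55 ≤ G 63 + G 8 + G 21 + G 34 := F 8 21 34 (by decide)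
  have F_8_22_32 : G 30 + G 40 + G 54 ≤ G 62 + G 8 + G 22 + G 32 := F 8 22 32 (by decide)
  have F_8_22_33 : G 30 + G 41 + G 55 ≤ G 63 + G 8 + G 22 + G 33 := F 8 22 33 (by decide)
  have F_8_23_32 : G 31 + G 40 + G 55 ≤ G 63 + G 8 + G 23 + G 32 := F 8 23 32 (by decide)
  have F_9_16_32 : G 25 + G 41 + G 48 ≤ G 57 + G 9 + G 16 + G 32 := F 9 16 32 (by decide)
  have F_9_16_38 : G 25 + G 47 + G 54 ≤ G 63 + G 9 + G 16 + G 38 := F 9 16 38 (by decide)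
  have F_9_22_32 : G 31 + G 41 + G 54 ≤ G 63 + G 9 + G 22 + G 32 := F 9 22 32 (by decide)
  have F_10_16_32 : G 26 + G 42 + G 48 ≤ G 58 + G 10 + G 16 + G 32 := F 10 16 32 (by decide)
  have F_10_16_37 : G 26 + G 47 + G 53 ≤ G 63 + G 10 + G 16 + G 37 := F 10 16 37 (by decide)
  have F_10_21_32 : G 31 + G 42 + G 53 ≤ G 63 + G 10 + G 21 + G 32 := F 10 21 32 (by decide)
  have F_11_16_32 : G 27 + G 43 + G 48 ≤ G 59 + G 11 + G 16 + G 32 := F 11 16 32 (by decide)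
  have F_11_16_36 : G 27 + G 47 + G 52 ≤ G 63 + G 11 + G 16 + G 36 := F 11 16 36 (by decide)
  have F_11_20_32 : G 31 + G 43 + G 52 ≤ G 63 + G 11 + G 20 + G 32 := F 11 20 32 (by decide)
  have F_12_16_32 : G 28 + G 44 + G 48 ≤ G 60 + G 12 + G 16 + G 32 := F 12 16 32 (by decide)
  have F_12_16_35 : G 28 + G 47 + G 51 ≤ G 63 + G 12 + G 16 + G 35 := F 12 16 35 (by decide)
  have F_12_19_32 : G 31 + G 44 + G 51 ≤ G 63 + G 12 + G 19 + G 32 := F 12 19 32 (by decide)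
  have F_13_16_32 : G 29 + G 45 + G 48 ≤ G 61 + G 13 + G 16 + G 32 := F 13 16 32 (by decide)
  have F_13_16_34 : G 29 + G 47 + G 50 ≤ G 63 + G 13 + G 16 + G 34 := F 13 16 34 (by decide)
  have F_13_18_32 : G 31 + G 45 + G 50 ≤ G 63 + G 13 + G 18 + G 32 := F 13 18 32 (by decide)
  have F_14_16_32 : G 30 + G 46 + G 48 ≤ G 62 + G 14 + G 16 + G 32 := F 14 16 32 (by decide)
  have F_14_16_33 : G 30 + G 47 + G 49 ≤ G 63 + G 14 + G 16 + G 33 := F 14 16 33 (by decide)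
  have F_14_17_32 : G 31 + G 46 + G 49 ≤ G 63 + G 14 + G 17 + G 32 := F 14 17 32 (by decide)
  have F_15_16_32 : G 31 + G 47 + G 48 ≤ G 63 + G 15 + G 16 + G 32 := F 15 16 32 (by decide)
  obtain ⟨w01, e01⟩ : ∃ x : ℝ, x = (-1/3) * G 1 + (-1/3) * G 2 + (1/3) * G 3 + (1/12) * G 8 + (-1/12) * G 9 + (-1/12) * G 10 + (1/12) * G 11 + (1/12) * G 12 + (-1/12) * G 13 + (-1/12) * G 14 + (1/12) * G 15 + (1/12) * G 16 + (-1/12) * G 17 + (-1/12) * G 18 + (1/12) * G 19 + (1/12) * G 20 + (-1/12) * G 21 + (-1/12) * G 22 + (1/12) * G 23 + (1/12) * G 32 + (-1/12) * G 33 + (-1/12) * G 34 + (1/12) * G 35 + (1/12) * G 36 + (-1/12) * G 37 + (-1/12) * G 38 + (1/12) * G 39 + (1/12) * G 56 + (-1/12) * G 57 + (-1/12) * G 58 + (1/12) * G 59 + (1/12) * G 60 + (-1/12) * G 61 + (-1/12) * G 62 + (1/12) * G 63 := ⟨_, rfl⟩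
  obtain ⟨w02, e02⟩ : ∃ x : ℝ, x = (-1/3) * G 1 + (-1/3) * G 4 + (1/3) * G 5 + (1/12) * G 8 + (-1/12) * G 9 + (1/12) * G 10 + (-1/12) * G 11 + (-1/12) * G 12 + (1/12) * G 13 + (-1/12) * G 14 + (1/12) * G 15 + (1/12) * G 16 + (-1/12) * G 17 + (1/12) * G 18 + (-1/12) * G 19 + (-1/12) * G 20 + (1/12) * G 21 + (-1/12) * G 22 + (1/12) * G 23 + (1/12) * G 32 + (-1/12) * G 33 + (1/12) * G 34 + (-1/12) * G 35 + (-1/12) * G 36 + (1/12) * G 37 + (-1/12) * G 38 + (1/12) * G 39 + (1/12) * G 56 + (-1/12) * G 57 + (1/12) * G 58 + (-1/12) * G 59 + (-1/12) * G 60 + (1/12) * G 61 + (-1/12) * G 62 + (1/12) * G 63 := ⟨_, rfl⟩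
  obtain ⟨w03, e03⟩ : ∃ x : ℝ, x = (-1/3) * G 1 + (1/12) * G 2 + (-1/12) * G 3 + (1/12) * G 4 + (-1/12) * G 5 + (-1/3) * G 8 + (1/3) * G 9 + (-1/12) * G 10 + (1/12) * G 11 + (-1/12) * G 12 + (1/12) * G 13 + (1/18) * G 16 + (-1/18) * G 17 + (1/36) * G 18 + (-1/36) * G 19 + (1/36) * G 20 + (-1/36) * G 21 + (1/18) * G 22 + (-1/18) * G 23 + (-1/18) * G 24 + (1/18) * G 25 + (-1/36) * G 26 + (1/36) * G 27 + (-1/36) * G 28 + (1/36) * G 29 + (-1/18) * G 30 + (1/18) * G 31 + (1/18) * G 32 + (-1/18) * G 33 + (1/36) * G 34 + (-1/36) * G 35 + (1/36) * G 36 + (-1/36) * G 37 + (1/18) * G 38 + (-1/18) * G 39 + (-1/18) * G 40 + (1/18) * G 41 + (-1/36) * G 42 + (1/36) * G 43 + (-1/36) * G 44 + (1/36) * G 45 + (-1/18) * G 46 + (1/18) * G 47 + (1/18) * G 48 + (-1/18) * G 49 + (1/36) * G 50 + (-1/36) * G 51 + (1/36) * G 52 + (-1/36) * G 53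 + (1/18) * G 54 + (-1/18) * G 55 + (-1/18) * G 56 + (1/18) * G 57 + (-1/36) * G 58 + (1/36) * G 59 + (-1/36) * G 60 + (1/36) * G 61 + (-1/18) * G 62 + (1/18) * G 63 := ⟨_, rfl⟩
  obtain ⟨w04, e04⟩ : ∃ x : ℝ, x = (-1/3) * G 1 + (1/12) * G 2 + (-1/12) * G 3 + (1/12) * G 4 + (-1/12) * G 5 + (1/18) * G 8 + (-1/18) * G 9 + (1/36) * G 10 + (-1/36) * G 11 + (1/36) * G 12 + (-1/36) * G 13 + (1/18) * G 14 + (-1/18) * G 15 + (-1/3) * G 16 + (1/3) * G 17 + (-1/12) * G 18 + (1/12) * G 19 + (-1/12) * G 20 + (1/12) * G 21 + (-1/18) * G 24 + (1/18) * G 25 + (-1/36) * G 26 + (1/36) * G 27 + (-1/36) * G 28 + (1/36) * G 29 + (-1/18) * G 30 + (1/18) * G 31 + (1/18) * G 32 + (-1/18) * G 33 + (1/36) * G 34 + (-1/36) * G 35 + (1/36) * G 36 + (-1/36) * G 37 + (1/18) * G 38 + (-1/18) * G 39 + (1/18) * G 40 + (-1/18) * G 41 + (1/36) * G 42 + (-1/36)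 * G 43 + (1/36) * G 44 + (-1/36) * G 45 + (1/18) * G 46 + (-1/18) * G 47 + (-1/18) * G 48 + (1/18) * G 49 + (-1/36) * G 50 + (1/36) * G 51 + (-1/36) * G 52 + (1/36) * G 53 + (-1/18) * G 54 + (1/18) * G 55 + (-1/18) * G 56 + (1/18) * G 57 + (-1/36) * G 58 + (1/36) * G 59 + (-1/36) * G 60 + (1/36) * G 61 + (-1/18) * G 62 + (1/18) * G 63 := ⟨_, rfl⟩
  obtain ⟨w05, e05⟩ : ∃ x : ℝ, x = (-1/3) * G 1 + (1/12) * G 2 + (-1/12) * G 3 + (1/12) * G 4 + (-1/12) * G 5 + (1/18) * G 8 + (-1/18) * G 9 + (1/36) * G 10 + (-1/36) * G 11 + (1/36) * G 12 + (-1/36) * G 13 + (1/18) * G 14 + (-1/18) * G 15 + (1/18) * G 16 + (-1/18) * G 17 + (1/36) * G 18 + (-1/36) * G 19 + (1/36) * G 20 + (-1/36) * G 21 + (1/18) * G 22 + (-1/18) * G 23 + (1/18) * G 24 + (-1/18) * G 25 + (1/36) * G 26 + (-1/36) * G 27 + (1/36) * G 28 + (-1/36) * G 29 + (1/18) * G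 30 + (-1/18) * G 31 + (-1/3) * G 32 + (1/3) * G 33 + (-1/12) * G 34 + (1/12) * G 35 + (-1/12) * G 36 + (1/12) * G 37 + (-1/18) * G 40 + (1/18) * G 41 + (-1/36) * G 42 + (1/36) * G 43 + (-1/36) * G 44 + (1/36) * G 45 + (-1/18) * G 46 + (1/18) * G 47 + (-1/18) * G 48 + (1/18) * G 49 + (-1/36) * G 50 + (1/36) * G 51 + (-1/36) * G 52 + (1/36) * G 53 + (-1/18) * G 54 + (1/18) * G 55 + (-1/18) * G 56 + (1/18) * G 57 + (-1/36) * G 58 + (1/36) * G 59 + (-1/36) * G 60 + (1/36) * G 61 + (-1/18) * G 62 + (1/18) * G 63 := ⟨_, rfl⟩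
  obtain ⟨w12, e12⟩ : ∃ x : ℝ, x = (-1/3) * G 2 + (-1/3) * G 4 + (1/3) * G 6 + (1/12) * G 8 + (1/12) * G 9 + (-1/12) * G 10 + (-1/12) * G 11 + (-1/12) * G 12 + (-1/12) * G 13 + (1/12) * G 14 + (1/12) * G 15 + (1/12) * G 16 + (1/12) * G 17 + (-1/12) * G 18 + (-1/12) * G 19 + (-1/12) * G 20 + (-1/12) * G 21 + (1/12) * G 22 + (1/12) * G 23 + (1/12) * G 32 + (1/12) * G 33 + (-1/12) * G 34 + (-1/12) * G 35 + (-1/12) * G 36 + (-1/12) * G 37 + (1/12) * G 38 + (1/12) * G 39 + (1/12) * G 56 + (1/12) * G 57 + (-1/12) * G 58 + (-1/12) * G 59 + (-1/12) * G 60 + (-1/12) * G 61 + (1/12) * G 62 + (1/12) * G 63 := ⟨_, rfl⟩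
  obtain ⟨w13, e13⟩ : ∃ x : ℝ, x = (1/12) * G 1 + (-1/3) * G 2 + (-1/12) * G 3 + (1/12) * G 4 + (-1/12) * G 6 + (-1/3) * G 8 + (-1/12) * G 9 + (1/3) * G 10 + (1/12) * G 11 + (-1/12) * G 12 + (1/12) * G 14 + (1/18) * G 16 + (1/36) * G 17 + (-1/18) * G 18 + (-1/36) * G 19 + (1/36) * G 20 + (1/18) * G 21 + (-1/36) * G 22 + (-1/18) * G 23 + (-1/18) * G 24 + (-1/36) * G 25 + (1/18) * G 26 + (1/36) * G 27 + (-1/36) * G 28 + (-1/18) * G 29 + (1/36) * G 30 + (1/18) * G 31 + (1/18) * G 32 + (1/36) * G 33 + (-1/18) * G 34 + (-1/36) * G 35 + (1/36) * G 36 + (1/18) * G 37 + (-1/36) * G 38 + (-1/18) * G 39 + (-1/18) * G 40 + (-1/36) * G 41 + (1/18) * G 42 + (1/36) * G 43 + (-1/36) * G 44 + (-1/18) * G 45 + (1/36) * G 46 + (1/18) * G 47 + (1/18) * G 48 + (1/36) * G 49 + (-1/18) * G 50 + (-1/36) * G 51 + (1/36) * G 52 + (1/18) * G 53 +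 (-1/36) * G 54 + (-1/18) * G 55 + (-1/18) * G 56 + (-1/36) * G 57 + (1/18) * G 58 + (1/36) * G 59 + (-1/36) * G 60 + (-1/18) * G 61 + (1/36) * G 62 + (1/18) * G 63 := ⟨_, rfl⟩
  obtain ⟨w14, e14⟩ : ∃ x : ℝ, x = (1/12) * G 1 + (-1/3) * G 2 + (-1/12) * G 3 + (1/12) * G 4 + (-1/12) * G 6 + (1/18) * G 8 + (1/36) * G 9 + (-1/18) * G 10 + (-1/36) * G 11 + (1/36) * G 12 + (1/18) * G 13 + (-1/36) * G 14 + (-1/18) * G 15 + (-1/3) * G 16 + (-1/12) * G 17 + (1/3) * G 18 + (1/12) * G 19 + (-1/12) * G 20 + (1/12) * G 22 + (-1/18) * G 24 + (-1/36) * G 25 + (1/18) * G 26 + (1/36) * G 27 + (-1/36) * G 28 + (-1/18) * G 29 + (1/36) * G 30 + (1/18) * G 31 + (1/18) * G 32 + (1/36) * G 33 + (-1/18) * G 34 + (-1/36) * G 35 + (1/36) * G 36 + (1/18) * G 37 + (-1/36) * G 38 + (-1/18) * G 39 + (1/18) * G 40 + (1/36) * G 41 + (-1/18) * G 42 + (-1/36)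 * G 43 + (1/36) * G 44 + (1/18) * G 45 + (-1/36) * G 46 + (-1/18) * G 47 + (-1/18) * G 48 + (-1/36) * G 49 + (1/18) * G 50 + (1/36) * G 51 + (-1/36) * G 52 + (-1/18) * G 53 + (1/36) * G 54 + (1/18) * G 55 + (-1/18) * G 56 + (-1/36) * G 57 + (1/18) * G 58 + (1/36) * G 59 + (-1/36) * G 60 + (-1/18) * G 61 + (1/36) * G 62 + (1/18) * G 63 := ⟨_, rfl⟩
  obtain ⟨w15, e15⟩ : ∃ x : ℝ, x = (1/12) * G 1 + (-1/3) * G 2 + (-1/12) * G 3 + (1/12) * G 4 + (-1/12) * G 6 + (1/18) * G 8 + (1/36) * G 9 + (-1/18) * G 10 + (-1/36) * G 11 + (1/36) * G 12 + (1/18) * G 13 + (-1/36) * G 14 + (-1/18) * G 15 + (1/18) * G 16 + (1/36) * G 17 + (-1/18) * G 18 + (-1/36) * G 19 + (1/36) * G 20 + (1/18) * G 21 + (-1/36) * G 22 + (-1/18) * G 23 + (1/18) * G 24 + (1/36) * G 25 + (-1/18) * G 26 + (-1/36) * G 27 + (1/36) * G 28 + (1/18) * G 29 + (-1/36) * G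 30 + (-1/18) * G 31 + (-1/3) * G 32 + (-1/12) * G 33 + (1/3) * G 34 + (1/12) * G 35 + (-1/12) * G 36 + (1/12) * G 38 + (-1/18) * G 40 + (-1/36) * G 41 + (1/18) * G 42 + (1/36) * G 43 + (-1/36) * G 44 + (-1/18) * G 45 + (1/36) * G 46 + (1/18) * G 47 + (-1/18) * G 48 + (-1/36) * G 49 + (1/18) * G 50 + (1/36) * G 51 + (-1/36) * G 52 + (-1/18) * G 53 + (1/36) * G 54 + (1/18) * G 55 + (-1/18) * G 56 + (-1/36) * G 57 + (1/18) * G 58 + (1/36) * G 59 + (-1/36) * G 60 + (-1/18) * G 61 + (1/36) * G 62 + (1/18) * G 63 := ⟨_, rfl⟩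
  obtain ⟨w23, e23⟩ : ∃ x : ℝ, x = (1/12) * G 1 + (1/12) * G 2 + (-1/3) * G 4 + (-1/12) * G 5 + (-1/12) * G 6 + (-1/3) * G 8 + (-1/12) * G 9 + (-1/12) * G 10 + (1/3) * G 12 + (1/12) * G 13 + (1/12) * G 14 + (1/18) * G 16 + (1/36) * G 17 + (1/36) * G 18 + (1/18) * G 19 + (-1/18) * G 20 + (-1/36) * G 21 + (-1/36) * G 22 + (-1/18) * G 23 + (-1/18) * G 24 + (-1/36) * G 25 + (-1/36) * G 26 + (-1/18) * G 27 + (1/18) * G 28 + (1/36) * G 29 + (1/36) * G 30 + (1/18) * G 31 + (1/18) * G 32 + (1/36) * G 33 + (1/36) * G 34 + (1/18) * G 35 + (-1/18) * G 36 + (-1/36) * G 37 + (-1/36) * G 38 + (-1/18) * G 39 + (-1/18) * G 40 + (-1/36) * G 41 + (-1/36) * G 42 + (-1/18) * G 43 + (1/18) * G 44 + (1/36) * G 45 + (1/36) * G 46 + (1/18) * G 47 + (1/18) * G 48 + (1/36) * G 49 + (1/36) * G 50 + (1/18) * G 51 + (-1/18) * G 52 + (-1/36) * G 53 +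 (-1/36) * G 54 + (-1/18) * G 55 + (-1/18) * G 56 + (-1/36) * G 57 + (-1/36) * G 58 + (-1/18) * G 59 + (1/18) * G 60 + (1/36) * G 61 + (1/36) * G 62 + (1/18) * G 63 := ⟨_, rfl⟩
  obtain ⟨w24, e24⟩ : ∃ x : ℝ, x = (1/12) * G 1 + (1/12) * G 2 + (-1/3) * G 4 + (-1/12) * G 5 + (-1/12) * G 6 + (1/18) * G 8 + (1/36) * G 9 + (1/36) * G 10 + (1/18) * G 11 + (-1/18) * G 12 + (-1/36) * G 13 + (-1/36) * G 14 + (-1/18) * G 15 + (-1/3) * G 16 + (-1/12) * G 17 + (-1/12) * G 18 + (1/3) * G 20 + (1/12) * G 21 + (1/12) * G 22 + (-1/18) * G 24 + (-1/36) * G 25 + (-1/36) * G 26 + (-1/18) * G 27 + (1/18) * G 28 + (1/36) * G 29 + (1/36) * G 30 + (1/18) * G 31 + (1/18) * G 32 + (1/36) * G 33 + (1/36) * G 34 + (1/18) * G 35 + (-1/18) * G 36 + (-1/36) * G 37 + (-1/36) * G 38 + (-1/18) * G 39 + (1/18) * G 40 + (1/36) * G 41 + (1/36) * G 42 + (1/18)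 * G 43 + (-1/18) * G 44 + (-1/36) * G 45 + (-1/36) * G 46 + (-1/18) * G 47 + (-1/18) * G 48 + (-1/36) * G 49 + (-1/36) * G 50 + (-1/18) * G 51 + (1/18) * G 52 + (1/36) * G 53 + (1/36) * G 54 + (1/18) * G 55 + (-1/18) * G 56 + (-1/36) * G 57 + (-1/36) * G 58 + (-1/18) * G 59 + (1/18) * G 60 + (1/36) * G 61 + (1/36) * G 62 + (1/18) * G 63 := ⟨_, rfl⟩
  obtain ⟨w25, e25⟩ : ∃ x : ℝ, x = (1/12) * G 1 + (1/12) * G 2 + (-1/3) * G 4 + (-1/12) * G 5 + (-1/12) * G 6 + (1/18) * G 8 + (1/36) * G 9 + (1/36) * G 10 + (1/18) * G 11 + (-1/18) * G 12 + (-1/36) * G 13 + (-1/36) * G 14 + (-1/18) * G 15 + (1/18) * G 16 + (1/36) * G 17 + (1/36) * G 18 + (1/18) * G 19 + (-1/18) * G 20 + (-1/36) * G 21 + (-1/36) * G 22 + (-1/18) * G 23 + (1/18) * G 24 + (1/36) * G 25 + (1/36) * G 26 + (1/18) * G 27 + (-1/18) * G 28 + (-1/36) * G 29 + (-1/36) *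 G 30 + (-1/18) * G 31 + (-1/3) * G 32 + (-1/12) * G 33 + (-1/12) * G 34 + (1/3) * G 36 + (1/12) * G 37 + (1/12) * G 38 + (-1/18) * G 40 + (-1/36) * G 41 + (-1/36) * G 42 + (-1/18) * G 43 + (1/18) * G 44 + (1/36) * G 45 + (1/36) * G 46 + (1/18) * G 47 + (-1/18) * G 48 + (-1/36) * G 49 + (-1/36) * G 50 + (-1/18) * G 51 + (1/18) * G 52 + (1/36) * G 53 + (1/36) * G 54 + (1/18) * G 55 + (-1/18) * G 56 + (-1/36) * G 57 + (-1/36) * G 58 + (-1/18) * G 59 + (1/18) * G 60 + (1/36) * G 61 + (1/36) * G 62 + (1/18) * G 63 := ⟨_, rfl⟩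
  obtain ⟨w34, e34⟩ : ∃ x : ℝ, x = (1/18) * G 1 + (1/18) * G 2 + (1/18) * G 3 + (1/18) * G 4 + (1/18) * G 5 + (1/18) * G 6 + (-1/3) * G 8 + (-1/18) * G 9 + (-1/18) * G 10 + (-1/18) * G 11 + (-1/18) * G 12 + (-1/18) * G 13 + (-1/18) * G 14 + (-1/3) * G 16 + (-1/18) * G 17 + (-1/18) * G 18 + (-1/18) * G 19 + (-1/18) * G 20 + (-1/18) * G 21 + (-1/18) * G 22 + (1/3) * G 24 + (1/18) * G 25 + (1/18) * G 26 + (1/18) * G 27 + (1/18) * G 28 + (1/18) * G 29 + (1/18) * G 30 + (1/12) * G 32 + (1/36) * G 33 + (1/36) * G 34 + (1/36) * G 35 + (1/36) * G 36 + (1/36) * G 37 + (1/36) * G 38 + (1/12) * G 39 + (-1/12) * G 40 + (-1/36) * G 41 + (-1/36) * G 42 + (-1/36) * G 43 + (-1/36) * G 44 + (-1/36) * G 45 + (-1/36) * G 46 + (-1/12) * G 47 + (-1/12) * G 48 + (-1/36) * G 49 + (-1/36) * G 50 + (-1/36) * G 51 + (-1/36) * G 52 + (-1/36) * G 53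 + (-1/36) * G 54 + (-1/12) * G 55 + (1/12) * G 56 + (1/36) * G 57 + (1/36) * G 58 + (1/36) * G 59 + (1/36) * G 60 + (1/36) * G 61 + (1/36) * G 62 + (1/12) * G 63 := ⟨_, rfl⟩
  obtain ⟨w35, e35⟩ : ∃ x : ℝ, x = (1/18) * G 1 + (1/18) * G 2 + (1/18) * G 3 + (1/18) * G 4 + (1/18) * G 5 + (1/18) * G 6 + (-1/3) * G 8 + (-1/18) * G 9 + (-1/18) * G 10 + (-1/18) * G 11 + (-1/18) * G 12 + (-1/18) * G 13 + (-1/18) * G 14 + (1/12) * G 16 + (1/36) * G 17 + (1/36) * G 18 + (1/36) * G 19 + (1/36) * G 20 + (1/36) * G 21 + (1/36) * G 22 + (1/12) * G 23 + (-1/12) * G 24 + (-1/36) * G 25 + (-1/36) * G 26 + (-1/36) * G 27 + (-1/36) * G 28 + (-1/36) * G 29 + (-1/36) * G 30 + (-1/12) * G 31 + (-1/3) * G 32 + (-1/18) * G 33 + (-1/18) * G 34 + (-1/18) * G 35 + (-1/18) * G 36 + (-1/18) * G 37 + (-1/18) * G 38 + (1/3) * G 40 + (1/18) * G 41 + (1/18)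 * G 42 + (1/18) * G 43 + (1/18) * G 44 + (1/18) * G 45 + (1/18) * G 46 + (-1/12) * G 48 + (-1/36) * G 49 + (-1/36) * G 50 + (-1/36) * G 51 + (-1/36) * G 52 + (-1/36) * G 53 + (-1/36) * G 54 + (-1/12) * G 55 + (1/12) * G 56 + (1/36) * G 57 + (1/36) * G 58 + (1/36) * G 59 + (1/36) * G 60 + (1/36) * G 61 + (1/36) * G 62 + (1/12) * G 63 := ⟨_, rfl⟩
  obtain ⟨w45, e45⟩ : ∃ x : ℝ, x = (1/18) * G 1 + (1/18) * G 2 + (1/18) * G 3 + (1/18) * G 4 + (1/18) * G 5 + (1/18) * G 6 + (1/12) * G 8 + (1/36) * G 9 + (1/36) * G 10 + (1/36) * G 11 + (1/36) * G 12 + (1/36) * G 13 + (1/36) * G 14 + (1/12) * G 15 + (-1/3) * G 16 + (-1/18) * G 17 + (-1/18) * G 18 + (-1/18) * G 19 + (-1/18) * G 20 + (-1/18) * G 21 + (-1/18) * G 22 + (-1/12) * G 24 + (-1/36) * G 25 + (-1/36) * G 26 + (-1/36) * G 27 + (-1/36) * G 28 + (-1/36) * G 29 + (-1/36) * G 30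 + (-1/12) * G 31 + (-1/3) * G 32 + (-1/18) * G 33 + (-1/18) * G 34 + (-1/18) * G 35 + (-1/18) * G 36 + (-1/18) * G 37 + (-1/18) * G 38 + (-1/12) * G 40 + (-1/36) * G 41 + (-1/36) * G 42 + (-1/36) * G 43 + (-1/36) * G 44 + (-1/36) * G 45 + (-1/36) * G 46 + (-1/12) * G 47 + (1/3) * G 48 + (1/18) * G 49 + (1/18) * G 50 + (1/18) * G 51 + (1/18) * G 52 + (1/18) * G 53 + (1/18) * G 54 + (1/12) * G 56 + (1/36) * G 57 + (1/36) * G 58 + (1/36) * G 59 + (1/36) * G 60 + (1/36) * G 61 + (1/36) * G 62 + (1/12) * G 63 := ⟨_, rfl⟩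
  refine ⟨![![0, w01, w02, w03, w04, w05], ![0, 0, w12, w13, w14, w15], ![0, 0, 0, w23, w24, w25], ![0, 0, 0, 0, w34, w35], ![0, 0, 0, 0, 0, w45], ![0, 0, 0, 0, 0, 0]], ?_, ?_, ?_, ?_, ?_, ?_, ?_, ?_, ?_, ?_, ?_, ?_, ?_, ?_, ?_, ?_, ?_, ?_, ?_, ?_, ?_, ?_, ?_, ?_, ?_, ?_, ?_, ?_, ?_, ?_, ?_, ?_, ?_, ?_, ?_, ?_, ?_, ?_, ?_, ?_, ?_, ?_, ?_, ?_, ?_, ?_, ?_, ?_, ?_, ?_, ?_, ?_, ?_, ?_, ?_, ?_, ?_, ?_⟩
  · intro x y hxy; fin_cases x <;> fin_cases y <;> first | rfl | (exact absurd hxy (by decide))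
  · show G 3 ≤ G 1 + G 2 + (w01)
    linear_combination (1/12) * F_1_2_8 + (1/12) * F_1_2_12 + (1/12) * F_1_2_16 + (1/12) * F_1_2_20 + (1/12) * F_1_2_32 + (1/12) * F_1_2_36 + (1/12) * F_1_2_56 + (1/12) * F_1_2_60 + (-1) * e01
  · show G 5 ≤ G 1 + G 4 + (w02)
    linear_combination (1/12) * F_1_4_8 + (1/12) * F_1_4_10 + (1/12) * F_1_4_16 + (1/12) * F_1_4_18 + (1/12) * F_1_4_32 + (1/12) * F_1_4_34 + (1/12) * F_1_4_56 + (1/12) * F_1_4_58 + (-1) * e02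
  · show G 6 ≤ G 2 + G 4 + (w12)
    linear_combination (1/12) * F_2_4_8 + (1/12) * F_2_4_9 + (1/12) * F_2_4_16 + (1/12) * F_2_4_17 + (1/12) * F_2_4_32 + (1/12) * F_2_4_33 + (1/12) * F_2_4_56 + (1/12) * F_2_4_57 + (-1) * e12
  · show G 7 ≤ G 1 + G 2 + G 4 + (w01 + w02 + w12)
    linear_combination (1/12) * F_1_6_8 + (1/12) * F_1_6_16 + (1/12) * F_1_6_32 + (1/12) * F_1_6_56 + (1/12) * F_2_5_8 + (1/12) * F_2_5_16 + (1/12) * F_2_5_32 + (1/12) * F_2_5_56 + (1/12) * F_3_4_8 + (1/12) * F_3_4_16 + (1/12) * F_3_4_32 + (1/12) * F_3_4_56 + (-1) * e01 + (-1) * e02 + (-1) * e12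
  · show G 9 ≤ G 1 + G 8 + (w03)
    linear_combination (1/12) * F_1_2_8 + (1/12) * F_1_4_8 + (1/18) * F_1_8_16 + (1/36) * F_1_8_18 + (1/36) * F_1_8_20 + (1/18) * F_1_8_22 + (1/18) * F_1_8_32 + (1/36) * F_1_8_34 + (1/36) * F_1_8_36 + (1/18) * F_1_8_38 + (1/18) * F_1_8_48 + (1/36) * F_1_8_50 + (1/36) * F_1_8_52 + (1/18) * F_1_8_54 + (-1) * e03
  · show G 10 ≤ G 2 + G 8 + (w13)
    linear_combination (1/12) * F_1_2_8 + (1/12) * F_2_4_8 + (1/18) * F_2_8_16 + (1/36) * F_2_8_17 + (1/36) * F_2_8_20 + (1/18) * F_2_8_21 + (1/18) * F_2_8_32 + (1/36) * F_2_8_33 + (1/36) * F_2_8_36 + (1/18) * F_2_8_37 + (1/18) * F_2_8_48 + (1/36) * F_2_8_49 + (1/36) * F_2_8_52 + (1/18) * F_2_8_53 + (-1) * e13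
  · show G 11 ≤ G 1 + G 2 + G 8 + (w01 + w03 + w13)
    linear_combination (1/288) * F_1_2_12 + (1/36) * F_1_2_16 + (1/36) * F_1_2_32 + (1/288) * F_1_2_48 + (1/36) * F_1_2_60 + (1/144) * F_1_4_32 + (5/144) * F_1_6_16 + (7/288) * F_1_6_40 + (1/32) * F_1_6_56 + (1/72) * F_1_8_48 + (5/144) * F_1_8_54 + (5/288) * F_1_10_16 + (1/36) * F_1_10_20 + (5/288) * F_1_10_32 + (1/96) * F_1_10_48 + (5/288) * F_1_10_52 + (1/32) * F_1_12_16 + (1/18) * F_1_12_32 + (1/288) * F_1_14_32 + (7/288) * F_2_4_16 + (1/144) * F_2_4_41 + (1/144) * F_2_4_57 + (1/24) * F_2_5_16 + (5/288) * F_2_5_32 + (17/288) * F_2_8_21 + (5/288) * F_2_9_16 + (1/96) * F_2_9_36 + (5/96) * F_2_9_52 + (19/288) * F_2_13_32 + (7/288) * F_2_13_48 + (25/144) * F_3_4_8 + (7/288) * F_3_4_24 + (17/288) * F_3_4_48 + (13/288) * M_11 + (-1) * e01 + (-1) * e03 + (-1) * e13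
  · show G 12 ≤ G 4 + G 8 + (w23)
    linear_combination (1/12) * F_1_4_8 + (1/12) * F_2_4_8 + (1/18) * F_4_8_16 + (1/36) * F_4_8_17 + (1/36) * F_4_8_18 + (1/18) * F_4_8_19 + (1/18) * F_4_8_32 + (1/36) * F_4_8_33 + (1/36) * F_4_8_34 + (1/18) * F_4_8_35 + (1/18) * F_4_8_48 + (1/36) * F_4_8_49 + (1/36) * F_4_8_50 + (1/18) * F_4_8_51 + (-1) * e23
  · show G 13 ≤ G 1 + G 4 + G 8 + (w02 + w03 + w23)
    linear_combination (1/288) * F_1_4_10 + (1/36) * F_1_4_16 + (1/36) * F_1_4_32 + (1/288) * F_1_4_48 + (1/36) * F_1_4_58 + (1/144) * F_1_2_32 + (5/144) * F_1_6_16 + (7/288) * F_1_6_40 + (1/32) * F_1_6_56 + (1/72) * F_1_8_48 + (5/144) * F_1_8_54 + (5/288) * F_1_12_16 + (1/36) * F_1_12_18 + (5/288) * F_1_12_32 + (1/96) * F_1_12_48 + (5/288) * F_1_12_50 + (1/32) * F_1_10_16 + (1/18) * F_1_10_32 + (1/288) * F_1_14_32 + (7/288) * F_2_4_16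 + (1/144) * F_2_4_41 + (1/144) * F_2_4_57 + (1/24) * F_3_4_16 + (5/288) * F_3_4_32 + (17/288) * F_4_8_19 + (5/288) * F_4_9_16 + (1/96) * F_4_9_34 + (5/96) * F_4_9_50 + (19/288) * F_4_11_32 + (7/288) * F_4_11_48 + (25/144) * F_2_5_8 + (7/288) * F_2_5_24 + (17/288) * F_2_5_48 + (13/288) * M_13 + (-1) * e02 + (-1) * e03 + (-1) * e23
  · show G 14 ≤ G 2 + G 4 + G 8 + (w12 + w13 + w23)
    linear_combination (1/288) * F_2_4_9 + (1/36) * F_2_4_16 + (1/36) * F_2_4_32 + (1/288) * F_2_4_48 + (1/36) * F_2_4_57 + (1/144) * F_1_2_32 + (5/144) * F_2_5_16 + (7/288) * F_2_5_40 + (1/32) * F_2_5_56 + (1/72) * F_2_8_48 + (5/144) * F_2_8_53 + (5/288) * F_2_12_16 + (1/36) * F_2_12_17 + (5/288) * F_2_12_32 + (1/96) * F_2_12_48 + (5/288) * F_2_12_49 + (1/32) * F_2_9_16 + (1/18) * F_2_9_32 + (1/288) * F_2_13_32 + (7/288) * F_1_4_16 + (1/144) *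 F_1_4_42 + (1/144) * F_1_4_58 + (1/24) * F_3_4_16 + (5/288) * F_3_4_32 + (17/288) * F_4_8_19 + (5/288) * F_4_10_16 + (1/96) * F_4_10_33 + (5/96) * F_4_10_49 + (19/288) * F_4_11_32 + (7/288) * F_4_11_48 + (25/144) * F_1_6_8 + (7/288) * F_1_6_24 + (17/288) * F_1_6_48 + (13/288) * M_14 + (-1) * e12 + (-1) * e13 + (-1) * e23
  · show G 15 ≤ G 1 + G 2 + G 4 + G 8 + (w01 + w02 + w03 + w12 + w13 + w23)
    linear_combination (5/156) * F_1_6_16 + (5/156) * F_1_6_32 + (1/12) * F_1_6_56 + (1/78) * F_1_8_16 + (1/156) * F_1_8_32 + (2/39) * F_1_8_48 + (2/39) * F_1_14_16 + (2/39) * F_1_14_32 + (5/156) * F_2_5_16 + (5/156) * F_2_5_32 + (2/39) * F_2_5_48 + (5/156) * F_2_5_56 + (1/156) * F_2_8_32 + (5/78) * F_2_8_53 + (2/39) * F_2_13_16 + (2/39) * F_2_13_32 + (1/52) * F_3_4_8 + (5/156) * F_3_4_16 + (5/156) * F_3_4_32 + (2/39) * F_3_4_48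 + (5/156) * F_3_4_56 + (2/39) * F_4_8_51 + (2/39) * F_4_11_16 + (2/39) * F_4_11_32 + (1/156) * F_5_8_34 + (1/78) * F_5_8_48 + (1/78) * F_6_8_17 + (1/156) * F_6_8_33 + (2/39) * M_112 + (-1) * e01 + (-1) * e02 + (-1) * e03 + (-1) * e12 + (-1) * e13 + (-1) * e23
  · show G 17 ≤ G 1 + G 16 + (w04)
    linear_combination (1/12) * F_1_2_16 + (1/12) * F_1_4_16 + (1/18) * F_1_8_16 + (1/36) * F_1_10_16 + (1/36) * F_1_12_16 + (1/18) * F_1_14_16 + (1/18) * F_1_16_32 + (1/36) * F_1_16_34 + (1/36) * F_1_16_36 + (1/18) * F_1_16_38 + (1/18) * F_1_16_40 + (1/36) * F_1_16_42 + (1/36) * F_1_16_44 + (1/18) * F_1_16_46 + (-1) * e04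
  · show G 18 ≤ G 2 + G 16 + (w14)
    linear_combination (1/12) * F_1_2_16 + (1/12) * F_2_4_16 + (1/18) * F_2_8_16 + (1/36) * F_2_9_16 + (1/36) * F_2_12_16 + (1/18) * F_2_13_16 + (1/18) * F_2_16_32 + (1/36) * F_2_16_33 + (1/36) * F_2_16_36 + (1/18) * F_2_16_37 + (1/18) * F_2_16_40 + (1/36) * F_2_16_41 + (1/36) * F_2_16_44 + (1/18) * F_2_16_45 + (-1) * e14
  · show G 19 ≤ G 1 + G 2 + G 16 + (w01 + w04 + w14)
    linear_combination (1/288) * F_1_2_20 + (1/36) * F_1_2_8 + (1/36) * F_1_2_32 + (1/288) * F_1_2_40 + (1/36) * F_1_2_60 + (1/144) * F_1_4_32 + (5/144) * F_1_6_8 + (7/288) * F_1_6_48 + (1/32) * F_1_6_56 + (1/72) * F_1_16_40 + (5/144) * F_1_16_46 + (5/288) * F_1_8_18 + (1/36) * F_1_12_18 + (5/288) * F_1_18_32 + (1/96) * F_1_18_40 + (5/288) * F_1_18_44 + (1/32) * F_1_8_20 + (1/18) * F_1_20_32 + (1/288) * F_1_22_32 + (7/288)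 * F_2_4_8 + (1/144) * F_2_4_49 + (1/144) * F_2_4_57 + (1/24) * F_2_5_8 + (5/288) * F_2_5_32 + (17/288) * F_2_13_16 + (5/288) * F_2_8_17 + (1/96) * F_2_17_36 + (5/96) * F_2_17_44 + (19/288) * F_2_21_32 + (7/288) * F_2_21_40 + (25/144) * F_3_4_16 + (7/288) * F_3_4_24 + (17/288) * F_3_4_40 + (13/288) * M_19 + (-1) * e01 + (-1) * e04 + (-1) * e14
  · show G 20 ≤ G 4 + G 16 + (w24)
    linear_combination (1/12) * F_1_4_16 + (1/12) * F_2_4_16 + (1/18) * F_4_8_16 + (1/36) * F_4_9_16 + (1/36) * F_4_10_16 + (1/18) * F_4_11_16 + (1/18) * F_4_16_32 + (1/36) * F_4_16_33 + (1/36) * F_4_16_34 + (1/18) * F_4_16_35 + (1/18) * F_4_16_40 + (1/36) * F_4_16_41 + (1/36) * F_4_16_42 + (1/18) * F_4_16_43 + (-1) * e24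
  · show G 21 ≤ G 1 + G 4 + G 16 + (w02 + w04 + w24)
    linear_combination (1/288) * F_1_4_18 + (1/36) * F_1_4_8 + (1/36) * F_1_4_32 + (1/288) * F_1_4_40 + (1/36) * F_1_4_58 + (1/144) * F_1_2_32 + (5/144) * F_1_6_8 + (7/288) * F_1_6_48 + (1/32) * F_1_6_56 + (1/72) * F_1_16_40 + (5/144) * F_1_16_46 + (5/288) * F_1_8_20 + (1/36) * F_1_10_20 + (5/288) * F_1_20_32 + (1/96) * F_1_20_40 + (5/288) * F_1_20_42 + (1/32) * F_1_8_18 + (1/18) * F_1_18_32 + (1/288) * F_1_22_32 + (7/288) * F_2_4_8 + (1/144) * F_2_4_49 + (1/144) * F_2_4_57 + (1/24) * F_3_4_8 + (5/288) * F_3_4_32 + (17/288) * F_4_11_16 + (5/288) * F_4_8_17 + (1/96) * F_4_17_34 + (5/96) * F_4_17_42 + (19/288) * F_4_19_32 + (7/288) * F_4_19_40 + (25/144) * F_2_5_16 + (7/288) * F_2_5_24 + (17/288) * F_2_5_40 + (13/288) * M_21 + (-1) * e02 + (-1) * e04 + (-1) * e24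
  · show G 22 ≤ G 2 + G 4 + G 16 + (w12 + w14 + w24)
    linear_combination (1/288) * F_2_4_17 + (1/36) * F_2_4_8 + (1/36) * F_2_4_32 + (1/288) * F_2_4_40 + (1/36) * F_2_4_57 + (1/144) * F_1_2_32 + (5/144) * F_2_5_8 + (7/288) * F_2_5_48 + (1/32) * F_2_5_56 + (1/72) * F_2_16_40 + (5/144) * F_2_16_45 + (5/288) * F_2_8_20 + (1/36) * F_2_9_20 + (5/288) * F_2_20_32 + (1/96) * F_2_20_40 + (5/288) * F_2_20_41 + (1/32) * F_2_8_17 + (1/18) * F_2_17_32 + (1/288) * F_2_21_32 + (7/288) * F_1_4_8 + (1/144) * F_1_4_50 + (1/144) * F_1_4_58 + (1/24) * F_3_4_8 + (5/288) * F_3_4_32 + (17/288) * F_4_11_16 + (5/288) * F_4_8_18 + (1/96) * F_4_18_33 + (5/96) * F_4_18_41 + (19/288) * F_4_19_32 + (7/288) * F_4_19_40 + (25/144) * F_1_6_16 + (7/288) * F_1_6_24 + (17/288) * F_1_6_40 + (13/288) * M_22 + (-1) * e12 + (-1) * e14 + (-1) * e24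
  · show G 23 ≤ G 1 + G 2 + G 4 + G 16 + (w01 + w02 + w04 + w12 + w14 + w24)
    linear_combination (5/156) * F_1_6_8 + (5/156) * F_1_6_32 + (1/12) * F_1_6_56 + (1/78) * F_1_8_16 + (1/156) * F_1_16_32 + (2/39) * F_1_16_40 + (2/39) * F_1_8_22 + (2/39) * F_1_22_32 + (5/156) * F_2_5_8 + (5/156) * F_2_5_32 + (2/39) * F_2_5_40 + (5/156) * F_2_5_56 + (1/156) * F_2_16_32 + (5/78) * F_2_16_45 + (2/39) * F_2_8_21 + (2/39) * F_2_21_32 + (1/52) * F_3_4_16 + (5/156) * F_3_4_8 + (5/156) * F_3_4_32 + (2/39) * F_3_4_40 + (5/156) * F_3_4_56 + (2/39) * F_4_16_43 + (2/39) * F_4_8_19 + (2/39) * F_4_19_32 + (1/156) * F_5_16_34 + (1/78) * F_5_16_40 + (1/78) * F_6_9_16 + (1/156) * F_6_16_33 + (2/39) * M_104 + (-1) * e01 + (-1) * e02 + (-1) * e04 + (-1) * e12 + (-1) * e14 + (-1) * e24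
  · show G 24 ≤ G 8 + G 16 + (w34)
    linear_combination (1/18) * F_1_8_16 + (1/18) * F_2_8_16 + (1/18) * F_3_8_16 + (1/18) * F_4_8_16 + (1/18) * F_5_8_16 + (1/18) * F_6_8_16 + (1/12) * F_8_16_32 + (1/36) * F_8_16_33 + (1/36) * F_8_16_34 + (1/36) * F_8_16_35 + (1/36) * F_8_16_36 + (1/36) * F_8_16_37 + (1/36) * F_8_16_38 + (1/12) * F_8_16_39 + (-1) * e34
  · show G 25 ≤ G 1 + G 8 + G 16 + (w03 + w04 + w34)
    linear_combination (1/18) * F_1_2_8 + (1/36) * F_1_2_24 + (1/18) * F_1_4_8 + (1/36) * F_1_4_24 + (1/9) * F_1_6_24 + (1/36) * F_1_24_32 + (1/36) * F_1_24_38 + (1/18) * F_1_30_32 + (1/36) * F_2_4_8 + (1/36) * F_2_4_16 + (1/36) * F_2_5_40 + (1/36) * F_2_5_48 + (1/36) * F_2_8_21 + (1/18) * F_2_9_16 + (1/36) * F_2_13_16 + (1/36) * F_3_4_40 + (1/36) * F_3_4_48 + (1/36) * F_4_8_17 + (1/12) * F_4_9_16 + (1/18) * F_8_17_32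 + (1/18) * F_8_17_38 + (1/18) * F_9_16_32 + (1/18) * F_9_16_38 + (1/36) * M_25 + (-1) * e03 + (-1) * e04 + (-1) * e34
  · show G 26 ≤ G 2 + G 8 + G 16 + (w13 + w14 + w34)
    linear_combination (1/18) * F_1_2_8 + (1/36) * F_1_2_24 + (1/18) * F_2_4_8 + (1/36) * F_2_4_24 + (1/9) * F_2_5_24 + (1/36) * F_2_24_32 + (1/36) * F_2_24_37 + (1/18) * F_2_29_32 + (1/36) * F_1_4_8 + (1/36) * F_1_4_16 + (1/36) * F_1_6_40 + (1/36) * F_1_6_48 + (1/36) * F_1_8_22 + (1/18) * F_1_10_16 + (1/36) * F_1_14_16 + (1/36) * F_3_4_40 + (1/36) * F_3_4_48 + (1/36) * F_4_8_18 + (1/12) * F_4_10_16 + (1/18) * F_8_18_32 + (1/18) * F_8_18_37 + (1/18) * F_10_16_32 + (1/18) * F_10_16_37 + (1/36) * M_26 + (-1) * e13 + (-1) * e14 + (-1) * e34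
  · show G 27 ≤ G 1 + G 2 + G 8 + G 16 + (w01 + w03 + w04 + w13 + w14 + w34)
    linear_combination (1/36) * F_1_2_32 + (1/36) * F_1_2_60 + (1/36) * F_1_4_26 + (1/18) * F_1_4_58 + (1/36) * F_1_6_40 + (1/36) * F_1_6_48 + (1/36) * F_1_24_32 + (1/36) * F_1_24_38 + (1/18) * F_1_26_32 + (1/36) * F_2_4_25 + (1/18) * F_2_4_32 + (1/36) * F_2_5_40 + (1/36) * F_2_5_48 + (1/36) * F_2_25_32 + (1/12) * F_2_25_36 + (1/9) * F_3_4_24 + (1/18) * F_4_8_16 + (1/36) * F_4_8_19 + (1/36) * F_4_11_16 + (1/18) * F_8_19_32 + (1/18) * F_8_19_36 + (1/18) * F_11_16_32 + (1/18) * F_11_16_36 + (1/36) * M_100 + (-1) * e01 + (-1) * e03 + (-1) * e04 + (-1) * e13 + (-1) * e14 + (-1) * e34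
  · show G 28 ≤ G 4 + G 8 + G 16 + (w23 + w24 + w34)
    linear_combination (1/18) * F_1_4_8 + (1/36) * F_1_4_24 + (1/18) * F_2_4_8 + (1/36) * F_2_4_24 + (1/9) * F_3_4_24 + (1/36) * F_4_24_32 + (1/36) * F_4_24_35 + (1/18) * F_4_27_32 + (1/36) * F_1_2_8 + (1/36) * F_1_2_16 + (1/36) * F_1_6_40 + (1/36) * F_1_6_48 + (1/36) * F_1_8_22 + (1/18) * F_1_12_16 + (1/36) * F_1_14_16 + (1/36) * F_2_5_40 + (1/36) * F_2_5_48 + (1/36) * F_2_8_20 + (1/12) * F_2_12_16 + (1/18) * F_8_20_32 + (1/18) * F_8_20_35 + (1/18) * F_12_16_32 + (1/18) * F_12_16_35 + (1/36) * M_28 + (-1) * e23 + (-1) * e24 + (-1) * e34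
  · show G 29 ≤ G 1 + G 4 + G 8 + G 16 + (w02 + w03 + w04 + w23 + w24 + w34)
    linear_combination (1/36) * F_1_4_32 + (1/36) * F_1_4_58 + (1/36) * F_1_2_28 + (1/18) * F_1_2_60 + (1/36) * F_1_6_40 + (1/36) * F_1_6_48 + (1/36) * F_1_24_32 + (1/36) * F_1_24_38 + (1/18) * F_1_28_32 + (1/36) * F_2_4_25 + (1/18) * F_2_4_32 + (1/36) * F_3_4_40 + (1/36) * F_3_4_48 + (1/36) * F_4_25_32 + (1/12) * F_4_25_34 + (1/9) * F_2_5_24 + (1/18) * F_2_8_16 + (1/36) * F_2_8_21 + (1/36) * F_2_13_16 + (1/18) * F_8_21_32 + (1/18) * F_8_21_34 + (1/18) * F_13_16_32 + (1/18) * F_13_16_34 + (1/36) * M_98 + (-1) * e02 + (-1) * e03 + (-1) * e04 + (-1) * e23 + (-1) * e24 + (-1) * e34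
  · show G 30 ≤ G 2 + G 4 + G 8 + G 16 + (w12 + w13 + w14 + w23 + w24 + w34)
    linear_combination (1/36) * F_2_4_32 + (1/36) * F_2_4_57 + (1/36) * F_1_2_28 + (1/18) * F_1_2_60 + (1/36) * F_2_5_40 + (1/36) * F_2_5_48 + (1/36) * F_2_24_32 + (1/36) * F_2_24_37 + (1/18) * F_2_28_32 + (1/36) * F_1_4_26 + (1/18) * F_1_4_32 + (1/36) * F_3_4_40 + (1/36) * F_3_4_48 + (1/36) * F_4_26_32 + (1/12) * F_4_26_33 + (1/9) * F_1_6_24 + (1/18) * F_1_8_16 + (1/36) * F_1_8_22 + (1/36) * F_1_14_16 + (1/18) * F_8_22_32 + (1/18) * F_8_22_33 + (1/18) * F_14_16_32 + (1/18) * F_14_16_33 + (1/36) * M_97 + (-1) * e12 + (-1) * e13 + (-1) * e14 + (-1) * e23 + (-1) * e24 + (-1) * e34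
  · show G 31 ≤ G 1 + G 2 + G 4 + G 8 + G 16 + (w01 + w02 + w03 + w04 + w12 + w13 + w14 + w23 + w24 + w34)
    linear_combination (1/18) * F_1_30_32 + (1/18) * F_2_29_32 + (1/18) * F_3_28_32 + (1/18) * F_4_27_32 + (1/18) * F_5_26_32 + (1/18) * F_6_25_32 + (1/12) * F_8_23_32 + (1/36) * F_9_22_32 + (1/36) * F_10_21_32 + (1/36) * F_11_20_32 + (1/36) * F_12_19_32 + (1/36) * F_13_18_32 + (1/36) * F_14_17_32 + (1/12) * F_15_16_32 + (-1) * e01 + (-1) * e02 + (-1) * e03 + (-1) * e04 + (-1) * e12 + (-1) * e13 + (-1) * e14 + (-1) * e23 + (-1) * e24 + (-1) * e34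
  · show G 33 ≤ G 1 + G 32 + (w05)
    linear_combination (1/12) * F_1_2_32 + (1/12) * F_1_4_32 + (1/18) * F_1_8_32 + (1/36) * F_1_10_32 + (1/36) * F_1_12_32 + (1/18) * F_1_14_32 + (1/18) * F_1_16_32 + (1/36) * F_1_18_32 + (1/36) * F_1_20_32 + (1/18) * F_1_22_32 + (1/18) * F_1_24_32 + (1/36) * F_1_26_32 + (1/36) * F_1_28_32 + (1/18) * F_1_30_32 + (-1) * e05
  · show G 34 ≤ G 2 + G 32 + (w15)
    linear_combination (1/12) * F_1_2_32 + (1/12) * F_2_4_32 + (1/18) * F_2_8_32 + (1/36) * F_2_9_32 + (1/36) * F_2_12_32 + (1/18) * F_2_13_32 + (1/18) * F_2_16_32 + (1/36) * F_2_17_32 + (1/36) * F_2_20_32 + (1/18) * F_2_21_32 + (1/18) * F_2_24_32 + (1/36) * F_2_25_32 + (1/36) * F_2_28_32 + (1/18) * F_2_29_32 + (-1) * e15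
  · show G 35 ≤ G 1 + G 2 + G 32 + (w01 + w05 + w15)
    linear_combination (1/288) * F_1_2_36 + (1/36) * F_1_2_8 + (1/36) * F_1_2_16 + (1/288) * F_1_2_24 + (1/36) * F_1_2_60 + (1/144) * F_1_4_16 + (5/144) * F_1_6_8 + (7/288) * F_1_6_48 + (1/32) * F_1_6_56 + (1/72) * F_1_24_32 + (5/144) * F_1_30_32 + (5/288) * F_1_8_34 + (1/36) * F_1_12_34 + (5/288) * F_1_16_34 + (1/96) * F_1_24_34 + (5/288) * F_1_28_34 + (1/32) * F_1_8_36 + (1/18) * F_1_16_36 + (1/288) * F_1_16_38 + (7/288) * F_2_4_8 + (1/144) * F_2_4_49 + (1/144) * F_2_4_57 + (1/24) * F_2_5_8 + (5/288) * F_2_5_16 + (17/288) * F_2_13_32 + (5/288) * F_2_8_33 + (1/96) * F_2_20_33 + (5/96) * F_2_28_33 + (19/288) * F_2_16_37 + (7/288) * F_2_24_37 + (25/144) * F_3_4_32 + (7/288) * F_3_4_40 + (17/288) * F_3_4_24 + (13/288) * M_35 + (-1) * e01 + (-1) * e05 + (-1) * e15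
  · show G 36 ≤ G 4 + G 32 + (w25)
    linear_combination (1/12) * F_1_4_32 + (1/12) * F_2_4_32 + (1/18) * F_4_8_32 + (1/36) * F_4_9_32 + (1/36) * F_4_10_32 + (1/18) * F_4_11_32 + (1/18) * F_4_16_32 + (1/36) * F_4_17_32 + (1/36) * F_4_18_32 + (1/18) * F_4_19_32 + (1/18) * F_4_24_32 + (1/36) * F_4_25_32 + (1/36) * F_4_26_32 + (1/18) * F_4_27_32 + (-1) * e25
  · show G 37 ≤ G 1 + G 4 + G 32 + (w02 + w05 + w25)
    linear_combination (1/288) * F_1_4_34 + (1/36) * F_1_4_8 + (1/36) * F_1_4_16 + (1/288) * F_1_4_24 + (1/36) * F_1_4_58 + (1/144) * F_1_2_16 + (5/144) * F_1_6_8 + (7/288) * F_1_6_48 + (1/32) * F_1_6_56 + (1/72) * F_1_24_32 + (5/144) * F_1_30_32 + (5/288) * F_1_8_36 + (1/36) * F_1_10_36 + (5/288) * F_1_16_36 + (1/96) * F_1_24_36 + (5/288) * F_1_26_36 + (1/32) * F_1_8_34 + (1/18) * F_1_16_34 + (1/288) * F_1_16_38 + (7/288)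 * F_2_4_8 + (1/144) * F_2_4_49 + (1/144) * F_2_4_57 + (1/24) * F_3_4_8 + (5/288) * F_3_4_16 + (17/288) * F_4_11_32 + (5/288) * F_4_8_33 + (1/96) * F_4_18_33 + (5/96) * F_4_26_33 + (19/288) * F_4_16_35 + (7/288) * F_4_24_35 + (25/144) * F_2_5_32 + (7/288) * F_2_5_40 + (17/288) * F_2_5_24 + (13/288) * M_37 + (-1) * e02 + (-1) * e05 + (-1) * e25
  · show G 38 ≤ G 2 + G 4 + G 32 + (w12 + w15 + w25)
    linear_combination (1/288) * F_2_4_33 + (1/36) * F_2_4_8 + (1/36) * F_2_4_16 + (1/288) * F_2_4_24 + (1/36) * F_2_4_57 + (1/144) * F_1_2_16 + (5/144) * F_2_5_8 + (7/288) * F_2_5_48 + (1/32) * F_2_5_56 + (1/72) * F_2_24_32 + (5/144) * F_2_29_32 + (5/288) * F_2_8_36 + (1/36) * F_2_9_36 + (5/288) * F_2_16_36 + (1/96) * F_2_24_36 + (5/288) * F_2_25_36 + (1/32) * F_2_8_33 + (1/18) * F_2_16_33 + (1/288) * F_2_16_37 + (7/288) * F_1_4_8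 + (1/144) * F_1_4_50 + (1/144) * F_1_4_58 + (1/24) * F_3_4_8 + (5/288) * F_3_4_16 + (17/288) * F_4_11_32 + (5/288) * F_4_8_34 + (1/96) * F_4_17_34 + (5/96) * F_4_25_34 + (19/288) * F_4_16_35 + (7/288) * F_4_24_35 + (25/144) * F_1_6_32 + (7/288) * F_1_6_40 + (17/288) * F_1_6_24 + (13/288) * M_38 + (-1) * e12 + (-1) * e15 + (-1) * e25
  · show G 39 ≤ G 1 + G 2 + G 4 + G 32 + (w01 + w02 + w05 + w12 + w15 + w25)
    linear_combination (5/156) * F_1_6_8 + (5/156) * F_1_6_16 + (1/12) * F_1_6_56 + (1/78) * F_1_8_32 + (1/156) * F_1_16_32 + (2/39) * F_1_24_32 + (2/39) * F_1_8_38 + (2/39) * F_1_16_38 + (5/156) * F_2_5_8 + (5/156) * F_2_5_16 + (2/39) * F_2_5_24 + (5/156) * F_2_5_56 + (1/156) * F_2_16_32 + (5/78) * F_2_29_32 + (2/39) * F_2_8_37 + (2/39) * F_2_16_37 + (1/52) * F_3_4_32 + (5/156) * F_3_4_8 + (5/156) * F_3_4_16 + (2/39)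 * F_3_4_24 + (5/156) * F_3_4_56 + (2/39) * F_4_27_32 + (2/39) * F_4_8_35 + (2/39) * F_4_16_35 + (1/156) * F_5_18_32 + (1/78) * F_5_24_32 + (1/78) * F_6_9_32 + (1/156) * F_6_17_32 + (2/39) * M_88 + (-1) * e01 + (-1) * e02 + (-1) * e05 + (-1) * e12 + (-1) * e15 + (-1) * e25
  · show G 40 ≤ G 8 + G 32 + (w35)
    linear_combination (1/18) * F_1_8_32 + (1/18) * F_2_8_32 + (1/18) * F_3_8_32 + (1/18) * F_4_8_32 + (1/18) * F_5_8_32 + (1/18) * F_6_8_32 + (1/12) * F_8_16_32 + (1/36) * F_8_17_32 + (1/36) * F_8_18_32 + (1/36) * F_8_19_32 + (1/36) * F_8_20_32 + (1/36) * F_8_21_32 + (1/36) * F_8_22_32 + (1/12) * F_8_23_32 + (-1) * e35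
  · show G 41 ≤ G 1 + G 8 + G 32 + (w03 + w05 + w35)
    linear_combination (1/18) * F_1_2_8 + (1/36) * F_1_2_40 + (1/18) * F_1_4_8 + (1/36) * F_1_4_40 + (1/9) * F_1_6_40 + (1/36) * F_1_16_40 + (1/36) * F_1_22_40 + (1/18) * F_1_16_46 + (1/36) * F_2_4_8 + (1/36) * F_2_4_32 + (1/36) * F_2_5_24 + (1/36) * F_2_5_48 + (1/36) * F_2_8_37 + (1/18) * F_2_9_32 + (1/36) * F_2_13_32 + (1/36) * F_3_4_24 + (1/36) * F_3_4_48 + (1/36) * F_4_8_33 + (1/12) * F_4_9_32 + (1/18) * F_8_16_33 + (1/18) * F_8_22_33 + (1/18) * F_9_16_32 + (1/18) * F_9_22_32 + (1/36) * M_41 + (-1) * e03 + (-1) * e05 + (-1) * e35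
  · show G 42 ≤ G 2 + G 8 + G 32 + (w13 + w15 + w35)
    linear_combination (1/18) * F_1_2_8 + (1/36) * F_1_2_40 + (1/18) * F_2_4_8 + (1/36) * F_2_4_40 + (1/9) * F_2_5_40 + (1/36) * F_2_16_40 + (1/36) * F_2_21_40 + (1/18) * F_2_16_45 + (1/36) * F_1_4_8 + (1/36) * F_1_4_32 + (1/36) * F_1_6_24 + (1/36) * F_1_6_48 + (1/36) * F_1_8_38 + (1/18) * F_1_10_32 + (1/36) * F_1_14_32 + (1/36) * F_3_4_24 + (1/36) * F_3_4_48 + (1/36) * F_4_8_34 + (1/12) * F_4_10_32 + (1/18) * F_8_16_34 + (1/18) * F_8_21_34 + (1/18) * F_10_16_32 + (1/18) * F_10_21_32 + (1/36) * M_42 + (-1) * e13 + (-1) * e15 + (-1) * e35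
  · show G 43 ≤ G 1 + G 2 + G 8 + G 32 + (w01 + w03 + w05 + w13 + w15 + w35)
    linear_combination (1/36) * F_1_2_16 + (1/36) * F_1_2_60 + (1/36) * F_1_4_42 + (1/18) * F_1_4_58 + (1/36) * F_1_6_24 + (1/36) * F_1_6_48 + (1/36) * F_1_16_40 + (1/36) * F_1_22_40 + (1/18) * F_1_16_42 + (1/36) * F_2_4_41 + (1/18) * F_2_4_16 + (1/36) * F_2_5_24 + (1/36) * F_2_5_48 + (1/36) * F_2_16_41 + (1/12) * F_2_20_41 + (1/9) * F_3_4_40 + (1/18) * F_4_8_32 + (1/36) * F_4_8_35 + (1/36) * F_4_11_32 + (1/18) * F_8_16_35 + (1/18) * F_8_20_35 + (1/18) * F_11_16_32 + (1/18) * F_11_20_32 + (1/36) * M_84 + (-1) * e01 + (-1) * e03 + (-1) * e05 + (-1) * e13 + (-1) * e15 + (-1) * e35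
  · show G 44 ≤ G 4 + G 8 + G 32 + (w23 + w25 + w35)
    linear_combination (1/18) * F_1_4_8 + (1/36) * F_1_4_40 + (1/18) * F_2_4_8 + (1/36) * F_2_4_40 + (1/9) * F_3_4_40 + (1/36) * F_4_16_40 + (1/36) * F_4_19_40 + (1/18) * F_4_16_43 + (1/36) * F_1_2_8 + (1/36) * F_1_2_32 + (1/36) * F_1_6_24 + (1/36) * F_1_6_48 + (1/36) * F_1_8_38 + (1/18) * F_1_12_32 + (1/36) * F_1_14_32 + (1/36) * F_2_5_24 + (1/36) * F_2_5_48 + (1/36) * F_2_8_36 + (1/12) * F_2_12_32 + (1/18) * F_8_16_36 + (1/18) * F_8_19_36 + (1/18) * F_12_16_32 + (1/18) * F_12_19_32 + (1/36) * M_44 + (-1) * e23 + (-1) * e25 + (-1) * e35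
  · show G 45 ≤ G 1 + G 4 + G 8 + G 32 + (w02 + w03 + w05 + w23 + w25 + w35)
    linear_combination (1/36) * F_1_4_16 + (1/36) * F_1_4_58 + (1/36) * F_1_2_44 + (1/18) * F_1_2_60 + (1/36) * F_1_6_24 + (1/36) * F_1_6_48 + (1/36) * F_1_16_40 + (1/36) * F_1_22_40 + (1/18) * F_1_16_44 + (1/36) * F_2_4_41 + (1/18) * F_2_4_16 + (1/36) * F_3_4_24 + (1/36) * F_3_4_48 + (1/36) * F_4_16_41 + (1/12) * F_4_18_41 + (1/9) * F_2_5_40 + (1/18) * F_2_8_32 + (1/36) * F_2_8_37 + (1/36) * F_2_13_32 + (1/18) * F_8_16_37 + (1/18) * F_8_18_37 + (1/18) * F_13_16_32 + (1/18) * F_13_18_32 + (1/36) * M_82 + (-1) * e02 + (-1) * e03 + (-1) * e05 + (-1) * e23 + (-1) * e25 + (-1) * e35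
  · show G 46 ≤ G 2 + G 4 + G 8 + G 32 + (w12 + w13 + w15 + w23 + w25 + w35)
    linear_combination (1/36) * F_2_4_16 + (1/36) * F_2_4_57 + (1/36) * F_1_2_44 + (1/18) * F_1_2_60 + (1/36) * F_2_5_24 + (1/36) * F_2_5_48 + (1/36) * F_2_16_40 + (1/36) * F_2_21_40 + (1/18) * F_2_16_44 + (1/36) * F_1_4_42 + (1/18) * F_1_4_16 + (1/36) * F_3_4_24 + (1/36) * F_3_4_48 + (1/36) * F_4_16_42 + (1/12) * F_4_17_42 + (1/9) * F_1_6_40 + (1/18) * F_1_8_32 + (1/36) * F_1_8_38 + (1/36) * F_1_14_32 + (1/18) * F_8_16_38 + (1/18) * F_8_17_38 + (1/18) * F_14_16_32 + (1/18) * F_14_17_32 + (1/36) * M_81 + (-1) * e12 + (-1) * e13 + (-1) * e15 + (-1) * e23 + (-1) * e25 + (-1) * e35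
  · show G 47 ≤ G 1 + G 2 + G 4 + G 8 + G 32 + (w01 + w02 + w03 + w05 + w12 + w13 + w15 + w23 + w25 + w35)
    linear_combination (1/18) * F_1_16_46 + (1/18) * F_2_16_45 + (1/18) * F_3_16_44 + (1/18) * F_4_16_43 + (1/18) * F_5_16_42 + (1/18) * F_6_16_41 + (1/12) * F_8_16_39 + (1/36) * F_9_16_38 + (1/36) * F_10_16_37 + (1/36) * F_11_16_36 + (1/36) * F_12_16_35 + (1/36) * F_13_16_34 + (1/36) * F_14_16_33 + (1/12) * F_15_16_32 + (-1) * e01 + (-1) * e02 + (-1) * e03 + (-1) * e05 + (-1) * e12 + (-1) * e13 + (-1) * e15 + (-1) * e23 + (-1) * e25 + (-1) * e35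
  · show G 48 ≤ G 16 + G 32 + (w45)
    linear_combination (1/18) * F_1_16_32 + (1/18) * F_2_16_32 + (1/18) * F_3_16_32 + (1/18) * F_4_16_32 + (1/18) * F_5_16_32 + (1/18) * F_6_16_32 + (1/12) * F_8_16_32 + (1/36) * F_9_16_32 + (1/36) * F_10_16_32 + (1/36) * F_11_16_32 + (1/36) * F_12_16_32 + (1/36) * F_13_16_32 + (1/36) * F_14_16_32 + (1/12) * F_15_16_32 + (-1) * e45
  · show G 49 ≤ G 1 + G 16 + G 32 + (w04 + w05 + w45)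
    linear_combination (1/18) * F_1_2_16 + (1/36) * F_1_2_48 + (1/18) * F_1_4_16 + (1/36) * F_1_4_48 + (1/9) * F_1_6_48 + (1/36) * F_1_8_48 + (1/36) * F_1_14_48 + (1/18) * F_1_8_54 + (1/36) * F_2_4_16 + (1/36) * F_2_4_32 + (1/36) * F_2_5_24 + (1/36) * F_2_5_40 + (1/36) * F_2_16_37 + (1/18) * F_2_17_32 + (1/36) * F_2_21_32 + (1/36) * F_3_4_24 + (1/36) * F_3_4_40 + (1/36) * F_4_16_33 + (1/12) * F_4_17_32 + (1/18) * F_8_16_33 + (1/18) * F_14_16_33 + (1/18) * F_8_17_32 + (1/18) * F_14_17_32 + (1/36) * M_49 + (-1) * e04 + (-1) * e05 + (-1) * e45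
  · show G 50 ≤ G 2 + G 16 + G 32 + (w14 + w15 + w45)
    linear_combination (1/18) * F_1_2_16 + (1/36) * F_1_2_48 + (1/18) * F_2_4_16 + (1/36) * F_2_4_48 + (1/9) * F_2_5_48 + (1/36) * F_2_8_48 + (1/36) * F_2_13_48 + (1/18) * F_2_8_53 + (1/36) * F_1_4_16 + (1/36) * F_1_4_32 + (1/36) * F_1_6_24 + (1/36) * F_1_6_40 + (1/36) * F_1_16_38 + (1/18) * F_1_18_32 + (1/36) * F_1_22_32 + (1/36) * F_3_4_24 + (1/36) * F_3_4_40 + (1/36) * F_4_16_34 + (1/12) * F_4_18_32 + (1/18) * F_8_16_34 + (1/18) * F_13_16_34 + (1/18) * F_8_18_32 + (1/18) * F_13_18_32 + (1/36) * M_50 + (-1) * e14 + (-1) * e15 + (-1) * e45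
  · show G 51 ≤ G 1 + G 2 + G 16 + G 32 + (w01 + w04 + w05 + w14 + w15 + w45)
    linear_combination (1/36) * F_1_2_8 + (1/36) * F_1_2_60 + (1/36) * F_1_4_50 + (1/18) * F_1_4_58 + (1/36) * F_1_6_24 + (1/36) * F_1_6_40 + (1/36) * F_1_8_48 + (1/36) * F_1_14_48 + (1/18) * F_1_8_50 + (1/36) * F_2_4_49 + (1/18) * F_2_4_8 + (1/36) * F_2_5_24 + (1/36) * F_2_5_40 + (1/36) * F_2_8_49 + (1/12) * F_2_12_49 + (1/9) * F_3_4_48 + (1/18) * F_4_16_32 + (1/36) * F_4_16_35 + (1/36) * F_4_19_32 + (1/18) * F_8_16_35 + (1/18) * F_12_16_35 + (1/18) * F_8_19_32 + (1/18) * F_12_19_32 + (1/36) * M_76 + (-1) * e01 + (-1) * e04 + (-1) * e05 + (-1) * e14 + (-1) * e15 + (-1) * e45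
  · show G 52 ≤ G 4 + G 16 + G 32 + (w24 + w25 + w45)
    linear_combination (1/18) * F_1_4_16 + (1/36) * F_1_4_48 + (1/18) * F_2_4_16 + (1/36) * F_2_4_48 + (1/9) * F_3_4_48 + (1/36) * F_4_8_48 + (1/36) * F_4_11_48 + (1/18) * F_4_8_51 + (1/36) * F_1_2_16 + (1/36) * F_1_2_32 + (1/36) * F_1_6_24 + (1/36) * F_1_6_40 + (1/36) * F_1_16_38 + (1/18) * F_1_20_32 + (1/36) * F_1_22_32 + (1/36) * F_2_5_24 + (1/36) * F_2_5_40 + (1/36) * F_2_16_36 + (1/12) * F_2_20_32 + (1/18) * F_8_16_36 + (1/18) * F_11_16_36 + (1/18) * F_8_20_32 + (1/18) * F_11_20_32 + (1/36) * M_52 + (-1) * e24 + (-1) * e25 + (-1) * e45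
  · show G 53 ≤ G 1 + G 4 + G 16 + G 32 + (w02 + w04 + w05 + w24 + w25 + w45)
    linear_combination (1/36) * F_1_4_8 + (1/36) * F_1_4_58 + (1/36) * F_1_2_52 + (1/18) * F_1_2_60 + (1/36) * F_1_6_24 + (1/36) * F_1_6_40 + (1/36) * F_1_8_48 + (1/36) * F_1_14_48 + (1/18) * F_1_8_52 + (1/36) * F_2_4_49 + (1/18) * F_2_4_8 + (1/36) * F_3_4_24 + (1/36) * F_3_4_40 + (1/36) * F_4_8_49 + (1/12) * F_4_10_49 + (1/9) * F_2_5_48 + (1/18) * F_2_16_32 + (1/36) * F_2_16_37 + (1/36) * F_2_21_32 + (1/18) * F_8_16_37 + (1/18) * F_10_16_37 + (1/18) * F_8_21_32 + (1/18) * F_10_21_32 + (1/36) * M_74 + (-1) * e02 + (-1) * e04 + (-1) * e05 + (-1) * e24 + (-1) * e25 + (-1) * e45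
  · show G 54 ≤ G 2 + G 4 + G 16 + G 32 + (w12 + w14 + w15 + w24 + w25 + w45)
    linear_combination (1/36) * F_2_4_8 + (1/36) * F_2_4_57 + (1/36) * F_1_2_52 + (1/18) * F_1_2_60 + (1/36) * F_2_5_24 + (1/36) * F_2_5_40 + (1/36) * F_2_8_48 + (1/36) * F_2_13_48 + (1/18) * F_2_8_52 + (1/36) * F_1_4_50 + (1/18) * F_1_4_8 + (1/36) * F_3_4_24 + (1/36) * F_3_4_40 + (1/36) * F_4_8_50 + (1/12) * F_4_9_50 + (1/9) * F_1_6_48 + (1/18) * F_1_16_32 + (1/36) * F_1_16_38 + (1/36) * F_1_22_32 + (1/18) * F_8_16_38 + (1/18) * F_9_16_38 + (1/18) * F_8_22_32 + (1/18) * F_9_22_32 + (1/36) * M_73 + (-1) * e12 + (-1) * e14 + (-1) * e15 + (-1) * e24 + (-1) * e25 + (-1) * e45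
  · show G 55 ≤ G 1 + G 2 + G 4 + G 16 + G 32 + (w01 + w02 + w04 + w05 + w12 + w14 + w15 + w24 + w25 + w45)
    linear_combination (1/18) * F_1_8_54 + (1/18) * F_2_8_53 + (1/18) * F_3_8_52 + (1/18) * F_4_8_51 + (1/18) * F_5_8_50 + (1/18) * F_6_8_49 + (1/12) * F_8_16_39 + (1/36) * F_8_17_38 + (1/36) * F_8_18_37 + (1/36) * F_8_19_36 + (1/36) * F_8_20_35 + (1/36) * F_8_21_34 + (1/36) * F_8_22_33 + (1/12) * F_8_23_32 + (-1) * e01 + (-1) * e02 + (-1) * e04 + (-1) * e05 + (-1) * e12 + (-1) * e14 + (-1) * e15 + (-1) * e24 + (-1) * e25 + (-1) * e45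
  · show G 56 ≤ G 8 + G 16 + G 32 + (w34 + w35 + w45)
    linear_combination (1/26) * F_1_6_8 + (1/26) * F_1_6_16 + (1/12) * F_1_6_32 + (7/156) * F_1_8_48 + (7/156) * F_1_16_40 + (1/156) * F_1_16_46 + (7/156) * F_1_24_38 + (1/26) * F_2_5_8 + (1/26) * F_2_5_16 + (1/26) * F_2_5_32 + (7/156) * F_2_8_48 + (7/156) * F_2_16_40 + (1/39) * F_2_16_45 + (7/156) * F_2_24_32 + (1/39) * F_2_29_32 + (1/156) * F_3_4_8 + (1/26) * F_3_4_16 + (1/12) * F_3_4_32 + (5/156) * F_3_8_52 + (1/156) * F_3_28_32 + (1/13) * F_4_8_48 + (7/156) * F_4_16_40 + (2/39) * F_4_24_35 + (1/39) * F_5_18_40 + (1/39) * F_5_24_34 + (1/156) * F_6_17_40 + (7/156) * M_56 + (-1) * e34 + (-1) * e35 + (-1) * e45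
  · show G 57 ≤ G 1 + G 8 + G 16 + G 32 + (w03 + w04 + w05 + w34 + w35 + w45)
    linear_combination (13/288) * F_1_2_24 + (1/144) * F_1_4_32 + (7/288) * F_1_6_24 + (1/144) * F_1_6_40 + (1/18) * F_1_6_48 + (47/288) * F_1_6_56 + (1/36) * F_2_4_8 + (1/36) * F_2_4_16 + (1/36) * F_2_4_32 + (1/96) * F_2_5_8 + (1/96) * F_2_5_16 + (1/48) * F_2_5_32 + (5/288) * F_2_5_40 + (7/288) * F_2_8_48 + (7/144) * F_2_8_49 + (1/288) * F_2_9_48 + (1/144) * F_2_16_40 + (5/288) * F_2_16_41 + (7/144) * F_2_16_44 + (1/288) * F_2_17_40 + (1/96) * F_2_24_33 + (1/288) * F_2_24_37 + (1/16) * F_2_25_32 + (1/144) * F_3_4_8 + (1/12) * F_3_4_16 + (1/144) * F_3_4_48 + (1/48) * F_4_8_48 + (5/288) * F_4_8_49 + (11/288) * F_4_8_51 + (11/144) * F_4_19_40 + (1/36) * F_4_24_32 + (5/288) * F_4_25_32 + (1/32) * F_4_26_32 + (13/288) * M_70 + (-1) * e03 + (-1) * e04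 + (-1) * e05 + (-1) * e34 + (-1) * e35 + (-1) * e45
  · show G 58 ≤ G 2 + G 8 + G 16 + G 32 + (w13 + w14 + w15 + w34 + w35 + w45)
    linear_combination (13/288) * F_1_2_24 + (1/144) * F_2_4_32 + (7/288) * F_2_5_24 + (1/144) * F_2_5_40 + (1/18) * F_2_5_48 + (47/288) * F_2_5_56 + (1/36) * F_1_4_8 + (1/36) * F_1_4_16 + (1/36) * F_1_4_32 + (1/96) * F_1_6_8 + (1/96) * F_1_6_16 + (1/48) * F_1_6_32 + (5/288) * F_1_6_40 + (7/288) * F_1_8_48 + (7/144) * F_1_8_50 + (1/288) * F_1_10_48 + (1/144) * F_1_16_40 + (5/288) * F_1_16_42 + (7/144) * F_1_16_44 + (1/288) * F_1_18_40 + (1/96) * F_1_24_34 + (1/288) * F_1_24_38 + (1/16) * F_1_26_32 + (1/144) * F_3_4_8 + (1/12) * F_3_4_16 + (1/144) * F_3_4_48 + (1/48) * F_4_8_48 + (5/288) * F_4_8_50 + (11/288) * F_4_8_51 + (11/144) * F_4_19_40 + (1/36) * F_4_24_32 + (5/288) * F_4_26_32 + (1/32)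 * F_4_25_32 + (13/288) * M_69 + (-1) * e13 + (-1) * e14 + (-1) * e15 + (-1) * e34 + (-1) * e35 + (-1) * e45
  · show G 59 ≤ G 1 + G 2 + G 8 + G 16 + G 32 + (w01 + w03 + w04 + w05 + w13 + w14 + w15 + w34 + w35 + w45)
    linear_combination (1/12) * F_1_4_58 + (1/12) * F_2_4_57 + (1/18) * F_4_8_51 + (1/36) * F_4_9_50 + (1/36) * F_4_10_49 + (1/18) * F_4_11_48 + (1/18) * F_4_16_43 + (1/36) * F_4_17_42 + (1/36) * F_4_18_41 + (1/18) * F_4_19_40 + (1/18) * F_4_24_35 + (1/36) * F_4_25_34 + (1/36) * F_4_26_33 + (1/18) * F_4_27_32 + (-1) * e01 + (-1) * e03 + (-1) * e04 + (-1) * e05 + (-1) * e13 + (-1) * e14 + (-1) * e15 + (-1) * e34 + (-1) * e35 + (-1) * e45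
  · show G 60 ≤ G 4 + G 8 + G 16 + G 32 + (w23 + w24 + w25 + w34 + w35 + w45)
    linear_combination (13/288) * F_1_4_24 + (1/144) * F_2_4_32 + (7/288) * F_3_4_24 + (1/144) * F_3_4_40 + (1/18) * F_3_4_48 + (47/288) * F_3_4_56 + (1/36) * F_1_2_8 + (1/36) * F_1_2_16 + (1/36) * F_1_2_32 + (1/96) * F_1_6_8 + (1/96) * F_1_6_16 + (1/48) * F_1_6_32 + (5/288) * F_1_6_40 + (7/288) * F_1_8_48 + (7/144) * F_1_8_52 + (1/288) * F_1_12_48 + (1/144) * F_1_16_40 + (5/288) * F_1_16_44 + (7/144) * F_1_16_42 + (1/288) * F_1_20_40 + (1/96) * F_1_24_36 + (1/288) * F_1_24_38 + (1/16) * F_1_28_32 + (1/144) * F_2_5_8 + (1/12) * F_2_5_16 + (1/144) * F_2_5_48 + (1/48) * F_2_8_48 + (5/288) * F_2_8_52 + (11/288) * F_2_8_53 + (11/144) * F_2_21_40 + (1/36) * F_2_24_32 + (5/288) * F_2_28_32 + (1/32) * F_2_25_32 + (13/288) * M_67 + (-1) * e23 + (-1) *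 e24 + (-1) * e25 + (-1) * e34 + (-1) * e35 + (-1) * e45
  · show G 61 ≤ G 1 + G 4 + G 8 + G 16 + G 32 + (w02 + w03 + w04 + w05 + w23 + w24 + w25 + w34 + w35 + w45)
    linear_combination (1/12) * F_1_2_60 + (1/12) * F_2_4_57 + (1/18) * F_2_8_53 + (1/36) * F_2_9_52 + (1/36) * F_2_12_49 + (1/18) * F_2_13_48 + (1/18) * F_2_16_45 + (1/36) * F_2_17_44 + (1/36) * F_2_20_41 + (1/18) * F_2_21_40 + (1/18) * F_2_24_37 + (1/36) * F_2_25_36 + (1/36) * F_2_28_33 + (1/18) * F_2_29_32 + (-1) * e02 + (-1) * e03 + (-1) * e04 + (-1) * e05 + (-1) * e23 + (-1) * e24 + (-1) * e25 + (-1) * e34 + (-1) * e35 + (-1) * e45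
  · show G 62 ≤ G 2 + G 4 + G 8 + G 16 + G 32 + (w12 + w13 + w14 + w15 + w23 + w24 + w25 + w34 + w35 + w45)
    linear_combination (1/12) * F_1_2_60 + (1/12) * F_1_4_58 + (1/18) * F_1_8_54 + (1/36) * F_1_10_52 + (1/36) * F_1_12_50 + (1/18) * F_1_14_48 + (1/18) * F_1_16_46 + (1/36) * F_1_18_44 + (1/36) * F_1_20_42 + (1/18) * F_1_22_40 + (1/18) * F_1_24_38 + (1/36) * F_1_26_36 + (1/36) * F_1_28_34 + (1/18) * F_1_30_32 + (-1) * e12 + (-1) * e13 + (-1) * e14 + (-1) * e15 + (-1) * e23 + (-1) * e24 + (-1) * e25 + (-1) * e34 + (-1) * e35 + (-1) * e45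
  · show G 63 = G 1 + G 2 + G 4 + G 8 + G 16 + G 32 + (w01 + w02 + w03 + w04 + w05 + w12 + w13 + w14 + w15 + w23 + w24 + w25 + w34 + w35 + w45)
    linear_combination (-1) * e01 + (-1) * e02 + (-1) * e03 + (-1) * e04 + (-1) * e05 + (-1) * e12 + (-1) * e13 + (-1) * e14 + (-1) * e15 + (-1) * e23 + (-1) * e24 + (-1) * e25 + (-1) * e34 + (-1) * e35 + (-1) * e45

end Pool.Agent.Q83.FC
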