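import Mathlib
import Pool.Agent.Q83.FC.Base6
import Pool.Agent.Q83.FC.Base5c

set_option autoImplicit false

/-!
# Weights for F-nef functions on six marks: the two functionals
-/

namespace Pool.Agent.Q83.FC

open Finset

theorem sumS6 (b : ℕ) (F : Fin 6 → ℝ) : ∑ x ∈ tS6 b, F x =
    ∑ x : Fin 6, if b.testBit x = true then F x else 0 := by rw [tS6, sum_filter]

theorem sumO6 (b : ℕ) (w : Fin 6 → Fin 6 → ℝ) : ∑ z ∈ (tS6 b).offDiag, w z.1 z.2 =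
    ∑ x : Fin 6, ∑ y : Fin 6,
      if b.testBit x = true ∧ b.testBit y = true ∧ x ≠ y then w x y else 0 := by
  rw [← Fintype.sum_prod_type' (f := fun x y : Fin 6 =>
      if b.testBit x = true ∧ b.testBit y = true ∧ x ≠ y then w x y else 0), ← sum_filter]
  refine sum_congr ?_ fun _ _ => rfl
  ext z
  simp only [mem_offDiag, mem_filter, mem_univ, true_and, tS6]

theorem sumO6' (b : ℕ) {w : Fin 6 → Fin 6 → ℝ} (hw : ∀ x y, y ≤ x → w x y = 0) :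
    ∑ z ∈ (tS6 b).offDiag, w z.1 z.2 =
      (if b.testBit ((0 : Fin 6) : ℕ) = true ∧ b.testBit ((1 : Fin 6) : ℕ) = true then w 0 1 else 0) +
      (if b.testBit ((0 : Fin 6) : ℕ) = true ∧ b.testBit ((2 : Fin 6) : ℕ) = true then w 0 2 else 0) +
      (if b.testBit ((0 : Fin 6) : ℕ) = true ∧ b.testBit ((3 : Fin 6) : ℕ) = true then w 0 3 else 0) +
      (if b.testBit ((0 : Fin 6) : ℕ) = true ∧ b.testBit ((4 : Fin 6) : ℕ) = true then w 0 4 else 0) +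
      (if b.testBit ((0 : Fin 6) : ℕ) = true ∧ b.testBit ((5 : Fin 6) : ℕ) = true then w 0 5 else 0) +
      (if b.testBit ((1 : Fin 6) : ℕ) = true ∧ b.testBit ((2 : Fin 6) : ℕ) = true then w 1 2 else 0) +
      (if b.testBit ((1 : Fin 6) : ℕ) = true ∧ b.testBit ((3 : Fin 6) : ℕ) = true then w 1 3 else 0) +
      (if b.testBit ((1 : Fin 6) : ℕ) = true ∧ b.testBit ((4 : Fin 6) : ℕ) = true then w 1 4 else 0) +
      (if b.testBit ((1 : Fin 6) : ℕ) = true ∧ b.testBit ((5 : Fin 6) : ℕ) = true then w 1 5 else 0) +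
      (if b.testBit ((2 : Fin 6) : ℕ) = true ∧ b.testBit ((3 : Fin 6) : ℕ) = true then w 2 3 else 0) +
      (if b.testBit ((2 : Fin 6) : ℕ) = true ∧ b.testBit ((4 : Fin 6) : ℕ) = true then w 2 4 else 0) +
      (if b.testBit ((2 : Fin 6) : ℕ) = true ∧ b.testBit ((5 : Fin 6) : ℕ) = true then w 2 5 else 0) +
      (if b.testBit ((3 : Fin 6) : ℕ) = true ∧ b.testBit ((4 : Fin 6) : ℕ) = true then w 3 4 else 0) +
      (if b.testBit ((3 : Fin 6) : ℕ) = true ∧ b.testBit ((5 : Fin 6) : ℕ) = true then w 3 5 else 0) +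
      (if b.testBit ((4 : Fin 6) : ℕ) = true ∧ b.testBit ((5 : Fin 6) : ℕ) = true then w 4 5 else 0) := by
  rw [sumO6]
  have z00 : w 0 0 = 0 := hw _ _ (by decide)
  have z10 : w 1 0 = 0 := hw _ _ (by decide)
  have z11 : w 1 1 = 0 := hw _ _ (by decide)
  have z20 : w 2 0 = 0 := hw _ _ (by decide)
  have z21 : w 2 1 = 0 := hw _ _ (by decide)
  have z22 : w 2 2 = 0 := hw _ _ (by decide)
  have z30 : w 3 0 = 0 := hw _ _ (by decide)
  have z31 : w 3 1 = 0 := hw _ _ (by decide)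
  have z32 : w 3 2 = 0 := hw _ _ (by decide)
  have z33 : w 3 3 = 0 := hw _ _ (by decide)
  have z40 : w 4 0 = 0 := hw _ _ (by decide)
  have z41 : w 4 1 = 0 := hw _ _ (by decide)
  have z42 : w 4 2 = 0 := hw _ _ (by decide)
  have z43 : w 4 3 = 0 := hw _ _ (by decide)
  have z44 : w 4 4 = 0 := hw _ _ (by decide)
  have z50 : w 5 0 = 0 := hw _ _ (by decide)
  have z51 : w 5 1 = 0 := hw _ _ (by decide)
  have z52 : w 5 2 = 0 := hw _ _ (by decide)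
  have z53 : w 5 3 = 0 := hw _ _ (by decide)
  have z54 : w 5 4 = 0 := hw _ _ (by decide)
  have z55 : w 5 5 = 0 := hw _ _ (by decide)
  simp only [Fin.sum_univ_six, z00, z10, z11, z20, z21, z22, z30, z31, z32, z33, z40, z41, z42, z43, z44, z50, z51, z52, z53, z54, z55, ite_self, add_zero, zero_add]
  simp only [ne_eq, (by decide : ¬ ((0 : Fin 6) = 1)), (by decide : ¬ ((0 : Fin 6) = 2)), (by decide : ¬ ((0 : Fin 6) = 3)), (by decide : ¬ ((0 : Fin 6) = 4)), (by decide : ¬ ((0 : Fin 6) = 5)), (by decide : ¬ ((1 : Fin 6) = 2)), (by decide : ¬ ((1 : Fin 6) = 3)), (by decide : ¬ ((1 : Fin 6) = 4)), (by decide : ¬ ((1 : Fin 6) = 5)), (by decide : ¬ ((2 : Fin 6) = 3)), (by decide : ¬ ((2 : Fin 6) = 4)), (by decide : ¬ ((2 : Fin 6) = 5)), (by decide : ¬ ((3 : Fin 6) = 4)), (by decide : ¬ ((3 : Fin 6) = 5)), (by decide : ¬ ((4 : Fin 6) = 5)), not_false_eq_true, and_true]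
  ring

theorem exb6 (S : Finset (Fin 6)) : ∃ b < 64, S = tS6 b := by
  classical
  refine ⟨∑ i : Fin 6, if i ∈ S then 2 ^ i.val else 0, ?_, ?_⟩
  · rw [Fin.sum_univ_six]
    by_cases h0 : (0 : Fin 6) ∈ S <;> by_cases h1 : (1 : Fin 6) ∈ S <;>
      by_cases h2 : (2 : Fin 6) ∈ S <;> by_cases h3 : (3 : Fin 6) ∈ S <;>
      by_cases h4 : (4 : Fin 6) ∈ S <;> by_cases h5 : (5 : Fin 6) ∈ S <;>
      simp [h0, h1, h2, h3, h4, h5]
  · ext x
    rw [tS6, mem_filter, Fin.sum_univ_six]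
    by_cases h0 : (0 : Fin 6) ∈ S <;> by_cases h1 : (1 : Fin 6) ∈ S <;>
      by_cases h2 : (2 : Fin 6) ∈ S <;> by_cases h3 : (3 : Fin 6) ∈ S <;>
      by_cases h4 : (4 : Fin 6) ∈ S <;> by_cases h5 : (5 : Fin 6) ∈ S <;>
      fin_cases x <;> simp [h0, h1, h2, h3, h4, h5, Nat.testBit]

theorem map_pm (f g : Fin 6 → Fin 6) (h1 : ∀ x, g (f x) = x) (h2 : ∀ x, f (g x) = x) (b b' : ℕ)
    (h : ∀ x : Fin 6, b'.testBit x = b.testBit (g x)) :
    (tS6 b).map (⟨f, g, h1, h2⟩ : Equiv.Perm (Fin 6)).toEmbedding = tS6 b' := by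
  ext x
  rw [mem_map_equiv]
  simp only [tS6, mem_filter, mem_univ, true_and, h]
  rfl

/-- The sum of the degrees on nine F-curves, for the split `{0, 1, 2} | {3, 4, 5, ∞}`. -/
noncomputable def Gm1 (g : Finset (Fin 6) → ℝ) : ℝ :=
  (g (tS6 31) + g (tS6 1) + g (tS6 6) + g (tS6 24) - g (tS6 7) - g (tS6 25) - g (tS6 30)) +
  (g (tS6 47) + g (tS6 1) + g (tS6 6) + g (tS6 40) - g (tS6 7) - g (tS6 41) - g (tS6 46)) +
  (g (tS6 55) + g (tS6 1) + g (tS6 6) + g (tS6 48) - g (tS6 7) - g (tS6 49) - g (tS6 54)) +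
  (g (tS6 31) + g (tS6 2) + g (tS6 5) + g (tS6 24) - g (tS6 7) - g (tS6 26) - g (tS6 29)) +
  (g (tS6 47) + g (tS6 2) + g (tS6 5) + g (tS6 40) - g (tS6 7) - g (tS6 42) - g (tS6 45)) +
  (g (tS6 55) + g (tS6 2) + g (tS6 5) + g (tS6 48) - g (tS6 7) - g (tS6 50) - g (tS6 53)) +
  (g (tS6 31) + g (tS6 3) + g (tS6 4) + g (tS6 24) - g (tS6 7) - g (tS6 27) - g (tS6 28)) +
  (g (tS6 47) + g (tS6 3) + g (tS6 4) + g (tS6 40) - g (tS6 7) - g (tS6 43) - g (tS6 44)) +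
  (g (tS6 55) + g (tS6 3) + g (tS6 4) + g (tS6 48) - g (tS6 7) - g (tS6 51) - g (tS6 52))

/-- The sum of the degrees on nine F-curves, for the split `{0, 1, ∞} | {2, 3, 4, 5}`. -/
noncomputable def Gm2 (g : Finset (Fin 6) → ℝ) : ℝ :=
  (g (tS6 61) + g (tS6 1) + g (tS6 12) + g (tS6 48) - g (tS6 13) - g (tS6 49) - g (tS6 60)) +
  (g (tS6 61) + g (tS6 1) + g (tS6 20) + g (tS6 40) - g (tS6 21) - g (tS6 41) - g (tS6 60)) +
  (g (tS6 61) + g (tS6 1) + g (tS6 24) + g (tS6 36) - g (tS6 25) - g (tS6 37) - g (tS6 60)) +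
  (g (tS6 62) + g (tS6 2) + g (tS6 12) + g (tS6 48) - g (tS6 14) - g (tS6 50) - g (tS6 60)) +
  (g (tS6 62) + g (tS6 2) + g (tS6 20) + g (tS6 40) - g (tS6 22) - g (tS6 42) - g (tS6 60)) +
  (g (tS6 62) + g (tS6 2) + g (tS6 24) + g (tS6 36) - g (tS6 26) - g (tS6 38) - g (tS6 60)) +
  (g (tS6 63) + g (tS6 3) + g (tS6 12) + g (tS6 48) - g (tS6 15) - g (tS6 51) - g (tS6 60)) +
  (g (tS6 63) + g (tS6 3) + g (tS6 20) + g (tS6 40) - g (tS6 23) - g (tS6 43) - g (tS6 60)) +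
  (g (tS6 63) + g (tS6 3) + g (tS6 24) + g (tS6 36) - g (tS6 27) - g (tS6 39) - g (tS6 60))

end Pool.Agent.Q83.FC
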