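import Mathlib
import Pool.Agent.Q83.FC.Base6G

set_option autoImplicit false

/-!
# The inequalities saying that a split minimises the sum of nine degrees
-/

namespace Pool.Agent.Q83.FC

open Finset

theorem m6A_11 {g : Finset (Fin 6) → ℝ}
    (h0 : ∀ τ : Equiv.Perm (Fin 6), Gm1 g ≤ Gm1 (fun S => g (S.map τ.toEmbedding))) :
    (g (tS6 31) + g (tS6 1) + g (tS6 6) + g (tS6 24) - g (tS6 7) - g (tS6 25) - g (tS6 30)) + (g (tS6 47) + g (tS6 1) + g (tS6 6) + g (tS6 40) - g (tS6 7) - g (tS6 41) - g (tS6 46)) + (g (tS6 55) + g (tS6 1) + g (tS6 6) + g (tS6 48) - g (tS6 7) - g (tS6 49) - g (tS6 54)) + (g (tS6 31) + g (tS6 2) + g (tS6 5) + g (tS6 24) - g (tS6 7) - g (tS6 26) - g (tS6 29)) + (g (tS6 47) + g (tS6 2) + g (tS6 5) + g (tS6 40) - g (tS6 7) - g (tS6 42) - g (tS6 45)) + (g (tS6 55) + g (tS6 2) + g (tS6 5) + g (tS6 48) - g (tS6 7) - g (tS6 50) - g (tS6 53)) + (g (tS6 31) + g (tS6 3) +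 g (tS6 4) + g (tS6 24) - g (tS6 7) - g (tS6 27) - g (tS6 28)) + (g (tS6 47) + g (tS6 3) + g (tS6 4) + g (tS6 40) - g (tS6 7) - g (tS6 43) - g (tS6 44)) + (g (tS6 55) + g (tS6 3) + g (tS6 4) + g (tS6 48) - g (tS6 7) - g (tS6 51) - g (tS6 52)) ≤
      (g (tS6 31) + g (tS6 1) + g (tS6 10) + g (tS6 20) - g (tS6 11) - g (tS6 21) - g (tS6 30)) + (g (tS6 47) + g (tS6 1) + g (tS6 10) + g (tS6 36) - g (tS6 11) - g (tS6 37) - g (tS6 46)) + (g (tS6 59) + g (tS6 1) + g (tS6 10) + g (tS6 48) - g (tS6 11) - g (tS6 49) - g (tS6 58)) + (g (tS6 31) + g (tS6 2) + g (tS6 9) + g (tS6 20) - g (tS6 11) - g (tS6 22) - g (tS6 29)) + (g (tS6 47) + g (tS6 2) + g (tS6 9) + g (tS6 36) - g (tS6 11) - g (tS6 38) - g (tS6 45)) + (g (tS6 59) + g (tS6 2) + g (tS6 9) + g (tS6 48) - g (tS6 11) - g (tS6 50) - g (tS6 57)) + (g (tS6 31) + g (tS6 3) + g (tS6 8) + g (tS6 20) - g (tS6 11) - g (tS6 23) - g (tS6 28)) + (g (tS6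 47) + g (tS6 3) + g (tS6 8) + g (tS6 36) - g (tS6 11) - g (tS6 39) - g (tS6 44)) + (g (tS6 59) + g (tS6 3) + g (tS6 8) + g (tS6 48) - g (tS6 11) - g (tS6 51) - g (tS6 56)) := by
  have mp := fun b b' h => map_pm ![0, 1, 3, 2, 4, 5] ![0, 1, 3, 2, 4, 5] (by decide) (by decide) b b' h
  have h := h0 ⟨![0, 1, 3, 2, 4, 5], ![0, 1, 3, 2, 4, 5], by decide, by decide⟩
  unfold Gm1 at h
  simp only [mp 1 1 (by decide), mp 2 2 (by decide), mp 3 3 (by decide), mp 4 8 (by decide), mp 5 9 (by decide), mp 6 10 (by decide), mp 7 11 (by decide), mp 24 20 (by decide), mp 25 21 (by decide), mp 26 22 (by decide), mp 27 23 (by decide), mp 28 28 (by decide), mp 29 29 (by decide), mp 30 30 (by decide), mp 31 31 (by decide), mp 40 36 (by decide), mp 41 37 (by decide), mp 42 38 (by decide), mp 43 39 (by decide), mp 44 44 (by decide), mp 45 45 (by decide), mp 46 46 (by decide), mp 47 47 (by decide), mp 48 48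 (by decide), mp 49 49 (by decide), mp 50 50 (by decide), mp 51 51 (by decide), mp 52 56 (by decide), mp 53 57 (by decide), mp 54 58 (by decide), mp 55 59 (by decide)] at h
  linarith only [h]

theorem m6A_13 {g : Finset (Fin 6) → ℝ}
    (h0 : ∀ τ : Equiv.Perm (Fin 6), Gm1 g ≤ Gm1 (fun S => g (S.map τ.toEmbedding))) :
    (g (tS6 31) + g (tS6 1) + g (tS6 6) + g (tS6 24) - g (tS6 7) - g (tS6 25) - g (tS6 30)) + (g (tS6 47) + g (tS6 1) + g (tS6 6) + g (tS6 40) - g (tS6 7) - g (tS6 41) - g (tS6 46)) + (g (tS6 55) + g (tS6 1) + g (tS6 6) + g (tS6 48) - g (tS6 7) - g (tS6 49) - g (tS6 54)) + (g (tS6 31) + g (tS6 2) + g (tS6 5) + g (tS6 24) - g (tS6 7) - g (tS6 26) - g (tS6 29)) + (g (tS6 47) + g (tS6 2) + g (tS6 5) + g (tS6 40) - g (tS6 7) - g (tS6 42) - g (tS6 45)) + (g (tS6 55) + g (tS6 2) + g (tS6 5) + g (tS6 48) - g (tS6 7) - g (tS6 50) - g (tS6 53)) + (g (tS6 31) + g (tS6 3) + g (tS6 4)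 + g (tS6 24) - g (tS6 7) - g (tS6 27) - g (tS6 28)) + (g (tS6 47) + g (tS6 3) + g (tS6 4) + g (tS6 40) - g (tS6 7) - g (tS6 43) - g (tS6 44)) + (g (tS6 55) + g (tS6 3) + g (tS6 4) + g (tS6 48) - g (tS6 7) - g (tS6 51) - g (tS6 52)) ≤
      (g (tS6 31) + g (tS6 1) + g (tS6 12) + g (tS6 18) - g (tS6 13) - g (tS6 19) - g (tS6 30)) + (g (tS6 47) + g (tS6 1) + g (tS6 12) + g (tS6 34) - g (tS6 13) - g (tS6 35) - g (tS6 46)) + (g (tS6 61) + g (tS6 1) + g (tS6 12) + g (tS6 48) - g (tS6 13) - g (tS6 49) - g (tS6 60)) + (g (tS6 31) + g (tS6 4) + g (tS6 9) + g (tS6 18) - g (tS6 13) - g (tS6 22) - g (tS6 27)) + (g (tS6 47) + g (tS6 4) + g (tS6 9) + g (tS6 34) - g (tS6 13) - g (tS6 38) - g (tS6 43)) + (g (tS6 61) + g (tS6 4) + g (tS6 9) + g (tS6 48) - g (tS6 13) - g (tS6 52) - g (tS6 57)) + (g (tS6 31) + g (tS6 5) + g (tS6 8) + g (tS6 18) - g (tS6 13) - g (tS6 23) - g (tS6 26)) + (g (tS6 47) + g (tS6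 5) + g (tS6 8) + g (tS6 34) - g (tS6 13) - g (tS6 39) - g (tS6 42)) + (g (tS6 61) + g (tS6 5) + g (tS6 8) + g (tS6 48) - g (tS6 13) - g (tS6 53) - g (tS6 56)) := by
  have mp := fun b b' h => map_pm ![0, 2, 3, 1, 4, 5] ![0, 3, 1, 2, 4, 5] (by decide) (by decide) b b' h
  have h := h0 ⟨![0, 2, 3, 1, 4, 5], ![0, 3, 1, 2, 4, 5], by decide, by decide⟩
  unfold Gm1 at h
  simp only [mp 1 1 (by decide), mp 2 4 (by decide), mp 3 5 (by decide), mp 4 8 (by decide), mp 5 9 (by decide), mp 6 12 (by decide), mp 7 13 (by decide), mp 24 18 (by decide), mp 25 19 (by decide), mp 26 22 (by decide), mp 27 23 (by decide), mp 28 26 (by decide), mp 29 27 (by decide), mp 30 30 (by decide), mp 31 31 (by decide), mp 40 34 (by decide), mp 41 35 (by decide), mp 42 38 (by decide), mp 43 39 (by decide), mp 44 42 (by decide), mp 45 43 (by decide), mp 46 46 (by decide), mp 47 47 (by decide), mp 48 48 (by decide),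 mp 49 49 (by decide), mp 50 52 (by decide), mp 51 53 (by decide), mp 52 56 (by decide), mp 53 57 (by decide), mp 54 60 (by decide), mp 55 61 (by decide)] at h
  linarith only [h]

theorem m6A_14 {g : Finset (Fin 6) → ℝ}
    (h0 : ∀ τ : Equiv.Perm (Fin 6), Gm1 g ≤ Gm1 (fun S => g (S.map τ.toEmbedding))) :
    (g (tS6 31) + g (tS6 1) + g (tS6 6) + g (tS6 24) - g (tS6 7) - g (tS6 25) - g (tS6 30)) + (g (tS6 47) + g (tS6 1) + g (tS6 6) + g (tS6 40) - g (tS6 7) - g (tS6 41) - g (tS6 46)) + (g (tS6 55) + g (tS6 1) + g (tS6 6) + g (tS6 48) - g (tS6 7) - g (tS6 49) - g (tS6 54)) + (g (tS6 31) + g (tS6 2) + g (tS6 5) + g (tS6 24) - g (tS6 7) - g (tS6 26) - g (tS6 29)) + (g (tS6 47) + g (tS6 2) + g (tS6 5) + g (tS6 40) - g (tS6 7) - g (tS6 42) - g (tS6 45)) + (g (tS6 55) + g (tS6 2) + g (tS6 5) + g (tS6 48) - g (tS6 7) - g (tS6 50) - g (tS6 53)) + (g (tS6 31) + g (tS6 3) + g (tS6 4) + g (tS6 24)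 - g (tS6 7) - g (tS6 27) - g (tS6 28)) + (g (tS6 47) + g (tS6 3) + g (tS6 4) + g (tS6 40) - g (tS6 7) - g (tS6 43) - g (tS6 44)) + (g (tS6 55) + g (tS6 3) + g (tS6 4) + g (tS6 48) - g (tS6 7) - g (tS6 51) - g (tS6 52)) ≤
      (g (tS6 31) + g (tS6 2) + g (tS6 12) + g (tS6 17) - g (tS6 14) - g (tS6 19) - g (tS6 29)) + (g (tS6 47) + g (tS6 2) + g (tS6 12) + g (tS6 33) - g (tS6 14) - g (tS6 35) - g (tS6 45)) + (g (tS6 62) + g (tS6 2) + g (tS6 12) + g (tS6 48) - g (tS6 14) - g (tS6 50) - g (tS6 60)) + (g (tS6 31) + g (tS6 4) + g (tS6 10) + g (tS6 17) - g (tS6 14) - g (tS6 21) - g (tS6 27)) + (g (tS6 47) + g (tS6 4) + g (tS6 10) + g (tS6 33) - g (tS6 14) - g (tS6 37) - g (tS6 43)) + (g (tS6 62) + g (tS6 4) + g (tS6 10) + g (tS6 48) - g (tS6 14) - g (tS6 52) - g (tS6 58)) + (g (tS6 31) + g (tS6 6) + g (tS6 8) + g (tS6 17) - g (tS6 14) - g (tS6 23) - g (tS6 25)) + (g (tS6 47) + g (tS6 6) + g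 (tS6 8) + g (tS6 33) - g (tS6 14) - g (tS6 39) - g (tS6 41)) + (g (tS6 62) + g (tS6 6) + g (tS6 8) + g (tS6 48) - g (tS6 14) - g (tS6 54) - g (tS6 56)) := by
  have mp := fun b b' h => map_pm ![1, 2, 3, 0, 4, 5] ![3, 0, 1, 2, 4, 5] (by decide) (by decide) b b' h
  have h := h0 ⟨![1, 2, 3, 0, 4, 5], ![3, 0, 1, 2, 4, 5], by decide, by decide⟩
  unfold Gm1 at h
  simp only [mp 1 2 (by decide), mp 2 4 (by decide), mp 3 6 (by decide), mp 4 8 (by decide), mp 5 10 (by decide), mp 6 12 (by decide), mp 7 14 (by decide), mp 24 17 (by decide), mp 25 19 (by decide), mp 26 21 (by decide), mp 27 23 (by decide), mp 28 25 (by decide), mp 29 27 (by decide), mp 30 29 (by decide), mp 31 31 (by decide), mp 40 33 (by decide), mp 41 35 (by decide), mp 42 37 (by decide), mp 43 39 (by decide), mp 44 41 (by decide), mp 45 43 (by decide), mp 46 45 (by decide), mp 47 47 (by decide), mp 48 48 (by decide), mp 49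 50 (by decide), mp 50 52 (by decide), mp 51 54 (by decide), mp 52 56 (by decide), mp 53 58 (by decide), mp 54 60 (by decide), mp 55 62 (by decide)] at h
  linarith only [h]

theorem m6A_19 {g : Finset (Fin 6) → ℝ}
    (h0 : ∀ τ : Equiv.Perm (Fin 6), Gm1 g ≤ Gm1 (fun S => g (S.map τ.toEmbedding))) :
    (g (tS6 31) + g (tS6 1) + g (tS6 6) + g (tS6 24) - g (tS6 7) - g (tS6 25) - g (tS6 30)) + (g (tS6 47) + g (tS6 1) + g (tS6 6) + g (tS6 40) - g (tS6 7) - g (tS6 41) - g (tS6 46)) + (g (tS6 55) + g (tS6 1) + g (tS6 6) + g (tS6 48) - g (tS6 7) - g (tS6 49) - g (tS6 54)) + (g (tS6 31) + g (tS6 2) + g (tS6 5) + g (tS6 24) - g (tS6 7) - g (tS6 26) - g (tS6 29)) + (g (tS6 47) + g (tS6 2) + g (tS6 5) + g (tS6 40) - g (tS6 7) - g (tS6 42) - g (tS6 45)) + (g (tS6 55) + g (tS6 2) + g (tS6 5) + g (tS6 48) - g (tS6 7) - g (tS6 50) - g (tS6 53)) + (g (tS6 31) + g (tS6 3) + g (tS6 4) + g (tS6 24) - g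 (tS6 7) - g (tS6 27) - g (tS6 28)) + (g (tS6 47) + g (tS6 3) + g (tS6 4) + g (tS6 40) - g (tS6 7) - g (tS6 43) - g (tS6 44)) + (g (tS6 55) + g (tS6 3) + g (tS6 4) + g (tS6 48) - g (tS6 7) - g (tS6 51) - g (tS6 52)) ≤
      (g (tS6 31) + g (tS6 1) + g (tS6 12) + g (tS6 18) - g (tS6 13) - g (tS6 19) - g (tS6 30)) + (g (tS6 55) + g (tS6 1) + g (tS6 18) + g (tS6 36) - g (tS6 19) - g (tS6 37) - g (tS6 54)) + (g (tS6 59) + g (tS6 1) + g (tS6 18) + g (tS6 40) - g (tS6 19) - g (tS6 41) - g (tS6 58)) + (g (tS6 31) + g (tS6 2) + g (tS6 12) + g (tS6 17) - g (tS6 14) - g (tS6 19) - g (tS6 29)) + (g (tS6 55) + g (tS6 2) + g (tS6 17) + g (tS6 36) - g (tS6 19) - g (tS6 38) - g (tS6 53)) + (g (tS6 59) + g (tS6 2) + g (tS6 17) + g (tS6 40) - g (tS6 19) - g (tS6 42) - g (tS6 57)) + (g (tS6 31) + g (tS6 3) + g (tS6 12) + g (tS6 16) - g (tS6 15) - g (tS6 19) - g (tS6 28)) + (g (tS6 55) + g (tS6 3) + g (tS6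 16) + g (tS6 36) - g (tS6 19) - g (tS6 39) - g (tS6 52)) + (g (tS6 59) + g (tS6 3) + g (tS6 16) + g (tS6 40) - g (tS6 19) - g (tS6 43) - g (tS6 56)) := by
  have mp := fun b b' h => map_pm ![0, 1, 4, 2, 3, 5] ![0, 1, 3, 4, 2, 5] (by decide) (by decide) b b' h
  have h := h0 ⟨![0, 1, 4, 2, 3, 5], ![0, 1, 3, 4, 2, 5], by decide, by decide⟩
  unfold Gm1 at h
  simp only [mp 1 1 (by decide), mp 2 2 (by decide), mp 3 3 (by decide), mp 4 16 (by decide), mp 5 17 (by decide), mp 6 18 (by decide), mp 7 19 (by decide), mp 24 12 (by decide), mp 25 13 (by decide), mp 26 14 (by decide), mp 27 15 (by decide), mp 28 28 (by decide), mp 29 29 (by decide), mp 30 30 (by decide), mp 31 31 (by decide), mp 40 36 (by decide), mp 41 37 (by decide), mp 42 38 (by decide), mp 43 39 (by decide), mp 44 52 (by decide), mp 45 53 (by decide), mp 46 54 (by decide), mp 47 55 (by decide), mp 48 40 (by decide), mp 49 41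 (by decide), mp 50 42 (by decide), mp 51 43 (by decide), mp 52 56 (by decide), mp 53 57 (by decide), mp 54 58 (by decide), mp 55 59 (by decide)] at h
  linarith only [h]

theorem m6A_21 {g : Finset (Fin 6) → ℝ}
    (h0 : ∀ τ : Equiv.Perm (Fin 6), Gm1 g ≤ Gm1 (fun S => g (S.map τ.toEmbedding))) :
    (g (tS6 31) + g (tS6 1) + g (tS6 6) + g (tS6 24) - g (tS6 7) - g (tS6 25) - g (tS6 30)) + (g (tS6 47) + g (tS6 1) + g (tS6 6) + g (tS6 40) - g (tS6 7) - g (tS6 41) - g (tS6 46)) + (g (tS6 55) + g (tS6 1) + g (tS6 6) + g (tS6 48) - g (tS6 7) - g (tS6 49) - g (tS6 54)) + (g (tS6 31) + g (tS6 2) + g (tS6 5) + g (tS6 24) - g (tS6 7) - g (tS6 26) - g (tS6 29)) + (g (tS6 47) + g (tS6 2) + g (tS6 5) + g (tS6 40) - g (tS6 7) - g (tS6 42) - g (tS6 45)) + (g (tS6 55) + g (tS6 2) + g (tS6 5) + g (tS6 48) - g (tS6 7) - g (tS6 50) - g (tS6 53)) + (g (tS6 31) + g (tS6 3) + g (tS6 4) + g (tS6 24) - g (tS6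 7) - g (tS6 27) - g (tS6 28)) + (g (tS6 47) + g (tS6 3) + g (tS6 4) + g (tS6 40) - g (tS6 7) - g (tS6 43) - g (tS6 44)) + (g (tS6 55) + g (tS6 3) + g (tS6 4) + g (tS6 48) - g (tS6 7) - g (tS6 51) - g (tS6 52)) ≤
      (g (tS6 31) + g (tS6 1) + g (tS6 10) + g (tS6 20) - g (tS6 11) - g (tS6 21) - g (tS6 30)) + (g (tS6 55) + g (tS6 1) + g (tS6 20) + g (tS6 34) - g (tS6 21) - g (tS6 35) - g (tS6 54)) + (g (tS6 61) + g (tS6 1) + g (tS6 20) + g (tS6 40) - g (tS6 21) - g (tS6 41) - g (tS6 60)) + (g (tS6 31) + g (tS6 4) + g (tS6 10) + g (tS6 17) - g (tS6 14) - g (tS6 21) - g (tS6 27)) + (g (tS6 55) + g (tS6 4) + g (tS6 17) + g (tS6 34) - g (tS6 21) - g (tS6 38) - g (tS6 51)) + (g (tS6 61) + g (tS6 4) + g (tS6 17) + g (tS6 40) - g (tS6 21) - g (tS6 44) - g (tS6 57)) + (g (tS6 31) + g (tS6 5) + g (tS6 10) + g (tS6 16) - g (tS6 15) - g (tS6 21) - g (tS6 26)) + (g (tS6 55) + g (tS6 5) + g (tS6 16)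 + g (tS6 34) - g (tS6 21) - g (tS6 39) - g (tS6 50)) + (g (tS6 61) + g (tS6 5) + g (tS6 16) + g (tS6 40) - g (tS6 21) - g (tS6 45) - g (tS6 56)) := by
  have mp := fun b b' h => map_pm ![0, 2, 4, 1, 3, 5] ![0, 3, 1, 4, 2, 5] (by decide) (by decide) b b' h
  have h := h0 ⟨![0, 2, 4, 1, 3, 5], ![0, 3, 1, 4, 2, 5], by decide, by decide⟩
  unfold Gm1 at h
  simp only [mp 1 1 (by decide), mp 2 4 (by decide), mp 3 5 (by decide), mp 4 16 (by decide), mp 5 17 (by decide), mp 6 20 (by decide), mp 7 21 (by decide), mp 24 10 (by decide), mp 25 11 (by decide), mp 26 14 (by decide), mp 27 15 (by decide), mp 28 26 (by decide), mp 29 27 (by decide), mp 30 30 (by decide), mp 31 31 (by decide), mp 40 34 (by decide), mp 41 35 (by decide), mp 42 38 (by decide), mp 43 39 (by decide), mp 44 50 (by decide), mp 45 51 (by decide), mp 46 54 (by decide), mp 47 55 (by decide), mp 48 40 (by decide), mp 49 41 (by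 decide), mp 50 44 (by decide), mp 51 45 (by decide), mp 52 56 (by decide), mp 53 57 (by decide), mp 54 60 (by decide), mp 55 61 (by decide)] at h
  linarith only [h]

theorem m6A_22 {g : Finset (Fin 6) → ℝ}
    (h0 : ∀ τ : Equiv.Perm (Fin 6), Gm1 g ≤ Gm1 (fun S => g (S.map τ.toEmbedding))) :
    (g (tS6 31) + g (tS6 1) + g (tS6 6) + g (tS6 24) - g (tS6 7) - g (tS6 25) - g (tS6 30)) + (g (tS6 47) + g (tS6 1) + g (tS6 6) + g (tS6 40) - g (tS6 7) - g (tS6 41) - g (tS6 46)) + (g (tS6 55) + g (tS6 1) + g (tS6 6) + g (tS6 48) - g (tS6 7) - g (tS6 49) - g (tS6 54)) + (g (tS6 31) + g (tS6 2) + g (tS6 5) + g (tS6 24) - g (tS6 7) - g (tS6 26) - g (tS6 29)) + (g (tS6 47) + g (tS6 2) + g (tS6 5) + g (tS6 40) - g (tS6 7) - g (tS6 42) - g (tS6 45)) + (g (tS6 55) + g (tS6 2) + g (tS6 5) + g (tS6 48) - g (tS6 7) - g (tS6 50) - g (tS6 53)) + (g (tS6 31) + g (tS6 3) + g (tS6 4) + g (tS6 24) - g (tS6 7)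 - g (tS6 27) - g (tS6 28)) + (g (tS6 47) + g (tS6 3) + g (tS6 4) + g (tS6 40) - g (tS6 7) - g (tS6 43) - g (tS6 44)) + (g (tS6 55) + g (tS6 3) + g (tS6 4) + g (tS6 48) - g (tS6 7) - g (tS6 51) - g (tS6 52)) ≤
      (g (tS6 31) + g (tS6 2) + g (tS6 9) + g (tS6 20) - g (tS6 11) - g (tS6 22) - g (tS6 29)) + (g (tS6 55) + g (tS6 2) + g (tS6 20) + g (tS6 33) - g (tS6 22) - g (tS6 35) - g (tS6 53)) + (g (tS6 62) + g (tS6 2) + g (tS6 20) + g (tS6 40) - g (tS6 22) - g (tS6 42) - g (tS6 60)) + (g (tS6 31) + g (tS6 4) + g (tS6 9) + g (tS6 18) - g (tS6 13) - g (tS6 22) - g (tS6 27)) + (g (tS6 55) + g (tS6 4) + g (tS6 18) + g (tS6 33) - g (tS6 22) - g (tS6 37) - g (tS6 51)) + (g (tS6 62) + g (tS6 4) + g (tS6 18) + g (tS6 40) - g (tS6 22) - g (tS6 44) - g (tS6 58)) + (g (tS6 31) + g (tS6 6) + g (tS6 9) + g (tS6 16) - g (tS6 15) - g (tS6 22) - g (tS6 25)) + (g (tS6 55) + g (tS6 6) + g (tS6 16) + g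 (tS6 33) - g (tS6 22) - g (tS6 39) - g (tS6 49)) + (g (tS6 62) + g (tS6 6) + g (tS6 16) + g (tS6 40) - g (tS6 22) - g (tS6 46) - g (tS6 56)) := by
  have mp := fun b b' h => map_pm ![1, 2, 4, 0, 3, 5] ![3, 0, 1, 4, 2, 5] (by decide) (by decide) b b' h
  have h := h0 ⟨![1, 2, 4, 0, 3, 5], ![3, 0, 1, 4, 2, 5], by decide, by decide⟩
  unfold Gm1 at h
  simp only [mp 1 2 (by decide), mp 2 4 (by decide), mp 3 6 (by decide), mp 4 16 (by decide), mp 5 18 (by decide), mp 6 20 (by decide), mp 7 22 (by decide), mp 24 9 (by decide), mp 25 11 (by decide), mp 26 13 (by decide), mp 27 15 (by decide), mp 28 25 (by decide), mp 29 27 (by decide), mp 30 29 (by decide), mp 31 31 (by decide), mp 40 33 (by decide), mp 41 35 (by decide), mp 42 37 (by decide), mp 43 39 (by decide), mp 44 49 (by decide), mp 45 51 (by decide), mp 46 53 (by decide), mp 47 55 (by decide), mp 48 40 (by decide), mp 49 42 (by decide),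 mp 50 44 (by decide), mp 51 46 (by decide), mp 52 56 (by decide), mp 53 58 (by decide), mp 54 60 (by decide), mp 55 62 (by decide)] at h
  linarith only [h]

theorem m6A_25 {g : Finset (Fin 6) → ℝ}
    (h0 : ∀ τ : Equiv.Perm (Fin 6), Gm1 g ≤ Gm1 (fun S => g (S.map τ.toEmbedding))) :
    (g (tS6 31) + g (tS6 1) + g (tS6 6) + g (tS6 24) - g (tS6 7) - g (tS6 25) - g (tS6 30)) + (g (tS6 47) + g (tS6 1) + g (tS6 6) + g (tS6 40) - g (tS6 7) - g (tS6 41) - g (tS6 46)) + (g (tS6 55) + g (tS6 1) + g (tS6 6) + g (tS6 48) - g (tS6 7) - g (tS6 49) - g (tS6 54)) + (g (tS6 31) + g (tS6 2) + g (tS6 5) + g (tS6 24) - g (tS6 7) - g (tS6 26) - g (tS6 29)) + (g (tS6 47) + g (tS6 2) + g (tS6 5) + g (tS6 40) - g (tS6 7) - g (tS6 42) - g (tS6 45)) + (g (tS6 55) + g (tS6 2) + g (tS6 5) + g (tS6 48) - g (tS6 7) - g (tS6 50) - g (tS6 53)) + (g (tS6 31) + g (tS6 3) + g (tS6 4) + g (tS6 24) - g (tS6 7) - g (tS6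 27) - g (tS6 28)) + (g (tS6 47) + g (tS6 3) + g (tS6 4) + g (tS6 40) - g (tS6 7) - g (tS6 43) - g (tS6 44)) + (g (tS6 55) + g (tS6 3) + g (tS6 4) + g (tS6 48) - g (tS6 7) - g (tS6 51) - g (tS6 52)) ≤
      (g (tS6 31) + g (tS6 1) + g (tS6 6) + g (tS6 24) - g (tS6 7) - g (tS6 25) - g (tS6 30)) + (g (tS6 59) + g (tS6 1) + g (tS6 24) + g (tS6 34) - g (tS6 25) - g (tS6 35) - g (tS6 58)) + (g (tS6 61) + g (tS6 1) + g (tS6 24) + g (tS6 36) - g (tS6 25) - g (tS6 37) - g (tS6 60)) + (g (tS6 31) + g (tS6 6) + g (tS6 8) + g (tS6 17) - g (tS6 14) - g (tS6 23) - g (tS6 25)) + (g (tS6 31) + g (tS6 6) + g (tS6 9) + g (tS6 16) - g (tS6 15) - g (tS6 22) - g (tS6 25)) + (g (tS6 59) + g (tS6 8) + g (tS6 17) + g (tS6 34) - g (tS6 25) - g (tS6 42) - g (tS6 51)) + (g (tS6 61) + g (tS6 8) + g (tS6 17) + g (tS6 36) - g (tS6 25) - g (tS6 44) - g (tS6 53)) + (g (tS6 59) + g (tS6 9) + g (tS6 16) + g (tS6 34) -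 g (tS6 25) - g (tS6 43) - g (tS6 50)) + (g (tS6 61) + g (tS6 9) + g (tS6 16) + g (tS6 36) - g (tS6 25) - g (tS6 45) - g (tS6 52)) := by
  have mp := fun b b' h => map_pm ![0, 3, 4, 1, 2, 5] ![0, 3, 4, 1, 2, 5] (by decide) (by decide) b b' h
  have h := h0 ⟨![0, 3, 4, 1, 2, 5], ![0, 3, 4, 1, 2, 5], by decide, by decide⟩
  unfold Gm1 at h
  simp only [mp 1 1 (by decide), mp 2 8 (by decide), mp 3 9 (by decide), mp 4 16 (by decide), mp 5 17 (by decide), mp 6 24 (by decide), mp 7 25 (by decide), mp 24 6 (by decide), mp 25 7 (by decide), mp 26 14 (by decide), mp 27 15 (by decide), mp 28 22 (by decide), mp 29 23 (by decide), mp 30 30 (by decide), mp 31 31 (by decide), mp 40 34 (by decide), mp 41 35 (by decide), mp 42 42 (by decide), mp 43 43 (by decide), mp 44 50 (by decide), mp 45 51 (by decide), mp 46 58 (by decide), mp 47 59 (by decide), mp 48 36 (by decide), mp 49 37 (by decide), mp 50 44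 (by decide), mp 51 45 (by decide), mp 52 52 (by decide), mp 53 53 (by decide), mp 54 60 (by decide), mp 55 61 (by decide)] at h
  linarith only [h]

theorem m6A_26 {g : Finset (Fin 6) → ℝ}
    (h0 : ∀ τ : Equiv.Perm (Fin 6), Gm1 g ≤ Gm1 (fun S => g (S.map τ.toEmbedding))) :
    (g (tS6 31) + g (tS6 1) + g (tS6 6) + g (tS6 24) - g (tS6 7) - g (tS6 25) - g (tS6 30)) + (g (tS6 47) + g (tS6 1) + g (tS6 6) + g (tS6 40) - g (tS6 7) - g (tS6 41) - g (tS6 46)) + (g (tS6 55) + g (tS6 1) + g (tS6 6) + g (tS6 48) - g (tS6 7) - g (tS6 49) - g (tS6 54)) + (g (tS6 31) + g (tS6 2) + g (tS6 5) + g (tS6 24) - g (tS6 7) - g (tS6 26) - g (tS6 29)) + (g (tS6 47) + g (tS6 2) + g (tS6 5) + g (tS6 40) - g (tS6 7) - g (tS6 42) - g (tS6 45)) + (g (tS6 55) + g (tS6 2) + g (tS6 5) + g (tS6 48) - g (tS6 7) - g (tS6 50) - g (tS6 53)) + (g (tS6 31) + g (tS6 3) + g (tS6 4) + g (tS6 24) - g (tS6 7) - g (tS6 27) - g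 (tS6 28)) + (g (tS6 47) + g (tS6 3) + g (tS6 4) + g (tS6 40) - g (tS6 7) - g (tS6 43) - g (tS6 44)) + (g (tS6 55) + g (tS6 3) + g (tS6 4) + g (tS6 48) - g (tS6 7) - g (tS6 51) - g (tS6 52)) ≤
      (g (tS6 31) + g (tS6 2) + g (tS6 5) + g (tS6 24) - g (tS6 7) - g (tS6 26) - g (tS6 29)) + (g (tS6 59) + g (tS6 2) + g (tS6 24) + g (tS6 33) - g (tS6 26) - g (tS6 35) - g (tS6 57)) + (g (tS6 62) + g (tS6 2) + g (tS6 24) + g (tS6 36) - g (tS6 26) - g (tS6 38) - g (tS6 60)) + (g (tS6 31) + g (tS6 5) + g (tS6 8) + g (tS6 18) - g (tS6 13) - g (tS6 23) - g (tS6 26)) + (g (tS6 31) + g (tS6 5) + g (tS6 10) + g (tS6 16) - g (tS6 15) - g (tS6 21) - g (tS6 26)) + (g (tS6 59) + g (tS6 8) + g (tS6 18) + g (tS6 33) - g (tS6 26) - g (tS6 41) - g (tS6 51)) + (g (tS6 62) + g (tS6 8) + g (tS6 18) + g (tS6 36) - g (tS6 26) - g (tS6 44) - g (tS6 54)) + (g (tS6 59) + g (tS6 10) + g (tS6 16) + g (tS6 33) - g (tS6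 26) - g (tS6 43) - g (tS6 49)) + (g (tS6 62) + g (tS6 10) + g (tS6 16) + g (tS6 36) - g (tS6 26) - g (tS6 46) - g (tS6 52)) := by
  have mp := fun b b' h => map_pm ![1, 3, 4, 0, 2, 5] ![3, 0, 4, 1, 2, 5] (by decide) (by decide) b b' h
  have h := h0 ⟨![1, 3, 4, 0, 2, 5], ![3, 0, 4, 1, 2, 5], by decide, by decide⟩
  unfold Gm1 at h
  simp only [mp 1 2 (by decide), mp 2 8 (by decide), mp 3 10 (by decide), mp 4 16 (by decide), mp 5 18 (by decide), mp 6 24 (by decide), mp 7 26 (by decide), mp 24 5 (by decide), mp 25 7 (by decide), mp 26 13 (by decide), mp 27 15 (by decide), mp 28 21 (by decide), mp 29 23 (by decide), mp 30 29 (by decide), mp 31 31 (by decide), mp 40 33 (by decide), mp 41 35 (by decide), mp 42 41 (by decide), mp 43 43 (by decide), mp 44 49 (by decide), mp 45 51 (by decide), mp 46 57 (by decide), mp 47 59 (by decide), mp 48 36 (by decide), mp 49 38 (by decide), mp 50 44 (by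 decide), mp 51 46 (by decide), mp 52 52 (by decide), mp 53 54 (by decide), mp 54 60 (by decide), mp 55 62 (by decide)] at h
  linarith only [h]

theorem m6A_28 {g : Finset (Fin 6) → ℝ}
    (h0 : ∀ τ : Equiv.Perm (Fin 6), Gm1 g ≤ Gm1 (fun S => g (S.map τ.toEmbedding))) :
    (g (tS6 31) + g (tS6 1) + g (tS6 6) + g (tS6 24) - g (tS6 7) - g (tS6 25) - g (tS6 30)) + (g (tS6 47) + g (tS6 1) + g (tS6 6) + g (tS6 40) - g (tS6 7) - g (tS6 41) - g (tS6 46)) + (g (tS6 55) + g (tS6 1) + g (tS6 6) + g (tS6 48) - g (tS6 7) - g (tS6 49) - g (tS6 54)) + (g (tS6 31) + g (tS6 2) + g (tS6 5) + g (tS6 24) - g (tS6 7) - g (tS6 26) - g (tS6 29)) + (g (tS6 47) + g (tS6 2) + g (tS6 5) + g (tS6 40) - g (tS6 7) - g (tS6 42) - g (tS6 45)) + (g (tS6 55) + g (tS6 2) + g (tS6 5) + g (tS6 48) - g (tS6 7) - g (tS6 50) - g (tS6 53)) + (g (tS6 31) + g (tS6 3) + g (tS6 4) + g (tS6 24) - g (tS6 7) - g (tS6 27) - g (tS6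 28)) + (g (tS6 47) + g (tS6 3) + g (tS6 4) + g (tS6 40) - g (tS6 7) - g (tS6 43) - g (tS6 44)) + (g (tS6 55) + g (tS6 3) + g (tS6 4) + g (tS6 48) - g (tS6 7) - g (tS6 51) - g (tS6 52)) ≤
      (g (tS6 31) + g (tS6 3) + g (tS6 4) + g (tS6 24) - g (tS6 7) - g (tS6 27) - g (tS6 28)) + (g (tS6 31) + g (tS6 3) + g (tS6 8) + g (tS6 20) - g (tS6 11) - g (tS6 23) - g (tS6 28)) + (g (tS6 31) + g (tS6 3) + g (tS6 12) + g (tS6 16) - g (tS6 15) - g (tS6 19) - g (tS6 28)) + (g (tS6 61) + g (tS6 4) + g (tS6 24) + g (tS6 33) - g (tS6 28) - g (tS6 37) - g (tS6 57)) + (g (tS6 62) + g (tS6 4) + g (tS6 24) + g (tS6 34) - g (tS6 28) - g (tS6 38) - g (tS6 58)) + (g (tS6 61) + g (tS6 8) + g (tS6 20) + g (tS6 33) - g (tS6 28) - g (tS6 41) - g (tS6 53)) + (g (tS6 62) + g (tS6 8) + g (tS6 20) + g (tS6 34) - g (tS6 28) - g (tS6 42) - g (tS6 54)) + (g (tS6 61) + g (tS6 12) + g (tS6 16) + g (tS6 33) - g (tS6 28)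 - g (tS6 45) - g (tS6 49)) + (g (tS6 62) + g (tS6 12) + g (tS6 16) + g (tS6 34) - g (tS6 28) - g (tS6 46) - g (tS6 50)) := by
  have mp := fun b b' h => map_pm ![2, 3, 4, 0, 1, 5] ![3, 4, 0, 1, 2, 5] (by decide) (by decide) b b' h
  have h := h0 ⟨![2, 3, 4, 0, 1, 5], ![3, 4, 0, 1, 2, 5], by decide, by decide⟩
  unfold Gm1 at h
  simp only [mp 1 4 (by decide), mp 2 8 (by decide), mp 3 12 (by decide), mp 4 16 (by decide), mp 5 20 (by decide), mp 6 24 (by decide), mp 7 28 (by decide), mp 24 3 (by decide), mp 25 7 (by decide), mp 26 11 (by decide), mp 27 15 (by decide), mp 28 19 (by decide), mp 29 23 (by decide), mp 30 27 (by decide), mp 31 31 (by decide), mp 40 33 (by decide), mp 41 37 (by decide), mp 42 41 (by decide), mp 43 45 (by decide), mp 44 49 (by decide), mp 45 53 (by decide), mp 46 57 (by decide), mp 47 61 (by decide), mp 48 34 (by decide), mp 49 38 (by decide), mp 50 42 (by decide),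 mp 51 46 (by decide), mp 52 50 (by decide), mp 53 54 (by decide), mp 54 58 (by decide), mp 55 62 (by decide)] at h
  linarith only [h]

theorem m6A_35 {g : Finset (Fin 6) → ℝ}
    (h0 : ∀ τ : Equiv.Perm (Fin 6), Gm1 g ≤ Gm1 (fun S => g (S.map τ.toEmbedding))) :
    (g (tS6 31) + g (tS6 1) + g (tS6 6) + g (tS6 24) - g (tS6 7) - g (tS6 25) - g (tS6 30)) + (g (tS6 47) + g (tS6 1) + g (tS6 6) + g (tS6 40) - g (tS6 7) - g (tS6 41) - g (tS6 46)) + (g (tS6 55) + g (tS6 1) + g (tS6 6) + g (tS6 48) - g (tS6 7) - g (tS6 49) - g (tS6 54)) + (g (tS6 31) + g (tS6 2) + g (tS6 5) + g (tS6 24) - g (tS6 7) - g (tS6 26) - g (tS6 29)) + (g (tS6 47) + g (tS6 2) + g (tS6 5) + g (tS6 40) - g (tS6 7) - g (tS6 42) - g (tS6 45)) + (g (tS6 55) + g (tS6 2) + g (tS6 5) + g (tS6 48) - g (tS6 7) - g (tS6 50) - g (tS6 53)) + (g (tS6 31) + g (tS6 3) + g (tS6 4) + g (tS6 24) - g (tS6 7) - g (tS6 27) - g (tS6 28)) + (g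 (tS6 47) + g (tS6 3) + g (tS6 4) + g (tS6 40) - g (tS6 7) - g (tS6 43) - g (tS6 44)) + (g (tS6 55) + g (tS6 3) + g (tS6 4) + g (tS6 48) - g (tS6 7) - g (tS6 51) - g (tS6 52)) ≤
      (g (tS6 47) + g (tS6 1) + g (tS6 12) + g (tS6 34) - g (tS6 13) - g (tS6 35) - g (tS6 46)) + (g (tS6 55) + g (tS6 1) + g (tS6 20) + g (tS6 34) - g (tS6 21) - g (tS6 35) - g (tS6 54)) + (g (tS6 59) + g (tS6 1) + g (tS6 24) + g (tS6 34) - g (tS6 25) - g (tS6 35) - g (tS6 58)) + (g (tS6 47) + g (tS6 2) + g (tS6 12) + g (tS6 33) - g (tS6 14) - g (tS6 35) - g (tS6 45)) + (g (tS6 55) + g (tS6 2) + g (tS6 20) + g (tS6 33) - g (tS6 22) - g (tS6 35) - g (tS6 53)) + (g (tS6 59) + g (tS6 2) + g (tS6 24) + g (tS6 33) - g (tS6 26) - g (tS6 35) - g (tS6 57)) + (g (tS6 47) + g (tS6 3) + g (tS6 12) + g (tS6 32) - g (tS6 15) - g (tS6 35) - g (tS6 44)) + (g (tS6 55) + g (tS6 3) + g (tS6 20) + g (tS6 32) - g (tS6 23) - g (tS6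 35) - g (tS6 52)) + (g (tS6 59) + g (tS6 3) + g (tS6 24) + g (tS6 32) - g (tS6 27) - g (tS6 35) - g (tS6 56)) := by
  have mp := fun b b' h => map_pm ![0, 1, 5, 2, 3, 4] ![0, 1, 3, 4, 5, 2] (by decide) (by decide) b b' h
  have h := h0 ⟨![0, 1, 5, 2, 3, 4], ![0, 1, 3, 4, 5, 2], by decide, by decide⟩
  unfold Gm1 at h
  simp only [mp 1 1 (by decide), mp 2 2 (by decide), mp 3 3 (by decide), mp 4 32 (by decide), mp 5 33 (by decide), mp 6 34 (by decide), mp 7 35 (by decide), mp 24 12 (by decide), mp 25 13 (by decide), mp 26 14 (by decide), mp 27 15 (by decide), mp 28 44 (by decide), mp 29 45 (by decide), mp 30 46 (by decide), mp 31 47 (by decide), mp 40 20 (by decide), mp 41 21 (by decide), mp 42 22 (by decide), mp 43 23 (by decide), mp 44 52 (by decide), mp 45 53 (by decide), mp 46 54 (by decide), mp 47 55 (by decide), mp 48 24 (by decide), mp 49 25 (by decide), mp 50 26 (by decide), mp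 51 27 (by decide), mp 52 56 (by decide), mp 53 57 (by decide), mp 54 58 (by decide), mp 55 59 (by decide)] at h
  linarith only [h]

theorem m6A_37 {g : Finset (Fin 6) → ℝ}
    (h0 : ∀ τ : Equiv.Perm (Fin 6), Gm1 g ≤ Gm1 (fun S => g (S.map τ.toEmbedding))) :
    (g (tS6 31) + g (tS6 1) + g (tS6 6) + g (tS6 24) - g (tS6 7) - g (tS6 25) - g (tS6 30)) + (g (tS6 47) + g (tS6 1) + g (tS6 6) + g (tS6 40) - g (tS6 7) - g (tS6 41) - g (tS6 46)) + (g (tS6 55) + g (tS6 1) + g (tS6 6) + g (tS6 48) - g (tS6 7) - g (tS6 49) - g (tS6 54)) + (g (tS6 31) + g (tS6 2) + g (tS6 5) + g (tS6 24) - g (tS6 7) - g (tS6 26) - g (tS6 29)) + (g (tS6 47) + g (tS6 2) + g (tS6 5) + g (tS6 40) - g (tS6 7) - g (tS6 42) - g (tS6 45)) + (g (tS6 55) + g (tS6 2) + g (tS6 5) + g (tS6 48) - g (tS6 7) - g (tS6 50) - g (tS6 53)) + (g (tS6 31) + g (tS6 3) + g (tS6 4) + g (tS6 24) - g (tS6 7) - g (tS6 27) - g (tS6 28)) + (g (tS6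 47) + g (tS6 3) + g (tS6 4) + g (tS6 40) - g (tS6 7) - g (tS6 43) - g (tS6 44)) + (g (tS6 55) + g (tS6 3) + g (tS6 4) + g (tS6 48) - g (tS6 7) - g (tS6 51) - g (tS6 52)) ≤
      (g (tS6 47) + g (tS6 1) + g (tS6 10) + g (tS6 36) - g (tS6 11) - g (tS6 37) - g (tS6 46)) + (g (tS6 55) + g (tS6 1) + g (tS6 18) + g (tS6 36) - g (tS6 19) - g (tS6 37) - g (tS6 54)) + (g (tS6 61) + g (tS6 1) + g (tS6 24) + g (tS6 36) - g (tS6 25) - g (tS6 37) - g (tS6 60)) + (g (tS6 47) + g (tS6 4) + g (tS6 10) + g (tS6 33) - g (tS6 14) - g (tS6 37) - g (tS6 43)) + (g (tS6 55) + g (tS6 4) + g (tS6 18) + g (tS6 33) - g (tS6 22) - g (tS6 37) - g (tS6 51)) + (g (tS6 61) + g (tS6 4) + g (tS6 24) + g (tS6 33) - g (tS6 28) - g (tS6 37) - g (tS6 57)) + (g (tS6 47) + g (tS6 5) + g (tS6 10) + g (tS6 32) - g (tS6 15) - g (tS6 37) - g (tS6 42)) + (g (tS6 55) + g (tS6 5) + g (tS6 18) + g (tS6 32) - g (tS6 23) - g (tS6 37)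 - g (tS6 50)) + (g (tS6 61) + g (tS6 5) + g (tS6 24) + g (tS6 32) - g (tS6 29) - g (tS6 37) - g (tS6 56)) := by
  have mp := fun b b' h => map_pm ![0, 2, 5, 1, 3, 4] ![0, 3, 1, 4, 5, 2] (by decide) (by decide) b b' h
  have h := h0 ⟨![0, 2, 5, 1, 3, 4], ![0, 3, 1, 4, 5, 2], by decide, by decide⟩
  unfold Gm1 at h
  simp only [mp 1 1 (by decide), mp 2 4 (by decide), mp 3 5 (by decide), mp 4 32 (by decide), mp 5 33 (by decide), mp 6 36 (by decide), mp 7 37 (by decide), mp 24 10 (by decide), mp 25 11 (by decide), mp 26 14 (by decide), mp 27 15 (by decide), mp 28 42 (by decide), mp 29 43 (by decide), mp 30 46 (by decide), mp 31 47 (by decide), mp 40 18 (by decide), mp 41 19 (by decide), mp 42 22 (by decide), mp 43 23 (by decide), mp 44 50 (by decide), mp 45 51 (by decide), mp 46 54 (by decide), mp 47 55 (by decide), mp 48 24 (by decide), mp 49 25 (by decide), mp 50 28 (by decide), mp 51 29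 (by decide), mp 52 56 (by decide), mp 53 57 (by decide), mp 54 60 (by decide), mp 55 61 (by decide)] at h
  linarith only [h]

theorem m6A_38 {g : Finset (Fin 6) → ℝ}
    (h0 : ∀ τ : Equiv.Perm (Fin 6), Gm1 g ≤ Gm1 (fun S => g (S.map τ.toEmbedding))) :
    (g (tS6 31) + g (tS6 1) + g (tS6 6) + g (tS6 24) - g (tS6 7) - g (tS6 25) - g (tS6 30)) + (g (tS6 47) + g (tS6 1) + g (tS6 6) + g (tS6 40) - g (tS6 7) - g (tS6 41) - g (tS6 46)) + (g (tS6 55) + g (tS6 1) + g (tS6 6) + g (tS6 48) - g (tS6 7) - g (tS6 49) - g (tS6 54)) + (g (tS6 31) + g (tS6 2) + g (tS6 5) + g (tS6 24) - g (tS6 7) - g (tS6 26) - g (tS6 29)) + (g (tS6 47) + g (tS6 2) + g (tS6 5) + g (tS6 40) - g (tS6 7) - g (tS6 42) - g (tS6 45)) + (g (tS6 55) + g (tS6 2) + g (tS6 5) + g (tS6 48) - g (tS6 7) - g (tS6 50) - g (tS6 53)) + (g (tS6 31) + g (tS6 3) + g (tS6 4) + g (tS6 24) - g (tS6 7) - g (tS6 27) - g (tS6 28)) + (g (tS6 47)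 + g (tS6 3) + g (tS6 4) + g (tS6 40) - g (tS6 7) - g (tS6 43) - g (tS6 44)) + (g (tS6 55) + g (tS6 3) + g (tS6 4) + g (tS6 48) - g (tS6 7) - g (tS6 51) - g (tS6 52)) ≤
      (g (tS6 47) + g (tS6 2) + g (tS6 9) + g (tS6 36) - g (tS6 11) - g (tS6 38) - g (tS6 45)) + (g (tS6 55) + g (tS6 2) + g (tS6 17) + g (tS6 36) - g (tS6 19) - g (tS6 38) - g (tS6 53)) + (g (tS6 62) + g (tS6 2) + g (tS6 24) + g (tS6 36) - g (tS6 26) - g (tS6 38) - g (tS6 60)) + (g (tS6 47) + g (tS6 4) + g (tS6 9) + g (tS6 34) - g (tS6 13) - g (tS6 38) - g (tS6 43)) + (g (tS6 55) + g (tS6 4) + g (tS6 17) + g (tS6 34) - g (tS6 21) - g (tS6 38) - g (tS6 51)) + (g (tS6 62) + g (tS6 4) + g (tS6 24) + g (tS6 34) - g (tS6 28) - g (tS6 38) - g (tS6 58)) + (g (tS6 47) + g (tS6 6) + g (tS6 9) + g (tS6 32) - g (tS6 15) - g (tS6 38) - g (tS6 41)) + (g (tS6 55) + g (tS6 6) + g (tS6 17) + g (tS6 32) - g (tS6 23) - g (tS6 38) - g (tS6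 49)) + (g (tS6 62) + g (tS6 6) + g (tS6 24) + g (tS6 32) - g (tS6 30) - g (tS6 38) - g (tS6 56)) := by
  have mp := fun b b' h => map_pm ![1, 2, 5, 0, 3, 4] ![3, 0, 1, 4, 5, 2] (by decide) (by decide) b b' h
  have h := h0 ⟨![1, 2, 5, 0, 3, 4], ![3, 0, 1, 4, 5, 2], by decide, by decide⟩
  unfold Gm1 at h
  simp only [mp 1 2 (by decide), mp 2 4 (by decide), mp 3 6 (by decide), mp 4 32 (by decide), mp 5 34 (by decide), mp 6 36 (by decide), mp 7 38 (by decide), mp 24 9 (by decide), mp 25 11 (by decide), mp 26 13 (by decide), mp 27 15 (by decide), mp 28 41 (by decide), mp 29 43 (by decide), mp 30 45 (by decide), mp 31 47 (by decide), mp 40 17 (by decide), mp 41 19 (by decide), mp 42 21 (by decide), mp 43 23 (by decide), mp 44 49 (by decide), mp 45 51 (by decide), mp 46 53 (by decide), mp 47 55 (by decide), mp 48 24 (by decide), mp 49 26 (by decide), mp 50 28 (by decide), mp 51 30 (by decide),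 mp 52 56 (by decide), mp 53 58 (by decide), mp 54 60 (by decide), mp 55 62 (by decide)] at h
  linarith only [h]

theorem m6A_41 {g : Finset (Fin 6) → ℝ}
    (h0 : ∀ τ : Equiv.Perm (Fin 6), Gm1 g ≤ Gm1 (fun S => g (S.map τ.toEmbedding))) :
    (g (tS6 31) + g (tS6 1) + g (tS6 6) + g (tS6 24) - g (tS6 7) - g (tS6 25) - g (tS6 30)) + (g (tS6 47) + g (tS6 1) + g (tS6 6) + g (tS6 40) - g (tS6 7) - g (tS6 41) - g (tS6 46)) + (g (tS6 55) + g (tS6 1) + g (tS6 6) + g (tS6 48) - g (tS6 7) - g (tS6 49) - g (tS6 54)) + (g (tS6 31) + g (tS6 2) + g (tS6 5) + g (tS6 24) - g (tS6 7) - g (tS6 26) - g (tS6 29)) + (g (tS6 47) + g (tS6 2) + g (tS6 5) + g (tS6 40) - g (tS6 7) - g (tS6 42) - g (tS6 45)) + (g (tS6 55) + g (tS6 2) + g (tS6 5) + g (tS6 48) - g (tS6 7) - g (tS6 50) - g (tS6 53)) + (g (tS6 31) + g (tS6 3) + g (tS6 4) + g (tS6 24) - g (tS6 7) - g (tS6 27) - g (tS6 28)) + (g (tS6 47) + g (tS6 3)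 + g (tS6 4) + g (tS6 40) - g (tS6 7) - g (tS6 43) - g (tS6 44)) + (g (tS6 55) + g (tS6 3) + g (tS6 4) + g (tS6 48) - g (tS6 7) - g (tS6 51) - g (tS6 52)) ≤
      (g (tS6 47) + g (tS6 1) + g (tS6 6) + g (tS6 40) - g (tS6 7) - g (tS6 41) - g (tS6 46)) + (g (tS6 59) + g (tS6 1) + g (tS6 18) + g (tS6 40) - g (tS6 19) - g (tS6 41) - g (tS6 58)) + (g (tS6 61) + g (tS6 1) + g (tS6 20) + g (tS6 40) - g (tS6 21) - g (tS6 41) - g (tS6 60)) + (g (tS6 47) + g (tS6 6) + g (tS6 8) + g (tS6 33) - g (tS6 14) - g (tS6 39) - g (tS6 41)) + (g (tS6 47) + g (tS6 6) + g (tS6 9) + g (tS6 32) - g (tS6 15) - g (tS6 38) - g (tS6 41)) + (g (tS6 59) + g (tS6 8) + g (tS6 18) + g (tS6 33) - g (tS6 26) - g (tS6 41) - g (tS6 51)) + (g (tS6 61) + g (tS6 8) + g (tS6 20) + g (tS6 33) - g (tS6 28) - g (tS6 41) - g (tS6 53)) + (g (tS6 59) + g (tS6 9) + g (tS6 18) + g (tS6 32) - g (tS6 27) - g (tS6 41) - g (tS6 50)) + (g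 (tS6 61) + g (tS6 9) + g (tS6 20) + g (tS6 32) - g (tS6 29) - g (tS6 41) - g (tS6 52)) := by
  have mp := fun b b' h => map_pm ![0, 3, 5, 1, 2, 4] ![0, 3, 4, 1, 5, 2] (by decide) (by decide) b b' h
  have h := h0 ⟨![0, 3, 5, 1, 2, 4], ![0, 3, 4, 1, 5, 2], by decide, by decide⟩
  unfold Gm1 at h
  simp only [mp 1 1 (by decide), mp 2 8 (by decide), mp 3 9 (by decide), mp 4 32 (by decide), mp 5 33 (by decide), mp 6 40 (by decide), mp 7 41 (by decide), mp 24 6 (by decide), mp 25 7 (by decide), mp 26 14 (by decide), mp 27 15 (by decide), mp 28 38 (by decide), mp 29 39 (by decide), mp 30 46 (by decide), mp 31 47 (by decide), mp 40 18 (by decide), mp 41 19 (by decide), mp 42 26 (by decide), mp 43 27 (by decide), mp 44 50 (by decide), mp 45 51 (by decide), mp 46 58 (by decide), mp 47 59 (by decide), mp 48 20 (by decide), mp 49 21 (by decide), mp 50 28 (by decide), mp 51 29 (by decide), mp 52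 52 (by decide), mp 53 53 (by decide), mp 54 60 (by decide), mp 55 61 (by decide)] at h
  linarith only [h]

theorem m6A_42 {g : Finset (Fin 6) → ℝ}
    (h0 : ∀ τ : Equiv.Perm (Fin 6), Gm1 g ≤ Gm1 (fun S => g (S.map τ.toEmbedding))) :
    (g (tS6 31) + g (tS6 1) + g (tS6 6) + g (tS6 24) - g (tS6 7) - g (tS6 25) - g (tS6 30)) + (g (tS6 47) + g (tS6 1) + g (tS6 6) + g (tS6 40) - g (tS6 7) - g (tS6 41) - g (tS6 46)) + (g (tS6 55) + g (tS6 1) + g (tS6 6) + g (tS6 48) - g (tS6 7) - g (tS6 49) - g (tS6 54)) + (g (tS6 31) + g (tS6 2) + g (tS6 5) + g (tS6 24) - g (tS6 7) - g (tS6 26) - g (tS6 29)) + (g (tS6 47) + g (tS6 2) + g (tS6 5) + g (tS6 40) - g (tS6 7) - g (tS6 42) - g (tS6 45)) + (g (tS6 55) + g (tS6 2) + g (tS6 5) + g (tS6 48) - g (tS6 7) - g (tS6 50) - g (tS6 53)) + (g (tS6 31) + g (tS6 3) + g (tS6 4) + g (tS6 24) - g (tS6 7) - g (tS6 27) - g (tS6 28)) + (g (tS6 47) + g (tS6 3) + g (tS6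 4) + g (tS6 40) - g (tS6 7) - g (tS6 43) - g (tS6 44)) + (g (tS6 55) + g (tS6 3) + g (tS6 4) + g (tS6 48) - g (tS6 7) - g (tS6 51) - g (tS6 52)) ≤
      (g (tS6 47) + g (tS6 2) + g (tS6 5) + g (tS6 40) - g (tS6 7) - g (tS6 42) - g (tS6 45)) + (g (tS6 59) + g (tS6 2) + g (tS6 17) + g (tS6 40) - g (tS6 19) - g (tS6 42) - g (tS6 57)) + (g (tS6 62) + g (tS6 2) + g (tS6 20) + g (tS6 40) - g (tS6 22) - g (tS6 42) - g (tS6 60)) + (g (tS6 47) + g (tS6 5) + g (tS6 8) + g (tS6 34) - g (tS6 13) - g (tS6 39) - g (tS6 42)) + (g (tS6 47) + g (tS6 5) + g (tS6 10) + g (tS6 32) - g (tS6 15) - g (tS6 37) - g (tS6 42)) + (g (tS6 59) + g (tS6 8) + g (tS6 17) + g (tS6 34) - g (tS6 25) - g (tS6 42) - g (tS6 51)) + (g (tS6 62) + g (tS6 8) + g (tS6 20) + g (tS6 34) - g (tS6 28) - g (tS6 42) - g (tS6 54)) + (g (tS6 59) + g (tS6 10) + g (tS6 17) + g (tS6 32) - g (tS6 27) - g (tS6 42) - g (tS6 49)) + (g (tS6 62)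 + g (tS6 10) + g (tS6 20) + g (tS6 32) - g (tS6 30) - g (tS6 42) - g (tS6 52)) := by
  have mp := fun b b' h => map_pm ![1, 3, 5, 0, 2, 4] ![3, 0, 4, 1, 5, 2] (by decide) (by decide) b b' h
  have h := h0 ⟨![1, 3, 5, 0, 2, 4], ![3, 0, 4, 1, 5, 2], by decide, by decide⟩
  unfold Gm1 at h
  simp only [mp 1 2 (by decide), mp 2 8 (by decide), mp 3 10 (by decide), mp 4 32 (by decide), mp 5 34 (by decide), mp 6 40 (by decide), mp 7 42 (by decide), mp 24 5 (by decide), mp 25 7 (by decide), mp 26 13 (by decide), mp 27 15 (by decide), mp 28 37 (by decide), mp 29 39 (by decide), mp 30 45 (by decide), mp 31 47 (by decide), mp 40 17 (by decide), mp 41 19 (by decide), mp 42 25 (by decide), mp 43 27 (by decide), mp 44 49 (by decide), mp 45 51 (by decide), mp 46 57 (by decide), mp 47 59 (by decide), mp 48 20 (by decide), mp 49 22 (by decide), mp 50 28 (by decide), mp 51 30 (by decide), mp 52 52 (by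 decide), mp 53 54 (by decide), mp 54 60 (by decide), mp 55 62 (by decide)] at h
  linarith only [h]

theorem m6A_44 {g : Finset (Fin 6) → ℝ}
    (h0 : ∀ τ : Equiv.Perm (Fin 6), Gm1 g ≤ Gm1 (fun S => g (S.map τ.toEmbedding))) :
    (g (tS6 31) + g (tS6 1) + g (tS6 6) + g (tS6 24) - g (tS6 7) - g (tS6 25) - g (tS6 30)) + (g (tS6 47) + g (tS6 1) + g (tS6 6) + g (tS6 40) - g (tS6 7) - g (tS6 41) - g (tS6 46)) + (g (tS6 55) + g (tS6 1) + g (tS6 6) + g (tS6 48) - g (tS6 7) - g (tS6 49) - g (tS6 54)) + (g (tS6 31) + g (tS6 2) + g (tS6 5) + g (tS6 24) - g (tS6 7) - g (tS6 26) - g (tS6 29)) + (g (tS6 47) + g (tS6 2) + g (tS6 5) + g (tS6 40) - g (tS6 7) - g (tS6 42) - g (tS6 45)) + (g (tS6 55) + g (tS6 2) + g (tS6 5) + g (tS6 48) - g (tS6 7) - g (tS6 50) - g (tS6 53)) + (g (tS6 31) + g (tS6 3) + g (tS6 4) + g (tS6 24) - g (tS6 7) - g (tS6 27) - g (tS6 28)) + (g (tS6 47) + g (tS6 3) + g (tS6 4)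 + g (tS6 40) - g (tS6 7) - g (tS6 43) - g (tS6 44)) + (g (tS6 55) + g (tS6 3) + g (tS6 4) + g (tS6 48) - g (tS6 7) - g (tS6 51) - g (tS6 52)) ≤
      (g (tS6 47) + g (tS6 3) + g (tS6 4) + g (tS6 40) - g (tS6 7) - g (tS6 43) - g (tS6 44)) + (g (tS6 47) + g (tS6 3) + g (tS6 8) + g (tS6 36) - g (tS6 11) - g (tS6 39) - g (tS6 44)) + (g (tS6 47) + g (tS6 3) + g (tS6 12) + g (tS6 32) - g (tS6 15) - g (tS6 35) - g (tS6 44)) + (g (tS6 61) + g (tS6 4) + g (tS6 17) + g (tS6 40) - g (tS6 21) - g (tS6 44) - g (tS6 57)) + (g (tS6 62) + g (tS6 4) + g (tS6 18) + g (tS6 40) - g (tS6 22) - g (tS6 44) - g (tS6 58)) + (g (tS6 61) + g (tS6 8) + g (tS6 17) + g (tS6 36) - g (tS6 25) - g (tS6 44) - g (tS6 53)) + (g (tS6 62) + g (tS6 8) + g (tS6 18) + g (tS6 36) - g (tS6 26) - g (tS6 44) - g (tS6 54)) + (g (tS6 61) + g (tS6 12) + g (tS6 17) + g (tS6 32) - g (tS6 29) - g (tS6 44) - g (tS6 49)) + (g (tS6 62) +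 g (tS6 12) + g (tS6 18) + g (tS6 32) - g (tS6 30) - g (tS6 44) - g (tS6 50)) := by
  have mp := fun b b' h => map_pm ![2, 3, 5, 0, 1, 4] ![3, 4, 0, 1, 5, 2] (by decide) (by decide) b b' h
  have h := h0 ⟨![2, 3, 5, 0, 1, 4], ![3, 4, 0, 1, 5, 2], by decide, by decide⟩
  unfold Gm1 at h
  simp only [mp 1 4 (by decide), mp 2 8 (by decide), mp 3 12 (by decide), mp 4 32 (by decide), mp 5 36 (by decide), mp 6 40 (by decide), mp 7 44 (by decide), mp 24 3 (by decide), mp 25 7 (by decide), mp 26 11 (by decide), mp 27 15 (by decide), mp 28 35 (by decide), mp 29 39 (by decide), mp 30 43 (by decide), mp 31 47 (by decide), mp 40 17 (by decide), mp 41 21 (by decide), mp 42 25 (by decide), mp 43 29 (by decide), mp 44 49 (by decide), mp 45 53 (by decide), mp 46 57 (by decide), mp 47 61 (by decide), mp 48 18 (by decide), mp 49 22 (by decide), mp 50 26 (by decide), mp 51 30 (by decide), mp 52 50 (by decide),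 mp 53 54 (by decide), mp 54 58 (by decide), mp 55 62 (by decide)] at h
  linarith only [h]

theorem m6A_49 {g : Finset (Fin 6) → ℝ}
    (h0 : ∀ τ : Equiv.Perm (Fin 6), Gm1 g ≤ Gm1 (fun S => g (S.map τ.toEmbedding))) :
    (g (tS6 31) + g (tS6 1) + g (tS6 6) + g (tS6 24) - g (tS6 7) - g (tS6 25) - g (tS6 30)) + (g (tS6 47) + g (tS6 1) + g (tS6 6) + g (tS6 40) - g (tS6 7) - g (tS6 41) - g (tS6 46)) + (g (tS6 55) + g (tS6 1) + g (tS6 6) + g (tS6 48) - g (tS6 7) - g (tS6 49) - g (tS6 54)) + (g (tS6 31) + g (tS6 2) + g (tS6 5) + g (tS6 24) - g (tS6 7) - g (tS6 26) - g (tS6 29)) + (g (tS6 47) + g (tS6 2) + g (tS6 5) + g (tS6 40) - g (tS6 7) - g (tS6 42) - g (tS6 45)) + (g (tS6 55) + g (tS6 2) + g (tS6 5) + g (tS6 48) - g (tS6 7) - g (tS6 50) - g (tS6 53)) + (g (tS6 31) + g (tS6 3) + g (tS6 4) + g (tS6 24) - g (tS6 7) - g (tS6 27) - g (tS6 28)) + (g (tS6 47) + g (tS6 3) + g (tS6 4) + g (tS6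 40) - g (tS6 7) - g (tS6 43) - g (tS6 44)) + (g (tS6 55) + g (tS6 3) + g (tS6 4) + g (tS6 48) - g (tS6 7) - g (tS6 51) - g (tS6 52)) ≤
      (g (tS6 55) + g (tS6 1) + g (tS6 6) + g (tS6 48) - g (tS6 7) - g (tS6 49) - g (tS6 54)) + (g (tS6 59) + g (tS6 1) + g (tS6 10) + g (tS6 48) - g (tS6 11) - g (tS6 49) - g (tS6 58)) + (g (tS6 61) + g (tS6 1) + g (tS6 12) + g (tS6 48) - g (tS6 13) - g (tS6 49) - g (tS6 60)) + (g (tS6 55) + g (tS6 6) + g (tS6 16) + g (tS6 33) - g (tS6 22) - g (tS6 39) - g (tS6 49)) + (g (tS6 55) + g (tS6 6) + g (tS6 17) + g (tS6 32) - g (tS6 23) - g (tS6 38) - g (tS6 49)) + (g (tS6 59) + g (tS6 10) + g (tS6 16) + g (tS6 33) - g (tS6 26) - g (tS6 43) - g (tS6 49)) + (g (tS6 59) + g (tS6 10) + g (tS6 17) + g (tS6 32) - g (tS6 27) - g (tS6 42) - g (tS6 49)) + (g (tS6 61) + g (tS6 12) + g (tS6 16) + g (tS6 33) - g (tS6 28) - g (tS6 45) - g (tS6 49)) + (g (tS6 61) + g (tS6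 12) + g (tS6 17) + g (tS6 32) - g (tS6 29) - g (tS6 44) - g (tS6 49)) := by
  have mp := fun b b' h => map_pm ![0, 4, 5, 1, 2, 3] ![0, 3, 4, 5, 1, 2] (by decide) (by decide) b b' h
  have h := h0 ⟨![0, 4, 5, 1, 2, 3], ![0, 3, 4, 5, 1, 2], by decide, by decide⟩
  unfold Gm1 at h
  simp only [mp 1 1 (by decide), mp 2 16 (by decide), mp 3 17 (by decide), mp 4 32 (by decide), mp 5 33 (by decide), mp 6 48 (by decide), mp 7 49 (by decide), mp 24 6 (by decide), mp 25 7 (by decide), mp 26 22 (by decide), mp 27 23 (by decide), mp 28 38 (by decide), mp 29 39 (by decide), mp 30 54 (by decide), mp 31 55 (by decide), mp 40 10 (by decide), mp 41 11 (by decide), mp 42 26 (by decide), mp 43 27 (by decide), mp 44 42 (by decide), mp 45 43 (by decide), mp 46 58 (by decide), mp 47 59 (by decide), mp 48 12 (by decide), mp 49 13 (by decide), mp 50 28 (by decide), mp 51 29 (by decide), mp 52 44 (by decide),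 mp 53 45 (by decide), mp 54 60 (by decide), mp 55 61 (by decide)] at h
  linarith only [h]

theorem m6A_50 {g : Finset (Fin 6) → ℝ}
    (h0 : ∀ τ : Equiv.Perm (Fin 6), Gm1 g ≤ Gm1 (fun S => g (S.map τ.toEmbedding))) :
    (g (tS6 31) + g (tS6 1) + g (tS6 6) + g (tS6 24) - g (tS6 7) - g (tS6 25) - g (tS6 30)) + (g (tS6 47) + g (tS6 1) + g (tS6 6) + g (tS6 40) - g (tS6 7) - g (tS6 41) - g (tS6 46)) + (g (tS6 55) + g (tS6 1) + g (tS6 6) + g (tS6 48) - g (tS6 7) - g (tS6 49) - g (tS6 54)) + (g (tS6 31) + g (tS6 2) + g (tS6 5) + g (tS6 24) - g (tS6 7) - g (tS6 26) - g (tS6 29)) + (g (tS6 47) + g (tS6 2) + g (tS6 5) + g (tS6 40) - g (tS6 7) - g (tS6 42) - g (tS6 45)) + (g (tS6 55) + g (tS6 2) + g (tS6 5) + g (tS6 48) - g (tS6 7) - g (tS6 50) - g (tS6 53)) + (g (tS6 31) + g (tS6 3) + g (tS6 4) + g (tS6 24) - g (tS6 7) - g (tS6 27) - g (tS6 28)) + (g (tS6 47) + g (tS6 3) + g (tS6 4) + g (tS6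 40) - g (tS6 7) - g (tS6 43) - g (tS6 44)) + (g (tS6 55) + g (tS6 3) + g (tS6 4) + g (tS6 48) - g (tS6 7) - g (tS6 51) - g (tS6 52)) ≤
      (g (tS6 55) + g (tS6 2) + g (tS6 5) + g (tS6 48) - g (tS6 7) - g (tS6 50) - g (tS6 53)) + (g (tS6 59) + g (tS6 2) + g (tS6 9) + g (tS6 48) - g (tS6 11) - g (tS6 50) - g (tS6 57)) + (g (tS6 62) + g (tS6 2) + g (tS6 12) + g (tS6 48) - g (tS6 14) - g (tS6 50) - g (tS6 60)) + (g (tS6 55) + g (tS6 5) + g (tS6 16) + g (tS6 34) - g (tS6 21) - g (tS6 39) - g (tS6 50)) + (g (tS6 55) + g (tS6 5) + g (tS6 18) + g (tS6 32) - g (tS6 23) - g (tS6 37) - g (tS6 50)) + (g (tS6 59) + g (tS6 9) + g (tS6 16) + g (tS6 34) - g (tS6 25) - g (tS6 43) - g (tS6 50)) + (g (tS6 59) + g (tS6 9) + g (tS6 18) + g (tS6 32) - g (tS6 27) - g (tS6 41) - g (tS6 50)) + (g (tS6 62) + g (tS6 12) + g (tS6 16) + g (tS6 34) - g (tS6 28) - g (tS6 46) - g (tS6 50)) + (g (tS6 62) + g (tS6 12)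 + g (tS6 18) + g (tS6 32) - g (tS6 30) - g (tS6 44) - g (tS6 50)) := by
  have mp := fun b b' h => map_pm ![1, 4, 5, 0, 2, 3] ![3, 0, 4, 5, 1, 2] (by decide) (by decide) b b' h
  have h := h0 ⟨![1, 4, 5, 0, 2, 3], ![3, 0, 4, 5, 1, 2], by decide, by decide⟩
  unfold Gm1 at h
  simp only [mp 1 2 (by decide), mp 2 16 (by decide), mp 3 18 (by decide), mp 4 32 (by decide), mp 5 34 (by decide), mp 6 48 (by decide), mp 7 50 (by decide), mp 24 5 (by decide), mp 25 7 (by decide), mp 26 21 (by decide), mp 27 23 (by decide), mp 28 37 (by decide), mp 29 39 (by decide), mp 30 53 (by decide), mp 31 55 (by decide), mp 40 9 (by decide), mp 41 11 (by decide), mp 42 25 (by decide), mp 43 27 (by decide), mp 44 41 (by decide), mp 45 43 (by decide), mp 46 57 (by decide), mp 47 59 (by decide), mp 48 12 (by decide), mp 49 14 (by decide), mp 50 28 (by decide), mp 51 30 (by decide), mp 52 44 (by decide), mp 53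 46 (by decide), mp 54 60 (by decide), mp 55 62 (by decide)] at h
  linarith only [h]

theorem m6A_52 {g : Finset (Fin 6) → ℝ}
    (h0 : ∀ τ : Equiv.Perm (Fin 6), Gm1 g ≤ Gm1 (fun S => g (S.map τ.toEmbedding))) :
    (g (tS6 31) + g (tS6 1) + g (tS6 6) + g (tS6 24) - g (tS6 7) - g (tS6 25) - g (tS6 30)) + (g (tS6 47) + g (tS6 1) + g (tS6 6) + g (tS6 40) - g (tS6 7) - g (tS6 41) - g (tS6 46)) + (g (tS6 55) + g (tS6 1) + g (tS6 6) + g (tS6 48) - g (tS6 7) - g (tS6 49) - g (tS6 54)) + (g (tS6 31) + g (tS6 2) + g (tS6 5) + g (tS6 24) - g (tS6 7) - g (tS6 26) - g (tS6 29)) + (g (tS6 47) + g (tS6 2) + g (tS6 5) + g (tS6 40) - g (tS6 7) - g (tS6 42) - g (tS6 45)) + (g (tS6 55) + g (tS6 2) + g (tS6 5) + g (tS6 48) - g (tS6 7) - g (tS6 50) - g (tS6 53)) + (g (tS6 31) + g (tS6 3) + g (tS6 4) + g (tS6 24) - g (tS6 7) - g (tS6 27) - g (tS6 28)) + (g (tS6 47) + g (tS6 3) + g (tS6 4) + g (tS6 40) -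 g (tS6 7) - g (tS6 43) - g (tS6 44)) + (g (tS6 55) + g (tS6 3) + g (tS6 4) + g (tS6 48) - g (tS6 7) - g (tS6 51) - g (tS6 52)) ≤
      (g (tS6 55) + g (tS6 3) + g (tS6 4) + g (tS6 48) - g (tS6 7) - g (tS6 51) - g (tS6 52)) + (g (tS6 55) + g (tS6 3) + g (tS6 16) + g (tS6 36) - g (tS6 19) - g (tS6 39) - g (tS6 52)) + (g (tS6 55) + g (tS6 3) + g (tS6 20) + g (tS6 32) - g (tS6 23) - g (tS6 35) - g (tS6 52)) + (g (tS6 61) + g (tS6 4) + g (tS6 9) + g (tS6 48) - g (tS6 13) - g (tS6 52) - g (tS6 57)) + (g (tS6 62) + g (tS6 4) + g (tS6 10) + g (tS6 48) - g (tS6 14) - g (tS6 52) - g (tS6 58)) + (g (tS6 61) + g (tS6 9) + g (tS6 16) + g (tS6 36) - g (tS6 25) - g (tS6 45) - g (tS6 52)) + (g (tS6 61) + g (tS6 9) + g (tS6 20) + g (tS6 32) - g (tS6 29) - g (tS6 41) - g (tS6 52)) + (g (tS6 62) + g (tS6 10) + g (tS6 16) + g (tS6 36) - g (tS6 26) - g (tS6 46) - g (tS6 52)) + (g (tS6 62) + g (tS6 10) + g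 (tS6 20) + g (tS6 32) - g (tS6 30) - g (tS6 42) - g (tS6 52)) := by
  have mp := fun b b' h => map_pm ![2, 4, 5, 0, 1, 3] ![3, 4, 0, 5, 1, 2] (by decide) (by decide) b b' h
  have h := h0 ⟨![2, 4, 5, 0, 1, 3], ![3, 4, 0, 5, 1, 2], by decide, by decide⟩
  unfold Gm1 at h
  simp only [mp 1 4 (by decide), mp 2 16 (by decide), mp 3 20 (by decide), mp 4 32 (by decide), mp 5 36 (by decide), mp 6 48 (by decide), mp 7 52 (by decide), mp 24 3 (by decide), mp 25 7 (by decide), mp 26 19 (by decide), mp 27 23 (by decide), mp 28 35 (by decide), mp 29 39 (by decide), mp 30 51 (by decide), mp 31 55 (by decide), mp 40 9 (by decide), mp 41 13 (by decide), mp 42 25 (by decide), mp 43 29 (by decide), mp 44 41 (by decide), mp 45 45 (by decide), mp 46 57 (by decide), mp 47 61 (by decide), mp 48 10 (by decide), mp 49 14 (by decide), mp 50 26 (by decide), mp 51 30 (by decide), mp 52 42 (by decide), mp 53 46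 (by decide), mp 54 58 (by decide), mp 55 62 (by decide)] at h
  linarith only [h]

theorem m6A_56 {g : Finset (Fin 6) → ℝ}
    (h0 : ∀ τ : Equiv.Perm (Fin 6), Gm1 g ≤ Gm1 (fun S => g (S.map τ.toEmbedding))) :
    (g (tS6 31) + g (tS6 1) + g (tS6 6) + g (tS6 24) - g (tS6 7) - g (tS6 25) - g (tS6 30)) + (g (tS6 47) + g (tS6 1) + g (tS6 6) + g (tS6 40) - g (tS6 7) - g (tS6 41) - g (tS6 46)) + (g (tS6 55) + g (tS6 1) + g (tS6 6) + g (tS6 48) - g (tS6 7) - g (tS6 49) - g (tS6 54)) + (g (tS6 31) + g (tS6 2) + g (tS6 5) + g (tS6 24) - g (tS6 7) - g (tS6 26) - g (tS6 29)) + (g (tS6 47) + g (tS6 2) + g (tS6 5) + g (tS6 40) - g (tS6 7) - g (tS6 42) - g (tS6 45)) + (g (tS6 55) + g (tS6 2) + g (tS6 5) + g (tS6 48) - g (tS6 7) - g (tS6 50) - g (tS6 53)) + (g (tS6 31) + g (tS6 3) + g (tS6 4) + g (tS6 24) - g (tS6 7) - g (tS6 27) - g (tS6 28)) + (g (tS6 47) + g (tS6 3) + g (tS6 4) + g (tS6 40) - g (tS6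 7) - g (tS6 43) - g (tS6 44)) + (g (tS6 55) + g (tS6 3) + g (tS6 4) + g (tS6 48) - g (tS6 7) - g (tS6 51) - g (tS6 52)) ≤
      (g (tS6 59) + g (tS6 3) + g (tS6 8) + g (tS6 48) - g (tS6 11) - g (tS6 51) - g (tS6 56)) + (g (tS6 59) + g (tS6 3) + g (tS6 16) + g (tS6 40) - g (tS6 19) - g (tS6 43) - g (tS6 56)) + (g (tS6 59) + g (tS6 3) + g (tS6 24) + g (tS6 32) - g (tS6 27) - g (tS6 35) - g (tS6 56)) + (g (tS6 61) + g (tS6 5) + g (tS6 8) + g (tS6 48) - g (tS6 13) - g (tS6 53) - g (tS6 56)) + (g (tS6 61) + g (tS6 5) + g (tS6 16) + g (tS6 40) - g (tS6 21) - g (tS6 45) - g (tS6 56)) + (g (tS6 61) + g (tS6 5) + g (tS6 24) + g (tS6 32) - g (tS6 29) - g (tS6 37) - g (tS6 56)) + (g (tS6 62) + g (tS6 6) + g (tS6 8) + g (tS6 48) - g (tS6 14) - g (tS6 54) - g (tS6 56)) + (g (tS6 62) + g (tS6 6) + g (tS6 16) + g (tS6 40) - g (tS6 22) - g (tS6 46) - g (tS6 56)) + (g (tS6 62) + g (tS6 6) + g (tS6 24)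 + g (tS6 32) - g (tS6 30) - g (tS6 38) - g (tS6 56)) := by
  have mp := fun b b' h => map_pm ![3, 4, 5, 0, 1, 2] ![3, 4, 5, 0, 1, 2] (by decide) (by decide) b b' h
  have h := h0 ⟨![3, 4, 5, 0, 1, 2], ![3, 4, 5, 0, 1, 2], by decide, by decide⟩
  unfold Gm1 at h
  simp only [mp 1 8 (by decide), mp 2 16 (by decide), mp 3 24 (by decide), mp 4 32 (by decide), mp 5 40 (by decide), mp 6 48 (by decide), mp 7 56 (by decide), mp 24 3 (by decide), mp 25 11 (by decide), mp 26 19 (by decide), mp 27 27 (by decide), mp 28 35 (by decide), mp 29 43 (by decide), mp 30 51 (by decide), mp 31 59 (by decide), mp 40 5 (by decide), mp 41 13 (by decide), mp 42 21 (by decide), mp 43 29 (by decide), mp 44 37 (by decide), mp 45 45 (by decide), mp 46 53 (by decide), mp 47 61 (by decide), mp 48 6 (by decide), mp 49 14 (by decide), mp 50 22 (by decide), mp 51 30 (by decide), mp 52 38 (by decide), mp 53 46 (by decide),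 mp 54 54 (by decide), mp 55 62 (by decide)] at h
  linarith only [h]

theorem m6A_67 {g : Finset (Fin 6) → ℝ}
    (h0 : ∀ τ : Equiv.Perm (Fin 6), Gm1 g ≤ Gm2 (fun S => g (S.map τ.toEmbedding))) :
    (g (tS6 31) + g (tS6 1) + g (tS6 6) + g (tS6 24) - g (tS6 7) - g (tS6 25) - g (tS6 30)) + (g (tS6 47) + g (tS6 1) + g (tS6 6) + g (tS6 40) - g (tS6 7) - g (tS6 41) - g (tS6 46)) + (g (tS6 55) + g (tS6 1) + g (tS6 6) + g (tS6 48) - g (tS6 7) - g (tS6 49) - g (tS6 54)) + (g (tS6 31) + g (tS6 2) + g (tS6 5) + g (tS6 24) - g (tS6 7) - g (tS6 26) - g (tS6 29)) + (g (tS6 47) + g (tS6 2) + g (tS6 5) + g (tS6 40) - g (tS6 7) - g (tS6 42) - g (tS6 45)) + (g (tS6 55) + g (tS6 2) + g (tS6 5) + g (tS6 48) - g (tS6 7) - g (tS6 50) - g (tS6 53)) + (g (tS6 31) + g (tS6 3) + g (tS6 4) + g (tS6 24) - g (tS6 7) - g (tS6 27) - g (tS6 28)) + (g (tS6 47) + g (tS6 3) + g (tS6 4) + g (tS6 40) - g (tS6 7) - g (tS6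 43) - g (tS6 44)) + (g (tS6 55) + g (tS6 3) + g (tS6 4) + g (tS6 48) - g (tS6 7) - g (tS6 51) - g (tS6 52)) ≤
      (g (tS6 61) + g (tS6 1) + g (tS6 12) + g (tS6 48) - g (tS6 13) - g (tS6 49) - g (tS6 60)) + (g (tS6 61) + g (tS6 1) + g (tS6 20) + g (tS6 40) - g (tS6 21) - g (tS6 41) - g (tS6 60)) + (g (tS6 61) + g (tS6 1) + g (tS6 24) + g (tS6 36) - g (tS6 25) - g (tS6 37) - g (tS6 60)) + (g (tS6 62) + g (tS6 2) + g (tS6 12) + g (tS6 48) - g (tS6 14) - g (tS6 50) - g (tS6 60)) + (g (tS6 62) + g (tS6 2) + g (tS6 20) + g (tS6 40) - g (tS6 22) - g (tS6 42) - g (tS6 60)) + (g (tS6 62) + g (tS6 2) + g (tS6 24) + g (tS6 36) - g (tS6 26) - g (tS6 38) - g (tS6 60)) + (g (tS6 63) + g (tS6 3) + g (tS6 12) + g (tS6 48) - g (tS6 15) - g (tS6 51) - g (tS6 60)) + (g (tS6 63) + g (tS6 3) + g (tS6 20) + g (tS6 40) - g (tS6 23) - g (tS6 43) - g (tS6 60)) + (g (tS6 63) + g (tS6 3) + g (tS6 24) + g (tS6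 36) - g (tS6 27) - g (tS6 39) - g (tS6 60)) := by
  have mp := fun b b' h => map_pm ![0, 1, 2, 3, 4, 5] ![0, 1, 2, 3, 4, 5] (by decide) (by decide) b b' h
  have h := h0 ⟨![0, 1, 2, 3, 4, 5], ![0, 1, 2, 3, 4, 5], by decide, by decide⟩
  unfold Gm1 Gm2 at h
  simp only [mp 1 1 (by decide), mp 2 2 (by decide), mp 3 3 (by decide), mp 12 12 (by decide), mp 13 13 (by decide), mp 14 14 (by decide), mp 15 15 (by decide), mp 20 20 (by decide), mp 21 21 (by decide), mp 22 22 (by decide), mp 23 23 (by decide), mp 24 24 (by decide), mp 25 25 (by decide), mp 26 26 (by decide), mp 27 27 (by decide), mp 36 36 (by decide), mp 37 37 (by decide), mp 38 38 (by decide), mp 39 39 (by decide), mp 40 40 (by decide), mp 41 41 (by decide), mp 42 42 (by decide), mp 43 43 (by decide), mp 48 48 (by decide), mp 49 49 (by decide), mp 50 50 (by decide), mp 51 51 (by decide), mp 60 60 (by decide), mp 61 61 (by decide),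 mp 62 62 (by decide), mp 63 63 (by decide)] at h
  linarith only [h]

theorem m6A_69 {g : Finset (Fin 6) → ℝ}
    (h0 : ∀ τ : Equiv.Perm (Fin 6), Gm1 g ≤ Gm2 (fun S => g (S.map τ.toEmbedding))) :
    (g (tS6 31) + g (tS6 1) + g (tS6 6) + g (tS6 24) - g (tS6 7) - g (tS6 25) - g (tS6 30)) + (g (tS6 47) + g (tS6 1) + g (tS6 6) + g (tS6 40) - g (tS6 7) - g (tS6 41) - g (tS6 46)) + (g (tS6 55) + g (tS6 1) + g (tS6 6) + g (tS6 48) - g (tS6 7) - g (tS6 49) - g (tS6 54)) + (g (tS6 31) + g (tS6 2) + g (tS6 5) + g (tS6 24) - g (tS6 7) - g (tS6 26) - g (tS6 29)) + (g (tS6 47) + g (tS6 2) + g (tS6 5) + g (tS6 40) - g (tS6 7) - g (tS6 42) - g (tS6 45)) + (g (tS6 55) + g (tS6 2) + g (tS6 5) + g (tS6 48) - g (tS6 7) - g (tS6 50) - g (tS6 53)) + (g (tS6 31) + g (tS6 3) + g (tS6 4) + g (tS6 24) - g (tS6 7) - g (tS6 27) - g (tS6 28)) + (g (tS6 47) + g (tS6 3) + g (tS6 4) + g (tS6 40) - g (tS6 7) - g (tS6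 43) - g (tS6 44)) + (g (tS6 55) + g (tS6 3) + g (tS6 4) + g (tS6 48) - g (tS6 7) - g (tS6 51) - g (tS6 52)) ≤
      (g (tS6 59) + g (tS6 1) + g (tS6 10) + g (tS6 48) - g (tS6 11) - g (tS6 49) - g (tS6 58)) + (g (tS6 59) + g (tS6 1) + g (tS6 18) + g (tS6 40) - g (tS6 19) - g (tS6 41) - g (tS6 58)) + (g (tS6 59) + g (tS6 1) + g (tS6 24) + g (tS6 34) - g (tS6 25) - g (tS6 35) - g (tS6 58)) + (g (tS6 62) + g (tS6 4) + g (tS6 10) + g (tS6 48) - g (tS6 14) - g (tS6 52) - g (tS6 58)) + (g (tS6 62) + g (tS6 4) + g (tS6 18) + g (tS6 40) - g (tS6 22) - g (tS6 44) - g (tS6 58)) + (g (tS6 62) + g (tS6 4) + g (tS6 24) + g (tS6 34) - g (tS6 28) - g (tS6 38) - g (tS6 58)) + (g (tS6 63) + g (tS6 5) + g (tS6 10) + g (tS6 48) - g (tS6 15) - g (tS6 53) - g (tS6 58)) + (g (tS6 63) + g (tS6 5) + g (tS6 18) + g (tS6 40) - g (tS6 23) - g (tS6 45) - g (tS6 58)) + (g (tS6 63) + g (tS6 5) + g (tS6 24) + g (tS6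 34) - g (tS6 29) - g (tS6 39) - g (tS6 58)) := by
  have mp := fun b b' h => map_pm ![0, 2, 1, 3, 4, 5] ![0, 2, 1, 3, 4, 5] (by decide) (by decide) b b' h
  have h := h0 ⟨![0, 2, 1, 3, 4, 5], ![0, 2, 1, 3, 4, 5], by decide, by decide⟩
  unfold Gm1 Gm2 at h
  simp only [mp 1 1 (by decide), mp 2 4 (by decide), mp 3 5 (by decide), mp 12 10 (by decide), mp 13 11 (by decide), mp 14 14 (by decide), mp 15 15 (by decide), mp 20 18 (by decide), mp 21 19 (by decide), mp 22 22 (by decide), mp 23 23 (by decide), mp 24 24 (by decide), mp 25 25 (by decide), mp 26 28 (by decide), mp 27 29 (by decide), mp 36 34 (by decide), mp 37 35 (by decide), mp 38 38 (by decide), mp 39 39 (by decide), mp 40 40 (by decide), mp 41 41 (by decide), mp 42 44 (by decide), mp 43 45 (by decide), mp 48 48 (by decide), mp 49 49 (by decide), mp 50 52 (by decide), mp 51 53 (by decide), mp 60 58 (by decide), mp 61 59 (by decide),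 mp 62 62 (by decide), mp 63 63 (by decide)] at h
  linarith only [h]

theorem m6A_70 {g : Finset (Fin 6) → ℝ}
    (h0 : ∀ τ : Equiv.Perm (Fin 6), Gm1 g ≤ Gm2 (fun S => g (S.map τ.toEmbedding))) :
    (g (tS6 31) + g (tS6 1) + g (tS6 6) + g (tS6 24) - g (tS6 7) - g (tS6 25) - g (tS6 30)) + (g (tS6 47) + g (tS6 1) + g (tS6 6) + g (tS6 40) - g (tS6 7) - g (tS6 41) - g (tS6 46)) + (g (tS6 55) + g (tS6 1) + g (tS6 6) + g (tS6 48) - g (tS6 7) - g (tS6 49) - g (tS6 54)) + (g (tS6 31) + g (tS6 2) + g (tS6 5) + g (tS6 24) - g (tS6 7) - g (tS6 26) - g (tS6 29)) + (g (tS6 47) + g (tS6 2) + g (tS6 5) + g (tS6 40) - g (tS6 7) - g (tS6 42) - g (tS6 45)) + (g (tS6 55) + g (tS6 2) + g (tS6 5) + g (tS6 48) - g (tS6 7) - g (tS6 50) - g (tS6 53)) + (g (tS6 31) + g (tS6 3) + g (tS6 4) + g (tS6 24) - g (tS6 7) - g (tS6 27) - g (tS6 28)) + (g (tS6 47) + g (tS6 3) + g (tS6 4) + g (tS6 40) - g (tS6 7) - g (tS6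 43) - g (tS6 44)) + (g (tS6 55) + g (tS6 3) + g (tS6 4) + g (tS6 48) - g (tS6 7) - g (tS6 51) - g (tS6 52)) ≤
      (g (tS6 59) + g (tS6 2) + g (tS6 9) + g (tS6 48) - g (tS6 11) - g (tS6 50) - g (tS6 57)) + (g (tS6 59) + g (tS6 2) + g (tS6 17) + g (tS6 40) - g (tS6 19) - g (tS6 42) - g (tS6 57)) + (g (tS6 59) + g (tS6 2) + g (tS6 24) + g (tS6 33) - g (tS6 26) - g (tS6 35) - g (tS6 57)) + (g (tS6 61) + g (tS6 4) + g (tS6 9) + g (tS6 48) - g (tS6 13) - g (tS6 52) - g (tS6 57)) + (g (tS6 61) + g (tS6 4) + g (tS6 17) + g (tS6 40) - g (tS6 21) - g (tS6 44) - g (tS6 57)) + (g (tS6 61) + g (tS6 4) + g (tS6 24) + g (tS6 33) - g (tS6 28) - g (tS6 37) - g (tS6 57)) + (g (tS6 63) + g (tS6 6) + g (tS6 9) + g (tS6 48) - g (tS6 15) - g (tS6 54) - g (tS6 57)) + (g (tS6 63) + g (tS6 6) + g (tS6 17) + g (tS6 40) - g (tS6 23) - g (tS6 46) - g (tS6 57)) + (g (tS6 63) + g (tS6 6) + g (tS6 24) + g (tS6 33)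 - g (tS6 30) - g (tS6 39) - g (tS6 57)) := by
  have mp := fun b b' h => map_pm ![1, 2, 0, 3, 4, 5] ![2, 0, 1, 3, 4, 5] (by decide) (by decide) b b' h
  have h := h0 ⟨![1, 2, 0, 3, 4, 5], ![2, 0, 1, 3, 4, 5], by decide, by decide⟩
  unfold Gm1 Gm2 at h
  simp only [mp 1 2 (by decide), mp 2 4 (by decide), mp 3 6 (by decide), mp 12 9 (by decide), mp 13 11 (by decide), mp 14 13 (by decide), mp 15 15 (by decide), mp 20 17 (by decide), mp 21 19 (by decide), mp 22 21 (by decide), mp 23 23 (by decide), mp 24 24 (by decide), mp 25 26 (by decide), mp 26 28 (by decide), mp 27 30 (by decide), mp 36 33 (by decide), mp 37 35 (by decide), mp 38 37 (by decide), mp 39 39 (by decide), mp 40 40 (by decide), mp 41 42 (by decide), mp 42 44 (by decide), mp 43 46 (by decide), mp 48 48 (by decide), mp 49 50 (by decide), mp 50 52 (by decide), mp 51 54 (by decide), mp 60 57 (by decide), mp 61 59 (by decide),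 mp 62 61 (by decide), mp 63 63 (by decide)] at h
  linarith only [h]

theorem m6A_73 {g : Finset (Fin 6) → ℝ}
    (h0 : ∀ τ : Equiv.Perm (Fin 6), Gm1 g ≤ Gm2 (fun S => g (S.map τ.toEmbedding))) :
    (g (tS6 31) + g (tS6 1) + g (tS6 6) + g (tS6 24) - g (tS6 7) - g (tS6 25) - g (tS6 30)) + (g (tS6 47) + g (tS6 1) + g (tS6 6) + g (tS6 40) - g (tS6 7) - g (tS6 41) - g (tS6 46)) + (g (tS6 55) + g (tS6 1) + g (tS6 6) + g (tS6 48) - g (tS6 7) - g (tS6 49) - g (tS6 54)) + (g (tS6 31) + g (tS6 2) + g (tS6 5) + g (tS6 24) - g (tS6 7) - g (tS6 26) - g (tS6 29)) + (g (tS6 47) + g (tS6 2) + g (tS6 5) + g (tS6 40) - g (tS6 7) - g (tS6 42) - g (tS6 45)) + (g (tS6 55) + g (tS6 2) + g (tS6 5) + g (tS6 48) - g (tS6 7) - g (tS6 50) - g (tS6 53)) + (g (tS6 31) + g (tS6 3) + g (tS6 4) + g (tS6 24) - g (tS6 7) - g (tS6 27) - g (tS6 28)) + (g (tS6 47) + g (tS6 3) + g (tS6 4) + g (tS6 40) - g (tS6 7) - g (tS6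 43) - g (tS6 44)) + (g (tS6 55) + g (tS6 3) + g (tS6 4) + g (tS6 48) - g (tS6 7) - g (tS6 51) - g (tS6 52)) ≤
      (g (tS6 55) + g (tS6 1) + g (tS6 6) + g (tS6 48) - g (tS6 7) - g (tS6 49) - g (tS6 54)) + (g (tS6 55) + g (tS6 1) + g (tS6 18) + g (tS6 36) - g (tS6 19) - g (tS6 37) - g (tS6 54)) + (g (tS6 55) + g (tS6 1) + g (tS6 20) + g (tS6 34) - g (tS6 21) - g (tS6 35) - g (tS6 54)) + (g (tS6 62) + g (tS6 6) + g (tS6 8) + g (tS6 48) - g (tS6 14) - g (tS6 54) - g (tS6 56)) + (g (tS6 63) + g (tS6 6) + g (tS6 9) + g (tS6 48) - g (tS6 15) - g (tS6 54) - g (tS6 57)) + (g (tS6 62) + g (tS6 8) + g (tS6 18) + g (tS6 36) - g (tS6 26) - g (tS6 44) - g (tS6 54)) + (g (tS6 62) + g (tS6 8) + g (tS6 20) + g (tS6 34) - g (tS6 28) - g (tS6 42) - g (tS6 54)) + (g (tS6 63) + g (tS6 9) + g (tS6 18) + g (tS6 36) - g (tS6 27) - g (tS6 45) - g (tS6 54)) + (g (tS6 63) + g (tS6 9) + g (tS6 20) + g (tS6 34)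 - g (tS6 29) - g (tS6 43) - g (tS6 54)) := by
  have mp := fun b b' h => map_pm ![0, 3, 1, 2, 4, 5] ![0, 2, 3, 1, 4, 5] (by decide) (by decide) b b' h
  have h := h0 ⟨![0, 3, 1, 2, 4, 5], ![0, 2, 3, 1, 4, 5], by decide, by decide⟩
  unfold Gm1 Gm2 at h
  simp only [mp 1 1 (by decide), mp 2 8 (by decide), mp 3 9 (by decide), mp 12 6 (by decide), mp 13 7 (by decide), mp 14 14 (by decide), mp 15 15 (by decide), mp 20 18 (by decide), mp 21 19 (by decide), mp 22 26 (by decide), mp 23 27 (by decide), mp 24 20 (by decide), mp 25 21 (by decide), mp 26 28 (by decide), mp 27 29 (by decide), mp 36 34 (by decide), mp 37 35 (by decide), mp 38 42 (by decide), mp 39 43 (by decide), mp 40 36 (by decide), mp 41 37 (by decide), mp 42 44 (by decide), mp 43 45 (by decide), mp 48 48 (by decide), mp 49 49 (by decide), mp 50 56 (by decide), mp 51 57 (by decide), mp 60 54 (by decide), mp 61 55 (by decide), mp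 62 62 (by decide), mp 63 63 (by decide)] at h
  linarith only [h]

theorem m6A_74 {g : Finset (Fin 6) → ℝ}
    (h0 : ∀ τ : Equiv.Perm (Fin 6), Gm1 g ≤ Gm2 (fun S => g (S.map τ.toEmbedding))) :
    (g (tS6 31) + g (tS6 1) + g (tS6 6) + g (tS6 24) - g (tS6 7) - g (tS6 25) - g (tS6 30)) + (g (tS6 47) + g (tS6 1) + g (tS6 6) + g (tS6 40) - g (tS6 7) - g (tS6 41) - g (tS6 46)) + (g (tS6 55) + g (tS6 1) + g (tS6 6) + g (tS6 48) - g (tS6 7) - g (tS6 49) - g (tS6 54)) + (g (tS6 31) + g (tS6 2) + g (tS6 5) + g (tS6 24) - g (tS6 7) - g (tS6 26) - g (tS6 29)) + (g (tS6 47) + g (tS6 2) + g (tS6 5) + g (tS6 40) - g (tS6 7) - g (tS6 42) - g (tS6 45)) + (g (tS6 55) + g (tS6 2) + g (tS6 5) + g (tS6 48) - g (tS6 7) - g (tS6 50) - g (tS6 53)) + (g (tS6 31) + g (tS6 3) + g (tS6 4) + g (tS6 24) - g (tS6 7) - g (tS6 27) - g (tS6 28)) + (g (tS6 47) + g (tS6 3) + g (tS6 4) + g (tS6 40) - g (tS6 7) - g (tS6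 43) - g (tS6 44)) + (g (tS6 55) + g (tS6 3) + g (tS6 4) + g (tS6 48) - g (tS6 7) - g (tS6 51) - g (tS6 52)) ≤
      (g (tS6 55) + g (tS6 2) + g (tS6 5) + g (tS6 48) - g (tS6 7) - g (tS6 50) - g (tS6 53)) + (g (tS6 55) + g (tS6 2) + g (tS6 17) + g (tS6 36) - g (tS6 19) - g (tS6 38) - g (tS6 53)) + (g (tS6 55) + g (tS6 2) + g (tS6 20) + g (tS6 33) - g (tS6 22) - g (tS6 35) - g (tS6 53)) + (g (tS6 61) + g (tS6 5) + g (tS6 8) + g (tS6 48) - g (tS6 13) - g (tS6 53) - g (tS6 56)) + (g (tS6 63) + g (tS6 5) + g (tS6 10) + g (tS6 48) - g (tS6 15) - g (tS6 53) - g (tS6 58)) + (g (tS6 61) + g (tS6 8) + g (tS6 17) + g (tS6 36) - g (tS6 25) - g (tS6 44) - g (tS6 53)) + (g (tS6 61) + g (tS6 8) + g (tS6 20) + g (tS6 33) - g (tS6 28) - g (tS6 41) - g (tS6 53)) + (g (tS6 63) + g (tS6 10) + g (tS6 17) + g (tS6 36) - g (tS6 27) - g (tS6 46) - g (tS6 53)) + (g (tS6 63) + g (tS6 10) + g (tS6 20) + g (tS6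 33) - g (tS6 30) - g (tS6 43) - g (tS6 53)) := by
  have mp := fun b b' h => map_pm ![1, 3, 0, 2, 4, 5] ![2, 0, 3, 1, 4, 5] (by decide) (by decide) b b' h
  have h := h0 ⟨![1, 3, 0, 2, 4, 5], ![2, 0, 3, 1, 4, 5], by decide, by decide⟩
  unfold Gm1 Gm2 at h
  simp only [mp 1 2 (by decide), mp 2 8 (by decide), mp 3 10 (by decide), mp 12 5 (by decide), mp 13 7 (by decide), mp 14 13 (by decide), mp 15 15 (by decide), mp 20 17 (by decide), mp 21 19 (by decide), mp 22 25 (by decide), mp 23 27 (by decide), mp 24 20 (by decide), mp 25 22 (by decide), mp 26 28 (by decide), mp 27 30 (by decide), mp 36 33 (by decide), mp 37 35 (by decide), mp 38 41 (by decide), mp 39 43 (by decide), mp 40 36 (by decide), mp 41 38 (by decide), mp 42 44 (by decide), mp 43 46 (by decide), mp 48 48 (by decide), mp 49 50 (by decide), mp 50 56 (by decide), mp 51 58 (by decide), mp 60 53 (by decide), mp 61 55 (by decide),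 mp 62 61 (by decide), mp 63 63 (by decide)] at h
  linarith only [h]

theorem m6A_76 {g : Finset (Fin 6) → ℝ}
    (h0 : ∀ τ : Equiv.Perm (Fin 6), Gm1 g ≤ Gm2 (fun S => g (S.map τ.toEmbedding))) :
    (g (tS6 31) + g (tS6 1) + g (tS6 6) + g (tS6 24) - g (tS6 7) - g (tS6 25) - g (tS6 30)) + (g (tS6 47) + g (tS6 1) + g (tS6 6) + g (tS6 40) - g (tS6 7) - g (tS6 41) - g (tS6 46)) + (g (tS6 55) + g (tS6 1) + g (tS6 6) + g (tS6 48) - g (tS6 7) - g (tS6 49) - g (tS6 54)) + (g (tS6 31) + g (tS6 2) + g (tS6 5) + g (tS6 24) - g (tS6 7) - g (tS6 26) - g (tS6 29)) + (g (tS6 47) + g (tS6 2) + g (tS6 5) + g (tS6 40) - g (tS6 7) - g (tS6 42) - g (tS6 45)) + (g (tS6 55) + g (tS6 2) + g (tS6 5) + g (tS6 48) - g (tS6 7) - g (tS6 50) - g (tS6 53)) + (g (tS6 31) + g (tS6 3) + g (tS6 4) + g (tS6 24) - g (tS6 7) - g (tS6 27) - g (tS6 28)) + (g (tS6 47) + g (tS6 3) + g (tS6 4) + g (tS6 40) - g (tS6 7) - g (tS6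 43) - g (tS6 44)) + (g (tS6 55) + g (tS6 3) + g (tS6 4) + g (tS6 48) - g (tS6 7) - g (tS6 51) - g (tS6 52)) ≤
      (g (tS6 55) + g (tS6 3) + g (tS6 4) + g (tS6 48) - g (tS6 7) - g (tS6 51) - g (tS6 52)) + (g (tS6 59) + g (tS6 3) + g (tS6 8) + g (tS6 48) - g (tS6 11) - g (tS6 51) - g (tS6 56)) + (g (tS6 63) + g (tS6 3) + g (tS6 12) + g (tS6 48) - g (tS6 15) - g (tS6 51) - g (tS6 60)) + (g (tS6 55) + g (tS6 4) + g (tS6 17) + g (tS6 34) - g (tS6 21) - g (tS6 38) - g (tS6 51)) + (g (tS6 55) + g (tS6 4) + g (tS6 18) + g (tS6 33) - g (tS6 22) - g (tS6 37) - g (tS6 51)) + (g (tS6 59) + g (tS6 8) + g (tS6 17) + g (tS6 34) - g (tS6 25) - g (tS6 42) - g (tS6 51)) + (g (tS6 59) + g (tS6 8) + g (tS6 18) + g (tS6 33) - g (tS6 26) - g (tS6 41) - g (tS6 51)) + (g (tS6 63) + g (tS6 12) + g (tS6 17) + g (tS6 34) - g (tS6 29) - g (tS6 46) - g (tS6 51)) + (g (tS6 63) + g (tS6 12) + g (tS6 18) + g (tS6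 33) - g (tS6 30) - g (tS6 45) - g (tS6 51)) := by
  have mp := fun b b' h => map_pm ![2, 3, 0, 1, 4, 5] ![2, 3, 0, 1, 4, 5] (by decide) (by decide) b b' h
  have h := h0 ⟨![2, 3, 0, 1, 4, 5], ![2, 3, 0, 1, 4, 5], by decide, by decide⟩
  unfold Gm1 Gm2 at h
  simp only [mp 1 4 (by decide), mp 2 8 (by decide), mp 3 12 (by decide), mp 12 3 (by decide), mp 13 7 (by decide), mp 14 11 (by decide), mp 15 15 (by decide), mp 20 17 (by decide), mp 21 21 (by decide), mp 22 25 (by decide), mp 23 29 (by decide), mp 24 18 (by decide), mp 25 22 (by decide), mp 26 26 (by decide), mp 27 30 (by decide), mp 36 33 (by decide), mp 37 37 (by decide), mp 38 41 (by decide), mp 39 45 (by decide), mp 40 34 (by decide), mp 41 38 (by decide), mp 42 42 (by decide), mp 43 46 (by decide), mp 48 48 (by decide), mp 49 52 (by decide), mp 50 56 (by decide), mp 51 60 (by decide), mp 60 51 (by decide), mp 61 55 (by decide),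 mp 62 59 (by decide), mp 63 63 (by decide)] at h
  linarith only [h]

theorem m6A_81 {g : Finset (Fin 6) → ℝ}
    (h0 : ∀ τ : Equiv.Perm (Fin 6), Gm1 g ≤ Gm2 (fun S => g (S.map τ.toEmbedding))) :
    (g (tS6 31) + g (tS6 1) + g (tS6 6) + g (tS6 24) - g (tS6 7) - g (tS6 25) - g (tS6 30)) + (g (tS6 47) + g (tS6 1) + g (tS6 6) + g (tS6 40) - g (tS6 7) - g (tS6 41) - g (tS6 46)) + (g (tS6 55) + g (tS6 1) + g (tS6 6) + g (tS6 48) - g (tS6 7) - g (tS6 49) - g (tS6 54)) + (g (tS6 31) + g (tS6 2) + g (tS6 5) + g (tS6 24) - g (tS6 7) - g (tS6 26) - g (tS6 29)) + (g (tS6 47) + g (tS6 2) + g (tS6 5) + g (tS6 40) - g (tS6 7) - g (tS6 42) - g (tS6 45)) + (g (tS6 55) + g (tS6 2) + g (tS6 5) + g (tS6 48) - g (tS6 7) - g (tS6 50) - g (tS6 53)) + (g (tS6 31) + g (tS6 3) + g (tS6 4) + g (tS6 24) - g (tS6 7) - g (tS6 27) - g (tS6 28)) + (g (tS6 47) + g (tS6 3) + g (tS6 4) + g (tS6 40) - g (tS6 7) - g (tS6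 43) - g (tS6 44)) + (g (tS6 55) + g (tS6 3) + g (tS6 4) + g (tS6 48) - g (tS6 7) - g (tS6 51) - g (tS6 52)) ≤
      (g (tS6 47) + g (tS6 1) + g (tS6 6) + g (tS6 40) - g (tS6 7) - g (tS6 41) - g (tS6 46)) + (g (tS6 47) + g (tS6 1) + g (tS6 10) + g (tS6 36) - g (tS6 11) - g (tS6 37) - g (tS6 46)) + (g (tS6 47) + g (tS6 1) + g (tS6 12) + g (tS6 34) - g (tS6 13) - g (tS6 35) - g (tS6 46)) + (g (tS6 62) + g (tS6 6) + g (tS6 16) + g (tS6 40) - g (tS6 22) - g (tS6 46) - g (tS6 56)) + (g (tS6 63) + g (tS6 6) + g (tS6 17) + g (tS6 40) - g (tS6 23) - g (tS6 46) - g (tS6 57)) + (g (tS6 62) + g (tS6 10) + g (tS6 16) + g (tS6 36) - g (tS6 26) - g (tS6 46) - g (tS6 52)) + (g (tS6 63) + g (tS6 10) + g (tS6 17) + g (tS6 36) - g (tS6 27) - g (tS6 46) - g (tS6 53)) + (g (tS6 62) + g (tS6 12) + g (tS6 16) + g (tS6 34) - g (tS6 28) - g (tS6 46) - g (tS6 50)) + (g (tS6 63) + g (tS6 12) + g (tS6 17) + g (tS6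 34) - g (tS6 29) - g (tS6 46) - g (tS6 51)) := by
  have mp := fun b b' h => map_pm ![0, 4, 1, 2, 3, 5] ![0, 2, 3, 4, 1, 5] (by decide) (by decide) b b' h
  have h := h0 ⟨![0, 4, 1, 2, 3, 5], ![0, 2, 3, 4, 1, 5], by decide, by decide⟩
  unfold Gm1 Gm2 at h
  simp only [mp 1 1 (by decide), mp 2 16 (by decide), mp 3 17 (by decide), mp 12 6 (by decide), mp 13 7 (by decide), mp 14 22 (by decide), mp 15 23 (by decide), mp 20 10 (by decide), mp 21 11 (by decide), mp 22 26 (by decide), mp 23 27 (by decide), mp 24 12 (by decide), mp 25 13 (by decide), mp 26 28 (by decide), mp 27 29 (by decide), mp 36 34 (by decide), mp 37 35 (by decide), mp 38 50 (by decide), mp 39 51 (by decide), mp 40 36 (by decide), mp 41 37 (by decide), mp 42 52 (by decide), mp 43 53 (by decide), mp 48 40 (by decide), mp 49 41 (by decide), mp 50 56 (by decide), mp 51 57 (by decide), mp 60 46 (by decide), mp 61 47 (by decide),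 mp 62 62 (by decide), mp 63 63 (by decide)] at h
  linarith only [h]

theorem m6A_82 {g : Finset (Fin 6) → ℝ}
    (h0 : ∀ τ : Equiv.Perm (Fin 6), Gm1 g ≤ Gm2 (fun S => g (S.map τ.toEmbedding))) :
    (g (tS6 31) + g (tS6 1) + g (tS6 6) + g (tS6 24) - g (tS6 7) - g (tS6 25) - g (tS6 30)) + (g (tS6 47) + g (tS6 1) + g (tS6 6) + g (tS6 40) - g (tS6 7) - g (tS6 41) - g (tS6 46)) + (g (tS6 55) + g (tS6 1) + g (tS6 6) + g (tS6 48) - g (tS6 7) - g (tS6 49) - g (tS6 54)) + (g (tS6 31) + g (tS6 2) + g (tS6 5) + g (tS6 24) - g (tS6 7) - g (tS6 26) - g (tS6 29)) + (g (tS6 47) + g (tS6 2) + g (tS6 5) + g (tS6 40) - g (tS6 7) - g (tS6 42) - g (tS6 45)) + (g (tS6 55) + g (tS6 2) + g (tS6 5) + g (tS6 48) - g (tS6 7) - g (tS6 50) - g (tS6 53)) + (g (tS6 31) + g (tS6 3) + g (tS6 4) + g (tS6 24) - g (tS6 7) - g (tS6 27) - g (tS6 28)) + (g (tS6 47) + g (tS6 3) + g (tS6 4) + g (tS6 40) - g (tS6 7) - g (tS6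 43) - g (tS6 44)) + (g (tS6 55) + g (tS6 3) + g (tS6 4) + g (tS6 48) - g (tS6 7) - g (tS6 51) - g (tS6 52)) ≤
      (g (tS6 47) + g (tS6 2) + g (tS6 5) + g (tS6 40) - g (tS6 7) - g (tS6 42) - g (tS6 45)) + (g (tS6 47) + g (tS6 2) + g (tS6 9) + g (tS6 36) - g (tS6 11) - g (tS6 38) - g (tS6 45)) + (g (tS6 47) + g (tS6 2) + g (tS6 12) + g (tS6 33) - g (tS6 14) - g (tS6 35) - g (tS6 45)) + (g (tS6 61) + g (tS6 5) + g (tS6 16) + g (tS6 40) - g (tS6 21) - g (tS6 45) - g (tS6 56)) + (g (tS6 63) + g (tS6 5) + g (tS6 18) + g (tS6 40) - g (tS6 23) - g (tS6 45) - g (tS6 58)) + (g (tS6 61) + g (tS6 9) + g (tS6 16) + g (tS6 36) - g (tS6 25) - g (tS6 45) - g (tS6 52)) + (g (tS6 63) + g (tS6 9) + g (tS6 18) + g (tS6 36) - g (tS6 27) - g (tS6 45) - g (tS6 54)) + (g (tS6 61) + g (tS6 12) + g (tS6 16) + g (tS6 33) - g (tS6 28) - g (tS6 45) - g (tS6 49)) + (g (tS6 63) + g (tS6 12) + g (tS6 18) + g (tS6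 33) - g (tS6 30) - g (tS6 45) - g (tS6 51)) := by
  have mp := fun b b' h => map_pm ![1, 4, 0, 2, 3, 5] ![2, 0, 3, 4, 1, 5] (by decide) (by decide) b b' h
  have h := h0 ⟨![1, 4, 0, 2, 3, 5], ![2, 0, 3, 4, 1, 5], by decide, by decide⟩
  unfold Gm1 Gm2 at h
  simp only [mp 1 2 (by decide), mp 2 16 (by decide), mp 3 18 (by decide), mp 12 5 (by decide), mp 13 7 (by decide), mp 14 21 (by decide), mp 15 23 (by decide), mp 20 9 (by decide), mp 21 11 (by decide), mp 22 25 (by decide), mp 23 27 (by decide), mp 24 12 (by decide), mp 25 14 (by decide), mp 26 28 (by decide), mp 27 30 (by decide), mp 36 33 (by decide), mp 37 35 (by decide), mp 38 49 (by decide), mp 39 51 (by decide), mp 40 36 (by decide), mp 41 38 (by decide), mp 42 52 (by decide), mp 43 54 (by decide), mp 48 40 (by decide), mp 49 42 (by decide), mp 50 56 (by decide), mp 51 58 (by decide), mp 60 45 (by decide), mp 61 47 (by decide),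 mp 62 61 (by decide), mp 63 63 (by decide)] at h
  linarith only [h]

theorem m6A_84 {g : Finset (Fin 6) → ℝ}
    (h0 : ∀ τ : Equiv.Perm (Fin 6), Gm1 g ≤ Gm2 (fun S => g (S.map τ.toEmbedding))) :
    (g (tS6 31) + g (tS6 1) + g (tS6 6) + g (tS6 24) - g (tS6 7) - g (tS6 25) - g (tS6 30)) + (g (tS6 47) + g (tS6 1) + g (tS6 6) + g (tS6 40) - g (tS6 7) - g (tS6 41) - g (tS6 46)) + (g (tS6 55) + g (tS6 1) + g (tS6 6) + g (tS6 48) - g (tS6 7) - g (tS6 49) - g (tS6 54)) + (g (tS6 31) + g (tS6 2) + g (tS6 5) + g (tS6 24) - g (tS6 7) - g (tS6 26) - g (tS6 29)) + (g (tS6 47) + g (tS6 2) + g (tS6 5) + g (tS6 40) - g (tS6 7) - g (tS6 42) - g (tS6 45)) + (g (tS6 55) + g (tS6 2) + g (tS6 5) + g (tS6 48) - g (tS6 7) - g (tS6 50) - g (tS6 53)) + (g (tS6 31) + g (tS6 3) + g (tS6 4) + g (tS6 24) - g (tS6 7) - g (tS6 27) - g (tS6 28)) + (g (tS6 47) + g (tS6 3) + g (tS6 4) + g (tS6 40) - g (tS6 7) - g (tS6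 43) - g (tS6 44)) + (g (tS6 55) + g (tS6 3) + g (tS6 4) + g (tS6 48) - g (tS6 7) - g (tS6 51) - g (tS6 52)) ≤
      (g (tS6 47) + g (tS6 3) + g (tS6 4) + g (tS6 40) - g (tS6 7) - g (tS6 43) - g (tS6 44)) + (g (tS6 59) + g (tS6 3) + g (tS6 16) + g (tS6 40) - g (tS6 19) - g (tS6 43) - g (tS6 56)) + (g (tS6 63) + g (tS6 3) + g (tS6 20) + g (tS6 40) - g (tS6 23) - g (tS6 43) - g (tS6 60)) + (g (tS6 47) + g (tS6 4) + g (tS6 9) + g (tS6 34) - g (tS6 13) - g (tS6 38) - g (tS6 43)) + (g (tS6 47) + g (tS6 4) + g (tS6 10) + g (tS6 33) - g (tS6 14) - g (tS6 37) - g (tS6 43)) + (g (tS6 59) + g (tS6 9) + g (tS6 16) + g (tS6 34) - g (tS6 25) - g (tS6 43) - g (tS6 50)) + (g (tS6 63) + g (tS6 9) + g (tS6 20) + g (tS6 34) - g (tS6 29) - g (tS6 43) - g (tS6 54)) + (g (tS6 59) + g (tS6 10) + g (tS6 16) + g (tS6 33) - g (tS6 26) - g (tS6 43) - g (tS6 49)) + (g (tS6 63) + g (tS6 10) + g (tS6 20) + g (tS6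 33) - g (tS6 30) - g (tS6 43) - g (tS6 53)) := by
  have mp := fun b b' h => map_pm ![2, 4, 0, 1, 3, 5] ![2, 3, 0, 4, 1, 5] (by decide) (by decide) b b' h
  have h := h0 ⟨![2, 4, 0, 1, 3, 5], ![2, 3, 0, 4, 1, 5], by decide, by decide⟩
  unfold Gm1 Gm2 at h
  simp only [mp 1 4 (by decide), mp 2 16 (by decide), mp 3 20 (by decide), mp 12 3 (by decide), mp 13 7 (by decide), mp 14 19 (by decide), mp 15 23 (by decide), mp 20 9 (by decide), mp 21 13 (by decide), mp 22 25 (by decide), mp 23 29 (by decide), mp 24 10 (by decide), mp 25 14 (by decide), mp 26 26 (by decide), mp 27 30 (by decide), mp 36 33 (by decide), mp 37 37 (by decide), mp 38 49 (by decide), mp 39 53 (by decide), mp 40 34 (by decide), mp 41 38 (by decide), mp 42 50 (by decide), mp 43 54 (by decide), mp 48 40 (by decide), mp 49 44 (by decide), mp 50 56 (by decide), mp 51 60 (by decide), mp 60 43 (by decide), mp 61 47 (by decide),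 mp 62 59 (by decide), mp 63 63 (by decide)] at h
  linarith only [h]

theorem m6A_88 {g : Finset (Fin 6) → ℝ}
    (h0 : ∀ τ : Equiv.Perm (Fin 6), Gm1 g ≤ Gm2 (fun S => g (S.map τ.toEmbedding))) :
    (g (tS6 31) + g (tS6 1) + g (tS6 6) + g (tS6 24) - g (tS6 7) - g (tS6 25) - g (tS6 30)) + (g (tS6 47) + g (tS6 1) + g (tS6 6) + g (tS6 40) - g (tS6 7) - g (tS6 41) - g (tS6 46)) + (g (tS6 55) + g (tS6 1) + g (tS6 6) + g (tS6 48) - g (tS6 7) - g (tS6 49) - g (tS6 54)) + (g (tS6 31) + g (tS6 2) + g (tS6 5) + g (tS6 24) - g (tS6 7) - g (tS6 26) - g (tS6 29)) + (g (tS6 47) + g (tS6 2) + g (tS6 5) + g (tS6 40) - g (tS6 7) - g (tS6 42) - g (tS6 45)) + (g (tS6 55) + g (tS6 2) + g (tS6 5) + g (tS6 48) - g (tS6 7) - g (tS6 50) - g (tS6 53)) + (g (tS6 31) + g (tS6 3) + g (tS6 4) + g (tS6 24) - g (tS6 7) - g (tS6 27) - g (tS6 28)) + (g (tS6 47) + g (tS6 3) + g (tS6 4) + g (tS6 40) - g (tS6 7) - g (tS6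 43) - g (tS6 44)) + (g (tS6 55) + g (tS6 3) + g (tS6 4) + g (tS6 48) - g (tS6 7) - g (tS6 51) - g (tS6 52)) ≤
      (g (tS6 47) + g (tS6 3) + g (tS6 8) + g (tS6 36) - g (tS6 11) - g (tS6 39) - g (tS6 44)) + (g (tS6 55) + g (tS6 3) + g (tS6 16) + g (tS6 36) - g (tS6 19) - g (tS6 39) - g (tS6 52)) + (g (tS6 63) + g (tS6 3) + g (tS6 24) + g (tS6 36) - g (tS6 27) - g (tS6 39) - g (tS6 60)) + (g (tS6 47) + g (tS6 5) + g (tS6 8) + g (tS6 34) - g (tS6 13) - g (tS6 39) - g (tS6 42)) + (g (tS6 55) + g (tS6 5) + g (tS6 16) + g (tS6 34) - g (tS6 21) - g (tS6 39) - g (tS6 50)) + (g (tS6 63) + g (tS6 5) + g (tS6 24) + g (tS6 34) - g (tS6 29) - g (tS6 39) - g (tS6 58)) + (g (tS6 47) + g (tS6 6) + g (tS6 8) + g (tS6 33) - g (tS6 14) - g (tS6 39) - g (tS6 41)) + (g (tS6 55) + g (tS6 6) + g (tS6 16) + g (tS6 33) - g (tS6 22) - g (tS6 39) - g (tS6 49)) + (g (tS6 63) + g (tS6 6) + g (tS6 24) + g (tS6 33)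 - g (tS6 30) - g (tS6 39) - g (tS6 57)) := by
  have mp := fun b b' h => map_pm ![3, 4, 0, 1, 2, 5] ![2, 3, 4, 0, 1, 5] (by decide) (by decide) b b' h
  have h := h0 ⟨![3, 4, 0, 1, 2, 5], ![2, 3, 4, 0, 1, 5], by decide, by decide⟩
  unfold Gm1 Gm2 at h
  simp only [mp 1 8 (by decide), mp 2 16 (by decide), mp 3 24 (by decide), mp 12 3 (by decide), mp 13 11 (by decide), mp 14 19 (by decide), mp 15 27 (by decide), mp 20 5 (by decide), mp 21 13 (by decide), mp 22 21 (by decide), mp 23 29 (by decide), mp 24 6 (by decide), mp 25 14 (by decide), mp 26 22 (by decide), mp 27 30 (by decide), mp 36 33 (by decide), mp 37 41 (by decide), mp 38 49 (by decide), mp 39 57 (by decide), mp 40 34 (by decide), mp 41 42 (by decide), mp 42 50 (by decide), mp 43 58 (by decide), mp 48 36 (by decide), mp 49 44 (by decide), mp 50 52 (by decide), mp 51 60 (by decide), mp 60 39 (by decide), mp 61 47 (by decide),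 mp 62 55 (by decide), mp 63 63 (by decide)] at h
  linarith only [h]

theorem m6A_97 {g : Finset (Fin 6) → ℝ}
    (h0 : ∀ τ : Equiv.Perm (Fin 6), Gm1 g ≤ Gm2 (fun S => g (S.map τ.toEmbedding))) :
    (g (tS6 31) + g (tS6 1) + g (tS6 6) + g (tS6 24) - g (tS6 7) - g (tS6 25) - g (tS6 30)) + (g (tS6 47) + g (tS6 1) + g (tS6 6) + g (tS6 40) - g (tS6 7) - g (tS6 41) - g (tS6 46)) + (g (tS6 55) + g (tS6 1) + g (tS6 6) + g (tS6 48) - g (tS6 7) - g (tS6 49) - g (tS6 54)) + (g (tS6 31) + g (tS6 2) + g (tS6 5) + g (tS6 24) - g (tS6 7) - g (tS6 26) - g (tS6 29)) + (g (tS6 47) + g (tS6 2) + g (tS6 5) + g (tS6 40) - g (tS6 7) - g (tS6 42) - g (tS6 45)) + (g (tS6 55) + g (tS6 2) + g (tS6 5) + g (tS6 48) - g (tS6 7) - g (tS6 50) - g (tS6 53)) + (g (tS6 31) + g (tS6 3) + g (tS6 4) + g (tS6 24) - g (tS6 7) - g (tS6 27) - g (tS6 28)) + (g (tS6 47) + g (tS6 3) + g (tS6 4) + g (tS6 40) - g (tS6 7) - g (tS6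 43) - g (tS6 44)) + (g (tS6 55) + g (tS6 3) + g (tS6 4) + g (tS6 48) - g (tS6 7) - g (tS6 51) - g (tS6 52)) ≤
      (g (tS6 31) + g (tS6 1) + g (tS6 6) + g (tS6 24) - g (tS6 7) - g (tS6 25) - g (tS6 30)) + (g (tS6 31) + g (tS6 1) + g (tS6 10) + g (tS6 20) - g (tS6 11) - g (tS6 21) - g (tS6 30)) + (g (tS6 31) + g (tS6 1) + g (tS6 12) + g (tS6 18) - g (tS6 13) - g (tS6 19) - g (tS6 30)) + (g (tS6 62) + g (tS6 6) + g (tS6 24) + g (tS6 32) - g (tS6 30) - g (tS6 38) - g (tS6 56)) + (g (tS6 63) + g (tS6 6) + g (tS6 24) + g (tS6 33) - g (tS6 30) - g (tS6 39) - g (tS6 57)) + (g (tS6 62) + g (tS6 10) + g (tS6 20) + g (tS6 32) - g (tS6 30) - g (tS6 42) - g (tS6 52)) + (g (tS6 63) + g (tS6 10) + g (tS6 20) + g (tS6 33) - g (tS6 30) - g (tS6 43) - g (tS6 53)) + (g (tS6 62) + g (tS6 12) + g (tS6 18) + g (tS6 32) - g (tS6 30) - g (tS6 44) - g (tS6 50)) + (g (tS6 63) + g (tS6 12) + g (tS6 18) + g (tS6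 33) - g (tS6 30) - g (tS6 45) - g (tS6 51)) := by
  have mp := fun b b' h => map_pm ![0, 5, 1, 2, 3, 4] ![0, 2, 3, 4, 5, 1] (by decide) (by decide) b b' h
  have h := h0 ⟨![0, 5, 1, 2, 3, 4], ![0, 2, 3, 4, 5, 1], by decide, by decide⟩
  unfold Gm1 Gm2 at h
  simp only [mp 1 1 (by decide), mp 2 32 (by decide), mp 3 33 (by decide), mp 12 6 (by decide), mp 13 7 (by decide), mp 14 38 (by decide), mp 15 39 (by decide), mp 20 10 (by decide), mp 21 11 (by decide), mp 22 42 (by decide), mp 23 43 (by decide), mp 24 12 (by decide), mp 25 13 (by decide), mp 26 44 (by decide), mp 27 45 (by decide), mp 36 18 (by decide), mp 37 19 (by decide), mp 38 50 (by decide), mp 39 51 (by decide), mp 40 20 (by decide), mp 41 21 (by decide), mp 42 52 (by decide), mp 43 53 (by decide), mp 48 24 (by decide), mp 49 25 (by decide), mp 50 56 (by decide), mp 51 57 (by decide), mp 60 30 (by decide), mp 61 31 (by decide),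 mp 62 62 (by decide), mp 63 63 (by decide)] at h
  linarith only [h]

theorem m6A_98 {g : Finset (Fin 6) → ℝ}
    (h0 : ∀ τ : Equiv.Perm (Fin 6), Gm1 g ≤ Gm2 (fun S => g (S.map τ.toEmbedding))) :
    (g (tS6 31) + g (tS6 1) + g (tS6 6) + g (tS6 24) - g (tS6 7) - g (tS6 25) - g (tS6 30)) + (g (tS6 47) + g (tS6 1) + g (tS6 6) + g (tS6 40) - g (tS6 7) - g (tS6 41) - g (tS6 46)) + (g (tS6 55) + g (tS6 1) + g (tS6 6) + g (tS6 48) - g (tS6 7) - g (tS6 49) - g (tS6 54)) + (g (tS6 31) + g (tS6 2) + g (tS6 5) + g (tS6 24) - g (tS6 7) - g (tS6 26) - g (tS6 29)) + (g (tS6 47) + g (tS6 2) + g (tS6 5) + g (tS6 40) - g (tS6 7) - g (tS6 42) - g (tS6 45)) + (g (tS6 55) + g (tS6 2) + g (tS6 5) + g (tS6 48) - g (tS6 7) - g (tS6 50) - g (tS6 53)) + (g (tS6 31) + g (tS6 3) + g (tS6 4) + g (tS6 24) - g (tS6 7) - g (tS6 27) - g (tS6 28)) + (g (tS6 47) + g (tS6 3) + g (tS6 4) + g (tS6 40) - g (tS6 7) - g (tS6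 43) - g (tS6 44)) + (g (tS6 55) + g (tS6 3) + g (tS6 4) + g (tS6 48) - g (tS6 7) - g (tS6 51) - g (tS6 52)) ≤
      (g (tS6 31) + g (tS6 2) + g (tS6 5) + g (tS6 24) - g (tS6 7) - g (tS6 26) - g (tS6 29)) + (g (tS6 31) + g (tS6 2) + g (tS6 9) + g (tS6 20) - g (tS6 11) - g (tS6 22) - g (tS6 29)) + (g (tS6 31) + g (tS6 2) + g (tS6 12) + g (tS6 17) - g (tS6 14) - g (tS6 19) - g (tS6 29)) + (g (tS6 61) + g (tS6 5) + g (tS6 24) + g (tS6 32) - g (tS6 29) - g (tS6 37) - g (tS6 56)) + (g (tS6 63) + g (tS6 5) + g (tS6 24) + g (tS6 34) - g (tS6 29) - g (tS6 39) - g (tS6 58)) + (g (tS6 61) + g (tS6 9) + g (tS6 20) + g (tS6 32) - g (tS6 29) - g (tS6 41) - g (tS6 52)) + (g (tS6 63) + g (tS6 9) + g (tS6 20) + g (tS6 34) - g (tS6 29) - g (tS6 43) - g (tS6 54)) + (g (tS6 61) + g (tS6 12) + g (tS6 17) + g (tS6 32) - g (tS6 29) - g (tS6 44) - g (tS6 49)) + (g (tS6 63) + g (tS6 12) + g (tS6 17) + g (tS6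 34) - g (tS6 29) - g (tS6 46) - g (tS6 51)) := by
  have mp := fun b b' h => map_pm ![1, 5, 0, 2, 3, 4] ![2, 0, 3, 4, 5, 1] (by decide) (by decide) b b' h
  have h := h0 ⟨![1, 5, 0, 2, 3, 4], ![2, 0, 3, 4, 5, 1], by decide, by decide⟩
  unfold Gm1 Gm2 at h
  simp only [mp 1 2 (by decide), mp 2 32 (by decide), mp 3 34 (by decide), mp 12 5 (by decide), mp 13 7 (by decide), mp 14 37 (by decide), mp 15 39 (by decide), mp 20 9 (by decide), mp 21 11 (by decide), mp 22 41 (by decide), mp 23 43 (by decide), mp 24 12 (by decide), mp 25 14 (by decide), mp 26 44 (by decide), mp 27 46 (by decide), mp 36 17 (by decide), mp 37 19 (by decide), mp 38 49 (by decide), mp 39 51 (by decide), mp 40 20 (by decide), mp 41 22 (by decide), mp 42 52 (by decide), mp 43 54 (by decide), mp 48 24 (by decide), mp 49 26 (by decide), mp 50 56 (by decide), mp 51 58 (by decide), mp 60 29 (by decide), mp 61 31 (by decide),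 mp 62 61 (by decide), mp 63 63 (by decide)] at h
  linarith only [h]

theorem m6A_100 {g : Finset (Fin 6) → ℝ}
    (h0 : ∀ τ : Equiv.Perm (Fin 6), Gm1 g ≤ Gm2 (fun S => g (S.map τ.toEmbedding))) :
    (g (tS6 31) + g (tS6 1) + g (tS6 6) + g (tS6 24) - g (tS6 7) - g (tS6 25) - g (tS6 30)) + (g (tS6 47) + g (tS6 1) + g (tS6 6) + g (tS6 40) - g (tS6 7) - g (tS6 41) - g (tS6 46)) + (g (tS6 55) + g (tS6 1) + g (tS6 6) + g (tS6 48) - g (tS6 7) - g (tS6 49) - g (tS6 54)) + (g (tS6 31) + g (tS6 2) + g (tS6 5) + g (tS6 24) - g (tS6 7) - g (tS6 26) - g (tS6 29)) + (g (tS6 47) + g (tS6 2) + g (tS6 5) + g (tS6 40) - g (tS6 7) - g (tS6 42) - g (tS6 45)) + (g (tS6 55) + g (tS6 2) + g (tS6 5) + g (tS6 48) - g (tS6 7) - g (tS6 50) - g (tS6 53)) + (g (tS6 31) + g (tS6 3) + g (tS6 4) + g (tS6 24) - g (tS6 7) - g (tS6 27) - g (tS6 28)) + (g (tS6 47) + g (tS6 3) + g (tS6 4) + g (tS6 40) - g (tS6 7) - g (tS6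 43) - g (tS6 44)) + (g (tS6 55) + g (tS6 3) + g (tS6 4) + g (tS6 48) - g (tS6 7) - g (tS6 51) - g (tS6 52)) ≤
      (g (tS6 31) + g (tS6 3) + g (tS6 4) + g (tS6 24) - g (tS6 7) - g (tS6 27) - g (tS6 28)) + (g (tS6 59) + g (tS6 3) + g (tS6 24) + g (tS6 32) - g (tS6 27) - g (tS6 35) - g (tS6 56)) + (g (tS6 63) + g (tS6 3) + g (tS6 24) + g (tS6 36) - g (tS6 27) - g (tS6 39) - g (tS6 60)) + (g (tS6 31) + g (tS6 4) + g (tS6 9) + g (tS6 18) - g (tS6 13) - g (tS6 22) - g (tS6 27)) + (g (tS6 31) + g (tS6 4) + g (tS6 10) + g (tS6 17) - g (tS6 14) - g (tS6 21) - g (tS6 27)) + (g (tS6 59) + g (tS6 9) + g (tS6 18) + g (tS6 32) - g (tS6 27) - g (tS6 41) - g (tS6 50)) + (g (tS6 63) + g (tS6 9) + g (tS6 18) + g (tS6 36) - g (tS6 27) - g (tS6 45) - g (tS6 54)) + (g (tS6 59) + g (tS6 10) + g (tS6 17) + g (tS6 32) - g (tS6 27) - g (tS6 42) - g (tS6 49)) + (g (tS6 63) + g (tS6 10) + g (tS6 17) + g (tS6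 36) - g (tS6 27) - g (tS6 46) - g (tS6 53)) := by
  have mp := fun b b' h => map_pm ![2, 5, 0, 1, 3, 4] ![2, 3, 0, 4, 5, 1] (by decide) (by decide) b b' h
  have h := h0 ⟨![2, 5, 0, 1, 3, 4], ![2, 3, 0, 4, 5, 1], by decide, by decide⟩
  unfold Gm1 Gm2 at h
  simp only [mp 1 4 (by decide), mp 2 32 (by decide), mp 3 36 (by decide), mp 12 3 (by decide), mp 13 7 (by decide), mp 14 35 (by decide), mp 15 39 (by decide), mp 20 9 (by decide), mp 21 13 (by decide), mp 22 41 (by decide), mp 23 45 (by decide), mp 24 10 (by decide), mp 25 14 (by decide), mp 26 42 (by decide), mp 27 46 (by decide), mp 36 17 (by decide), mp 37 21 (by decide), mp 38 49 (by decide), mp 39 53 (by decide), mp 40 18 (by decide), mp 41 22 (by decide), mp 42 50 (by decide), mp 43 54 (by decide), mp 48 24 (by decide), mp 49 28 (by decide), mp 50 56 (by decide), mp 51 60 (by decide), mp 60 27 (by decide), mp 61 31 (by decide),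 mp 62 59 (by decide), mp 63 63 (by decide)] at h
  linarith only [h]

theorem m6A_104 {g : Finset (Fin 6) → ℝ}
    (h0 : ∀ τ : Equiv.Perm (Fin 6), Gm1 g ≤ Gm2 (fun S => g (S.map τ.toEmbedding))) :
    (g (tS6 31) + g (tS6 1) + g (tS6 6) + g (tS6 24) - g (tS6 7) - g (tS6 25) - g (tS6 30)) + (g (tS6 47) + g (tS6 1) + g (tS6 6) + g (tS6 40) - g (tS6 7) - g (tS6 41) - g (tS6 46)) + (g (tS6 55) + g (tS6 1) + g (tS6 6) + g (tS6 48) - g (tS6 7) - g (tS6 49) - g (tS6 54)) + (g (tS6 31) + g (tS6 2) + g (tS6 5) + g (tS6 24) - g (tS6 7) - g (tS6 26) - g (tS6 29)) + (g (tS6 47) + g (tS6 2) + g (tS6 5) + g (tS6 40) - g (tS6 7) - g (tS6 42) - g (tS6 45)) + (g (tS6 55) + g (tS6 2) + g (tS6 5) + g (tS6 48) - g (tS6 7) - g (tS6 50) - g (tS6 53)) + (g (tS6 31) + g (tS6 3) + g (tS6 4) + g (tS6 24) - g (tS6 7) - g (tS6 27) - g (tS6 28)) + (g (tS6 47) + g (tS6 3) + g (tS6 4) + g (tS6 40) - g (tS6 7) - g (tS6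 43) - g (tS6 44)) + (g (tS6 55) + g (tS6 3) + g (tS6 4) + g (tS6 48) - g (tS6 7) - g (tS6 51) - g (tS6 52)) ≤
      (g (tS6 31) + g (tS6 3) + g (tS6 8) + g (tS6 20) - g (tS6 11) - g (tS6 23) - g (tS6 28)) + (g (tS6 55) + g (tS6 3) + g (tS6 20) + g (tS6 32) - g (tS6 23) - g (tS6 35) - g (tS6 52)) + (g (tS6 63) + g (tS6 3) + g (tS6 20) + g (tS6 40) - g (tS6 23) - g (tS6 43) - g (tS6 60)) + (g (tS6 31) + g (tS6 5) + g (tS6 8) + g (tS6 18) - g (tS6 13) - g (tS6 23) - g (tS6 26)) + (g (tS6 55) + g (tS6 5) + g (tS6 18) + g (tS6 32) - g (tS6 23) - g (tS6 37) - g (tS6 50)) + (g (tS6 63) + g (tS6 5) + g (tS6 18) + g (tS6 40) - g (tS6 23) - g (tS6 45) - g (tS6 58)) + (g (tS6 31) + g (tS6 6) + g (tS6 8) + g (tS6 17) - g (tS6 14) - g (tS6 23) - g (tS6 25)) + (g (tS6 55) + g (tS6 6) + g (tS6 17) + g (tS6 32) - g (tS6 23) - g (tS6 38) - g (tS6 49)) + (g (tS6 63) + g (tS6 6) + g (tS6 17) + g (tS6 40)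 - g (tS6 23) - g (tS6 46) - g (tS6 57)) := by
  have mp := fun b b' h => map_pm ![3, 5, 0, 1, 2, 4] ![2, 3, 4, 0, 5, 1] (by decide) (by decide) b b' h
  have h := h0 ⟨![3, 5, 0, 1, 2, 4], ![2, 3, 4, 0, 5, 1], by decide, by decide⟩
  unfold Gm1 Gm2 at h
  simp only [mp 1 8 (by decide), mp 2 32 (by decide), mp 3 40 (by decide), mp 12 3 (by decide), mp 13 11 (by decide), mp 14 35 (by decide), mp 15 43 (by decide), mp 20 5 (by decide), mp 21 13 (by decide), mp 22 37 (by decide), mp 23 45 (by decide), mp 24 6 (by decide), mp 25 14 (by decide), mp 26 38 (by decide), mp 27 46 (by decide), mp 36 17 (by decide), mp 37 25 (by decide), mp 38 49 (by decide), mp 39 57 (by decide), mp 40 18 (by decide), mp 41 26 (by decide), mp 42 50 (by decide), mp 43 58 (by decide), mp 48 20 (by decide), mp 49 28 (by decide), mp 50 52 (by decide), mp 51 60 (by decide), mp 60 23 (by decide), mp 61 31 (by decide),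 mp 62 55 (by decide), mp 63 63 (by decide)] at h
  linarith only [h]

theorem m6A_112 {g : Finset (Fin 6) → ℝ}
    (h0 : ∀ τ : Equiv.Perm (Fin 6), Gm1 g ≤ Gm2 (fun S => g (S.map τ.toEmbedding))) :
    (g (tS6 31) + g (tS6 1) + g (tS6 6) + g (tS6 24) - g (tS6 7) - g (tS6 25) - g (tS6 30)) + (g (tS6 47) + g (tS6 1) + g (tS6 6) + g (tS6 40) - g (tS6 7) - g (tS6 41) - g (tS6 46)) + (g (tS6 55) + g (tS6 1) + g (tS6 6) + g (tS6 48) - g (tS6 7) - g (tS6 49) - g (tS6 54)) + (g (tS6 31) + g (tS6 2) + g (tS6 5) + g (tS6 24) - g (tS6 7) - g (tS6 26) - g (tS6 29)) + (g (tS6 47) + g (tS6 2) + g (tS6 5) + g (tS6 40) - g (tS6 7) - g (tS6 42) - g (tS6 45)) + (g (tS6 55) + g (tS6 2) + g (tS6 5) + g (tS6 48) - g (tS6 7) - g (tS6 50) - g (tS6 53)) + (g (tS6 31) + g (tS6 3) + g (tS6 4) + g (tS6 24) - g (tS6 7) - g (tS6 27) - g (tS6 28)) + (g (tS6 47) + g (tS6 3) + g (tS6 4) + g (tS6 40) - g (tS6 7) - g (tS6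 43) - g (tS6 44)) + (g (tS6 55) + g (tS6 3) + g (tS6 4) + g (tS6 48) - g (tS6 7) - g (tS6 51) - g (tS6 52)) ≤
      (g (tS6 31) + g (tS6 3) + g (tS6 12) + g (tS6 16) - g (tS6 15) - g (tS6 19) - g (tS6 28)) + (g (tS6 47) + g (tS6 3) + g (tS6 12) + g (tS6 32) - g (tS6 15) - g (tS6 35) - g (tS6 44)) + (g (tS6 63) + g (tS6 3) + g (tS6 12) + g (tS6 48) - g (tS6 15) - g (tS6 51) - g (tS6 60)) + (g (tS6 31) + g (tS6 5) + g (tS6 10) + g (tS6 16) - g (tS6 15) - g (tS6 21) - g (tS6 26)) + (g (tS6 47) + g (tS6 5) + g (tS6 10) + g (tS6 32) - g (tS6 15) - g (tS6 37) - g (tS6 42)) + (g (tS6 63) + g (tS6 5) + g (tS6 10) + g (tS6 48) - g (tS6 15) - g (tS6 53) - g (tS6 58)) + (g (tS6 31) + g (tS6 6) + g (tS6 9) + g (tS6 16) - g (tS6 15) - g (tS6 22) - g (tS6 25)) + (g (tS6 47) + g (tS6 6) + g (tS6 9) + g (tS6 32) - g (tS6 15) - g (tS6 38) - g (tS6 41)) + (g (tS6 63) + g (tS6 6) + g (tS6 9) + g (tS6 48)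 - g (tS6 15) - g (tS6 54) - g (tS6 57)) := by
  have mp := fun b b' h => map_pm ![4, 5, 0, 1, 2, 3] ![2, 3, 4, 5, 0, 1] (by decide) (by decide) b b' h
  have h := h0 ⟨![4, 5, 0, 1, 2, 3], ![2, 3, 4, 5, 0, 1], by decide, by decide⟩
  unfold Gm1 Gm2 at h
  simp only [mp 1 16 (by decide), mp 2 32 (by decide), mp 3 48 (by decide), mp 12 3 (by decide), mp 13 19 (by decide), mp 14 35 (by decide), mp 15 51 (by decide), mp 20 5 (by decide), mp 21 21 (by decide), mp 22 37 (by decide), mp 23 53 (by decide), mp 24 6 (by decide), mp 25 22 (by decide), mp 26 38 (by decide), mp 27 54 (by decide), mp 36 9 (by decide), mp 37 25 (by decide), mp 38 41 (by decide), mp 39 57 (by decide), mp 40 10 (by decide), mp 41 26 (by decide), mp 42 42 (by decide), mp 43 58 (by decide), mp 48 12 (by decide), mp 49 28 (by decide), mp 50 44 (by decide), mp 51 60 (by decide), mp 60 15 (by decide), mp 61 31 (by decide),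 mp 62 47 (by decide), mp 63 63 (by decide)] at h
  linarith only [h]

end Pool.Agent.Q83.FC
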