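import Mathlib

set_option autoImplicit false

/-!
# The binary digits of the numbers below 64
-/

namespace Pool.Agent.Q83.FC

theorem tb6_0_0 : Nat.testBit 0 ((0 : Fin 6) : ℕ) = false := rfl
theorem tb6_0_1 : Nat.testBit 0 ((1 : Fin 6) : ℕ) = false := rfl
theorem tb6_0_2 : Nat.testBit 0 ((2 : Fin 6) : ℕ) = false := rfl
theorem tb6_0_3 : Nat.testBit 0 ((3 : Fin 6) : ℕ) = false := rfl
theorem tb6_0_4 : Nat.testBit 0 ((4 : Fin 6) : ℕ) = false := rfl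
theorem tb6_0_5 : Nat.testBit 0 ((5 : Fin 6) : ℕ) = false := rfl
theorem tb6_1_0 : Nat.testBit 1 ((0 : Fin 6) : ℕ) = true := rfl
theorem tb6_1_1 : Nat.testBit 1 ((1 : Fin 6) : ℕ) = false := rfl
theorem tb6_1_2 : Nat.testBit 1 ((2 : Fin 6) : ℕ) = false := rfl
theorem tb6_1_3 : Nat.testBit 1 ((3 : Fin 6) : ℕ) = false := rfl
theorem tb6_1_4 : Nat.testBit 1 ((4 : Fin 6) : ℕ) = false := rfl
theorem tb6_1_5 : Nat.testBit 1 ((5 : Fin 6) : ℕ) = false := rfl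
theorem tb6_2_0 : Nat.testBit 2 ((0 : Fin 6) : ℕ) = false := rfl
theorem tb6_2_1 : Nat.testBit 2 ((1 : Fin 6) : ℕ) = true := rfl
theorem tb6_2_2 : Nat.testBit 2 ((2 : Fin 6) : ℕ) = false := rfl
theorem tb6_2_3 : Nat.testBit 2 ((3 : Fin 6) : ℕ) = false := rfl
theorem tb6_2_4 : Nat.testBit 2 ((4 : Fin 6) : ℕ) = false := rfl
theorem tb6_2_5 : Nat.testBit 2 ((5 : Fin 6) : ℕ) = false := rfl
theorem tb6_3_0 : Nat.testBit 3 ((0 : Fin 6) : ℕ) = true := rfl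
theorem tb6_3_1 : Nat.testBit 3 ((1 : Fin 6) : ℕ) = true := rfl
theorem tb6_3_2 : Nat.testBit 3 ((2 : Fin 6) : ℕ) = false := rfl
theorem tb6_3_3 : Nat.testBit 3 ((3 : Fin 6) : ℕ) = false := rfl
theorem tb6_3_4 : Nat.testBit 3 ((4 : Fin 6) : ℕ) = false := rfl
theorem tb6_3_5 : Nat.testBit 3 ((5 : Fin 6) : ℕ) = false := rfl
theorem tb6_4_0 : Nat.testBit 4 ((0 : Fin 6) : ℕ) = false := rfl
theorem tb6_4_1 : Nat.testBit 4 ((1 : Fin 6) : ℕ) = false := rfl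
theorem tb6_4_2 : Nat.testBit 4 ((2 : Fin 6) : ℕ) = true := rfl
theorem tb6_4_3 : Nat.testBit 4 ((3 : Fin 6) : ℕ) = false := rfl
theorem tb6_4_4 : Nat.testBit 4 ((4 : Fin 6) : ℕ) = false := rfl
theorem tb6_4_5 : Nat.testBit 4 ((5 : Fin 6) : ℕ) = false := rfl
theorem tb6_5_0 : Nat.testBit 5 ((0 : Fin 6) : ℕ) = true := rfl
theorem tb6_5_1 : Nat.testBit 5 ((1 : Fin 6) : ℕ) = false := rfl
theorem tb6_5_2 : Nat.testBit 5 ((2 : Fin 6) : ℕ) = true := rfl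
theorem tb6_5_3 : Nat.testBit 5 ((3 : Fin 6) : ℕ) = false := rfl
theorem tb6_5_4 : Nat.testBit 5 ((4 : Fin 6) : ℕ) = false := rfl
theorem tb6_5_5 : Nat.testBit 5 ((5 : Fin 6) : ℕ) = false := rfl
theorem tb6_6_0 : Nat.testBit 6 ((0 : Fin 6) : ℕ) = false := rfl
theorem tb6_6_1 : Nat.testBit 6 ((1 : Fin 6) : ℕ) = true := rfl
theorem tb6_6_2 : Nat.testBit 6 ((2 : Fin 6) : ℕ) = true := rfl
theorem tb6_6_3 : Nat.testBit 6 ((3 : Fin 6) : ℕ) = false := rfl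
theorem tb6_6_4 : Nat.testBit 6 ((4 : Fin 6) : ℕ) = false := rfl
theorem tb6_6_5 : Nat.testBit 6 ((5 : Fin 6) : ℕ) = false := rfl
theorem tb6_7_0 : Nat.testBit 7 ((0 : Fin 6) : ℕ) = true := rfl
theorem tb6_7_1 : Nat.testBit 7 ((1 : Fin 6) : ℕ) = true := rfl
theorem tb6_7_2 : Nat.testBit 7 ((2 : Fin 6) : ℕ) = true := rfl
theorem tb6_7_3 : Nat.testBit 7 ((3 : Fin 6) : ℕ) = false := rfl
theorem tb6_7_4 : Nat.testBit 7 ((4 : Fin 6) : ℕ) = false := rfl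
theorem tb6_7_5 : Nat.testBit 7 ((5 : Fin 6) : ℕ) = false := rfl
theorem tb6_8_0 : Nat.testBit 8 ((0 : Fin 6) : ℕ) = false := rfl
theorem tb6_8_1 : Nat.testBit 8 ((1 : Fin 6) : ℕ) = false := rfl
theorem tb6_8_2 : Nat.testBit 8 ((2 : Fin 6) : ℕ) = false := rfl
theorem tb6_8_3 : Nat.testBit 8 ((3 : Fin 6) : ℕ) = true := rfl
theorem tb6_8_4 : Nat.testBit 8 ((4 : Fin 6) : ℕ) = false := rfl
theorem tb6_8_5 : Nat.testBit 8 ((5 : Fin 6) : ℕ) = false := rfl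
theorem tb6_9_0 : Nat.testBit 9 ((0 : Fin 6) : ℕ) = true := rfl
theorem tb6_9_1 : Nat.testBit 9 ((1 : Fin 6) : ℕ) = false := rfl
theorem tb6_9_2 : Nat.testBit 9 ((2 : Fin 6) : ℕ) = false := rfl
theorem tb6_9_3 : Nat.testBit 9 ((3 : Fin 6) : ℕ) = true := rfl
theorem tb6_9_4 : Nat.testBit 9 ((4 : Fin 6) : ℕ) = false := rfl
theorem tb6_9_5 : Nat.testBit 9 ((5 : Fin 6) : ℕ) = false := rfl
theorem tb6_10_0 : Nat.testBit 10 ((0 : Fin 6) : ℕ) = false := rfl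
theorem tb6_10_1 : Nat.testBit 10 ((1 : Fin 6) : ℕ) = true := rfl
theorem tb6_10_2 : Nat.testBit 10 ((2 : Fin 6) : ℕ) = false := rfl
theorem tb6_10_3 : Nat.testBit 10 ((3 : Fin 6) : ℕ) = true := rfl
theorem tb6_10_4 : Nat.testBit 10 ((4 : Fin 6) : ℕ) = false := rfl
theorem tb6_10_5 : Nat.testBit 10 ((5 : Fin 6) : ℕ) = false := rfl
theorem tb6_11_0 : Nat.testBit 11 ((0 : Fin 6) : ℕ) = true := rfl
theorem tb6_11_1 : Nat.testBit 11 ((1 : Fin 6) : ℕ) = true := rfl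
theorem tb6_11_2 : Nat.testBit 11 ((2 : Fin 6) : ℕ) = false := rfl
theorem tb6_11_3 : Nat.testBit 11 ((3 : Fin 6) : ℕ) = true := rfl
theorem tb6_11_4 : Nat.testBit 11 ((4 : Fin 6) : ℕ) = false := rfl
theorem tb6_11_5 : Nat.testBit 11 ((5 : Fin 6) : ℕ) = false := rfl
theorem tb6_12_0 : Nat.testBit 12 ((0 : Fin 6) : ℕ) = false := rfl
theorem tb6_12_1 : Nat.testBit 12 ((1 : Fin 6) : ℕ) = false := rfl
theorem tb6_12_2 : Nat.testBit 12 ((2 : Fin 6) : ℕ) = true := rfl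
theorem tb6_12_3 : Nat.testBit 12 ((3 : Fin 6) : ℕ) = true := rfl
theorem tb6_12_4 : Nat.testBit 12 ((4 : Fin 6) : ℕ) = false := rfl
theorem tb6_12_5 : Nat.testBit 12 ((5 : Fin 6) : ℕ) = false := rfl
theorem tb6_13_0 : Nat.testBit 13 ((0 : Fin 6) : ℕ) = true := rfl
theorem tb6_13_1 : Nat.testBit 13 ((1 : Fin 6) : ℕ) = false := rfl
theorem tb6_13_2 : Nat.testBit 13 ((2 : Fin 6) : ℕ) = true := rfl
theorem tb6_13_3 : Nat.testBit 13 ((3 : Fin 6) : ℕ) = true := rfl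
theorem tb6_13_4 : Nat.testBit 13 ((4 : Fin 6) : ℕ) = false := rfl
theorem tb6_13_5 : Nat.testBit 13 ((5 : Fin 6) : ℕ) = false := rfl
theorem tb6_14_0 : Nat.testBit 14 ((0 : Fin 6) : ℕ) = false := rfl
theorem tb6_14_1 : Nat.testBit 14 ((1 : Fin 6) : ℕ) = true := rfl
theorem tb6_14_2 : Nat.testBit 14 ((2 : Fin 6) : ℕ) = true := rfl
theorem tb6_14_3 : Nat.testBit 14 ((3 : Fin 6) : ℕ) = true := rfl
theorem tb6_14_4 : Nat.testBit 14 ((4 : Fin 6) : ℕ) = false := rfl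
theorem tb6_14_5 : Nat.testBit 14 ((5 : Fin 6) : ℕ) = false := rfl
theorem tb6_15_0 : Nat.testBit 15 ((0 : Fin 6) : ℕ) = true := rfl
theorem tb6_15_1 : Nat.testBit 15 ((1 : Fin 6) : ℕ) = true := rfl
theorem tb6_15_2 : Nat.testBit 15 ((2 : Fin 6) : ℕ) = true := rfl
theorem tb6_15_3 : Nat.testBit 15 ((3 : Fin 6) : ℕ) = true := rfl
theorem tb6_15_4 : Nat.testBit 15 ((4 : Fin 6) : ℕ) = false := rfl
theorem tb6_15_5 : Nat.testBit 15 ((5 : Fin 6) : ℕ) = false := rfl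
theorem tb6_16_0 : Nat.testBit 16 ((0 : Fin 6) : ℕ) = false := rfl
theorem tb6_16_1 : Nat.testBit 16 ((1 : Fin 6) : ℕ) = false := rfl
theorem tb6_16_2 : Nat.testBit 16 ((2 : Fin 6) : ℕ) = false := rfl
theorem tb6_16_3 : Nat.testBit 16 ((3 : Fin 6) : ℕ) = false := rfl
theorem tb6_16_4 : Nat.testBit 16 ((4 : Fin 6) : ℕ) = true := rfl
theorem tb6_16_5 : Nat.testBit 16 ((5 : Fin 6) : ℕ) = false := rfl
theorem tb6_17_0 : Nat.testBit 17 ((0 : Fin 6) : ℕ) = true := rfl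
theorem tb6_17_1 : Nat.testBit 17 ((1 : Fin 6) : ℕ) = false := rfl
theorem tb6_17_2 : Nat.testBit 17 ((2 : Fin 6) : ℕ) = false := rfl
theorem tb6_17_3 : Nat.testBit 17 ((3 : Fin 6) : ℕ) = false := rfl
theorem tb6_17_4 : Nat.testBit 17 ((4 : Fin 6) : ℕ) = true := rfl
theorem tb6_17_5 : Nat.testBit 17 ((5 : Fin 6) : ℕ) = false := rfl
theorem tb6_18_0 : Nat.testBit 18 ((0 : Fin 6) : ℕ) = false := rfl
theorem tb6_18_1 : Nat.testBit 18 ((1 : Fin 6) : ℕ) = true := rfl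
theorem tb6_18_2 : Nat.testBit 18 ((2 : Fin 6) : ℕ) = false := rfl
theorem tb6_18_3 : Nat.testBit 18 ((3 : Fin 6) : ℕ) = false := rfl
theorem tb6_18_4 : Nat.testBit 18 ((4 : Fin 6) : ℕ) = true := rfl
theorem tb6_18_5 : Nat.testBit 18 ((5 : Fin 6) : ℕ) = false := rfl
theorem tb6_19_0 : Nat.testBit 19 ((0 : Fin 6) : ℕ) = true := rfl
theorem tb6_19_1 : Nat.testBit 19 ((1 : Fin 6) : ℕ) = true := rfl
theorem tb6_19_2 : Nat.testBit 19 ((2 : Fin 6) : ℕ) = false := rfl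
theorem tb6_19_3 : Nat.testBit 19 ((3 : Fin 6) : ℕ) = false := rfl
theorem tb6_19_4 : Nat.testBit 19 ((4 : Fin 6) : ℕ) = true := rfl
theorem tb6_19_5 : Nat.testBit 19 ((5 : Fin 6) : ℕ) = false := rfl
theorem tb6_20_0 : Nat.testBit 20 ((0 : Fin 6) : ℕ) = false := rfl
theorem tb6_20_1 : Nat.testBit 20 ((1 : Fin 6) : ℕ) = false := rfl
theorem tb6_20_2 : Nat.testBit 20 ((2 : Fin 6) : ℕ) = true := rfl
theorem tb6_20_3 : Nat.testBit 20 ((3 : Fin 6) : ℕ) = false := rfl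
theorem tb6_20_4 : Nat.testBit 20 ((4 : Fin 6) : ℕ) = true := rfl
theorem tb6_20_5 : Nat.testBit 20 ((5 : Fin 6) : ℕ) = false := rfl
theorem tb6_21_0 : Nat.testBit 21 ((0 : Fin 6) : ℕ) = true := rfl
theorem tb6_21_1 : Nat.testBit 21 ((1 : Fin 6) : ℕ) = false := rfl
theorem tb6_21_2 : Nat.testBit 21 ((2 : Fin 6) : ℕ) = true := rfl
theorem tb6_21_3 : Nat.testBit 21 ((3 : Fin 6) : ℕ) = false := rfl
theorem tb6_21_4 : Nat.testBit 21 ((4 : Fin 6) : ℕ) = true := rfl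
theorem tb6_21_5 : Nat.testBit 21 ((5 : Fin 6) : ℕ) = false := rfl
theorem tb6_22_0 : Nat.testBit 22 ((0 : Fin 6) : ℕ) = false := rfl
theorem tb6_22_1 : Nat.testBit 22 ((1 : Fin 6) : ℕ) = true := rfl
theorem tb6_22_2 : Nat.testBit 22 ((2 : Fin 6) : ℕ) = true := rfl
theorem tb6_22_3 : Nat.testBit 22 ((3 : Fin 6) : ℕ) = false := rfl
theorem tb6_22_4 : Nat.testBit 22 ((4 : Fin 6) : ℕ) = true := rfl
theorem tb6_22_5 : Nat.testBit 22 ((5 : Fin 6) : ℕ) = false := rfl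
theorem tb6_23_0 : Nat.testBit 23 ((0 : Fin 6) : ℕ) = true := rfl
theorem tb6_23_1 : Nat.testBit 23 ((1 : Fin 6) : ℕ) = true := rfl
theorem tb6_23_2 : Nat.testBit 23 ((2 : Fin 6) : ℕ) = true := rfl
theorem tb6_23_3 : Nat.testBit 23 ((3 : Fin 6) : ℕ) = false := rfl
theorem tb6_23_4 : Nat.testBit 23 ((4 : Fin 6) : ℕ) = true := rfl
theorem tb6_23_5 : Nat.testBit 23 ((5 : Fin 6) : ℕ) = false := rfl
theorem tb6_24_0 : Nat.testBit 24 ((0 : Fin 6) : ℕ) = false := rfl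
theorem tb6_24_1 : Nat.testBit 24 ((1 : Fin 6) : ℕ) = false := rfl
theorem tb6_24_2 : Nat.testBit 24 ((2 : Fin 6) : ℕ) = false := rfl
theorem tb6_24_3 : Nat.testBit 24 ((3 : Fin 6) : ℕ) = true := rfl
theorem tb6_24_4 : Nat.testBit 24 ((4 : Fin 6) : ℕ) = true := rfl
theorem tb6_24_5 : Nat.testBit 24 ((5 : Fin 6) : ℕ) = false := rfl
theorem tb6_25_0 : Nat.testBit 25 ((0 : Fin 6) : ℕ) = true := rfl
theorem tb6_25_1 : Nat.testBit 25 ((1 : Fin 6) : ℕ) = false := rfl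
theorem tb6_25_2 : Nat.testBit 25 ((2 : Fin 6) : ℕ) = false := rfl
theorem tb6_25_3 : Nat.testBit 25 ((3 : Fin 6) : ℕ) = true := rfl
theorem tb6_25_4 : Nat.testBit 25 ((4 : Fin 6) : ℕ) = true := rfl
theorem tb6_25_5 : Nat.testBit 25 ((5 : Fin 6) : ℕ) = false := rfl
theorem tb6_26_0 : Nat.testBit 26 ((0 : Fin 6) : ℕ) = false := rfl
theorem tb6_26_1 : Nat.testBit 26 ((1 : Fin 6) : ℕ) = true := rfl
theorem tb6_26_2 : Nat.testBit 26 ((2 : Fin 6) : ℕ) = false := rfl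
theorem tb6_26_3 : Nat.testBit 26 ((3 : Fin 6) : ℕ) = true := rfl
theorem tb6_26_4 : Nat.testBit 26 ((4 : Fin 6) : ℕ) = true := rfl
theorem tb6_26_5 : Nat.testBit 26 ((5 : Fin 6) : ℕ) = false := rfl
theorem tb6_27_0 : Nat.testBit 27 ((0 : Fin 6) : ℕ) = true := rfl
theorem tb6_27_1 : Nat.testBit 27 ((1 : Fin 6) : ℕ) = true := rfl
theorem tb6_27_2 : Nat.testBit 27 ((2 : Fin 6) : ℕ) = false := rfl
theorem tb6_27_3 : Nat.testBit 27 ((3 : Fin 6) : ℕ) = true := rfl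
theorem tb6_27_4 : Nat.testBit 27 ((4 : Fin 6) : ℕ) = true := rfl
theorem tb6_27_5 : Nat.testBit 27 ((5 : Fin 6) : ℕ) = false := rfl
theorem tb6_28_0 : Nat.testBit 28 ((0 : Fin 6) : ℕ) = false := rfl
theorem tb6_28_1 : Nat.testBit 28 ((1 : Fin 6) : ℕ) = false := rfl
theorem tb6_28_2 : Nat.testBit 28 ((2 : Fin 6) : ℕ) = true := rfl
theorem tb6_28_3 : Nat.testBit 28 ((3 : Fin 6) : ℕ) = true := rfl
theorem tb6_28_4 : Nat.testBit 28 ((4 : Fin 6) : ℕ) = true := rfl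
theorem tb6_28_5 : Nat.testBit 28 ((5 : Fin 6) : ℕ) = false := rfl
theorem tb6_29_0 : Nat.testBit 29 ((0 : Fin 6) : ℕ) = true := rfl
theorem tb6_29_1 : Nat.testBit 29 ((1 : Fin 6) : ℕ) = false := rfl
theorem tb6_29_2 : Nat.testBit 29 ((2 : Fin 6) : ℕ) = true := rfl
theorem tb6_29_3 : Nat.testBit 29 ((3 : Fin 6) : ℕ) = true := rfl
theorem tb6_29_4 : Nat.testBit 29 ((4 : Fin 6) : ℕ) = true := rfl
theorem tb6_29_5 : Nat.testBit 29 ((5 : Fin 6) : ℕ) = false := rfl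
theorem tb6_30_0 : Nat.testBit 30 ((0 : Fin 6) : ℕ) = false := rfl
theorem tb6_30_1 : Nat.testBit 30 ((1 : Fin 6) : ℕ) = true := rfl
theorem tb6_30_2 : Nat.testBit 30 ((2 : Fin 6) : ℕ) = true := rfl
theorem tb6_30_3 : Nat.testBit 30 ((3 : Fin 6) : ℕ) = true := rfl
theorem tb6_30_4 : Nat.testBit 30 ((4 : Fin 6) : ℕ) = true := rfl
theorem tb6_30_5 : Nat.testBit 30 ((5 : Fin 6) : ℕ) = false := rfl
theorem tb6_31_0 : Nat.testBit 31 ((0 : Fin 6) : ℕ) = true := rfl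
theorem tb6_31_1 : Nat.testBit 31 ((1 : Fin 6) : ℕ) = true := rfl
theorem tb6_31_2 : Nat.testBit 31 ((2 : Fin 6) : ℕ) = true := rfl
theorem tb6_31_3 : Nat.testBit 31 ((3 : Fin 6) : ℕ) = true := rfl
theorem tb6_31_4 : Nat.testBit 31 ((4 : Fin 6) : ℕ) = true := rfl
theorem tb6_31_5 : Nat.testBit 31 ((5 : Fin 6) : ℕ) = false := rfl
theorem tb6_32_0 : Nat.testBit 32 ((0 : Fin 6) : ℕ) = false := rfl
theorem tb6_32_1 : Nat.testBit 32 ((1 : Fin 6) : ℕ) = false := rfl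
theorem tb6_32_2 : Nat.testBit 32 ((2 : Fin 6) : ℕ) = false := rfl
theorem tb6_32_3 : Nat.testBit 32 ((3 : Fin 6) : ℕ) = false := rfl
theorem tb6_32_4 : Nat.testBit 32 ((4 : Fin 6) : ℕ) = false := rfl
theorem tb6_32_5 : Nat.testBit 32 ((5 : Fin 6) : ℕ) = true := rfl
theorem tb6_33_0 : Nat.testBit 33 ((0 : Fin 6) : ℕ) = true := rfl
theorem tb6_33_1 : Nat.testBit 33 ((1 : Fin 6) : ℕ) = false := rfl
theorem tb6_33_2 : Nat.testBit 33 ((2 : Fin 6) : ℕ) = false := rfl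
theorem tb6_33_3 : Nat.testBit 33 ((3 : Fin 6) : ℕ) = false := rfl
theorem tb6_33_4 : Nat.testBit 33 ((4 : Fin 6) : ℕ) = false := rfl
theorem tb6_33_5 : Nat.testBit 33 ((5 : Fin 6) : ℕ) = true := rfl
theorem tb6_34_0 : Nat.testBit 34 ((0 : Fin 6) : ℕ) = false := rfl
theorem tb6_34_1 : Nat.testBit 34 ((1 : Fin 6) : ℕ) = true := rfl
theorem tb6_34_2 : Nat.testBit 34 ((2 : Fin 6) : ℕ) = false := rfl
theorem tb6_34_3 : Nat.testBit 34 ((3 : Fin 6) : ℕ) = false := rfl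
theorem tb6_34_4 : Nat.testBit 34 ((4 : Fin 6) : ℕ) = false := rfl
theorem tb6_34_5 : Nat.testBit 34 ((5 : Fin 6) : ℕ) = true := rfl
theorem tb6_35_0 : Nat.testBit 35 ((0 : Fin 6) : ℕ) = true := rfl
theorem tb6_35_1 : Nat.testBit 35 ((1 : Fin 6) : ℕ) = true := rfl
theorem tb6_35_2 : Nat.testBit 35 ((2 : Fin 6) : ℕ) = false := rfl
theorem tb6_35_3 : Nat.testBit 35 ((3 : Fin 6) : ℕ) = false := rfl
theorem tb6_35_4 : Nat.testBit 35 ((4 : Fin 6) : ℕ) = false := rfl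
theorem tb6_35_5 : Nat.testBit 35 ((5 : Fin 6) : ℕ) = true := rfl
theorem tb6_36_0 : Nat.testBit 36 ((0 : Fin 6) : ℕ) = false := rfl
theorem tb6_36_1 : Nat.testBit 36 ((1 : Fin 6) : ℕ) = false := rfl
theorem tb6_36_2 : Nat.testBit 36 ((2 : Fin 6) : ℕ) = true := rfl
theorem tb6_36_3 : Nat.testBit 36 ((3 : Fin 6) : ℕ) = false := rfl
theorem tb6_36_4 : Nat.testBit 36 ((4 : Fin 6) : ℕ) = false := rfl
theorem tb6_36_5 : Nat.testBit 36 ((5 : Fin 6) : ℕ) = true := rfl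
theorem tb6_37_0 : Nat.testBit 37 ((0 : Fin 6) : ℕ) = true := rfl
theorem tb6_37_1 : Nat.testBit 37 ((1 : Fin 6) : ℕ) = false := rfl
theorem tb6_37_2 : Nat.testBit 37 ((2 : Fin 6) : ℕ) = true := rfl
theorem tb6_37_3 : Nat.testBit 37 ((3 : Fin 6) : ℕ) = false := rfl
theorem tb6_37_4 : Nat.testBit 37 ((4 : Fin 6) : ℕ) = false := rfl
theorem tb6_37_5 : Nat.testBit 37 ((5 : Fin 6) : ℕ) = true := rfl
theorem tb6_38_0 : Nat.testBit 38 ((0 : Fin 6) : ℕ) = false := rfl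
theorem tb6_38_1 : Nat.testBit 38 ((1 : Fin 6) : ℕ) = true := rfl
theorem tb6_38_2 : Nat.testBit 38 ((2 : Fin 6) : ℕ) = true := rfl
theorem tb6_38_3 : Nat.testBit 38 ((3 : Fin 6) : ℕ) = false := rfl
theorem tb6_38_4 : Nat.testBit 38 ((4 : Fin 6) : ℕ) = false := rfl
theorem tb6_38_5 : Nat.testBit 38 ((5 : Fin 6) : ℕ) = true := rfl
theorem tb6_39_0 : Nat.testBit 39 ((0 : Fin 6) : ℕ) = true := rfl
theorem tb6_39_1 : Nat.testBit 39 ((1 : Fin 6) : ℕ) = true := rfl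
theorem tb6_39_2 : Nat.testBit 39 ((2 : Fin 6) : ℕ) = true := rfl
theorem tb6_39_3 : Nat.testBit 39 ((3 : Fin 6) : ℕ) = false := rfl
theorem tb6_39_4 : Nat.testBit 39 ((4 : Fin 6) : ℕ) = false := rfl
theorem tb6_39_5 : Nat.testBit 39 ((5 : Fin 6) : ℕ) = true := rfl
theorem tb6_40_0 : Nat.testBit 40 ((0 : Fin 6) : ℕ) = false := rfl
theorem tb6_40_1 : Nat.testBit 40 ((1 : Fin 6) : ℕ) = false := rfl
theorem tb6_40_2 : Nat.testBit 40 ((2 : Fin 6) : ℕ) = false := rfl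
theorem tb6_40_3 : Nat.testBit 40 ((3 : Fin 6) : ℕ) = true := rfl
theorem tb6_40_4 : Nat.testBit 40 ((4 : Fin 6) : ℕ) = false := rfl
theorem tb6_40_5 : Nat.testBit 40 ((5 : Fin 6) : ℕ) = true := rfl
theorem tb6_41_0 : Nat.testBit 41 ((0 : Fin 6) : ℕ) = true := rfl
theorem tb6_41_1 : Nat.testBit 41 ((1 : Fin 6) : ℕ) = false := rfl
theorem tb6_41_2 : Nat.testBit 41 ((2 : Fin 6) : ℕ) = false := rfl
theorem tb6_41_3 : Nat.testBit 41 ((3 : Fin 6) : ℕ) = true := rfl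
theorem tb6_41_4 : Nat.testBit 41 ((4 : Fin 6) : ℕ) = false := rfl
theorem tb6_41_5 : Nat.testBit 41 ((5 : Fin 6) : ℕ) = true := rfl
theorem tb6_42_0 : Nat.testBit 42 ((0 : Fin 6) : ℕ) = false := rfl
theorem tb6_42_1 : Nat.testBit 42 ((1 : Fin 6) : ℕ) = true := rfl
theorem tb6_42_2 : Nat.testBit 42 ((2 : Fin 6) : ℕ) = false := rfl
theorem tb6_42_3 : Nat.testBit 42 ((3 : Fin 6) : ℕ) = true := rfl
theorem tb6_42_4 : Nat.testBit 42 ((4 : Fin 6) : ℕ) = false := rfl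
theorem tb6_42_5 : Nat.testBit 42 ((5 : Fin 6) : ℕ) = true := rfl
theorem tb6_43_0 : Nat.testBit 43 ((0 : Fin 6) : ℕ) = true := rfl
theorem tb6_43_1 : Nat.testBit 43 ((1 : Fin 6) : ℕ) = true := rfl
theorem tb6_43_2 : Nat.testBit 43 ((2 : Fin 6) : ℕ) = false := rfl
theorem tb6_43_3 : Nat.testBit 43 ((3 : Fin 6) : ℕ) = true := rfl
theorem tb6_43_4 : Nat.testBit 43 ((4 : Fin 6) : ℕ) = false := rfl
theorem tb6_43_5 : Nat.testBit 43 ((5 : Fin 6) : ℕ) = true := rfl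
theorem tb6_44_0 : Nat.testBit 44 ((0 : Fin 6) : ℕ) = false := rfl
theorem tb6_44_1 : Nat.testBit 44 ((1 : Fin 6) : ℕ) = false := rfl
theorem tb6_44_2 : Nat.testBit 44 ((2 : Fin 6) : ℕ) = true := rfl
theorem tb6_44_3 : Nat.testBit 44 ((3 : Fin 6) : ℕ) = true := rfl
theorem tb6_44_4 : Nat.testBit 44 ((4 : Fin 6) : ℕ) = false := rfl
theorem tb6_44_5 : Nat.testBit 44 ((5 : Fin 6) : ℕ) = true := rfl
theorem tb6_45_0 : Nat.testBit 45 ((0 : Fin 6) : ℕ) = true := rfl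
theorem tb6_45_1 : Nat.testBit 45 ((1 : Fin 6) : ℕ) = false := rfl
theorem tb6_45_2 : Nat.testBit 45 ((2 : Fin 6) : ℕ) = true := rfl
theorem tb6_45_3 : Nat.testBit 45 ((3 : Fin 6) : ℕ) = true := rfl
theorem tb6_45_4 : Nat.testBit 45 ((4 : Fin 6) : ℕ) = false := rfl
theorem tb6_45_5 : Nat.testBit 45 ((5 : Fin 6) : ℕ) = true := rfl
theorem tb6_46_0 : Nat.testBit 46 ((0 : Fin 6) : ℕ) = false := rfl
theorem tb6_46_1 : Nat.testBit 46 ((1 : Fin 6) : ℕ) = true := rfl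
theorem tb6_46_2 : Nat.testBit 46 ((2 : Fin 6) : ℕ) = true := rfl
theorem tb6_46_3 : Nat.testBit 46 ((3 : Fin 6) : ℕ) = true := rfl
theorem tb6_46_4 : Nat.testBit 46 ((4 : Fin 6) : ℕ) = false := rfl
theorem tb6_46_5 : Nat.testBit 46 ((5 : Fin 6) : ℕ) = true := rfl
theorem tb6_47_0 : Nat.testBit 47 ((0 : Fin 6) : ℕ) = true := rfl
theorem tb6_47_1 : Nat.testBit 47 ((1 : Fin 6) : ℕ) = true := rfl
theorem tb6_47_2 : Nat.testBit 47 ((2 : Fin 6) : ℕ) = true := rfl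
theorem tb6_47_3 : Nat.testBit 47 ((3 : Fin 6) : ℕ) = true := rfl
theorem tb6_47_4 : Nat.testBit 47 ((4 : Fin 6) : ℕ) = false := rfl
theorem tb6_47_5 : Nat.testBit 47 ((5 : Fin 6) : ℕ) = true := rfl
theorem tb6_48_0 : Nat.testBit 48 ((0 : Fin 6) : ℕ) = false := rfl
theorem tb6_48_1 : Nat.testBit 48 ((1 : Fin 6) : ℕ) = false := rfl
theorem tb6_48_2 : Nat.testBit 48 ((2 : Fin 6) : ℕ) = false := rfl
theorem tb6_48_3 : Nat.testBit 48 ((3 : Fin 6) : ℕ) = false := rfl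
theorem tb6_48_4 : Nat.testBit 48 ((4 : Fin 6) : ℕ) = true := rfl
theorem tb6_48_5 : Nat.testBit 48 ((5 : Fin 6) : ℕ) = true := rfl
theorem tb6_49_0 : Nat.testBit 49 ((0 : Fin 6) : ℕ) = true := rfl
theorem tb6_49_1 : Nat.testBit 49 ((1 : Fin 6) : ℕ) = false := rfl
theorem tb6_49_2 : Nat.testBit 49 ((2 : Fin 6) : ℕ) = false := rfl
theorem tb6_49_3 : Nat.testBit 49 ((3 : Fin 6) : ℕ) = false := rfl
theorem tb6_49_4 : Nat.testBit 49 ((4 : Fin 6) : ℕ) = true := rfl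
theorem tb6_49_5 : Nat.testBit 49 ((5 : Fin 6) : ℕ) = true := rfl
theorem tb6_50_0 : Nat.testBit 50 ((0 : Fin 6) : ℕ) = false := rfl
theorem tb6_50_1 : Nat.testBit 50 ((1 : Fin 6) : ℕ) = true := rfl
theorem tb6_50_2 : Nat.testBit 50 ((2 : Fin 6) : ℕ) = false := rfl
theorem tb6_50_3 : Nat.testBit 50 ((3 : Fin 6) : ℕ) = false := rfl
theorem tb6_50_4 : Nat.testBit 50 ((4 : Fin 6) : ℕ) = true := rfl
theorem tb6_50_5 : Nat.testBit 50 ((5 : Fin 6) : ℕ) = true := rfl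
theorem tb6_51_0 : Nat.testBit 51 ((0 : Fin 6) : ℕ) = true := rfl
theorem tb6_51_1 : Nat.testBit 51 ((1 : Fin 6) : ℕ) = true := rfl
theorem tb6_51_2 : Nat.testBit 51 ((2 : Fin 6) : ℕ) = false := rfl
theorem tb6_51_3 : Nat.testBit 51 ((3 : Fin 6) : ℕ) = false := rfl
theorem tb6_51_4 : Nat.testBit 51 ((4 : Fin 6) : ℕ) = true := rfl
theorem tb6_51_5 : Nat.testBit 51 ((5 : Fin 6) : ℕ) = true := rfl
theorem tb6_52_0 : Nat.testBit 52 ((0 : Fin 6) : ℕ) = false := rfl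
theorem tb6_52_1 : Nat.testBit 52 ((1 : Fin 6) : ℕ) = false := rfl
theorem tb6_52_2 : Nat.testBit 52 ((2 : Fin 6) : ℕ) = true := rfl
theorem tb6_52_3 : Nat.testBit 52 ((3 : Fin 6) : ℕ) = false := rfl
theorem tb6_52_4 : Nat.testBit 52 ((4 : Fin 6) : ℕ) = true := rfl
theorem tb6_52_5 : Nat.testBit 52 ((5 : Fin 6) : ℕ) = true := rfl
theorem tb6_53_0 : Nat.testBit 53 ((0 : Fin 6) : ℕ) = true := rfl
theorem tb6_53_1 : Nat.testBit 53 ((1 : Fin 6) : ℕ) = false := rfl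
theorem tb6_53_2 : Nat.testBit 53 ((2 : Fin 6) : ℕ) = true := rfl
theorem tb6_53_3 : Nat.testBit 53 ((3 : Fin 6) : ℕ) = false := rfl
theorem tb6_53_4 : Nat.testBit 53 ((4 : Fin 6) : ℕ) = true := rfl
theorem tb6_53_5 : Nat.testBit 53 ((5 : Fin 6) : ℕ) = true := rfl
theorem tb6_54_0 : Nat.testBit 54 ((0 : Fin 6) : ℕ) = false := rfl
theorem tb6_54_1 : Nat.testBit 54 ((1 : Fin 6) : ℕ) = true := rfl
theorem tb6_54_2 : Nat.testBit 54 ((2 : Fin 6) : ℕ) = true := rfl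
theorem tb6_54_3 : Nat.testBit 54 ((3 : Fin 6) : ℕ) = false := rfl
theorem tb6_54_4 : Nat.testBit 54 ((4 : Fin 6) : ℕ) = true := rfl
theorem tb6_54_5 : Nat.testBit 54 ((5 : Fin 6) : ℕ) = true := rfl
theorem tb6_55_0 : Nat.testBit 55 ((0 : Fin 6) : ℕ) = true := rfl
theorem tb6_55_1 : Nat.testBit 55 ((1 : Fin 6) : ℕ) = true := rfl
theorem tb6_55_2 : Nat.testBit 55 ((2 : Fin 6) : ℕ) = true := rfl
theorem tb6_55_3 : Nat.testBit 55 ((3 : Fin 6) : ℕ) = false := rfl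
theorem tb6_55_4 : Nat.testBit 55 ((4 : Fin 6) : ℕ) = true := rfl
theorem tb6_55_5 : Nat.testBit 55 ((5 : Fin 6) : ℕ) = true := rfl
theorem tb6_56_0 : Nat.testBit 56 ((0 : Fin 6) : ℕ) = false := rfl
theorem tb6_56_1 : Nat.testBit 56 ((1 : Fin 6) : ℕ) = false := rfl
theorem tb6_56_2 : Nat.testBit 56 ((2 : Fin 6) : ℕ) = false := rfl
theorem tb6_56_3 : Nat.testBit 56 ((3 : Fin 6) : ℕ) = true := rfl
theorem tb6_56_4 : Nat.testBit 56 ((4 : Fin 6) : ℕ) = true := rfl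
theorem tb6_56_5 : Nat.testBit 56 ((5 : Fin 6) : ℕ) = true := rfl
theorem tb6_57_0 : Nat.testBit 57 ((0 : Fin 6) : ℕ) = true := rfl
theorem tb6_57_1 : Nat.testBit 57 ((1 : Fin 6) : ℕ) = false := rfl
theorem tb6_57_2 : Nat.testBit 57 ((2 : Fin 6) : ℕ) = false := rfl
theorem tb6_57_3 : Nat.testBit 57 ((3 : Fin 6) : ℕ) = true := rfl
theorem tb6_57_4 : Nat.testBit 57 ((4 : Fin 6) : ℕ) = true := rfl
theorem tb6_57_5 : Nat.testBit 57 ((5 : Fin 6) : ℕ) = true := rfl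
theorem tb6_58_0 : Nat.testBit 58 ((0 : Fin 6) : ℕ) = false := rfl
theorem tb6_58_1 : Nat.testBit 58 ((1 : Fin 6) : ℕ) = true := rfl
theorem tb6_58_2 : Nat.testBit 58 ((2 : Fin 6) : ℕ) = false := rfl
theorem tb6_58_3 : Nat.testBit 58 ((3 : Fin 6) : ℕ) = true := rfl
theorem tb6_58_4 : Nat.testBit 58 ((4 : Fin 6) : ℕ) = true := rfl
theorem tb6_58_5 : Nat.testBit 58 ((5 : Fin 6) : ℕ) = true := rfl
theorem tb6_59_0 : Nat.testBit 59 ((0 : Fin 6) : ℕ) = true := rfl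
theorem tb6_59_1 : Nat.testBit 59 ((1 : Fin 6) : ℕ) = true := rfl
theorem tb6_59_2 : Nat.testBit 59 ((2 : Fin 6) : ℕ) = false := rfl
theorem tb6_59_3 : Nat.testBit 59 ((3 : Fin 6) : ℕ) = true := rfl
theorem tb6_59_4 : Nat.testBit 59 ((4 : Fin 6) : ℕ) = true := rfl
theorem tb6_59_5 : Nat.testBit 59 ((5 : Fin 6) : ℕ) = true := rfl
theorem tb6_60_0 : Nat.testBit 60 ((0 : Fin 6) : ℕ) = false := rfl
theorem tb6_60_1 : Nat.testBit 60 ((1 : Fin 6) : ℕ) = false := rfl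
theorem tb6_60_2 : Nat.testBit 60 ((2 : Fin 6) : ℕ) = true := rfl
theorem tb6_60_3 : Nat.testBit 60 ((3 : Fin 6) : ℕ) = true := rfl
theorem tb6_60_4 : Nat.testBit 60 ((4 : Fin 6) : ℕ) = true := rfl
theorem tb6_60_5 : Nat.testBit 60 ((5 : Fin 6) : ℕ) = true := rfl
theorem tb6_61_0 : Nat.testBit 61 ((0 : Fin 6) : ℕ) = true := rfl
theorem tb6_61_1 : Nat.testBit 61 ((1 : Fin 6) : ℕ) = false := rfl
theorem tb6_61_2 : Nat.testBit 61 ((2 : Fin 6) : ℕ) = true := rfl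
theorem tb6_61_3 : Nat.testBit 61 ((3 : Fin 6) : ℕ) = true := rfl
theorem tb6_61_4 : Nat.testBit 61 ((4 : Fin 6) : ℕ) = true := rfl
theorem tb6_61_5 : Nat.testBit 61 ((5 : Fin 6) : ℕ) = true := rfl
theorem tb6_62_0 : Nat.testBit 62 ((0 : Fin 6) : ℕ) = false := rfl
theorem tb6_62_1 : Nat.testBit 62 ((1 : Fin 6) : ℕ) = true := rfl
theorem tb6_62_2 : Nat.testBit 62 ((2 : Fin 6) : ℕ) = true := rfl
theorem tb6_62_3 : Nat.testBit 62 ((3 : Fin 6) : ℕ) = true := rfl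
theorem tb6_62_4 : Nat.testBit 62 ((4 : Fin 6) : ℕ) = true := rfl
theorem tb6_62_5 : Nat.testBit 62 ((5 : Fin 6) : ℕ) = true := rfl
theorem tb6_63_0 : Nat.testBit 63 ((0 : Fin 6) : ℕ) = true := rfl
theorem tb6_63_1 : Nat.testBit 63 ((1 : Fin 6) : ℕ) = true := rfl
theorem tb6_63_2 : Nat.testBit 63 ((2 : Fin 6) : ℕ) = true := rfl
theorem tb6_63_3 : Nat.testBit 63 ((3 : Fin 6) : ℕ) = true := rfl
theorem tb6_63_4 : Nat.testBit 63 ((4 : Fin 6) : ℕ) = true := rfl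
theorem tb6_63_5 : Nat.testBit 63 ((5 : Fin 6) : ℕ) = true := rfl

end Pool.Agent.Q83.FC
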