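import Mathlib
import Pool.Agent.Q83.FC.Base6G
import Pool.Agent.Q83.FC.Base6T
import Pool.Agent.Q83.FC.Base6A
import Pool.Agent.Q83.FC.Base6MA

set_option autoImplicit false
set_option linter.unusedSimpArgs false

namespace Pool.Agent.Q83.FC

open Finset

theorem case6A {g : Finset (Fin 6) → ℝ} (g0 : g ∅ = 0) (hF : FN univ g)
    (h1 : ∀ τ : Equiv.Perm (Fin 6), Gm1 g ≤ Gm1 (fun S => g (S.map τ.toEmbedding)))
    (h2 : ∀ τ : Equiv.Perm (Fin 6), Gm1 g ≤ Gm2 (fun S => g (S.map τ.toEmbedding))) :
    HasW univ g := by
  have F : ∀ a b c : ℕ, Tri6 a b c → (fun b => g (tS6 b)) (a + b) + (fun b => g (tS6 b)) (a + c) +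
      (fun b => g (tS6 b)) (b + c) ≤ (fun b => g (tS6 b)) (a + b + c) + (fun b => g (tS6 b)) a +
      (fun b => g (tS6 b)) b + (fun b => g (tS6 b)) c := by
    rintro a b c ⟨h1, h2, h3, h4, h5, h6, h7, h8, h9, h10⟩
    have := hF (tS6 a) (tS6 b) (tS6 c) (subset_univ _) (subset_univ _) (subset_univ _) h1 h2 h3 h4
      h5 h6
    simp only [h7, h8, h9, h10]
    exact this
  have M_11 := m6A_11 h1
  have M_13 := m6A_13 h1
  have M_14 := m6A_14 h1
  have M_19 := m6A_19 h1
  have M_21 := m6A_21 h1
  have M_22 := m6A_22 h1
  have M_25 := m6A_25 h1
  have M_26 := m6A_26 h1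
  have M_28 := m6A_28 h1
  have M_35 := m6A_35 h1
  have M_37 := m6A_37 h1
  have M_38 := m6A_38 h1
  have M_41 := m6A_41 h1
  have M_42 := m6A_42 h1
  have M_44 := m6A_44 h1
  have M_49 := m6A_49 h1
  have M_50 := m6A_50 h1
  have M_52 := m6A_52 h1
  have M_56 := m6A_56 h1
  have M_67 := m6A_67 h2
  have M_69 := m6A_69 h2
  have M_70 := m6A_70 h2
  have M_73 := m6A_73 h2
  have M_74 := m6A_74 h2
  have M_76 := m6A_76 h2
  have M_81 := m6A_81 h2
  have M_82 := m6A_82 h2
  have M_84 := m6A_84 h2
  have M_88 := m6A_88 h2
  have M_97 := m6A_97 h2
  have M_98 := m6A_98 h2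
  have M_100 := m6A_100 h2
  have M_104 := m6A_104 h2
  have M_112 := m6A_112 h2
  obtain ⟨w, hw0, k3, k5, k6, k7, k9, k10, k11, k12, k13, k14, k15, k17, k18, k19, k20, k21, k22, k23, k24, k25, k26, k27, k28, k29, k30, k31, k33, k34, k35, k36, k37, k38, k39, k40, k41, k42, k43, k44, k45, k46, k47, k48, k49, k50, k51, k52, k53, k54, k55, k56, k57, k58, k59, k60, k61, k62, k63⟩ := num6A (fun b => g (tS6 b)) F
    M_11 M_13 M_14 M_19 M_21 M_22 M_25 M_26 M_28 M_35 M_37 M_38 M_41 M_42 M_44 M_49 M_50 M_52 M_56
    M_67 M_69 M_70 M_73 M_74 M_76 M_81 M_82 M_84 M_88 M_97 M_98 M_100 M_104 M_112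
  have s0 : g {0} = g (tS6 1) := congrArg g (by decide)
  have s1 : g {1} = g (tS6 2) := congrArg g (by decide)
  have s2 : g {2} = g (tS6 4) := congrArg g (by decide)
  have s3 : g {3} = g (tS6 8) := congrArg g (by decide)
  have s4 : g {4} = g (tS6 16) := congrArg g (by decide)
  have s5 : g {5} = g (tS6 32) := congrArg g (by decide)
  have q0 : g (tS6 0) = 0 := by rw [show tS6 0 = ∅ by decide, g0]
  refine ⟨w, fun S _ => ?_, ?_⟩
  · obtain ⟨b, hb, rfl⟩ := exb6 S
    rw [sumS6, sumO6' b hw0]
    simp only [Fin.sum_univ_six, s0, s1, s2, s3, s4, s5]
    interval_cases b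
    · -- 0
      simp only [tb6_0_0, tb6_0_1, tb6_0_2, tb6_0_3, tb6_0_4, tb6_0_5,
        if_true, if_false, Bool.false_eq_true, and_true, and_false, true_and, false_and, and_self,
        add_zero, zero_add]
      exact q0.le
    · -- 1
      simp only [tb6_1_0, tb6_1_1, tb6_1_2, tb6_1_3, tb6_1_4, tb6_1_5,
        if_true, if_false, Bool.false_eq_true, and_true, and_false, true_and, false_and, and_self,
        add_zero, zero_add]
      exact le_rfl
    · -- 2
      simp only [tb6_2_0, tb6_2_1, tb6_2_2, tb6_2_3, tb6_2_4, tb6_2_5,
        if_true, if_false, Bool.false_eq_true, and_true, and_false, true_and, false_and, and_self,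
        add_zero, zero_add]
      exact le_rfl
    · -- 3
      simp only [tb6_3_0, tb6_3_1, tb6_3_2, tb6_3_3, tb6_3_4, tb6_3_5,
        if_true, if_false, Bool.false_eq_true, and_true, and_false, true_and, false_and, and_self,
        add_zero, zero_add]
      linarith only [k3]
    · -- 4
      simp only [tb6_4_0, tb6_4_1, tb6_4_2, tb6_4_3, tb6_4_4, tb6_4_5,
        if_true, if_false, Bool.false_eq_true, and_true, and_false, true_and, false_and, and_self,
        add_zero, zero_add]
      exact le_rfl
    · -- 5
      simp only [tb6_5_0, tb6_5_1, tb6_5_2, tb6_5_3, tb6_5_4, tb6_5_5,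
        if_true, if_false, Bool.false_eq_true, and_true, and_false, true_and, false_and, and_self,
        add_zero, zero_add]
      linarith only [k5]
    · -- 6
      simp only [tb6_6_0, tb6_6_1, tb6_6_2, tb6_6_3, tb6_6_4, tb6_6_5,
        if_true, if_false, Bool.false_eq_true, and_true, and_false, true_and, false_and, and_self,
        add_zero, zero_add]
      linarith only [k6]
    · -- 7
      simp only [tb6_7_0, tb6_7_1, tb6_7_2, tb6_7_3, tb6_7_4, tb6_7_5,
        if_true, if_false, Bool.false_eq_true, and_true, and_false, true_and, false_and, and_self,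
        add_zero, zero_add]
      linarith only [k7]
    · -- 8
      simp only [tb6_8_0, tb6_8_1, tb6_8_2, tb6_8_3, tb6_8_4, tb6_8_5,
        if_true, if_false, Bool.false_eq_true, and_true, and_false, true_and, false_and, and_self,
        add_zero, zero_add]
      exact le_rfl
    · -- 9
      simp only [tb6_9_0, tb6_9_1, tb6_9_2, tb6_9_3, tb6_9_4, tb6_9_5,
        if_true, if_false, Bool.false_eq_true, and_true, and_false, true_and, false_and, and_self,
        add_zero, zero_add]
      linarith only [k9]
    · -- 10
      simp only [tb6_10_0, tb6_10_1, tb6_10_2, tb6_10_3, tb6_10_4, tb6_10_5,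
        if_true, if_false, Bool.false_eq_true, and_true, and_false, true_and, false_and, and_self,
        add_zero, zero_add]
      linarith only [k10]
    · -- 11
      simp only [tb6_11_0, tb6_11_1, tb6_11_2, tb6_11_3, tb6_11_4, tb6_11_5,
        if_true, if_false, Bool.false_eq_true, and_true, and_false, true_and, false_and, and_self,
        add_zero, zero_add]
      linarith only [k11]
    · -- 12
      simp only [tb6_12_0, tb6_12_1, tb6_12_2, tb6_12_3, tb6_12_4, tb6_12_5,
        if_true, if_false, Bool.false_eq_true, and_true, and_false, true_and, false_and, and_self,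
        add_zero, zero_add]
      linarith only [k12]
    · -- 13
      simp only [tb6_13_0, tb6_13_1, tb6_13_2, tb6_13_3, tb6_13_4, tb6_13_5,
        if_true, if_false, Bool.false_eq_true, and_true, and_false, true_and, false_and, and_self,
        add_zero, zero_add]
      linarith only [k13]
    · -- 14
      simp only [tb6_14_0, tb6_14_1, tb6_14_2, tb6_14_3, tb6_14_4, tb6_14_5,
        if_true, if_false, Bool.false_eq_true, and_true, and_false, true_and, false_and, and_self,
        add_zero, zero_add]
      linarith only [k14]
    · -- 15
      simp only [tb6_15_0, tb6_15_1, tb6_15_2, tb6_15_3, tb6_15_4, tb6_15_5,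
        if_true, if_false, Bool.false_eq_true, and_true, and_false, true_and, false_and, and_self,
        add_zero, zero_add]
      linarith only [k15]
    · -- 16
      simp only [tb6_16_0, tb6_16_1, tb6_16_2, tb6_16_3, tb6_16_4, tb6_16_5,
        if_true, if_false, Bool.false_eq_true, and_true, and_false, true_and, false_and, and_self,
        add_zero, zero_add]
      exact le_rfl
    · -- 17
      simp only [tb6_17_0, tb6_17_1, tb6_17_2, tb6_17_3, tb6_17_4, tb6_17_5,
        if_true, if_false, Bool.false_eq_true, and_true, and_false, true_and, false_and, and_self,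
        add_zero, zero_add]
      linarith only [k17]
    · -- 18
      simp only [tb6_18_0, tb6_18_1, tb6_18_2, tb6_18_3, tb6_18_4, tb6_18_5,
        if_true, if_false, Bool.false_eq_true, and_true, and_false, true_and, false_and, and_self,
        add_zero, zero_add]
      linarith only [k18]
    · -- 19
      simp only [tb6_19_0, tb6_19_1, tb6_19_2, tb6_19_3, tb6_19_4, tb6_19_5,
        if_true, if_false, Bool.false_eq_true, and_true, and_false, true_and, false_and, and_self,
        add_zero, zero_add]
      linarith only [k19]
    · -- 20
      simp only [tb6_20_0, tb6_20_1, tb6_20_2, tb6_20_3, tb6_20_4, tb6_20_5,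
        if_true, if_false, Bool.false_eq_true, and_true, and_false, true_and, false_and, and_self,
        add_zero, zero_add]
      linarith only [k20]
    · -- 21
      simp only [tb6_21_0, tb6_21_1, tb6_21_2, tb6_21_3, tb6_21_4, tb6_21_5,
        if_true, if_false, Bool.false_eq_true, and_true, and_false, true_and, false_and, and_self,
        add_zero, zero_add]
      linarith only [k21]
    · -- 22
      simp only [tb6_22_0, tb6_22_1, tb6_22_2, tb6_22_3, tb6_22_4, tb6_22_5,
        if_true, if_false, Bool.false_eq_true, and_true, and_false, true_and, false_and, and_self,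
        add_zero, zero_add]
      linarith only [k22]
    · -- 23
      simp only [tb6_23_0, tb6_23_1, tb6_23_2, tb6_23_3, tb6_23_4, tb6_23_5,
        if_true, if_false, Bool.false_eq_true, and_true, and_false, true_and, false_and, and_self,
        add_zero, zero_add]
      linarith only [k23]
    · -- 24
      simp only [tb6_24_0, tb6_24_1, tb6_24_2, tb6_24_3, tb6_24_4, tb6_24_5,
        if_true, if_false, Bool.false_eq_true, and_true, and_false, true_and, false_and, and_self,
        add_zero, zero_add]
      linarith only [k24]
    · -- 25
      simp only [tb6_25_0, tb6_25_1, tb6_25_2, tb6_25_3, tb6_25_4, tb6_25_5,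
        if_true, if_false, Bool.false_eq_true, and_true, and_false, true_and, false_and, and_self,
        add_zero, zero_add]
      linarith only [k25]
    · -- 26
      simp only [tb6_26_0, tb6_26_1, tb6_26_2, tb6_26_3, tb6_26_4, tb6_26_5,
        if_true, if_false, Bool.false_eq_true, and_true, and_false, true_and, false_and, and_self,
        add_zero, zero_add]
      linarith only [k26]
    · -- 27
      simp only [tb6_27_0, tb6_27_1, tb6_27_2, tb6_27_3, tb6_27_4, tb6_27_5,
        if_true, if_false, Bool.false_eq_true, and_true, and_false, true_and, false_and, and_self,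
        add_zero, zero_add]
      linarith only [k27]
    · -- 28
      simp only [tb6_28_0, tb6_28_1, tb6_28_2, tb6_28_3, tb6_28_4, tb6_28_5,
        if_true, if_false, Bool.false_eq_true, and_true, and_false, true_and, false_and, and_self,
        add_zero, zero_add]
      linarith only [k28]
    · -- 29
      simp only [tb6_29_0, tb6_29_1, tb6_29_2, tb6_29_3, tb6_29_4, tb6_29_5,
        if_true, if_false, Bool.false_eq_true, and_true, and_false, true_and, false_and, and_self,
        add_zero, zero_add]
      linarith only [k29]
    · -- 30
      simp only [tb6_30_0, tb6_30_1, tb6_30_2, tb6_30_3, tb6_30_4, tb6_30_5,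
        if_true, if_false, Bool.false_eq_true, and_true, and_false, true_and, false_and, and_self,
        add_zero, zero_add]
      linarith only [k30]
    · -- 31
      simp only [tb6_31_0, tb6_31_1, tb6_31_2, tb6_31_3, tb6_31_4, tb6_31_5,
        if_true, if_false, Bool.false_eq_true, and_true, and_false, true_and, false_and, and_self,
        add_zero, zero_add]
      linarith only [k31]
    · -- 32
      simp only [tb6_32_0, tb6_32_1, tb6_32_2, tb6_32_3, tb6_32_4, tb6_32_5,
        if_true, if_false, Bool.false_eq_true, and_true, and_false, true_and, false_and, and_self,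
        add_zero, zero_add]
      exact le_rfl
    · -- 33
      simp only [tb6_33_0, tb6_33_1, tb6_33_2, tb6_33_3, tb6_33_4, tb6_33_5,
        if_true, if_false, Bool.false_eq_true, and_true, and_false, true_and, false_and, and_self,
        add_zero, zero_add]
      linarith only [k33]
    · -- 34
      simp only [tb6_34_0, tb6_34_1, tb6_34_2, tb6_34_3, tb6_34_4, tb6_34_5,
        if_true, if_false, Bool.false_eq_true, and_true, and_false, true_and, false_and, and_self,
        add_zero, zero_add]
      linarith only [k34]
    · -- 35
      simp only [tb6_35_0, tb6_35_1, tb6_35_2, tb6_35_3, tb6_35_4, tb6_35_5,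
        if_true, if_false, Bool.false_eq_true, and_true, and_false, true_and, false_and, and_self,
        add_zero, zero_add]
      linarith only [k35]
    · -- 36
      simp only [tb6_36_0, tb6_36_1, tb6_36_2, tb6_36_3, tb6_36_4, tb6_36_5,
        if_true, if_false, Bool.false_eq_true, and_true, and_false, true_and, false_and, and_self,
        add_zero, zero_add]
      linarith only [k36]
    · -- 37
      simp only [tb6_37_0, tb6_37_1, tb6_37_2, tb6_37_3, tb6_37_4, tb6_37_5,
        if_true, if_false, Bool.false_eq_true, and_true, and_false, true_and, false_and, and_self,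
        add_zero, zero_add]
      linarith only [k37]
    · -- 38
      simp only [tb6_38_0, tb6_38_1, tb6_38_2, tb6_38_3, tb6_38_4, tb6_38_5,
        if_true, if_false, Bool.false_eq_true, and_true, and_false, true_and, false_and, and_self,
        add_zero, zero_add]
      linarith only [k38]
    · -- 39
      simp only [tb6_39_0, tb6_39_1, tb6_39_2, tb6_39_3, tb6_39_4, tb6_39_5,
        if_true, if_false, Bool.false_eq_true, and_true, and_false, true_and, false_and, and_self,
        add_zero, zero_add]
      linarith only [k39]
    · -- 40
      simp only [tb6_40_0, tb6_40_1, tb6_40_2, tb6_40_3, tb6_40_4, tb6_40_5,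
        if_true, if_false, Bool.false_eq_true, and_true, and_false, true_and, false_and, and_self,
        add_zero, zero_add]
      linarith only [k40]
    · -- 41
      simp only [tb6_41_0, tb6_41_1, tb6_41_2, tb6_41_3, tb6_41_4, tb6_41_5,
        if_true, if_false, Bool.false_eq_true, and_true, and_false, true_and, false_and, and_self,
        add_zero, zero_add]
      linarith only [k41]
    · -- 42
      simp only [tb6_42_0, tb6_42_1, tb6_42_2, tb6_42_3, tb6_42_4, tb6_42_5,
        if_true, if_false, Bool.false_eq_true, and_true, and_false, true_and, false_and, and_self,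
        add_zero, zero_add]
      linarith only [k42]
    · -- 43
      simp only [tb6_43_0, tb6_43_1, tb6_43_2, tb6_43_3, tb6_43_4, tb6_43_5,
        if_true, if_false, Bool.false_eq_true, and_true, and_false, true_and, false_and, and_self,
        add_zero, zero_add]
      linarith only [k43]
    · -- 44
      simp only [tb6_44_0, tb6_44_1, tb6_44_2, tb6_44_3, tb6_44_4, tb6_44_5,
        if_true, if_false, Bool.false_eq_true, and_true, and_false, true_and, false_and, and_self,
        add_zero, zero_add]
      linarith only [k44]
    · -- 45
      simp only [tb6_45_0, tb6_45_1, tb6_45_2, tb6_45_3, tb6_45_4, tb6_45_5,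
        if_true, if_false, Bool.false_eq_true, and_true, and_false, true_and, false_and, and_self,
        add_zero, zero_add]
      linarith only [k45]
    · -- 46
      simp only [tb6_46_0, tb6_46_1, tb6_46_2, tb6_46_3, tb6_46_4, tb6_46_5,
        if_true, if_false, Bool.false_eq_true, and_true, and_false, true_and, false_and, and_self,
        add_zero, zero_add]
      linarith only [k46]
    · -- 47
      simp only [tb6_47_0, tb6_47_1, tb6_47_2, tb6_47_3, tb6_47_4, tb6_47_5,
        if_true, if_false, Bool.false_eq_true, and_true, and_false, true_and, false_and, and_self,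
        add_zero, zero_add]
      linarith only [k47]
    · -- 48
      simp only [tb6_48_0, tb6_48_1, tb6_48_2, tb6_48_3, tb6_48_4, tb6_48_5,
        if_true, if_false, Bool.false_eq_true, and_true, and_false, true_and, false_and, and_self,
        add_zero, zero_add]
      linarith only [k48]
    · -- 49
      simp only [tb6_49_0, tb6_49_1, tb6_49_2, tb6_49_3, tb6_49_4, tb6_49_5,
        if_true, if_false, Bool.false_eq_true, and_true, and_false, true_and, false_and, and_self,
        add_zero, zero_add]
      linarith only [k49]
    · -- 50
      simp only [tb6_50_0, tb6_50_1, tb6_50_2, tb6_50_3, tb6_50_4, tb6_50_5,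
        if_true, if_false, Bool.false_eq_true, and_true, and_false, true_and, false_and, and_self,
        add_zero, zero_add]
      linarith only [k50]
    · -- 51
      simp only [tb6_51_0, tb6_51_1, tb6_51_2, tb6_51_3, tb6_51_4, tb6_51_5,
        if_true, if_false, Bool.false_eq_true, and_true, and_false, true_and, false_and, and_self,
        add_zero, zero_add]
      linarith only [k51]
    · -- 52
      simp only [tb6_52_0, tb6_52_1, tb6_52_2, tb6_52_3, tb6_52_4, tb6_52_5,
        if_true, if_false, Bool.false_eq_true, and_true, and_false, true_and, false_and, and_self,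
        add_zero, zero_add]
      linarith only [k52]
    · -- 53
      simp only [tb6_53_0, tb6_53_1, tb6_53_2, tb6_53_3, tb6_53_4, tb6_53_5,
        if_true, if_false, Bool.false_eq_true, and_true, and_false, true_and, false_and, and_self,
        add_zero, zero_add]
      linarith only [k53]
    · -- 54
      simp only [tb6_54_0, tb6_54_1, tb6_54_2, tb6_54_3, tb6_54_4, tb6_54_5,
        if_true, if_false, Bool.false_eq_true, and_true, and_false, true_and, false_and, and_self,
        add_zero, zero_add]
      linarith only [k54]
    · -- 55
      simp only [tb6_55_0, tb6_55_1, tb6_55_2, tb6_55_3, tb6_55_4, tb6_55_5,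
        if_true, if_false, Bool.false_eq_true, and_true, and_false, true_and, false_and, and_self,
        add_zero, zero_add]
      linarith only [k55]
    · -- 56
      simp only [tb6_56_0, tb6_56_1, tb6_56_2, tb6_56_3, tb6_56_4, tb6_56_5,
        if_true, if_false, Bool.false_eq_true, and_true, and_false, true_and, false_and, and_self,
        add_zero, zero_add]
      linarith only [k56]
    · -- 57
      simp only [tb6_57_0, tb6_57_1, tb6_57_2, tb6_57_3, tb6_57_4, tb6_57_5,
        if_true, if_false, Bool.false_eq_true, and_true, and_false, true_and, false_and, and_self,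
        add_zero, zero_add]
      linarith only [k57]
    · -- 58
      simp only [tb6_58_0, tb6_58_1, tb6_58_2, tb6_58_3, tb6_58_4, tb6_58_5,
        if_true, if_false, Bool.false_eq_true, and_true, and_false, true_and, false_and, and_self,
        add_zero, zero_add]
      linarith only [k58]
    · -- 59
      simp only [tb6_59_0, tb6_59_1, tb6_59_2, tb6_59_3, tb6_59_4, tb6_59_5,
        if_true, if_false, Bool.false_eq_true, and_true, and_false, true_and, false_and, and_self,
        add_zero, zero_add]
      linarith only [k59]
    · -- 60
      simp only [tb6_60_0, tb6_60_1, tb6_60_2, tb6_60_3, tb6_60_4, tb6_60_5,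
        if_true, if_false, Bool.false_eq_true, and_true, and_false, true_and, false_and, and_self,
        add_zero, zero_add]
      linarith only [k60]
    · -- 61
      simp only [tb6_61_0, tb6_61_1, tb6_61_2, tb6_61_3, tb6_61_4, tb6_61_5,
        if_true, if_false, Bool.false_eq_true, and_true, and_false, true_and, false_and, and_self,
        add_zero, zero_add]
      linarith only [k61]
    · -- 62
      simp only [tb6_62_0, tb6_62_1, tb6_62_2, tb6_62_3, tb6_62_4, tb6_62_5,
        if_true, if_false, Bool.false_eq_true, and_true, and_false, true_and, false_and, and_self,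
        add_zero, zero_add]
      linarith only [k62]
    · -- 63
      simp only [tb6_63_0, tb6_63_1, tb6_63_2, tb6_63_3, tb6_63_4, tb6_63_5,
        if_true, if_false, Bool.false_eq_true, and_true, and_false, true_and, false_and, and_self,
        add_zero, zero_add]
      linarith only [k63]
  · rw [show (univ : Finset (Fin 6)) = tS6 63 by decide, sumS6, sumO6' 63 hw0]
    simp only [Fin.sum_univ_six, s0, s1, s2, s3, s4, s5]
    simp only [tb6_63_0, tb6_63_1, tb6_63_2, tb6_63_3, tb6_63_4, tb6_63_5,
      if_true, if_false, Bool.false_eq_true, and_true, and_false, true_and, false_and, and_self,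
      add_zero, zero_add]
    linarith only [k63]

end Pool.Agent.Q83.FC
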