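import Mathlib
import Pool.Agent.Q83.FC.Base6G
import Pool.Agent.Q83.FC.Base6T
import Pool.Agent.Q83.FC.Base6B
import Pool.Agent.Q83.FC.Base6MB

set_option autoImplicit false
set_option linter.unusedSimpArgs false

namespace Pool.Agent.Q83.FC

open Finset

theorem case6B {g : Finset (Fin 6) → ℝ} (g0 : g ∅ = 0) (hF : FN univ g)
    (h1 : ∀ τ : Equiv.Perm (Fin 6), Gm2 g ≤ Gm1 (fun S => g (S.map τ.toEmbedding)))
    (h2 : ∀ τ : Equiv.Perm (Fin 6), Gm2 g ≤ Gm2 (fun S => g (S.map τ.toEmbedding))) :
    HasW univ g := by
  have F : ∀ a b c : ℕ, Tri6 a b c → (fun b => g (tS6 b)) (a + b) + (fun b => g (tS6 b)) (a + c) +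
      (fun b => g (tS6 b)) (b + c) ≤ (fun b => g (tS6 b)) (a + b + c) + (fun b => g (tS6 b)) a +
      (fun b => g (tS6 b)) b + (fun b => g (tS6 b)) c := by
    rintro a b c ⟨h1, h2, h3, h4, h5, h6, h7, h8, h9, h10⟩
    have := hF (tS6 a) (tS6 b) (tS6 c) (subset_univ _) (subset_univ _) (subset_univ _) h1 h2 h3 h4
      h5 h6
    simp only [h7, h8, h9, h10]
    exact this
  have M_7 := m6B_7 h1
  have M_11 := m6B_11 h1
  have M_13 := m6B_13 h1
  have M_14 := m6B_14 h1
  have M_19 := m6B_19 h1
  have M_21 := m6B_21 h1
  have M_22 := m6B_22 h1
  have M_25 := m6B_25 h1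
  have M_26 := m6B_26 h1
  have M_28 := m6B_28 h1
  have M_35 := m6B_35 h1
  have M_37 := m6B_37 h1
  have M_38 := m6B_38 h1
  have M_41 := m6B_41 h1
  have M_42 := m6B_42 h1
  have M_44 := m6B_44 h1
  have M_49 := m6B_49 h1
  have M_50 := m6B_50 h1
  have M_52 := m6B_52 h1
  have M_56 := m6B_56 h1
  have M_69 := m6B_69 h2
  have M_70 := m6B_70 h2
  have M_73 := m6B_73 h2
  have M_74 := m6B_74 h2
  have M_76 := m6B_76 h2
  have M_81 := m6B_81 h2
  have M_82 := m6B_82 h2
  have M_84 := m6B_84 h2
  have M_88 := m6B_88 h2
  have M_97 := m6B_97 h2
  have M_98 := m6B_98 h2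
  have M_100 := m6B_100 h2
  have M_104 := m6B_104 h2
  have M_112 := m6B_112 h2
  obtain ⟨w, hw0, k3, k5, k6, k7, k9, k10, k11, k12, k13, k14, k15, k17, k18, k19, k20, k21, k22, k23, k24, k25, k26, k27, k28, k29, k30, k31, k33, k34, k35, k36, k37, k38, k39, k40, k41, k42, k43, k44, k45, k46, k47, k48, k49, k50, k51, k52, k53, k54, k55, k56, k57, k58, k59, k60, k61, k62, k63⟩ := num6B (fun b => g (tS6 b)) F
    M_7 M_11 M_13 M_14 M_19 M_21 M_22 M_25 M_26 M_28 M_35 M_37 M_38 M_41 M_42 M_44 M_49 M_50 M_52
    M_56 M_69 M_70 M_73 M_74 M_76 M_81 M_82 M_84 M_88 M_97 M_98 M_100 M_104 M_112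
  have s0 : g {0} = g (tS6 1) := congrArg g (by decide)
  have s1 : g {1} = g (tS6 2) := congrArg g (by decide)
  have s2 : g {2} = g (tS6 4) := congrArg g (by decide)
  have s3 : g {3} = g (tS6 8) := congrArg g (by decide)
  have s4 : g {4} = g (tS6 16) := congrArg g (by decide)
  have s5 : g {5} = g (tS6 32) := congrArg g (by decide)
  have q0 : g (tS6 0) = 0 := by rw [show tS6 0 = ∅ by decide, g0]
  refine ⟨w, fun S _ => ?_, ?_⟩
  · obtain ⟨b, hb, rfl⟩ := exb6 S
    rw [sumS6, sumO6' b hw0]
    simp only [Fin.sum_univ_six, s0, s1, s2, s3, s4, s5]
    interval_cases b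
    · -- 0
      simp only [tb6_0_0, tb6_0_1, tb6_0_2, tb6_0_3, tb6_0_4, tb6_0_5,
        if_true, if_false, Bool.false_eq_true, and_true, and_false, true_and, false_and, and_self,
        add_zero, zero_add]
      exact q0.le
    · -- 1
      simp only [tb6_1_0, tb6_1_1, tb6_1_2, tb6_1_3, tb6_1_4, tb6_1_5,
        if_true, if_false, Bool.false_eq_true, and_true, and_false, true_and, false_and, and_self,
        add_zero, zero_add]
      exact le_rfl
    · -- 2
      simp only [tb6_2_0, tb6_2_1, tb6_2_2, tb6_2_3, tb6_2_4, tb6_2_5,
        if_true, if_false, Bool.false_eq_true, and_true, and_false, true_and, false_and, and_self,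
        add_zero, zero_add]
      exact le_rfl
    · -- 3
      simp only [tb6_3_0, tb6_3_1, tb6_3_2, tb6_3_3, tb6_3_4, tb6_3_5,
        if_true, if_false, Bool.false_eq_true, and_true, and_false, true_and, false_and, and_self,
        add_zero, zero_add]
      linarith only [k3]
    · -- 4
      simp only [tb6_4_0, tb6_4_1, tb6_4_2, tb6_4_3, tb6_4_4, tb6_4_5,
        if_true, if_false, Bool.false_eq_true, and_true, and_false, true_and, false_and, and_self,
        add_zero, zero_add]
      exact le_rfl
    · -- 5
      simp only [tb6_5_0, tb6_5_1, tb6_5_2, tb6_5_3, tb6_5_4, tb6_5_5,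
        if_true, if_false, Bool.false_eq_true, and_true, and_false, true_and, false_and, and_self,
        add_zero, zero_add]
      linarith only [k5]
    · -- 6
      simp only [tb6_6_0, tb6_6_1, tb6_6_2, tb6_6_3, tb6_6_4, tb6_6_5,
        if_true, if_false, Bool.false_eq_true, and_true, and_false, true_and, false_and, and_self,
        add_zero, zero_add]
      linarith only [k6]
    · -- 7
      simp only [tb6_7_0, tb6_7_1, tb6_7_2, tb6_7_3, tb6_7_4, tb6_7_5,
        if_true, if_false, Bool.false_eq_true, and_true, and_false, true_and, false_and, and_self,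
        add_zero, zero_add]
      linarith only [k7]
    · -- 8
      simp only [tb6_8_0, tb6_8_1, tb6_8_2, tb6_8_3, tb6_8_4, tb6_8_5,
        if_true, if_false, Bool.false_eq_true, and_true, and_false, true_and, false_and, and_self,
        add_zero, zero_add]
      exact le_rfl
    · -- 9
      simp only [tb6_9_0, tb6_9_1, tb6_9_2, tb6_9_3, tb6_9_4, tb6_9_5,
        if_true, if_false, Bool.false_eq_true, and_true, and_false, true_and, false_and, and_self,
        add_zero, zero_add]
      linarith only [k9]
    · -- 10
      simp only [tb6_10_0, tb6_10_1, tb6_10_2, tb6_10_3, tb6_10_4, tb6_10_5,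
        if_true, if_false, Bool.false_eq_true, and_true, and_false, true_and, false_and, and_self,
        add_zero, zero_add]
      linarith only [k10]
    · -- 11
      simp only [tb6_11_0, tb6_11_1, tb6_11_2, tb6_11_3, tb6_11_4, tb6_11_5,
        if_true, if_false, Bool.false_eq_true, and_true, and_false, true_and, false_and, and_self,
        add_zero, zero_add]
      linarith only [k11]
    · -- 12
      simp only [tb6_12_0, tb6_12_1, tb6_12_2, tb6_12_3, tb6_12_4, tb6_12_5,
        if_true, if_false, Bool.false_eq_true, and_true, and_false, true_and, false_and, and_self,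
        add_zero, zero_add]
      linarith only [k12]
    · -- 13
      simp only [tb6_13_0, tb6_13_1, tb6_13_2, tb6_13_3, tb6_13_4, tb6_13_5,
        if_true, if_false, Bool.false_eq_true, and_true, and_false, true_and, false_and, and_self,
        add_zero, zero_add]
      linarith only [k13]
    · -- 14
      simp only [tb6_14_0, tb6_14_1, tb6_14_2, tb6_14_3, tb6_14_4, tb6_14_5,
        if_true, if_false, Bool.false_eq_true, and_true, and_false, true_and, false_and, and_self,
        add_zero, zero_add]
      linarith only [k14]
    · -- 15
      simp only [tb6_15_0, tb6_15_1, tb6_15_2, tb6_15_3, tb6_15_4, tb6_15_5,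
        if_true, if_false, Bool.false_eq_true, and_true, and_false, true_and, false_and, and_self,
        add_zero, zero_add]
      linarith only [k15]
    · -- 16
      simp only [tb6_16_0, tb6_16_1, tb6_16_2, tb6_16_3, tb6_16_4, tb6_16_5,
        if_true, if_false, Bool.false_eq_true, and_true, and_false, true_and, false_and, and_self,
        add_zero, zero_add]
      exact le_rfl
    · -- 17
      simp only [tb6_17_0, tb6_17_1, tb6_17_2, tb6_17_3, tb6_17_4, tb6_17_5,
        if_true, if_false, Bool.false_eq_true, and_true, and_false, true_and, false_and, and_self,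
        add_zero, zero_add]
      linarith only [k17]
    · -- 18
      simp only [tb6_18_0, tb6_18_1, tb6_18_2, tb6_18_3, tb6_18_4, tb6_18_5,
        if_true, if_false, Bool.false_eq_true, and_true, and_false, true_and, false_and, and_self,
        add_zero, zero_add]
      linarith only [k18]
    · -- 19
      simp only [tb6_19_0, tb6_19_1, tb6_19_2, tb6_19_3, tb6_19_4, tb6_19_5,
        if_true, if_false, Bool.false_eq_true, and_true, and_false, true_and, false_and, and_self,
        add_zero, zero_add]
      linarith only [k19]
    · -- 20
      simp only [tb6_20_0, tb6_20_1, tb6_20_2, tb6_20_3, tb6_20_4, tb6_20_5,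
        if_true, if_false, Bool.false_eq_true, and_true, and_false, true_and, false_and, and_self,
        add_zero, zero_add]
      linarith only [k20]
    · -- 21
      simp only [tb6_21_0, tb6_21_1, tb6_21_2, tb6_21_3, tb6_21_4, tb6_21_5,
        if_true, if_false, Bool.false_eq_true, and_true, and_false, true_and, false_and, and_self,
        add_zero, zero_add]
      linarith only [k21]
    · -- 22
      simp only [tb6_22_0, tb6_22_1, tb6_22_2, tb6_22_3, tb6_22_4, tb6_22_5,
        if_true, if_false, Bool.false_eq_true, and_true, and_false, true_and, false_and, and_self,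
        add_zero, zero_add]
      linarith only [k22]
    · -- 23
      simp only [tb6_23_0, tb6_23_1, tb6_23_2, tb6_23_3, tb6_23_4, tb6_23_5,
        if_true, if_false, Bool.false_eq_true, and_true, and_false, true_and, false_and, and_self,
        add_zero, zero_add]
      linarith only [k23]
    · -- 24
      simp only [tb6_24_0, tb6_24_1, tb6_24_2, tb6_24_3, tb6_24_4, tb6_24_5,
        if_true, if_false, Bool.false_eq_true, and_true, and_false, true_and, false_and, and_self,
        add_zero, zero_add]
      linarith only [k24]
    · -- 25
      simp only [tb6_25_0, tb6_25_1, tb6_25_2, tb6_25_3, tb6_25_4, tb6_25_5,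
        if_true, if_false, Bool.false_eq_true, and_true, and_false, true_and, false_and, and_self,
        add_zero, zero_add]
      linarith only [k25]
    · -- 26
      simp only [tb6_26_0, tb6_26_1, tb6_26_2, tb6_26_3, tb6_26_4, tb6_26_5,
        if_true, if_false, Bool.false_eq_true, and_true, and_false, true_and, false_and, and_self,
        add_zero, zero_add]
      linarith only [k26]
    · -- 27
      simp only [tb6_27_0, tb6_27_1, tb6_27_2, tb6_27_3, tb6_27_4, tb6_27_5,
        if_true, if_false, Bool.false_eq_true, and_true, and_false, true_and, false_and, and_self,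
        add_zero, zero_add]
      linarith only [k27]
    · -- 28
      simp only [tb6_28_0, tb6_28_1, tb6_28_2, tb6_28_3, tb6_28_4, tb6_28_5,
        if_true, if_false, Bool.false_eq_true, and_true, and_false, true_and, false_and, and_self,
        add_zero, zero_add]
      linarith only [k28]
    · -- 29
      simp only [tb6_29_0, tb6_29_1, tb6_29_2, tb6_29_3, tb6_29_4, tb6_29_5,
        if_true, if_false, Bool.false_eq_true, and_true, and_false, true_and, false_and, and_self,
        add_zero, zero_add]
      linarith only [k29]
    · -- 30
      simp only [tb6_30_0, tb6_30_1, tb6_30_2, tb6_30_3, tb6_30_4, tb6_30_5,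
        if_true, if_false, Bool.false_eq_true, and_true, and_false, true_and, false_and, and_self,
        add_zero, zero_add]
      linarith only [k30]
    · -- 31
      simp only [tb6_31_0, tb6_31_1, tb6_31_2, tb6_31_3, tb6_31_4, tb6_31_5,
        if_true, if_false, Bool.false_eq_true, and_true, and_false, true_and, false_and, and_self,
        add_zero, zero_add]
      linarith only [k31]
    · -- 32
      simp only [tb6_32_0, tb6_32_1, tb6_32_2, tb6_32_3, tb6_32_4, tb6_32_5,
        if_true, if_false, Bool.false_eq_true, and_true, and_false, true_and, false_and, and_self,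
        add_zero, zero_add]
      exact le_rfl
    · -- 33
      simp only [tb6_33_0, tb6_33_1, tb6_33_2, tb6_33_3, tb6_33_4, tb6_33_5,
        if_true, if_false, Bool.false_eq_true, and_true, and_false, true_and, false_and, and_self,
        add_zero, zero_add]
      linarith only [k33]
    · -- 34
      simp only [tb6_34_0, tb6_34_1, tb6_34_2, tb6_34_3, tb6_34_4, tb6_34_5,
        if_true, if_false, Bool.false_eq_true, and_true, and_false, true_and, false_and, and_self,
        add_zero, zero_add]
      linarith only [k34]
    · -- 35
      simp only [tb6_35_0, tb6_35_1, tb6_35_2, tb6_35_3, tb6_35_4, tb6_35_5,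
        if_true, if_false, Bool.false_eq_true, and_true, and_false, true_and, false_and, and_self,
        add_zero, zero_add]
      linarith only [k35]
    · -- 36
      simp only [tb6_36_0, tb6_36_1, tb6_36_2, tb6_36_3, tb6_36_4, tb6_36_5,
        if_true, if_false, Bool.false_eq_true, and_true, and_false, true_and, false_and, and_self,
        add_zero, zero_add]
      linarith only [k36]
    · -- 37
      simp only [tb6_37_0, tb6_37_1, tb6_37_2, tb6_37_3, tb6_37_4, tb6_37_5,
        if_true, if_false, Bool.false_eq_true, and_true, and_false, true_and, false_and, and_self,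
        add_zero, zero_add]
      linarith only [k37]
    · -- 38
      simp only [tb6_38_0, tb6_38_1, tb6_38_2, tb6_38_3, tb6_38_4, tb6_38_5,
        if_true, if_false, Bool.false_eq_true, and_true, and_false, true_and, false_and, and_self,
        add_zero, zero_add]
      linarith only [k38]
    · -- 39
      simp only [tb6_39_0, tb6_39_1, tb6_39_2, tb6_39_3, tb6_39_4, tb6_39_5,
        if_true, if_false, Bool.false_eq_true, and_true, and_false, true_and, false_and, and_self,
        add_zero, zero_add]
      linarith only [k39]
    · -- 40
      simp only [tb6_40_0, tb6_40_1, tb6_40_2, tb6_40_3, tb6_40_4, tb6_40_5,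
        if_true, if_false, Bool.false_eq_true, and_true, and_false, true_and, false_and, and_self,
        add_zero, zero_add]
      linarith only [k40]
    · -- 41
      simp only [tb6_41_0, tb6_41_1, tb6_41_2, tb6_41_3, tb6_41_4, tb6_41_5,
        if_true, if_false, Bool.false_eq_true, and_true, and_false, true_and, false_and, and_self,
        add_zero, zero_add]
      linarith only [k41]
    · -- 42
      simp only [tb6_42_0, tb6_42_1, tb6_42_2, tb6_42_3, tb6_42_4, tb6_42_5,
        if_true, if_false, Bool.false_eq_true, and_true, and_false, true_and, false_and, and_self,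
        add_zero, zero_add]
      linarith only [k42]
    · -- 43
      simp only [tb6_43_0, tb6_43_1, tb6_43_2, tb6_43_3, tb6_43_4, tb6_43_5,
        if_true, if_false, Bool.false_eq_true, and_true, and_false, true_and, false_and, and_self,
        add_zero, zero_add]
      linarith only [k43]
    · -- 44
      simp only [tb6_44_0, tb6_44_1, tb6_44_2, tb6_44_3, tb6_44_4, tb6_44_5,
        if_true, if_false, Bool.false_eq_true, and_true, and_false, true_and, false_and, and_self,
        add_zero, zero_add]
      linarith only [k44]
    · -- 45
      simp only [tb6_45_0, tb6_45_1, tb6_45_2, tb6_45_3, tb6_45_4, tb6_45_5,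
        if_true, if_false, Bool.false_eq_true, and_true, and_false, true_and, false_and, and_self,
        add_zero, zero_add]
      linarith only [k45]
    · -- 46
      simp only [tb6_46_0, tb6_46_1, tb6_46_2, tb6_46_3, tb6_46_4, tb6_46_5,
        if_true, if_false, Bool.false_eq_true, and_true, and_false, true_and, false_and, and_self,
        add_zero, zero_add]
      linarith only [k46]
    · -- 47
      simp only [tb6_47_0, tb6_47_1, tb6_47_2, tb6_47_3, tb6_47_4, tb6_47_5,
        if_true, if_false, Bool.false_eq_true, and_true, and_false, true_and, false_and, and_self,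
        add_zero, zero_add]
      linarith only [k47]
    · -- 48
      simp only [tb6_48_0, tb6_48_1, tb6_48_2, tb6_48_3, tb6_48_4, tb6_48_5,
        if_true, if_false, Bool.false_eq_true, and_true, and_false, true_and, false_and, and_self,
        add_zero, zero_add]
      linarith only [k48]
    · -- 49
      simp only [tb6_49_0, tb6_49_1, tb6_49_2, tb6_49_3, tb6_49_4, tb6_49_5,
        if_true, if_false, Bool.false_eq_true, and_true, and_false, true_and, false_and, and_self,
        add_zero, zero_add]
      linarith only [k49]
    · -- 50
      simp only [tb6_50_0, tb6_50_1, tb6_50_2, tb6_50_3, tb6_50_4, tb6_50_5,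
        if_true, if_false, Bool.false_eq_true, and_true, and_false, true_and, false_and, and_self,
        add_zero, zero_add]
      linarith only [k50]
    · -- 51
      simp only [tb6_51_0, tb6_51_1, tb6_51_2, tb6_51_3, tb6_51_4, tb6_51_5,
        if_true, if_false, Bool.false_eq_true, and_true, and_false, true_and, false_and, and_self,
        add_zero, zero_add]
      linarith only [k51]
    · -- 52
      simp only [tb6_52_0, tb6_52_1, tb6_52_2, tb6_52_3, tb6_52_4, tb6_52_5,
        if_true, if_false, Bool.false_eq_true, and_true, and_false, true_and, false_and, and_self,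
        add_zero, zero_add]
      linarith only [k52]
    · -- 53
      simp only [tb6_53_0, tb6_53_1, tb6_53_2, tb6_53_3, tb6_53_4, tb6_53_5,
        if_true, if_false, Bool.false_eq_true, and_true, and_false, true_and, false_and, and_self,
        add_zero, zero_add]
      linarith only [k53]
    · -- 54
      simp only [tb6_54_0, tb6_54_1, tb6_54_2, tb6_54_3, tb6_54_4, tb6_54_5,
        if_true, if_false, Bool.false_eq_true, and_true, and_false, true_and, false_and, and_self,
        add_zero, zero_add]
      linarith only [k54]
    · -- 55
      simp only [tb6_55_0, tb6_55_1, tb6_55_2, tb6_55_3, tb6_55_4, tb6_55_5,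
        if_true, if_false, Bool.false_eq_true, and_true, and_false, true_and, false_and, and_self,
        add_zero, zero_add]
      linarith only [k55]
    · -- 56
      simp only [tb6_56_0, tb6_56_1, tb6_56_2, tb6_56_3, tb6_56_4, tb6_56_5,
        if_true, if_false, Bool.false_eq_true, and_true, and_false, true_and, false_and, and_self,
        add_zero, zero_add]
      linarith only [k56]
    · -- 57
      simp only [tb6_57_0, tb6_57_1, tb6_57_2, tb6_57_3, tb6_57_4, tb6_57_5,
        if_true, if_false, Bool.false_eq_true, and_true, and_false, true_and, false_and, and_self,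
        add_zero, zero_add]
      linarith only [k57]
    · -- 58
      simp only [tb6_58_0, tb6_58_1, tb6_58_2, tb6_58_3, tb6_58_4, tb6_58_5,
        if_true, if_false, Bool.false_eq_true, and_true, and_false, true_and, false_and, and_self,
        add_zero, zero_add]
      linarith only [k58]
    · -- 59
      simp only [tb6_59_0, tb6_59_1, tb6_59_2, tb6_59_3, tb6_59_4, tb6_59_5,
        if_true, if_false, Bool.false_eq_true, and_true, and_false, true_and, false_and, and_self,
        add_zero, zero_add]
      linarith only [k59]
    · -- 60
      simp only [tb6_60_0, tb6_60_1, tb6_60_2, tb6_60_3, tb6_60_4, tb6_60_5,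
        if_true, if_false, Bool.false_eq_true, and_true, and_false, true_and, false_and, and_self,
        add_zero, zero_add]
      linarith only [k60]
    · -- 61
      simp only [tb6_61_0, tb6_61_1, tb6_61_2, tb6_61_3, tb6_61_4, tb6_61_5,
        if_true, if_false, Bool.false_eq_true, and_true, and_false, true_and, false_and, and_self,
        add_zero, zero_add]
      linarith only [k61]
    · -- 62
      simp only [tb6_62_0, tb6_62_1, tb6_62_2, tb6_62_3, tb6_62_4, tb6_62_5,
        if_true, if_false, Bool.false_eq_true, and_true, and_false, true_and, false_and, and_self,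
        add_zero, zero_add]
      linarith only [k62]
    · -- 63
      simp only [tb6_63_0, tb6_63_1, tb6_63_2, tb6_63_3, tb6_63_4, tb6_63_5,
        if_true, if_false, Bool.false_eq_true, and_true, and_false, true_and, false_and, and_self,
        add_zero, zero_add]
      linarith only [k63]
  · rw [show (univ : Finset (Fin 6)) = tS6 63 by decide, sumS6, sumO6' 63 hw0]
    simp only [Fin.sum_univ_six, s0, s1, s2, s3, s4, s5]
    simp only [tb6_63_0, tb6_63_1, tb6_63_2, tb6_63_3, tb6_63_4, tb6_63_5,
      if_true, if_false, Bool.false_eq_true, and_true, and_false, true_and, false_and, and_self,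
      add_zero, zero_add]
    linarith only [k63]

end Pool.Agent.Q83.FC
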