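import Mathlib
import Pool.Agent.Q83.FC.Base6C
import Pool.Agent.Q83.FC.Base6D

set_option autoImplicit false

/-!
# Weights for F-nef functions on six marks
-/

namespace Pool.Agent.Q83.FC

open Finset

/-- Every F-nef function on six marks has weights. -/
theorem base6 (g : Finset (Fin 6) → ℝ) (g0 : g ∅ = 0) (hF : FN univ g) : HasW univ g := by
  classical
  obtain ⟨⟨σ, t⟩, hq⟩ := Finite.exists_min (fun q : Equiv.Perm (Fin 6) × Bool =>
    if q.2 then Gm1 (fun S => g (S.map q.1.toEmbedding))
      else Gm2 (fun S => g (S.map q.1.toEmbedding)))
  have hmap : ∀ (τ : Equiv.Perm (Fin 6)) (S : Finset (Fin 6)),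
      (S.map τ.toEmbedding).map σ.toEmbedding = S.map (σ * τ).toEmbedding := by
    intro τ S
    rw [map_map]
    rfl
  refine HasW.perm σ ?_
  cases t
  · refine case6B (by simp [g0]) (hF.perm σ) (fun τ => ?_) (fun τ => ?_)
    · have := hq (σ * τ, true) 
      simp only [Bool.false_eq_true, if_false, if_true] at this
      simpa only [hmap] using this
    · have := hq (σ * τ, false) 
      simp only [Bool.false_eq_true, if_false] at this
      simpa only [hmap] using this
  · refine case6A (by simp [g0]) (hF.perm σ) (fun τ => ?_) (fun τ => ?_)
    · have := hq (σ * τ, true) 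
      simp only [if_true] at this
      simpa only [hmap] using this
    · have := hq (σ * τ, false) 
      simp only [Bool.false_eq_true, if_false, if_true] at this
      simpa only [hmap] using this

end Pool.Agent.Q83.FC
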