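import Mathlib
import Pool.Agent.Q83.FC.Core

set_option autoImplicit false

/-!
# Divisors with symmetries on the strata of the moduli space of stable pointed rational curves
-/

namespace Pool.Agent.Q83.FC

open Finset

variable {V : Type} [DecidableEq V]

/-- A function with weights satisfies the inequality for all designs. -/
theorem HasW.design {U : Finset V} {h : Finset V → ℝ} (hw : HasW U h) (m : Finset V → ℝ)
    (hm : ∀ S, 0 ≤ m S) {d : ℝ} (hd0 : 0 ≤ d)
    (hd : ∀ x ∈ U, ∀ y ∈ U, x ≠ y → ∑ S ∈ U.powerset, (if x ∈ S ∧ y ∈ S then m S else 0) = d) :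
    ∑ S ∈ U.powerset, m S * h S ≤
      d * h U + ∑ x ∈ U, h {x} * (∑ S ∈ U.powerset, (if x ∈ S then m S else 0) - d) := by
  obtain ⟨w, hw1, hw2⟩ := hw
  have h1 : ∑ S ∈ U.powerset, m S * h S ≤
      ∑ S ∈ U.powerset, m S * (∑ x ∈ S, h {x} + ∑ z ∈ S.offDiag, w z.1 z.2) :=
    sum_le_sum fun S hS => mul_le_mul_of_nonneg_left (hw1 S (mem_powerset.1 hS)) (hm S)
  have h2 : ∑ S ∈ U.powerset, m S * ∑ x ∈ S, h {x} =
      ∑ x ∈ U, h {x} * ∑ S ∈ U.powerset, (if x ∈ S then m S else 0) := by
    have e1 : ∀ S ∈ U.powerset, m S * ∑ x ∈ S, h {x} =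
        ∑ x ∈ U, (if x ∈ S then m S * h {x} else 0) := by
      intro S hS
      rw [mul_sum, ← sum_filter]
      refine sum_congr ?_ fun _ _ => rfl
      ext x
      rw [mem_filter]
      exact ⟨fun hx => ⟨mem_powerset.1 hS hx, hx⟩, fun hx => hx.2⟩
    rw [sum_congr rfl e1, sum_comm]
    refine sum_congr rfl fun x _ => ?_
    rw [mul_sum]
    refine sum_congr rfl fun S _ => ?_
    split_ifs <;> ring
  have h3 : ∑ S ∈ U.powerset, m S * ∑ z ∈ S.offDiag, w z.1 z.2 =
      ∑ z ∈ U.offDiag, w z.1 z.2 * ∑ S ∈ U.powerset, (if z.1 ∈ S ∧ z.2 ∈ S then m S else 0) := by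
    have e1 : ∀ S ∈ U.powerset, m S * ∑ z ∈ S.offDiag, w z.1 z.2 =
        ∑ z ∈ U.offDiag, (if z.1 ∈ S ∧ z.2 ∈ S then m S * w z.1 z.2 else 0) := by
      intro S hS
      rw [mul_sum, ← sum_filter]
      refine sum_congr ?_ fun _ _ => rfl
      ext z
      rw [mem_filter, mem_offDiag, mem_offDiag]
      constructor
      · rintro ⟨a, b, hab⟩
        exact ⟨⟨mem_powerset.1 hS a, mem_powerset.1 hS b, hab⟩, a, b⟩
      · rintro ⟨⟨_, _, hab⟩, a, b⟩
        exact ⟨a, b, hab⟩
    rw [sum_congr rfl e1, sum_comm]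
    refine sum_congr rfl fun z _ => ?_
    rw [mul_sum]
    refine sum_congr rfl fun S _ => ?_
    split_ifs <;> ring
  have h4 : ∑ z ∈ U.offDiag, w z.1 z.2 * ∑ S ∈ U.powerset,
      (if z.1 ∈ S ∧ z.2 ∈ S then m S else 0) = d * ∑ z ∈ U.offDiag, w z.1 z.2 := by
    rw [mul_sum]
    refine sum_congr rfl fun z hz => ?_
    obtain ⟨hz1, hz2, hz3⟩ := mem_offDiag.1 hz
    rw [hd z.1 hz1 z.2 hz2 hz3, mul_comm]
  simp only [mul_add, sum_add_distrib] at h1
  rw [h2, h3, h4] at h1
  have h5 : ∑ x ∈ U, h {x} * (∑ S ∈ U.powerset, (if x ∈ S then m S else 0) - d) =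
      ∑ x ∈ U, h {x} * ∑ S ∈ U.powerset, (if x ∈ S then m S else 0) - d * ∑ x ∈ U, h {x} := by
    rw [mul_sum, ← sum_sub_distrib]
    exact sum_congr rfl fun x _ => by ring
  rw [h5]
  nlinarith [mul_le_mul_of_nonneg_left hw2 hd0]

/-- Two sets with the same numbers of elements of each colour differ by a permutation that
preserves the colours. -/
theorem exists_perm_col {α γ : Type} [Fintype α] [DecidableEq α] [DecidableEq γ] (col : α → γ)
    {S S' : Finset α} (h : ∀ t, (S.filter fun x => col x = t).card =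
      (S'.filter fun x => col x = t).card) :
    ∃ σ : Equiv.Perm α, (∀ x, col (σ x) = col x) ∧ S.map σ.toEmbedding = S' := by
  have hcard : ∀ p : γ × Prop, Nonempty ({x // (col x, x ∈ S) = p} ≃ {x // (col x, x ∈ S') = p}) := by
    rintro ⟨t, q⟩
    refine Fintype.card_eq.1 ?_
    classical
    rw [Fintype.card_subtype, Fintype.card_subtype]
    by_cases hq : q
    · have e1 : ∀ R : Finset α, (univ.filter fun x => (col x, x ∈ R) = (t, q)) =
          R.filter fun x => col x = t := by
        intro R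
        ext x
        simp only [mem_filter, mem_univ, true_and, Prod.mk.injEq, hq, eq_iff_iff, iff_true]
        tauto
      rw [e1, e1, h t]
    · have e1 : ∀ R : Finset α, (univ.filter fun x => (col x, x ∈ R) = (t, q)).card +
          (R.filter fun x => col x = t).card = (univ.filter fun x => col x = t).card := by
        intro R
        rw [← card_union_of_disjoint]
        · congr 1
          ext x
          simp only [mem_union, mem_filter, mem_univ, true_and, Prod.mk.injEq, hq, eq_iff_iff,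
            iff_false]
          tauto
        · rw [disjoint_left]
          intro x hx hx'
          simp only [mem_filter, mem_univ, true_and, Prod.mk.injEq, hq, eq_iff_iff,
            iff_false] at hx hx'
          exact hx.2 hx'.1
      have h1 := e1 S
      have h2 := e1 S'
      rw [h t] at h1
      omega
  obtain ⟨σ, h1⟩ : ∃ σ : Equiv.Perm α, ∀ x, (col (σ x), σ x ∈ S') = (col x, x ∈ S) :=
    ⟨Equiv.ofFiberEquiv (f := fun x => (col x, x ∈ S)) (g := fun x => (col x, x ∈ S'))
      (fun p => (hcard p).some), fun x => Equiv.ofFiberEquiv_map (f := fun x => (col x, x ∈ S))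
        (g := fun x => (col x, x ∈ S')) (fun p => (hcard p).some) x⟩
  refine ⟨σ, fun x => (Prod.mk.injEq _ _ _ _ ▸ h1 x).1, ?_⟩
  ext x
  rw [mem_map_equiv]
  have h2 := (Prod.mk.injEq _ _ _ _ ▸ h1 (σ.symm x)).2
  rw [Equiv.apply_symm_apply] at h2
  rw [h2]

end Pool.Agent.Q83.FC
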